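import Mathlib

/-!
The Weierstrass embedding of the square torus `ℂ / (ℤ + ℤ i)` in the complex projective plane.
-/

open Topology Filter PeriodPair

namespace Pool.Agent.Helper40

noncomputable section

/-- The period pair `(1, i)`. -/
def sqPair : PeriodPair where
  ω₁ := 1
  ω₂ := Complex.I
  indep := by
    rw [LinearIndependent.pair_iff]
    intro s t h
    have h1 := congrArg Complex.re h
    have h2 := congrArg Complex.im h
    simp at h1 h2
    exact ⟨h1, h2⟩

lemma mem_sqLattice {x : ℂ} : x ∈ sqPair.lattice ↔ ∃ m n : ℤ, (m : ℂ) + n * Complex.I = x := by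
  rw [PeriodPair.mem_lattice]
  simp [sqPair]

/-- Second-order linear uniqueness for holomorphic functions, by orders of vanishing. -/
lemma eventually_zero_of_second_order {u h : ℂ → ℂ} {z : ℂ} (hu : AnalyticAt ℂ u z)
    (hh : AnalyticAt ℂ h z) (h0 : u z = 0) (h1 : deriv u z = 0)
    (h2 : deriv (deriv u) =ᶠ[𝓝 z] fun w => h w * u w) : ∀ᶠ w in 𝓝 z, u w = 0 := by
  by_contra hne
  have hfin : analyticOrderAt u z ≠ ⊤ := by rwa [Ne, analyticOrderAt_eq_top]
  have e1 := hu.analyticOrderAt_deriv_add_one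
  have e2 := hu.deriv.analyticOrderAt_deriv_add_one
  simp only [h0, sub_zero] at e1
  simp only [h1, sub_zero] at e2
  have e3 : analyticOrderAt (deriv (deriv u)) z = analyticOrderAt h z + analyticOrderAt u z := by
    rw [analyticOrderAt_congr h2]
    exact analyticOrderAt_mul hh hu
  rw [e3] at e2
  rw [← e2] at e1
  have hle : analyticOrderAt u z + 1 ≤ analyticOrderAt u z := by
    calc analyticOrderAt u z + 1 ≤ (analyticOrderAt h z + analyticOrderAt u z) + 1 := by
          gcongr; exact le_add_self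
      _ ≤ analyticOrderAt h z + analyticOrderAt u z + 1 + 1 := le_self_add
      _ = analyticOrderAt u z := e1
  exact (ENat.add_one_le_iff hfin).1 hle |>.false

variable (L : PeriodPair)

lemma isOpen_compl_lattice : IsOpen (L.lattice : Set ℂ)ᶜ := L.isClosed_lattice.isOpen_compl

lemma countable_lattice : (L.lattice : Set ℂ).Countable :=
  countable_of_Lindelof_of_discrete (X := L.lattice)

lemma isPreconnected_compl_of_countable {s : Set ℂ} (hs : s.Countable) : IsPreconnected sᶜ :=
  (Set.Countable.isConnected_compl_of_one_lt_rank (by simp) hs).2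

lemma eventually_notMem_lattice (x : ℂ) : ∀ᶠ w in 𝓝[≠] x, w ∉ L.lattice := by
  filter_upwards [self_mem_nhdsWithin, mem_nhdsWithin_of_mem_nhds
    (L.compl_lattice_sdiff_singleton_mem_nhds x)] with w hw hw'
  simp_all

lemma meromorphicOrderAt_derivWeierstrassP (l : ℂ) (hl : l ∈ L.lattice) :
    meromorphicOrderAt ℘'[L] l ≠ ⊤ := by
  have h := meromorphicOrderAt_deriv_eq_sub_one (f := ℘[L]) (x := l) (n := -2) (by simp)
    (by simpa using L.order_weierstrassP l hl)
  rw [L.deriv_weierstrassP] at h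
  rw [h]
  simp

/-- There is a point off the lattice where `℘'` does not vanish. -/
lemma exists_derivWeierstrassP_ne_zero : ∃ z : ℂ, z ∉ L.lattice ∧ ℘'[L] z ≠ 0 := by
  by_contra! hcon
  refine meromorphicOrderAt_derivWeierstrassP L 0 (zero_mem _) ?_
  rw [meromorphicOrderAt_eq_top_iff]
  filter_upwards [eventually_notMem_lattice L 0] with w hw using hcon w hw

/-- If `℘'` vanishes near a point off the lattice, contradiction. -/
lemma not_eventually_derivWeierstrassP_eq_zero {z : ℂ} (hz : z ∉ L.lattice)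
    (h : ∀ᶠ w in 𝓝 z, ℘'[L] w = 0) : False := by
  obtain ⟨z₀, hz₀, hne⟩ := exists_derivWeierstrassP_ne_zero L
  exact hne (L.analyticOnNhd_derivWeierstrassP.eqOn_zero_of_preconnected_of_eventuallyEq_zero
    (isPreconnected_compl_of_countable (countable_lattice L)) hz h hz₀)

lemma hasDerivAt_weierstrassP {z : ℂ} (hz : z ∉ L.lattice) :
    HasDerivAt ℘[L] (℘'[L] z) z := by
  have := (L.analyticOnNhd_weierstrassP z hz).differentiableAt.hasDerivAt
  rwa [L.deriv_weierstrassP] at this

/-- The second-order equation `℘'' = 6 ℘² - g₂ / 2`. -/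
lemma deriv_derivWeierstrassP {z : ℂ} (hz : z ∉ L.lattice) :
    deriv ℘'[L] z = 6 * ℘[L] z ^ 2 - L.g₂ / 2 := by
  obtain ⟨z₀, hz₀, hne⟩ := exists_derivWeierstrassP_ne_zero L
  have han : AnalyticOnNhd ℂ (fun w => deriv ℘'[L] w - (6 * ℘[L] w ^ 2 - L.g₂ / 2))
      (L.lattice : Set ℂ)ᶜ := by
    intro w hw
    have h1 := (L.analyticOnNhd_derivWeierstrassP w hw).deriv
    have h2 := L.analyticOnNhd_weierstrassP w hw
    fun_prop
  have hev : ∀ᶠ w in 𝓝 z₀, deriv ℘'[L] w - (6 * ℘[L] w ^ 2 - L.g₂ / 2) = 0 := by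
    filter_upwards [(isOpen_compl_lattice L).mem_nhds hz₀,
      (L.analyticOnNhd_derivWeierstrassP z₀ hz₀).continuousAt.eventually_ne hne] with w hw hw'
    have hd := hasDerivAt_weierstrassP L hw
    have hd' := (L.analyticOnNhd_derivWeierstrassP w hw).differentiableAt.hasDerivAt
    have hl : HasDerivAt (fun y => ℘'[L] y ^ 2) (2 * ℘'[L] w * deriv ℘'[L] w) w := by
      simpa using hd'.fun_pow 2
    have hr : HasDerivAt (fun y => 4 * ℘[L] y ^ 3 - L.g₂ * ℘[L] y - L.g₃)
        (4 * (3 * ℘[L] w ^ 2 * ℘'[L] w) - L.g₂ * ℘'[L] w) w := by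
      have := (((hd.fun_pow 3).const_mul 4).sub (hd.const_mul L.g₂)).sub_const L.g₃
      simpa using this
    have hEq : (fun y => ℘'[L] y ^ 2) =ᶠ[𝓝 w]
        (fun y => 4 * ℘[L] y ^ 3 - L.g₂ * ℘[L] y - L.g₃) := by
      filter_upwards [(isOpen_compl_lattice L).mem_nhds hw] with y hy
      exact L.derivWeierstrassP_sq y hy
    have huniq := (hr.congr_of_eventuallyEq hEq).unique hl
    have : 2 * ℘'[L] w * (deriv ℘'[L] w - (6 * ℘[L] w ^ 2 - L.g₂ / 2)) = 0 := by
      linear_combination -huniq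
    rcases mul_eq_zero.1 this with h | h
    · exact absurd h (mul_ne_zero two_ne_zero hw')
    · exact h
  have := han.eqOn_zero_of_preconnected_of_eventuallyEq_zero
    (isPreconnected_compl_of_countable (countable_lattice L)) hz₀ hev hz
  exact sub_eq_zero.1 this

/-- Immersion off the lattice: `℘'` and `℘''` have no common zero. -/
lemma immersion_off {z : ℂ} (hz : z ∉ L.lattice) (h1 : ℘'[L] z = 0)
    (h2 : deriv ℘'[L] z = 0) : False := by
  have hP := L.analyticOnNhd_weierstrassP z hz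
  have hu : AnalyticAt ℂ (fun w => ℘[L] w - ℘[L] z) z := by fun_prop
  have hh : AnalyticAt ℂ (fun w => 6 * (℘[L] w + ℘[L] z)) z := by fun_prop
  have hd : deriv (fun w => ℘[L] w - ℘[L] z) = ℘'[L] := by
    ext w
    rw [deriv_sub_const, L.deriv_weierstrassP]
  have hc := deriv_derivWeierstrassP L hz
  rw [h2] at hc
  have := eventually_zero_of_second_order hu hh (sub_self _) (by rw [hd]; exact h1) (by
    rw [hd]
    filter_upwards [(isOpen_compl_lattice L).mem_nhds hz] with w hw
    rw [deriv_derivWeierstrassP L hw]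
    linear_combination -hc)
  refine not_eventually_derivWeierstrassP_eq_zero L hz ?_
  have h3 : (fun w => ℘[L] w) =ᶠ[𝓝 z] fun _ => ℘[L] z := by
    filter_upwards [this] with w hw using sub_eq_zero.1 hw
  have h4 := h3.deriv
  filter_upwards [h4] with w hw
  rw [← L.deriv_weierstrassP]
  simpa using hw

/-- Injectivity modulo the lattice. -/
lemma sub_mem_lattice {a b : ℂ} (ha : a ∉ L.lattice) (hb : b ∉ L.lattice)
    (h0 : ℘[L] a = ℘[L] b) (h1 : ℘'[L] a = ℘'[L] b) : a - b ∈ L.lattice := by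
  by_contra hc
  set c := a - b with hcdef
  have hba : b + c = a := by rw [hcdef]; ring
  -- the translate
  let s : Set ℂ := (L.lattice : Set ℂ) ∪ (fun z => z + c) ⁻¹' (L.lattice : Set ℂ)
  have hs : s.Countable := by
    refine (countable_lattice L).union ?_
    exact (countable_lattice L).preimage (add_left_injective c)
  have hmemc : ∀ z, z ∈ sᶜ ↔ z ∉ L.lattice ∧ z + c ∉ L.lattice := by
    intro z
    simp [s]
  have hshift : ∀ z, z + c ∉ L.lattice → AnalyticAt ℂ (fun w => ℘[L] (w + c)) z := by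
    intro z hz
    exact (L.analyticOnNhd_weierstrassP (z + c) hz).fun_comp (f := fun w => w + c) (by fun_prop)
  have han : AnalyticOnNhd ℂ (fun z => ℘[L] (z + c) - ℘[L] z) sᶜ := by
    intro z hz
    rw [hmemc] at hz
    exact (hshift z hz.2).sub (L.analyticOnNhd_weierstrassP z hz.1)
  have hbs : b ∈ sᶜ := by
    rw [hmemc]
    exact ⟨hb, by rw [hba]; exact ha⟩
  have hopen : ∀ᶠ w in 𝓝 b, w ∉ L.lattice ∧ w + c ∉ L.lattice := by
    have e1 := (isOpen_compl_lattice L).mem_nhds hb
    have e2 : ∀ᶠ w in 𝓝 b, w + c ∈ (L.lattice : Set ℂ)ᶜ := by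
      have : ContinuousAt (fun w : ℂ => w + c) b := by fun_prop
      exact this.eventually ((isOpen_compl_lattice L).mem_nhds (by
        show b + c ∉ L.lattice
        rw [hba]; exact ha))
    filter_upwards [e1, e2] with w h1 h2 using ⟨h1, h2⟩
  have hderiv1 : ∀ w, deriv (fun z => ℘[L] (z + c)) w = ℘'[L] (w + c) := by
    intro w
    rw [deriv_comp_add_const, L.deriv_weierstrassP]
  have hd1 : ∀ᶠ w in 𝓝 b, deriv (fun z => ℘[L] (z + c) - ℘[L] z) w =
      ℘'[L] (w + c) - ℘'[L] w := by
    filter_upwards [hopen] with w hw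
    rw [deriv_fun_sub (hshift w hw.2).differentiableAt
      (L.analyticOnNhd_weierstrassP w hw.1).differentiableAt, hderiv1, L.deriv_weierstrassP]
  have hd2 : deriv (deriv (fun z => ℘[L] (z + c) - ℘[L] z)) =ᶠ[𝓝 b]
      fun w => (6 * (℘[L] (w + c) + ℘[L] w)) * (℘[L] (w + c) - ℘[L] w) := by
    have h3 : deriv (fun z => ℘[L] (z + c) - ℘[L] z) =ᶠ[𝓝 b]
      fun w => ℘'[L] (w + c) - ℘'[L] w := hd1
    have h4 := h3.deriv
    filter_upwards [h4, hopen] with w hw hw'
    rw [hw]
    have e1 : DifferentiableAt ℂ (fun w => ℘'[L] (w + c)) w :=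
      ((L.analyticOnNhd_derivWeierstrassP (w + c) hw'.2).fun_comp (f := fun w => w + c)
        (by fun_prop)).differentiableAt
    rw [deriv_fun_sub e1 (L.analyticOnNhd_derivWeierstrassP w hw'.1).differentiableAt,
      deriv_comp_add_const, deriv_derivWeierstrassP L hw'.1, deriv_derivWeierstrassP L hw'.2]
    ring
  have hev := eventually_zero_of_second_order (han b hbs)
    (h := fun w => 6 * (℘[L] (w + c) + ℘[L] w)) (z := b)
    (by
      have e1 := hshift b (by rw [hba]; exact ha)
      have e2 := L.analyticOnNhd_weierstrassP b hb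
      fun_prop)
    (by
      show ℘[L] (b + c) - ℘[L] b = 0
      rw [hba, h0, sub_self])
    (by
      rw [hd1.self_of_nhds, hba, h1, sub_self]) hd2
  have hall := han.eqOn_zero_of_preconnected_of_eventuallyEq_zero
    (isPreconnected_compl_of_countable hs) hbs hev
  -- near `0`
  have h0c : (0 : ℂ) + c ∉ L.lattice := by simpa using hc
  have hnear : ∀ᶠ w in 𝓝[≠] (0 : ℂ), ℘[L] w = ℘[L] (w + c) := by
    have e2 : ∀ᶠ w in 𝓝 (0 : ℂ), w + c ∈ (L.lattice : Set ℂ)ᶜ := by
      have : ContinuousAt (fun w : ℂ => w + c) 0 := by fun_prop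
      exact this.eventually ((isOpen_compl_lattice L).mem_nhds h0c)
    filter_upwards [eventually_notMem_lattice L 0, mem_nhdsWithin_of_mem_nhds e2] with w hw hw'
    have := hall ((hmemc w).2 ⟨hw, hw'⟩)
    exact (sub_eq_zero.1 this).symm
  have horder := meromorphicOrderAt_congr hnear
  rw [L.order_weierstrassP 0 (zero_mem _)] at horder
  have hnonneg := (hshift 0 h0c).meromorphicOrderAt_nonneg
  rw [← horder] at hnonneg
  exact absurd hnonneg (by decide)

/-- The homogeneous lift off the lattice. -/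
def liftOff (z : ℂ) : Fin 3 → ℂ := ![1, ℘[L] z, ℘'[L] z]

/-- The homogeneous lift near a lattice point. -/
def liftNear (z : ℂ) : Fin 3 → ℂ := ![1 / ℘'[L] z, ℘[L] z / ℘'[L] z, 1]

lemma liftOff_ne_zero (z : ℂ) : liftOff L z ≠ 0 := by
  intro h
  have := congrFun h 0
  simp [liftOff] at this

lemma liftNear_ne_zero (z : ℂ) : liftNear L z ≠ 0 := by
  intro h
  have := congrFun h 2
  simp [liftNear] at this

open Classical in
/-- The Weierstrass map `ℂ → ℙ²`. -/
def wmap (z : ℂ) : Projectivization ℂ (Fin 3 → ℂ) :=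
  if z ∈ L.lattice then Projectivization.mk ℂ (liftNear L z) (liftNear_ne_zero L z)
  else Projectivization.mk ℂ (liftOff L z) (liftOff_ne_zero L z)

lemma wmap_of_mem {z : ℂ} (hz : z ∈ L.lattice) :
    wmap L z = Projectivization.mk ℂ (liftNear L z) (liftNear_ne_zero L z) := by
  rw [wmap, if_pos hz]

lemma wmap_of_notMem {z : ℂ} (hz : z ∉ L.lattice) :
    wmap L z = Projectivization.mk ℂ (liftOff L z) (liftOff_ne_zero L z) := by
  rw [wmap, if_neg hz]

lemma wmap_of_ne {z : ℂ} (hz : z ∉ L.lattice) (hne : ℘'[L] z ≠ 0) :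
    wmap L z = Projectivization.mk ℂ (liftNear L z) (liftNear_ne_zero L z) := by
  rw [wmap_of_notMem L hz, Projectivization.mk_eq_mk_iff']
  refine ⟨℘'[L] z, ?_⟩
  ext i
  fin_cases i
  · simp [liftOff, liftNear, hne]
  · simp [liftOff, liftNear]
    field_simp
  · simp [liftOff, liftNear]

lemma liftNear_of_mem {z : ℂ} (hz : z ∈ L.lattice) : liftNear L z = ![0, 0, 1] := by
  have h1 : ℘'[L] z = 0 := L.derivWeierstrassP_coe ⟨z, hz⟩
  simp [liftNear, h1]

lemma wmap_periodic (z : ℂ) {l : ℂ} (hl : l ∈ L.lattice) : wmap L (z + l) = wmap L z := by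
  have hP : ℘[L] (z + l) = ℘[L] z := L.weierstrassP_add_coe z ⟨l, hl⟩
  have hP' : ℘'[L] (z + l) = ℘'[L] z := L.derivWeierstrassP_add_coe z ⟨l, hl⟩
  by_cases hz : z ∈ L.lattice
  · rw [wmap_of_mem L hz, wmap_of_mem L (add_mem hz hl)]
    congr 1
    simp [liftNear, hP, hP']
  · have hzl : z + l ∉ L.lattice := fun h => hz (by simpa using sub_mem h hl)
    rw [wmap_of_notMem L hz, wmap_of_notMem L hzl]
    congr 1
    simp [liftOff, hP, hP']

lemma wmap_injective_mod {a b : ℂ} (h : wmap L a = wmap L b) : a - b ∈ L.lattice := by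
  by_cases ha : a ∈ L.lattice
  · by_cases hb : b ∈ L.lattice
    · exact sub_mem ha hb
    · exfalso
      rw [wmap_of_mem L ha, wmap_of_notMem L hb, Projectivization.mk_eq_mk_iff'] at h
      obtain ⟨c, hc⟩ := h
      rw [liftNear_of_mem L ha] at hc
      have h0 := congrFun hc 0
      have h2 := congrFun hc 2
      simp [liftOff] at h0 h2
      simp [h0] at h2
  · by_cases hb : b ∈ L.lattice
    · exfalso
      rw [wmap_of_notMem L ha, wmap_of_mem L hb, Projectivization.mk_eq_mk_iff'] at h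
      obtain ⟨c, hc⟩ := h
      rw [liftNear_of_mem L hb] at hc
      have h0 := congrFun hc 0
      simp [liftOff] at h0
    · rw [wmap_of_notMem L ha, wmap_of_notMem L hb, Projectivization.mk_eq_mk_iff'] at h
      obtain ⟨c, hc⟩ := h
      have h0 := congrFun hc 0
      have h1 := congrFun hc 1
      have h2 := congrFun hc 2
      simp [liftOff] at h0 h1 h2
      subst h0
      rw [one_mul] at h1 h2
      exact sub_mem_lattice L ha hb h1.symm h2.symm

/-- `(z - l)³ ℘'(z)`, corrected at `l`. -/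
def qfun (l z : ℂ) : ℂ := (z - l) ^ 3 * ℘'[L - l] z - 2

/-- `(z - l)² ℘(z)`, corrected at `l`. -/
def pfun (l z : ℂ) : ℂ := (z - l) ^ 2 * ℘[L - l] z + 1 - (z - l) ^ 2 * (1 / l ^ 2)

lemma qfun_eq {l z : ℂ} (hl : l ∈ L.lattice) (hz : z ≠ l) :
    qfun L l z = (z - l) ^ 3 * ℘'[L] z := by
  have h := L.derivWeierstrassPExcept_def ⟨l, hl⟩ z
  simp only at h
  have hzl : z - l ≠ 0 := sub_ne_zero.2 hz
  rw [qfun, h]
  field_simp
  ring

lemma pfun_eq {l z : ℂ} (hl : l ∈ L.lattice) (hz : z ≠ l) :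
    pfun L l z = (z - l) ^ 2 * ℘[L] z := by
  have h := L.weierstrassPExcept_def ⟨l, hl⟩ z
  simp only at h
  have hzl : z - l ≠ 0 := sub_ne_zero.2 hz
  rw [pfun, h]
  have : (z - l) ^ 2 * (1 / (z - l) ^ 2) = 1 := by field_simp
  linear_combination -this

lemma differentiableOn_qfun (l : ℂ) :
    DifferentiableOn ℂ (qfun L l) ((L.lattice : Set ℂ) \ {l})ᶜ := by
  have := L.differentiableOn_derivWeierstrassPExcept l
  unfold qfun
  fun_prop

lemma differentiableOn_pfun (l : ℂ) :
    DifferentiableOn ℂ (pfun L l) ((L.lattice : Set ℂ) \ {l})ᶜ := by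
  have := L.differentiableOn_weierstrassPExcept l
  unfold pfun
  fun_prop

/-- The neighbourhood of `l` on which the near lift is good. -/
def goodNhd (l : ℂ) : Set ℂ := ((L.lattice : Set ℂ) \ {l})ᶜ ∩ (qfun L l) ⁻¹' {0}ᶜ

lemma isOpen_goodNhd (l : ℂ) : IsOpen (goodNhd L l) :=
  (differentiableOn_qfun L l).continuousOn.isOpen_inter_preimage
    L.isOpen_compl_lattice_sdiff isOpen_compl_singleton

lemma mem_goodNhd (l : ℂ) : l ∈ goodNhd L l := by
  refine ⟨by simp, ?_⟩
  simp [qfun]

lemma liftNear_eq {l z : ℂ} (hl : l ∈ L.lattice) (hz : z ∈ goodNhd L l) :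
    liftNear L z = ![(z - l) ^ 3 / qfun L l z, (z - l) * pfun L l z / qfun L l z, 1] := by
  by_cases hzl : z = l
  · subst hzl
    rw [liftNear_of_mem L hl]
    simp
  · have hzl' : z - l ≠ 0 := sub_ne_zero.2 hzl
    have hq : qfun L l z ≠ 0 := hz.2
    rw [qfun_eq L hl hzl] at hq ⊢
    rw [pfun_eq L hl hzl]
    have hP' : ℘'[L] z ≠ 0 := right_ne_zero_of_mul hq
    rw [liftNear]
    congr 1
    · field_simp
    · congr 1
      field_simp

lemma differentiableOn_liftNear {l : ℂ} (hl : l ∈ L.lattice) :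
    DifferentiableOn ℂ (liftNear L) (goodNhd L l) := by
  have hq : DifferentiableOn ℂ (qfun L l) (goodNhd L l) :=
    (differentiableOn_qfun L l).mono Set.inter_subset_left
  have hp : DifferentiableOn ℂ (pfun L l) (goodNhd L l) :=
    (differentiableOn_pfun L l).mono Set.inter_subset_left
  have hne : ∀ z ∈ goodNhd L l, qfun L l z ≠ 0 := fun z hz => hz.2
  refine DifferentiableOn.congr (f := fun z =>
    ![(z - l) ^ 3 / qfun L l z, (z - l) * pfun L l z / qfun L l z, 1]) ?_
    (fun z hz => liftNear_eq L hl hz)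
  rw [differentiableOn_pi]
  intro i
  fin_cases i
  · show DifferentiableOn ℂ (fun z => (z - l) ^ 3 / qfun L l z) (goodNhd L l)
    exact DifferentiableOn.fun_div (by fun_prop) hq hne
  · show DifferentiableOn ℂ (fun z => (z - l) * pfun L l z / qfun L l z) (goodNhd L l)
    exact DifferentiableOn.fun_div (by fun_prop) hq hne
  · show DifferentiableOn ℂ (fun _ => (1 : ℂ)) (goodNhd L l)
    fun_prop

lemma deriv_liftNear_one {l : ℂ} (hl : l ∈ L.lattice) : deriv (liftNear L) l 1 = -1 / 2 := by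
  have hU : goodNhd L l ∈ 𝓝 l := (isOpen_goodNhd L l).mem_nhds (mem_goodNhd L l)
  have hd : DifferentiableAt ℂ (liftNear L) l :=
    (differentiableOn_liftNear L hl).differentiableAt hU
  have h1 : HasDerivAt (fun z => liftNear L z 1) (deriv (liftNear L) l 1) l :=
    (hasDerivAt_pi.1 hd.hasDerivAt) 1
  have hpq : DifferentiableAt ℂ (fun z => pfun L l z / qfun L l z) l := by
    refine DifferentiableAt.fun_div
      ((differentiableOn_pfun L l).differentiableAt (L.compl_lattice_sdiff_singleton_mem_nhds l))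
      ((differentiableOn_qfun L l).differentiableAt (L.compl_lattice_sdiff_singleton_mem_nhds l))
      (mem_goodNhd L l).2
  have h2 : HasDerivAt (fun z => (z - l) * (pfun L l z / qfun L l z))
      (1 * (pfun L l l / qfun L l l) + (l - l) * deriv (fun z => pfun L l z / qfun L l z) l) l :=
    ((hasDerivAt_id l).sub_const l).mul hpq.hasDerivAt
  have h3 : (fun z => liftNear L z 1) =ᶠ[𝓝 l] fun z => (z - l) * (pfun L l z / qfun L l z) := by
    filter_upwards [hU] with z hz
    rw [liftNear_eq L hl hz]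
    show (z - l) * pfun L l z / qfun L l z = _
    rw [mul_div_assoc]
  have h4 := h1.unique (h2.congr_of_eventuallyEq h3)
  rw [h4]
  simp [pfun, qfun]
  norm_num

lemma differentiableOn_liftOff : DifferentiableOn ℂ (liftOff L) (L.lattice : Set ℂ)ᶜ := by
  have h1 := L.differentiableOn_weierstrassP
  have h2 := L.differentiableOn_derivWeierstrassP
  rw [differentiableOn_pi]
  intro i
  fin_cases i
  · show DifferentiableOn ℂ (fun _ => (1 : ℂ)) _
    fun_prop
  · exact h1
  · exact h2

lemma deriv_liftOff {z : ℂ} (hz : z ∉ L.lattice) :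
    deriv (liftOff L) z 0 = 0 ∧ deriv (liftOff L) z 1 = ℘'[L] z ∧
      deriv (liftOff L) z 2 = deriv ℘'[L] z := by
  have hd : DifferentiableAt ℂ (liftOff L) z :=
    (differentiableOn_liftOff L).differentiableAt ((isOpen_compl_lattice L).mem_nhds hz)
  have h := hasDerivAt_pi.1 hd.hasDerivAt
  refine ⟨?_, ?_, ?_⟩
  · exact (h 0).unique (hasDerivAt_const z (1 : ℂ))
  · exact (h 1).unique (hasDerivAt_weierstrassP L hz)
  · exact (h 2).unique (L.analyticOnNhd_derivWeierstrassP z hz).differentiableAt.hasDerivAt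

theorem exists_torusEmbedding : ∃ ψ : ℂ → Projectivization ℂ (Fin 3 → ℂ),
    (∀ t : ℂ, ∃ U : Set ℂ, IsOpen U ∧ t ∈ U ∧ ∃ F : ℂ → Fin 3 → ℂ, DifferentiableOn ℂ F U ∧
      (∀ s ∈ U, ∃ h : F s ≠ 0, ψ s = Projectivization.mk ℂ (F s) h) ∧
      ∀ c : ℂ, deriv F t ≠ c • F t) ∧
    (∀ t : ℂ, ∀ m n : ℤ, ψ (t + (m + n * Complex.I)) = ψ t) ∧
    (∀ t s : ℂ, ψ t = ψ s → ∃ m n : ℤ, t - s = m + n * Complex.I) := by
  refine ⟨wmap sqPair, ?_, ?_, ?_⟩
  · intro t
    by_cases ht : t ∈ sqPair.lattice
    · refine ⟨goodNhd sqPair t, isOpen_goodNhd sqPair t, mem_goodNhd sqPair t,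
        liftNear sqPair, differentiableOn_liftNear sqPair ht, ?_, ?_⟩
      · intro s hs
        refine ⟨liftNear_ne_zero sqPair s, ?_⟩
        by_cases hst : s = t
        · subst hst
          exact wmap_of_mem sqPair ht
        · have hsn : s ∉ sqPair.lattice := fun h => hs.1 ⟨h, hst⟩
          have hq : qfun sqPair t s ≠ 0 := hs.2
          rw [qfun_eq sqPair ht hst] at hq
          exact wmap_of_ne sqPair hsn (right_ne_zero_of_mul hq)
      · intro c hc
        have h1 := congrFun hc 1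
        rw [deriv_liftNear_one sqPair ht, liftNear_of_mem sqPair ht] at h1
        simp at h1
    · refine ⟨(sqPair.lattice : Set ℂ)ᶜ, isOpen_compl_lattice sqPair, ht,
        liftOff sqPair, differentiableOn_liftOff sqPair, ?_, ?_⟩
      · intro s hs
        exact ⟨liftOff_ne_zero sqPair s, wmap_of_notMem sqPair hs⟩
      · intro c hc
        obtain ⟨h0, h1, h2⟩ := deriv_liftOff sqPair ht
        have e0 := congrFun hc 0
        have e1 := congrFun hc 1
        have e2 := congrFun hc 2
        rw [h0] at e0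
        rw [h1] at e1
        rw [h2] at e2
        simp [liftOff] at e0 e1 e2
        subst e0
        rw [zero_mul] at e1 e2
        exact immersion_off sqPair ht e1 e2
  · intro t m n
    exact wmap_periodic sqPair t (mem_sqLattice.2 ⟨m, n, rfl⟩)
  · intro t s h
    obtain ⟨m, n, hmn⟩ := mem_sqLattice.1 (wmap_injective_mod sqPair h)
    exact ⟨m, n, hmn.symm⟩

end

end Pool.Agent.Helper40
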