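import Mathlib

/-!
Definitions for the problem on universal covers of compact algebraic manifolds as domains.
-/

open Set Topology
open scoped Manifold ContDiff

namespace Pool.Agent.Helper40

/-- `M`, modelled on the finite dimensional complex vector space `E`, is a complex manifold:
Hausdorff, second countable, with holomorphic changes of charts. -/
structure IsComplexManifold (E : Type*) [NormedAddCommGroup E] [NormedSpace ℂ E]
    (M : Type*) [TopologicalSpace M] [ChartedSpace E M] : Prop where
  finiteDimensional : FiniteDimensional ℂ E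
  t2Space : T2Space M
  secondCountable : SecondCountableTopology M
  isManifold : IsManifold 𝓘(ℂ, E) ω M

section Projective

variable (E : Type*) [NormedAddCommGroup E] [NormedSpace ℂ E]
  {M : Type*} [TopologicalSpace M] [ChartedSpace E M]
  {V : Type*} [NormedAddCommGroup V] [NormedSpace ℂ V]

/-- On the set `U`, the map `φ` to the projective space of `V` is the class of the holomorphic
nowhere zero vector valued map `F`. -/
def IsHolomorphicLiftOn (φ : M → Projectivization ℂ V) (F : M → V) (U : Set M) : Prop :=
  ContMDiffOn 𝓘(ℂ, E) 𝓘(ℂ, V) ω F U ∧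
    ∀ y ∈ U, ∃ h : F y ≠ 0, φ y = Projectivization.mk ℂ (F y) h

/-- At the point `x`, the class of `F` in the projective space of `V` is an immersion: in the chart
at `x`, only the zero vector is sent by the derivative of `F` to a multiple of `F x`. -/
def IsImmersiveLiftAt (F : M → V) (x : M) : Prop :=
  ∀ v : E, (∃ c : ℂ, fderiv ℂ (fun z => F ((chartAt E x).symm z)) (chartAt E x x) v = c • F x) →
    v = 0

/-- A holomorphic embedding of `M` in the projective space of `V`: an injective map which near
every point is the class of a holomorphic nowhere zero vector valued map `F`, and which is an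
immersion. (For compact `M` it is a closed embedding, and by the theorem of Chow its image is a
smooth projective variety.) -/
def IsProjectiveEmbedding (φ : M → Projectivization ℂ V) : Prop :=
  Function.Injective φ ∧
    ∀ x : M, ∃ U : Set M, IsOpen U ∧ x ∈ U ∧
      ∃ F : M → V, IsHolomorphicLiftOn E φ F U ∧ IsImmersiveLiftAt E F x

end Projective

/-- A compact algebraic manifold: a connected compact complex manifold which embeds
holomorphically in a complex projective space. -/
structure IsCompactAlgebraicManifold (E : Type*) [NormedAddCommGroup E] [NormedSpace ℂ E]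
    (M : Type*) [TopologicalSpace M] [ChartedSpace E M] : Prop where
  complexManifold : IsComplexManifold E M
  compact : CompactSpace M
  connected : ConnectedSpace M
  projective : ∃ (r : ℕ) (φ : M → Projectivization ℂ (Fin (r + 1) → ℂ)),
    IsProjectiveEmbedding E φ

/-- `π : X → M` is a universal covering of complex manifolds: a covering map with simply
connected total space which is a local biholomorphism. -/
structure IsUniversalCovering {E : Type*} [NormedAddCommGroup E] [NormedSpace ℂ E]
    {X M : Type*} [TopologicalSpace X] [ChartedSpace E X] [TopologicalSpace M]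
    [ChartedSpace E M] (π : X → M) : Prop where
  complexManifold : IsComplexManifold E X
  simplyConnected : SimplyConnectedSpace X
  covering : IsCoveringMap π
  surjective : Function.Surjective π
  localBiholomorphic : IsLocalDiffeomorph 𝓘(ℂ, E) 𝓘(ℂ, E) ω π

section Analytic

variable {E H : Type*} [NormedAddCommGroup E] [NormedSpace ℂ E] [TopologicalSpace H]
  {X : Type*} [TopologicalSpace X] [ChartedSpace H X]

/-- Analytic subsets: locally, near every point of `X`, common zero sets of finitely many
holomorphic functions (hence closed). -/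
def IsAnalyticSet (I : ModelWithCorners ℂ E H) (S : Set X) : Prop :=
  ∀ x : X, ∃ U : Set X, IsOpen U ∧ x ∈ U ∧ ∃ (m : ℕ) (f : X → Fin m → ℂ),
    ContMDiffOn I 𝓘(ℂ, Fin m → ℂ) ω f U ∧ S ∩ U = {y ∈ U | f y = 0}

/-- Irreducible analytic subsets: nonempty and not the union of two proper analytic subsets. -/
def IsIrreducibleAnalyticSet (I : ModelWithCorners ℂ E H) (S : Set X) : Prop :=
  IsAnalyticSet I S ∧ S.Nonempty ∧
    ∀ S₁ S₂ : Set X, IsAnalyticSet I S₁ → IsAnalyticSet I S₂ → S = S₁ ∪ S₂ → S = S₁ ∨ S = S₂

end Analytic

section Bimeromorphic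

variable {E : Type*} [NormedAddCommGroup E] [NormedSpace ℂ E]
  {X : Type*} [TopologicalSpace X] [ChartedSpace E X]
  {E' : Type*} [NormedAddCommGroup E'] [NormedSpace ℂ E']
  {Y : Type*} [TopologicalSpace Y] [ChartedSpace E' Y]

/-- The projection of `Γ ⊆ X × Y` to `X` is proper and it is biholomorphic over the complement
of a nowhere dense analytic subset `A` of `X`: over that complement `Γ` is the graph of a
holomorphic map to `Y`. -/
def IsModificationFst (Γ : Set (X × Y)) : Prop :=
  IsProperMap (fun p : Γ => p.1.1) ∧
  ∃ A : Set X, IsAnalyticSet 𝓘(ℂ, E) A ∧ interior A = ∅ ∧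
    ∃ g : X → Y, ContMDiffOn 𝓘(ℂ, E) 𝓘(ℂ, E') ω g Aᶜ ∧
      ∀ x ∉ A, ∀ y : Y, (x, y) ∈ Γ ↔ y = g x

/-- The complex manifolds `X` and `Y` are bimeromorphic. -/
def IsBimeromorphic (E : Type*) [NormedAddCommGroup E] [NormedSpace ℂ E]
    (X : Type*) [TopologicalSpace X] [ChartedSpace E X]
    (E' : Type*) [NormedAddCommGroup E'] [NormedSpace ℂ E']
    (Y : Type*) [TopologicalSpace Y] [ChartedSpace E' Y] : Prop :=
  ∃ Γ : Set (X × Y), IsIrreducibleAnalyticSet (𝓘(ℂ, E).prod 𝓘(ℂ, E')) Γ ∧
    IsModificationFst (E := E) (E' := E') Γ ∧
    IsModificationFst (E := E') (E' := E) (Prod.swap ⁻¹' Γ : Set (Y × X))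

end Bimeromorphic

end Pool.Agent.Helper40
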