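import Mathlib
open Set Metric Filter Topology

namespace Pool.Agent.Helper40

theorem isPreconnected_convex_diff_countable {L Z : Set ℂ} (hL : IsOpen L) (hc : Convex ℝ L)
    (hZ : Z.Countable) : IsPreconnected (L \ Z) := by
  apply isPreconnected_of_forall_pair
  intro z₁ hz₁ z₂ hz₂
  by_cases h12 : z₁ = z₂
  · subst h12
    exact ⟨{z₁}, by simpa using hz₁, rfl, rfl, isPreconnected_singleton⟩
  have hne : z₂ - z₁ ≠ 0 := sub_ne_zero.mpr (Ne.symm h12)
  have hne' : z₁ - z₂ ≠ 0 := sub_ne_zero.mpr h12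
  set m : ℝ → ℂ := fun s => z₁ + (z₂ - z₁) * (1 / 2 + s * Complex.I) with hm
  have hm0 : m 0 ∈ L := by
    have : m 0 = (1 / 2 : ℝ) • z₁ + (1 / 2 : ℝ) • z₂ := by
      simp only [hm, Complex.real_smul]
      push_cast
      ring
    rw [this]
    exact hc hz₁.1 hz₂.1 (by norm_num) (by norm_num) (by norm_num)
  have hmc : Continuous m := by
    simp only [hm]
    fun_prop
  obtain ⟨ε, hε, hεL⟩ : ∃ ε > 0, ∀ s : ℝ, |s| < ε → m s ∈ L := by
    have := hmc.continuousAt.preimage_mem_nhds (hL.mem_nhds hm0)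
    rw [Metric.mem_nhds_iff] at this
    obtain ⟨ε, hε, h⟩ := this
    refine ⟨ε, hε, fun s hs => h ?_⟩
    simpa using hs
  set bad : Set ℝ := (fun z : ℂ => ((z - z₁) / (z₂ - z₁)).im / (2 * ((z - z₁) / (z₂ - z₁)).re)) '' Z ∪
    (fun z : ℂ => -((z - z₂) / (z₁ - z₂)).im / (2 * ((z - z₂) / (z₁ - z₂)).re)) '' Z with hbad
  have hbadc : bad.Countable := (hZ.image _).union (hZ.image _)
  obtain ⟨s, hs, hsb⟩ : ∃ s ∈ Ioo (-ε) ε, s ∉ bad := by
    by_contra hcon
    push Not at hcon
    have h1 : (Ioo (-ε) ε).Countable := hbadc.mono hcon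
    exact (Cardinal.Real.Ioo_countable_iff.mp h1).not_gt (by linarith)
  have hsL : m s ∈ L := hεL s (abs_lt.mpr hs)
  refine ⟨segment ℝ z₁ (m s) ∪ segment ℝ (m s) z₂, ?_, Or.inl (left_mem_segment _ _ _),
    Or.inr (right_mem_segment _ _ _), ?_⟩
  · rintro z (hz | hz)
    · refine ⟨hc.segment_subset hz₁.1 hsL hz, fun hzZ => hsb ?_⟩
      rw [segment_eq_image'] at hz
      obtain ⟨a, ha, rfl⟩ := hz
      left
      refine ⟨_, hzZ, ?_⟩
      have ha0 : a ≠ 0 := by
        rintro rfl
        simp only [zero_smul, add_zero] at hzZ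
        exact hz₁.2 hzZ
      have e : (z₁ + a • (m s - z₁) - z₁) / (z₂ - z₁) = a * (1 / 2 + s * Complex.I) := by
        simp only [hm, Complex.real_smul]
        field_simp
        ring
      simp only [e]
      have e1 : ((a:ℂ) * (1 / 2 + s * Complex.I)).re = a / 2 := by
        simp [Complex.mul_re]
        ring
      have e2 : ((a:ℂ) * (1 / 2 + s * Complex.I)).im = a * s := by
        simp [Complex.mul_im]
      rw [e1, e2]
      field_simp
    · refine ⟨hc.segment_subset hsL hz₂.1 hz, fun hzZ => hsb ?_⟩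
      rw [segment_symm, segment_eq_image'] at hz
      obtain ⟨a, ha, rfl⟩ := hz
      right
      refine ⟨_, hzZ, ?_⟩
      have ha0 : a ≠ 0 := by
        rintro rfl
        simp only [zero_smul, add_zero] at hzZ
        exact hz₂.2 hzZ
      have e : (z₂ + a • (m s - z₂) - z₂) / (z₁ - z₂) = a * (1 / 2 - s * Complex.I) := by
        simp only [hm, Complex.real_smul]
        field_simp
        ring
      simp only [e]
      have e1 : ((a:ℂ) * (1 / 2 - s * Complex.I)).re = a / 2 := by
        simp [Complex.mul_re]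
        ring
      have e2 : ((a:ℂ) * (1 / 2 - s * Complex.I)).im = - (a * s) := by
        simp [Complex.mul_im]
      rw [e1, e2]
      field_simp
  · exact IsPreconnected.union (m s) (right_mem_segment _ _ _) (left_mem_segment _ _ _)
      (convex_segment _ _).isPreconnected (convex_segment _ _).isPreconnected

end Pool.Agent.Helper40
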