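import Mathlib
open MeasureTheory Set Metric Real Filter Topology
open scoped ENNReal

namespace Pool.Agent.Helper40

theorem circle_submean {f : ℂ → ℂ} {c : ℂ} {δ ρ : ℝ} (hρ : 0 < ρ) (hρδ : ρ < δ)
    (hf : DifferentiableOn ℂ f (ball c δ)) :
    ENNReal.ofReal (2 * π) * ‖f c‖ₑ ^ 2 ≤
      ∫⁻ θ in Ioo (-π) π, ‖f (circleMap c ρ θ)‖ₑ ^ 2 := by
  set F : ℝ → ℂ := fun θ => f (circleMap c ρ θ) ^ 2 with hF
  have hsub : closedBall c ρ ⊆ ball c δ := closedBall_subset_ball hρδ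
  have hmem : ∀ θ, circleMap c ρ θ ∈ ball c δ := fun θ =>
    hsub (circleMap_mem_closedBall c hρ.le θ)
  have hcont : Continuous F := by
    have h1 : ContinuousOn f (ball c δ) := hf.continuousOn
    have : Continuous fun θ => f (circleMap c ρ θ) :=
      h1.comp_continuous (continuous_circleMap c ρ) hmem
    exact this.pow 2
  have hd : DiffContOnCl ℂ (fun z => f z ^ 2) (ball c |ρ|) := by
    rw [abs_of_pos hρ]
    apply DifferentiableOn.diffContOnCl
    rw [closure_ball c hρ.ne']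
    exact (hf.mono hsub).pow 2
  have havg := hd.circleAverage
  rw [circleAverage_def] at havg
  have hnorm : ‖f c‖ ^ 2 ≤ (2 * π)⁻¹ * ∫ θ in (0:ℝ)..2 * π, ‖F θ‖ := by
    have h2 : ‖(f c) ^ 2‖ = ‖(2 * π)⁻¹ • ∫ θ in (0:ℝ)..2 * π, F θ‖ := by
      rw [← havg]
    rw [norm_pow] at h2
    rw [h2, norm_smul, Real.norm_of_nonneg (by positivity)]
    gcongr
    exact intervalIntegral.norm_integral_le_integral_norm (by positivity)
  have hper : Function.Periodic (fun θ => ‖F θ‖) (2 * π) := by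
    intro θ
    simp [hF, periodic_circleMap c ρ θ]
  have hshift : ∫ θ in (0:ℝ)..2 * π, ‖F θ‖ = ∫ θ in (-π)..π, ‖F θ‖ := by
    have := hper.intervalIntegral_add_eq 0 (-π)
    simp only [zero_add] at this
    rw [this]
    congr 1
    ring
  rw [hshift] at hnorm
  have hint : ∫ θ in (-π)..π, ‖F θ‖ = ∫ θ in Ioo (-π) π, ‖F θ‖ := by
    rw [intervalIntegral.integral_of_le (by linarith [pi_pos]), integral_Ioc_eq_integral_Ioo]
  rw [hint] at hnorm
  have hinteg : Integrable F (volume.restrict (Ioo (-π) π)) :=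
    (hcont.integrableOn_Icc (a := -π) (b := π)).mono_set Ioo_subset_Icc_self
  have hlin := ofReal_integral_norm_eq_lintegral_enorm hinteg
  have e1 : ∫⁻ θ in Ioo (-π) π, ‖f (circleMap c ρ θ)‖ₑ ^ 2 = ∫⁻ θ in Ioo (-π) π, ‖F θ‖ₑ := by
    congr 1
    ext θ
    simp [hF, enorm_pow]
  rw [e1, ← hlin]
  have e2 : ‖f c‖ₑ ^ 2 = ENNReal.ofReal (‖f c‖ ^ 2) := by
    rw [← ofReal_norm, ENNReal.ofReal_pow (norm_nonneg _)]
  rw [e2, ← ENNReal.ofReal_mul (by positivity)]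
  apply ENNReal.ofReal_le_ofReal
  calc 2 * π * ‖f c‖ ^ 2 ≤ 2 * π * ((2 * π)⁻¹ * ∫ θ in Ioo (-π) π, ‖F θ‖) := by gcongr
    _ = ∫ θ in Ioo (-π) π, ‖F θ‖ := by field_simp

theorem area_submean {f : ℂ → ℂ} {c : ℂ} {δ : ℝ} (hδ : 0 < δ)
    (hf : DifferentiableOn ℂ f (ball c δ)) :
    ENNReal.ofReal (π * δ ^ 2) * ‖f c‖ₑ ^ 2 ≤ ∫⁻ z in ball c δ, ‖f z‖ₑ ^ 2 := by
  have h1 : ∫⁻ z in ball c δ, ‖f z‖ₑ ^ 2
      = ∫⁻ u : ℂ, (ball (0:ℂ) δ).indicator (fun u => ‖f (c + u)‖ₑ ^ 2) u := by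
    rw [← lintegral_indicator measurableSet_ball]
    rw [← lintegral_add_left_eq_self _ c]
    congr 1
    ext u
    by_cases hu : u ∈ ball (0:ℂ) δ
    · have : c + u ∈ ball c δ := by simpa using hu
      rw [indicator_of_mem hu, indicator_of_mem this]
    · have : c + u ∉ ball c δ := by simpa using hu
      rw [indicator_of_notMem hu, indicator_of_notMem this]
  rw [h1, ← Complex.lintegral_comp_polarCoord_symm]
  have h2 : polarCoord.target = Ioi (0:ℝ) ×ˢ Ioo (-π) π := rfl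
  rw [h2]
  have h3 : ∫⁻ p in Ioo (0:ℝ) δ ×ˢ Ioo (-π) π,
        ENNReal.ofReal p.1 * ‖f (circleMap c p.1 p.2)‖ₑ ^ 2
      ≤ ∫⁻ p in Ioi (0:ℝ) ×ˢ Ioo (-π) π, ENNReal.ofReal p.1 •
        (ball (0:ℂ) δ).indicator (fun u => ‖f (c + u)‖ₑ ^ 2) (Complex.polarCoord.symm p) := by
    calc _ = ∫⁻ p in Ioo (0:ℝ) δ ×ˢ Ioo (-π) π, ENNReal.ofReal p.1 •
        (ball (0:ℂ) δ).indicator (fun u => ‖f (c + u)‖ₑ ^ 2) (Complex.polarCoord.symm p) := by
          apply setLIntegral_congr_fun (measurableSet_Ioo.prod measurableSet_Ioo)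
          intro p hp
          have hp1 : 0 < p.1 := hp.1.1
          have hp2 : p.1 < δ := hp.1.2
          have e : Complex.polarCoord.symm p = p.1 * Complex.exp (p.2 * Complex.I) := by
            rw [Complex.polarCoord_symm_apply, Complex.exp_mul_I]
            simp
          have hm : Complex.polarCoord.symm p ∈ ball (0:ℂ) δ := by
            rw [e, mem_ball_zero_iff, norm_mul, Complex.norm_exp_ofReal_mul_I, mul_one,
              Complex.norm_real, Real.norm_of_nonneg hp1.le]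
            exact hp2
          simp only [smul_eq_mul]
          rw [indicator_of_mem hm, e]
          rfl
      _ ≤ _ := by
          apply lintegral_mono_set
          exact prod_mono (fun x hx => hx.1) subset_rfl
  refine le_trans ?_ h3
  have hmeas : ContinuousOn (fun p : ℝ × ℝ =>
      ENNReal.ofReal p.1 * ‖f (circleMap c p.1 p.2)‖ₑ ^ 2) (Ioo (0:ℝ) δ ×ˢ Ioo (-π) π) := by
    have hc : ContinuousOn (fun p : ℝ × ℝ => f (circleMap c p.1 p.2))
        (Ioo (0:ℝ) δ ×ˢ Ioo (-π) π) := by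
      apply hf.continuousOn.comp
      · unfold circleMap
        fun_prop
      · intro p hp
        have hp1 : 0 < p.1 := hp.1.1
        have hp2 : p.1 < δ := hp.1.2
        exact (closedBall_subset_ball hp2) (circleMap_mem_closedBall c hp1.le p.2)
    have hc1 : ContinuousOn (fun p : ℝ × ℝ => ENNReal.ofReal (p.1 * ‖f (circleMap c p.1 p.2)‖ ^ 2))
        (Ioo (0:ℝ) δ ×ˢ Ioo (-π) π) := by
      apply ENNReal.continuous_ofReal.comp_continuousOn
      exact continuous_fst.continuousOn.mul (hc.norm.pow 2)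
    refine hc1.congr ?_
    intro p hp
    have hp1 : 0 < p.1 := hp.1.1
    simp only
    rw [ENNReal.ofReal_mul hp1.le, ENNReal.ofReal_pow (norm_nonneg _), ofReal_norm]
  have hae : AEMeasurable (fun p : ℝ × ℝ =>
      ENNReal.ofReal p.1 * ‖f (circleMap c p.1 p.2)‖ₑ ^ 2)
      ((volume.prod volume).restrict (Ioo (0:ℝ) δ ×ˢ Ioo (-π) π)) :=
    hmeas.aemeasurable (measurableSet_Ioo.prod measurableSet_Ioo)
  have h4 : ∫⁻ p in Ioo (0:ℝ) δ ×ˢ Ioo (-π) π,
        ENNReal.ofReal p.1 * ‖f (circleMap c p.1 p.2)‖ₑ ^ 2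
      = ∫⁻ ρ in Ioo (0:ℝ) δ, ∫⁻ θ in Ioo (-π) π,
        ENNReal.ofReal ρ * ‖f (circleMap c ρ θ)‖ₑ ^ 2 := by
    rw [Measure.volume_eq_prod, setLIntegral_prod _ hae]
  rw [h4]
  have h5 : ∫⁻ ρ in Ioo (0:ℝ) δ, ENNReal.ofReal (ρ * (2 * π)) * ‖f c‖ₑ ^ 2
      ≤ ∫⁻ ρ in Ioo (0:ℝ) δ, ∫⁻ θ in Ioo (-π) π,
        ENNReal.ofReal ρ * ‖f (circleMap c ρ θ)‖ₑ ^ 2 := by
    apply setLIntegral_mono' measurableSet_Ioo
    intro ρ hρ
    rw [lintegral_const_mul' _ _ ENNReal.ofReal_ne_top, ENNReal.ofReal_mul hρ.1.le, mul_assoc]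
    gcongr
    exact circle_submean hρ.1 hρ.2 hf
  refine le_trans ?_ h5
  rw [lintegral_mul_const']
  swap
  · simp
  gcongr
  have h6 : ∫⁻ ρ in Ioo (0:ℝ) δ, ENNReal.ofReal (ρ * (2 * π))
      = ENNReal.ofReal (∫ ρ in Ioo (0:ℝ) δ, ρ * (2 * π)) := by
    rw [ofReal_integral_eq_lintegral_ofReal]
    · apply Continuous.integrableOn_Icc (a := 0) (b := δ) (by fun_prop) |>.mono_set
        Ioo_subset_Icc_self
    · filter_upwards [ae_restrict_mem measurableSet_Ioo] with ρ hρ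
      have := hρ.1
      positivity
  rw [h6]
  apply ENNReal.ofReal_le_ofReal
  rw [← integral_Ioc_eq_integral_Ioo, ← intervalIntegral.integral_of_le hδ.le]
  simp only [intervalIntegral.integral_mul_const, integral_id]
  nlinarith [pi_pos]

end Pool.Agent.Helper40
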