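import Mathlib
import Pool.Agent.Helper40.Submean
open MeasureTheory Set Metric Real Filter Topology
open scoped ENNReal

namespace Pool.Agent.Helper40

theorem tendsto_mul_norm_sub_of_L2 {f : ℂ → ℂ} {z : ℂ} {ε : ℝ} (hε : 0 < ε)
    (hf : DifferentiableOn ℂ f (ball z ε \ {z}))
    (hL : ∫⁻ z' in ball z ε \ {z}, ‖f z'‖ₑ ^ 2 ≠ ∞) :
    Tendsto (fun z' => f z' * (z' - z)) (𝓝[≠] z) (𝓝 0) := by
  have key : Tendsto (fun z' => ‖f z' * (z' - z)‖ₑ ^ 2) (𝓝[≠] z) (𝓝 0) := by
    set μ : Measure ℂ := volume.restrict (ball z ε \ {z}) with hμ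
    have h1 : Tendsto (fun z' : ℂ => ∫⁻ u in ball z (2 * ‖z' - z‖), ‖f u‖ₑ ^ 2 ∂μ) (𝓝[≠] z) (𝓝 0) := by
      apply tendsto_setLIntegral_zero hL
      have hv : Tendsto (fun z' : ℂ => volume (ball z (2 * ‖z' - z‖))) (𝓝[≠] z) (𝓝 0) := by
        have : Tendsto (fun z' : ℂ => NNReal.pi * ENNReal.ofReal (2 * ‖z' - z‖) ^ 2) (𝓝[≠] z)
            (𝓝 (NNReal.pi * ENNReal.ofReal (2 * ‖z - z‖) ^ 2)) := by
          apply Tendsto.mono_left _ nhdsWithin_le_nhds
          apply ENNReal.Tendsto.const_mul _ (Or.inr (by simp))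
          apply ENNReal.Tendsto.pow
          apply ENNReal.tendsto_ofReal
          exact (Continuous.tendsto (by fun_prop) z)
        simp only [sub_self, norm_zero, mul_zero, ENNReal.ofReal_zero] at this
        have h0 : (NNReal.pi : ℝ≥0∞) * 0 ^ 2 = 0 := by simp
        rw [h0] at this
        refine Tendsto.congr (fun z' => ?_) this
        rw [Complex.volume_ball]
        ring
      refine tendsto_of_tendsto_of_tendsto_of_le_of_le tendsto_const_nhds hv
        (fun _ => zero_le) (fun z' => ?_)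
      exact Measure.restrict_apply_le _ _
    have h2 : Tendsto (fun z' : ℂ => ENNReal.ofReal (4 / π) *
        ∫⁻ u in ball z (2 * ‖z' - z‖), ‖f u‖ₑ ^ 2 ∂μ) (𝓝[≠] z) (𝓝 0) := by
      have := ENNReal.Tendsto.const_mul (a := ENNReal.ofReal (4 / π)) h1
        (Or.inr ENNReal.ofReal_ne_top)
      simpa using this
    refine tendsto_of_tendsto_of_tendsto_of_le_of_le' tendsto_const_nhds h2
      (Eventually.of_forall fun _ => zero_le) ?_
    have hball : ∀ᶠ z' in 𝓝[≠] z, z' ∈ ball z (ε / 2) ∧ z' ≠ z := by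
      have : ball z (ε / 2) ∈ 𝓝 z := ball_mem_nhds z (by positivity)
      filter_upwards [mem_nhdsWithin_of_mem_nhds this, self_mem_nhdsWithin] with z' h h'
      exact ⟨h, h'⟩
    filter_upwards [hball] with z' hz'
    obtain ⟨hz1, hz2⟩ := hz'
    have hd : 0 < ‖z' - z‖ := norm_pos_iff.mpr (sub_ne_zero.mpr hz2)
    set δ := ‖z' - z‖ / 2 with hδ
    have hδpos : 0 < δ := by positivity
    have hzd : ‖z' - z‖ < ε / 2 := by simpa [dist_eq_norm] using hz1
    have hsub : ball z' δ ⊆ ball z ε \ {z} := by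
      intro u hu
      have hu' : ‖u - z'‖ < δ := by simpa [dist_eq_norm] using hu
      refine ⟨?_, ?_⟩
      · rw [mem_ball, dist_eq_norm]
        calc ‖u - z‖ = ‖(u - z') + (z' - z)‖ := by ring_nf
          _ ≤ ‖u - z'‖ + ‖z' - z‖ := norm_add_le _ _
          _ < ε := by linarith
      · intro hu0
        simp only [mem_singleton_iff] at hu0
        subst hu0
        rw [norm_sub_rev] at hu'
        linarith
    have hsub2 : ball z' δ ⊆ ball z (2 * ‖z' - z‖) := by
      intro u hu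
      have hu' : ‖u - z'‖ < δ := by simpa [dist_eq_norm] using hu
      rw [mem_ball, dist_eq_norm]
      calc ‖u - z‖ = ‖(u - z') + (z' - z)‖ := by ring_nf
        _ ≤ ‖u - z'‖ + ‖z' - z‖ := norm_add_le _ _
        _ < 2 * ‖z' - z‖ := by linarith
    have hm := area_submean hδpos (hf.mono hsub)
    have hle : ∫⁻ u in ball z' δ, ‖f u‖ₑ ^ 2 ≤
        ∫⁻ u in ball z (2 * ‖z' - z‖), ‖f u‖ₑ ^ 2 ∂μ := by
      rw [hμ, Measure.restrict_restrict measurableSet_ball]
      exact lintegral_mono_set (subset_inter hsub2 hsub)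
    have hm2 := hm.trans hle
    calc ‖f z' * (z' - z)‖ₑ ^ 2 = ENNReal.ofReal (4 / π) *
          (ENNReal.ofReal (π * δ ^ 2) * ‖f z'‖ₑ ^ 2) := by
          rw [← mul_assoc, ← ENNReal.ofReal_mul (by positivity), enorm_mul, mul_pow, mul_comm]
          congr 1
          rw [← ofReal_norm, ← ENNReal.ofReal_pow (norm_nonneg _)]
          congr 1
          rw [hδ]
          field_simp
          ring
      _ ≤ _ := by gcongr
  have key2 : Tendsto (fun z' => ‖f z' * (z' - z)‖ ^ 2) (𝓝[≠] z) (𝓝 0) := by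
    have := (ENNReal.tendsto_toReal ENNReal.zero_ne_top).comp key
    refine this.congr (fun z' => ?_)
    simp only [Function.comp_apply, ENNReal.toReal_pow, toReal_enorm]
  rw [tendsto_zero_iff_norm_tendsto_zero]
  have := key2.sqrt
  rw [Real.sqrt_zero] at this
  refine this.congr (fun z' => ?_)
  exact Real.sqrt_sq (norm_nonneg _)

theorem removable_L2 {D Z : Set ℂ} {f : ℂ → ℂ} (hD : IsOpen D)
    (hZ : ∀ z ∈ D, ∀ᶠ z' in 𝓝[≠] z, z' ∉ Z) (hf : DifferentiableOn ℂ f (D \ Z))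
    (hL : ∀ z ∈ D, ∃ ε > 0, ∫⁻ z' in ball z ε ∩ (D \ Z), ‖f z'‖ₑ ^ 2 ≠ ∞) :
    DifferentiableOn ℂ (fun z => limUnder (𝓝[≠] z) f) D ∧
      ∀ z ∈ D \ Z, limUnder (𝓝[≠] z) f = f z := by
  have local_ball : ∀ z ∈ D, ∃ ε > 0, ball z ε ⊆ D ∧ (∀ z' ∈ ball z ε, z' ≠ z → z' ∉ Z) ∧
      ∫⁻ z' in ball z ε \ {z}, ‖f z'‖ₑ ^ 2 ≠ ∞ := by
    intro z hz
    obtain ⟨ε₁, hε₁, h₁⟩ := Metric.isOpen_iff.mp hD z hz
    have h2 := hZ z hz
    rw [eventually_nhdsWithin_iff, Metric.eventually_nhds_iff] at h2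
    obtain ⟨ε₂, hε₂, h₂⟩ := h2
    obtain ⟨ε₃, hε₃, h₃⟩ := hL z hz
    refine ⟨min ε₁ (min ε₂ ε₃), by positivity, ?_, ?_, ?_⟩
    · exact (ball_subset_ball (min_le_left _ _)).trans h₁
    · intro z' hz' hne
      exact h₂ (lt_of_lt_of_le (mem_ball.mp hz') ((min_le_right _ _).trans (min_le_left _ _))) hne
    · refine ne_top_of_le_ne_top h₃ (lintegral_mono_set ?_)
      intro u hu
      obtain ⟨hu1, hu2⟩ := hu
      have hu1' := mem_ball.mp hu1
      refine ⟨mem_ball.mpr (lt_of_lt_of_le hu1' ((min_le_right _ _).trans (min_le_right _ _))),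
        h₁ (mem_ball.mpr (lt_of_lt_of_le hu1' (min_le_left _ _))), ?_⟩
      exact h₂ (lt_of_lt_of_le hu1' ((min_le_right _ _).trans (min_le_left _ _))) hu2
  have hopen : ∀ z ∈ D, ∀ ε > 0, ball z ε ⊆ D → (∀ z' ∈ ball z ε, z' ≠ z → z' ∉ Z) →
      ∀ z' ∈ ball z ε, z' ≠ z → limUnder (𝓝[≠] z') f = f z' := by
    intro z hz ε hε h1 h2 z' hz' hne
    have hnhds : ball z ε \ {z} ∈ 𝓝 z' := by
      apply IsOpen.mem_nhds (isOpen_ball.sdiff isClosed_singleton)
      exact ⟨hz', hne⟩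
    have hsub : ball z ε \ {z} ⊆ D \ Z := fun u hu => ⟨h1 hu.1, h2 u hu.1 hu.2⟩
    have hc : ContinuousAt f z' :=
      ((hf.mono hsub).differentiableAt hnhds).continuousAt
    exact (hc.tendsto.mono_left nhdsWithin_le_nhds).limUnder_eq
  constructor
  · intro z hz
    obtain ⟨ε, hε, h1, h2, h3⟩ := local_ball z hz
    have hsub : ball z ε \ {z} ⊆ D \ Z := fun u hu => ⟨h1 hu.1, h2 u hu.1 hu.2⟩
    have hfd := hf.mono hsub
    have ht := tendsto_mul_norm_sub_of_L2 hε hfd h3
    have ho : (fun z' => f z' - f z) =o[𝓝[≠] z] fun z' => (z' - z)⁻¹ := by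
      rw [Asymptotics.isLittleO_iff_tendsto']
      · have h4 : Tendsto (fun z' => f z' * (z' - z) - f z * (z' - z)) (𝓝[≠] z)
            (𝓝 (0 - f z * (z - z))) := by
          apply ht.sub
          apply Tendsto.mono_left _ nhdsWithin_le_nhds
          exact Continuous.tendsto (by fun_prop) z
        simp only [sub_self, mul_zero] at h4
        refine h4.congr (fun z' => ?_)
        rw [div_inv_eq_mul]
        ring
      · filter_upwards [self_mem_nhdsWithin] with z' hz' h0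
        exfalso
        exact hz' (sub_eq_zero.mp (inv_eq_zero.mp h0))
    have hup := Complex.differentiableOn_update_limUnder_of_isLittleO
      (ball_mem_nhds z hε) hfd ho
    have heq : ∀ z' ∈ ball z ε, (fun z => limUnder (𝓝[≠] z) f) z' =
        Function.update f z (limUnder (𝓝[≠] z) f) z' := by
      intro z' hz'
      by_cases h : z' = z
      · subst h
        simp
      · rw [Function.update_of_ne h]
        exact hopen z hz ε hε h1 h2 z' hz' h
    have hd : DifferentiableAt ℂ (Function.update f z (limUnder (𝓝[≠] z) f)) z :=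
      hup.differentiableAt (ball_mem_nhds z hε)
    refine (hd.congr_of_eventuallyEq ?_).differentiableWithinAt
    filter_upwards [ball_mem_nhds z hε] with z' hz'
    exact heq z' hz'
  · intro z hz
    have hnh : D \ Z ∈ 𝓝 z := by
      obtain ⟨ε, hε, h1, h2, h3⟩ := local_ball z hz.1
      filter_upwards [ball_mem_nhds z hε] with z' hz'
      by_cases h : z' = z
      · rw [h]; exact hz
      · exact ⟨h1 hz', h2 z' hz' h⟩
    have hc : ContinuousAt f z := (hf.differentiableAt hnh).continuousAt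
    exact (hc.tendsto.mono_left nhdsWithin_le_nhds).limUnder_eq

end Pool.Agent.Helper40
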