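import Mathlib
import Pool.Agent.Helper40.RemovL2
open MeasureTheory Set Metric Real Filter Topology
open scoped ENNReal

namespace Pool.Agent.Helper40

/-- A set of points of the plane all of whose points are isolated in it is countable. -/
theorem countable_of_isolated {S : Set ℂ} (h : ∀ z ∈ S, ∀ᶠ z' in 𝓝[≠] z, z' ∉ S) :
    S.Countable := by
  apply (HereditarilyLindelofSpace.isLindelof S).countable
  rw [← isDiscrete_iff_discreteTopology, isDiscrete_iff_nhdsNE]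
  intro z hz
  have := h z hz
  rw [inf_principal_eq_bot]
  exact this

theorem isolated_zeros {f : ℂ → ℂ} {U : Set ℂ} (hU : IsOpen U) (hUc : IsPreconnected U)
    (hf : DifferentiableOn ℂ f U) {a : ℂ} (ha : a ∈ U) (hfa : f a ≠ 0) :
    ∀ z ∈ U, ∀ᶠ z' in 𝓝[≠] z, f z' ≠ 0 := by
  intro z hz
  have han : AnalyticOnNhd ℂ f U := hf.analyticOnNhd hU
  rcases (han z hz).eventually_eq_zero_or_eventually_ne_zero with h | h
  · exact absurd (han.eqOn_zero_of_preconnected_of_eventuallyEq_zero hUc hz h ha) hfa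
  · exact h

theorem countable_zeros {f : ℂ → ℂ} {U : Set ℂ} (hU : IsOpen U) (hUc : IsPreconnected U)
    (hf : DifferentiableOn ℂ f U) {a : ℂ} (ha : a ∈ U) (hfa : f a ≠ 0) :
    {z ∈ U | f z = 0}.Countable := by
  apply countable_of_isolated
  intro z hz
  filter_upwards [isolated_zeros hU hUc hf ha hfa z hz.1] with z' hz' h
  exact hz' h.2

/-- A subset `S` of an open set `O` of `ℂ × ℂ` is thin if locally it is contained in the zero set
of a holomorphic function which is not identically zero. -/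
def IsThin (O S : Set (ℂ × ℂ)) : Prop :=
  ∀ p ∈ O, ∃ ρ > 0, ∃ φ : ℂ × ℂ → ℂ, ball p.1 ρ ×ˢ ball p.2 ρ ⊆ O ∧
    DifferentiableOn ℂ φ (ball p.1 ρ ×ˢ ball p.2 ρ) ∧
    (∃ p' ∈ ball p.1 ρ ×ˢ ball p.2 ρ, φ p' ≠ 0) ∧
    ∀ p' ∈ ball p.1 ρ ×ˢ ball p.2 ρ, p' ∈ S → φ p' = 0

theorem IsThin.slices {O S : Set (ℂ × ℂ)} (hS : IsThin O S) :
    ∃ C : Set ℂ, C.Countable ∧ ∀ w ∉ C, ∀ z, (z, w) ∈ O → ∀ᶠ z' in 𝓝[≠] z, (z', w) ∉ S := by
  choose! ρ hρ φ h1 h2 h3 h4 using hS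
  have hopen : ∀ p ∈ O, IsOpen (ball p.1 (ρ p) ×ˢ ball p.2 (ρ p)) := fun p _ =>
    isOpen_ball.prod isOpen_ball
  obtain ⟨T, hTO, hTc, hT⟩ : ∃ T ⊆ O, T.Countable ∧
      O ⊆ ⋃ p ∈ T, ball p.1 (ρ p) ×ˢ ball p.2 (ρ p) := by
    have := TopologicalSpace.isOpen_biUnion_countable O
      (fun p => ball p.1 (ρ p) ×ˢ ball p.2 (ρ p)) hopen
    obtain ⟨T, hTO, hTc, hT⟩ := this
    refine ⟨T, hTO, hTc, ?_⟩
    rw [hT]
    intro p hp
    exact mem_biUnion hp ⟨mem_ball_self (hρ p hp), mem_ball_self (hρ p hp)⟩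
  refine ⟨⋃ p ∈ T, {w ∈ ball p.2 (ρ p) | ∀ z ∈ ball p.1 (ρ p), φ p (z, w) = 0}, ?_, ?_⟩
  · refine hTc.biUnion (fun p hp => ?_)
    have hpO := hTO hp
    obtain ⟨⟨a, b⟩, ⟨ha, hb⟩, hab⟩ := h3 p hpO
    simp only at ha hb
    have hd : DifferentiableOn ℂ (fun w => φ p (a, w)) (ball p.2 (ρ p)) := by
      apply (h2 p hpO).comp (f := fun w : ℂ => (a, w))
      · fun_prop
      · intro w hw
        exact ⟨ha, hw⟩
    refine (countable_zeros isOpen_ball (convex_ball _ _).isPreconnected hd hb hab).mono ?_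
    intro w hw
    exact ⟨hw.1, hw.2 a ha⟩
  · intro w hw z hz
    obtain ⟨p, hp, hzw⟩ := mem_iUnion₂.mp (hT hz)
    have hpO := hTO hp
    have hex : ∃ a ∈ ball p.1 (ρ p), φ p (a, w) ≠ 0 := by
      by_contra hcon
      push Not at hcon
      exact hw (mem_biUnion hp ⟨hzw.2, hcon⟩)
    obtain ⟨a, ha, hab⟩ := hex
    have hd : DifferentiableOn ℂ (fun z => φ p (z, w)) (ball p.1 (ρ p)) := by
      apply (h2 p hpO).comp (f := fun z : ℂ => (z, w))
      · fun_prop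
      · intro z hz
        exact ⟨hz, hzw.2⟩
    have hiso := isolated_zeros isOpen_ball (convex_ball _ _).isPreconnected hd ha hab z hzw.1
    have hb : ∀ᶠ z' in 𝓝[≠] z, z' ∈ ball p.1 (ρ p) :=
      mem_nhdsWithin_of_mem_nhds (isOpen_ball.mem_nhds hzw.1)
    filter_upwards [hiso, hb] with z' h h' hS'
    exact h (h4 p hpO (z', w) ⟨h', hzw.2⟩ hS')

end Pool.Agent.Helper40
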