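import Mathlib
import Pool.Agent.Helper40.Thin
import Pool.Agent.Helper40.ConvexDiff
open MeasureTheory Set Metric Real Filter Topology
open scoped ENNReal

namespace Pool.Agent.Helper40

section
variable {E : Type*} [NormedAddCommGroup E] [NormedSpace ℂ E]

/-- the complex line through `a` in the direction `u` -/
def cline (a u : E) (t : ℂ) : E := a + t • u

theorem continuous_cline (a u : E) : Continuous (cline a u) := by
  unfold cline; fun_prop

theorem differentiable_cline (a u : E) : Differentiable ℂ (cline a u) := by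
  unfold cline; fun_prop

theorem convex_cline_preimage {V : Set E} (hV : Convex ℝ V) (a u : E) :
    Convex ℝ (cline a u ⁻¹' V) := by
  intro s hs t ht α β hα hβ hαβ
  have := hV hs ht hα hβ hαβ
  simp only [mem_preimage] at *
  convert this using 1
  simp only [cline, smul_add]
  have e : (α • s + β • t) • u = α • s • u + β • t • u := by
    rw [add_smul, smul_assoc, smul_assoc]
  rw [e]
  have e2 : a = α • a + β • a := by rw [← add_smul, hαβ, one_smul]
  nth_rewrite 1 [e2]
  abel

theorem mem_closure_ne_zero {V : Set E} {f : E → ℂ} (hV : IsPreconnected V)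
    (hf : AnalyticOnNhd ℂ f V) {a : E} (ha : a ∈ V) (hfa : f a ≠ 0) {y : E} (hy : y ∈ V)
    {U : Set E} (hU : U ∈ 𝓝 y) : ∃ z ∈ U, f z ≠ 0 := by
  by_contra hcon
  push Not at hcon
  have : f =ᶠ[𝓝 y] 0 := by
    filter_upwards [hU] with z hz using hcon z hz
  exact hfa (hf.eqOn_zero_of_preconnected_of_eventuallyEq_zero hV hy this ha)

theorem isPreconnected_ne_zero {V : Set E} {f : E → ℂ} (hV : IsOpen V) (hVc : Convex ℝ V)
    (hf : AnalyticOnNhd ℂ f V) : IsPreconnected {z ∈ V | f z ≠ 0} := by
  apply isPreconnected_of_forall_pair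
  rintro a ⟨ha, hfa⟩ b ⟨hb, hfb⟩
  set u := b - a with hu
  set D := cline a u ⁻¹' V with hD
  have hDo : IsOpen D := hV.preimage (continuous_cline a u)
  have hDc : Convex ℝ D := convex_cline_preimage hVc a u
  have h0 : (0:ℂ) ∈ D := by simp [hD, cline, ha]
  have h1 : (1:ℂ) ∈ D := by simp [hD, cline, hu, hb]
  have hd : DifferentiableOn ℂ (fun t => f (cline a u t)) D := by
    intro t ht
    exact ((hf _ ht).differentiableAt.comp t (differentiable_cline a u t)).differentiableWithinAt
  have hcount := countable_zeros hDo hDc.isPreconnected hd h0 (by simpa [cline] using hfa)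
  have hpre := isPreconnected_convex_diff_countable hDo hDc hcount
  refine ⟨cline a u '' (D \ {z | z ∈ D ∧ f (cline a u z) = 0}), ?_, ⟨0, ⟨h0, ?_⟩, ?_⟩,
    ⟨1, ⟨h1, ?_⟩, ?_⟩, hpre.image _ (continuous_cline a u).continuousOn⟩
  · rintro _ ⟨t, ⟨ht, ht'⟩, rfl⟩
    exact ⟨ht, fun h => ht' ⟨ht, h⟩⟩
  · rintro ⟨_, h⟩
    exact hfa (by simpa [cline] using h)
  · simp [cline]
  · rintro ⟨_, h⟩
    exact hfb (by simpa [cline, hu] using h)
  · simp [cline, hu]

/-- the complement of a closed thin set in a convex open set is connected -/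
theorem isPreconnected_diff_thin {V S : Set E} {f : E → ℂ} (hV : IsOpen V) (hVc : Convex ℝ V)
    (hf : AnalyticOnNhd ℂ f V) {a : E} (ha : a ∈ V) (hfa : f a ≠ 0)
    (hS : ∀ z ∈ V, z ∈ S → f z = 0) : IsPreconnected (V \ S) := by
  apply (isPreconnected_ne_zero hV hVc hf).subset_closure
  · rintro z ⟨hz, hz'⟩
    exact ⟨hz, fun h => hz' (hS z hz h)⟩
  · rintro z ⟨hz, -⟩
    rw [mem_closure_iff_nhds]
    intro U hU
    obtain ⟨z', h1, h2⟩ := mem_closure_ne_zero hVc.isPreconnected hf ha hfa hz
      (inter_mem hU (hV.mem_nhds hz))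
    exact ⟨z', h1.1, h1.2, h2⟩

theorem tendsto_of_bounded {V S : Set E} {f F : E → ℂ} (hV : IsOpen V) (hf : AnalyticOnNhd ℂ f V)
    {y : E} (hy : y ∈ V) (hne : ∃ᶠ z in 𝓝 y, f z ≠ 0) (hS : ∀ z ∈ V, z ∈ S → f z = 0)
    (hF : ∀ z ∈ V, z ∉ S → DifferentiableAt ℂ F z) {C : ℝ} (hC : ∀ z ∈ V, z ∉ S → ‖F z‖ ≤ C) :
    ∃ l, Tendsto F (𝓝[V \ S] y) (𝓝 l) := by
  by_cases hfy : f y = 0
  swap
  · refine ⟨F y, ?_⟩
    have hyS : y ∉ S := fun h => hfy (hS y hy h)
    exact (hF y hy hyS).continuousAt.tendsto.mono_left nhdsWithin_le_nhds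
  obtain ⟨R, hR, hRV⟩ := Metric.isOpen_iff.mp hV y hy
  obtain ⟨a, hfa, haR⟩ : ∃ a, f a ≠ 0 ∧ a ∈ ball y R :=
    (hne.and_eventually (isOpen_ball.mem_nhds (mem_ball_self hR))).exists
  set u := a - y with hu
  have hu0 : u ≠ 0 := by
    intro h
    rw [sub_eq_zero] at h
    rw [h] at hfa
    exact hfa hfy
  have huR : ‖u‖ < R := by rwa [mem_ball_iff_norm] at haR
  -- the line through y
  set D0 := cline y u ⁻¹' ball y R with hD0
  have hline0 : ∀ t : ℂ, ‖t‖ ≤ 1 → t ∈ D0 := by
    intro t ht
    simp only [hD0, cline, mem_preimage, mem_ball_iff_norm, add_sub_cancel_left, norm_smul]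
    calc ‖t‖ * ‖u‖ ≤ 1 * ‖u‖ := by gcongr
      _ < R := by rw [one_mul]; exact huR
  have hD0o : IsOpen D0 := isOpen_ball.preimage (continuous_cline y u)
  have hD0c : Convex ℝ D0 := convex_cline_preimage (convex_ball y R) y u
  have hd0 : DifferentiableOn ℂ (fun t => f (cline y u t)) D0 := by
    intro t ht
    exact ((hf _ (hRV ht)).differentiableAt.comp t
      (differentiable_cline y u t)).differentiableWithinAt
  have hiso := isolated_zeros hD0o hD0c.isPreconnected hd0 (hline0 1 (by simp))
    (by simpa [cline, hu] using hfa) 0 (hline0 0 (by simp))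
  obtain ⟨ρ, hρ, hρ1, hρne⟩ : ∃ ρ > 0, ρ < 1 ∧ ∀ t : ℂ, ‖t‖ = ρ → f (cline y u t) ≠ 0 := by
    rw [eventually_nhdsWithin_iff, Metric.eventually_nhds_iff] at hiso
    obtain ⟨ε, hε, h⟩ := hiso
    have h0 : 0 < min ε 1 := by positivity
    refine ⟨min ε 1 / 2, by positivity, ?_, ?_⟩
    · have := min_le_right ε 1
      linarith
    · intro t ht
      apply h
      · rw [dist_zero_right, ht]
        have := min_le_left ε 1
        linarith
      · intro hz0
        rw [mem_singleton_iff] at hz0
        rw [hz0, norm_zero] at ht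
        linarith
  -- near y
  have hev1 : ∀ᶠ z in 𝓝 y, ∀ t ∈ sphere (0:ℂ) ρ, f (cline z u t) ≠ 0 := by
    have := (isCompact_sphere (0:ℂ) ρ).eventually_forall_of_forall_eventually (x₀ := y)
      (P := fun z t => f (cline z u t) ≠ 0) (fun t ht => by
        rw [mem_sphere_zero_iff_norm] at ht
        have h1 : f (cline y u t) ≠ 0 := hρne t ht
        have h2 : cline y u t ∈ V := hRV (hline0 t (by linarith))
        have h3 : ContinuousAt (fun p : E × ℂ => f (cline p.1 u p.2)) (y, t) := by
          have h4 : ContinuousAt f (cline y u t) := (hf _ h2).continuousAt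
          have h5 : Continuous (fun p : E × ℂ => cline p.1 u p.2) := by
            unfold cline; fun_prop
          exact ContinuousAt.comp (f := fun p : E × ℂ => cline p.1 u p.2) h4 h5.continuousAt
        exact h3.eventually_ne h1)
    exact this
  have hev2 : ∀ᶠ z in 𝓝 y, ∀ t ∈ closedBall (0:ℂ) ρ, cline z u t ∈ ball y R := by
    have := (isCompact_closedBall (0:ℂ) ρ).eventually_forall_of_forall_eventually (x₀ := y)
      (P := fun z t => cline z u t ∈ ball y R) (fun t ht => by
        rw [mem_closedBall_zero_iff] at ht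
        have h2 : cline y u t ∈ ball y R := (hline0 t (by linarith))
        have h5 : Continuous (fun p : E × ℂ => cline p.1 u p.2) := by
          unfold cline; fun_prop
        exact h5.continuousAt.preimage_mem_nhds (isOpen_ball.mem_nhds h2))
    exact this
  have hev := hev1.and hev2
  -- the averaged function
  set G : E → ℂ := fun z => circleAverage (fun t => F (cline z u t)) 0 ρ with hG
  have hsph : ∀ θ : ℝ, circleMap 0 ρ θ ∈ sphere (0:ℂ) ρ := fun θ =>
    circleMap_mem_sphere 0 hρ.le θ
  have hnotS : ∀ z, (∀ t ∈ sphere (0:ℂ) ρ, f (cline z u t) ≠ 0) →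
      (∀ t ∈ closedBall (0:ℂ) ρ, cline z u t ∈ ball y R) →
      ∀ t ∈ sphere (0:ℂ) ρ, cline z u t ∈ V ∧ cline z u t ∉ S := by
    intro z h1 h2 t ht
    have h3 := hRV (h2 t (sphere_subset_closedBall ht))
    exact ⟨h3, fun h => h1 t ht (hS _ h3 h)⟩
  have hGc : ContinuousAt G y := by
    have h2 : ContinuousAt (fun z => ∫ θ in (0:ℝ)..2 * π, F (cline z u (circleMap 0 ρ θ))) y := by
      apply intervalIntegral.continuousAt_of_dominated_interval (bound := fun _ => C)
      · filter_upwards [hev] with z hz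
        apply Continuous.aestronglyMeasurable
        rw [continuous_iff_continuousAt]
        intro θ
        have h3 := hnotS z hz.1 hz.2 _ (hsph θ)
        have h4 := (hF _ h3.1 h3.2).continuousAt
        exact ContinuousAt.comp (f := fun θ : ℝ => cline z u (circleMap 0 ρ θ)) h4
          (((continuous_cline z u).comp (continuous_circleMap 0 ρ)).continuousAt)
      · filter_upwards [hev] with z hz
        filter_upwards with θ _
        have h3 := hnotS z hz.1 hz.2 _ (hsph θ)
        exact hC _ h3.1 h3.2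
      · exact intervalIntegrable_const
      · filter_upwards with θ _
        have h3 := hnotS y hev.self_of_nhds.1 hev.self_of_nhds.2 _ (hsph θ)
        have h4 := (hF _ h3.1 h3.2).continuousAt
        exact ContinuousAt.comp (f := fun z => cline z u (circleMap 0 ρ θ)) h4
          (by unfold cline; fun_prop)
    simp only [hG, circleAverage]
    exact continuousAt_const.smul h2
  refine ⟨G y, ?_⟩
  have hEq : ∀ᶠ z in 𝓝[V \ S] y, G z = F z := by
    filter_upwards [mem_nhdsWithin_of_mem_nhds hev, self_mem_nhdsWithin] with z hz hzS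
    set D := cline z u ⁻¹' ball y R with hD
    have hDo : IsOpen D := isOpen_ball.preimage (continuous_cline z u)
    have hDc : Convex ℝ D := convex_cline_preimage (convex_ball y R) z u
    have hd : DifferentiableOn ℂ (fun t => f (cline z u t)) D := by
      intro t ht
      exact ((hf _ (hRV ht)).differentiableAt.comp t
        (differentiable_cline z u t)).differentiableWithinAt
    have hρs : (ρ : ℂ) ∈ sphere (0:ℂ) ρ := by
      rw [mem_sphere_zero_iff_norm, Complex.norm_real, Real.norm_of_nonneg hρ.le]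
    have hiso := isolated_zeros hDo hDc.isPreconnected hd
      (hz.2 ρ (sphere_subset_closedBall hρs)) (hz.1 ρ hρs)
    set Z := cline z u ⁻¹' S with hZ
    have hZiso : ∀ t ∈ D, ∀ᶠ t' in 𝓝[≠] t, t' ∉ Z := by
      intro t ht
      filter_upwards [hiso t ht, mem_nhdsWithin_of_mem_nhds (hDo.mem_nhds ht)] with t' h1 h2 h3
      exact h1 (hS _ (hRV h2) h3)
    have hdF : ∀ t ∈ D \ Z, DifferentiableAt ℂ (fun t => F (cline z u t)) t := by
      rintro t ⟨ht, ht'⟩
      exact (hF _ (hRV ht) ht').comp t (differentiable_cline z u t)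
    have hcnt : (D ∩ Z).Countable := by
      apply countable_of_isolated
      intro t ht
      filter_upwards [hZiso t ht.1] with t' h1 h2 using h1 h2.2
    have hmeas : MeasurableSet (D \ Z) := by
      have : D \ Z = D \ (D ∩ Z) := by ext t; simp
      rw [this]
      exact hDo.measurableSet.diff hcnt.measurableSet
    have hrem := removable_L2 (D := D) (Z := Z) (f := fun t => F (cline z u t)) hDo hZiso
      (fun t ht => (hdF t ht).differentiableWithinAt)
      (fun t ht => ⟨1, one_pos, by
        have hC0 : ∀ t' ∈ ball t 1 ∩ (D \ Z), ‖F (cline z u t')‖ₑ ^ 2 ≤ ENNReal.ofReal C ^ 2 := by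
          rintro t' ⟨-, h1, h2⟩
          gcongr
          rw [← ofReal_norm]
          exact ENNReal.ofReal_le_ofReal (hC _ (hRV h1) h2)
        refine ne_top_of_le_ne_top ?_ (setLIntegral_mono' ?_ hC0)
        · rw [setLIntegral_const]
          refine ENNReal.mul_ne_top (by simp) ?_
          exact ne_top_of_le_ne_top measure_ball_lt_top.ne (measure_mono inter_subset_left)
        · exact measurableSet_ball.inter hmeas⟩)
    obtain ⟨hk, hke⟩ := hrem
    have h0D : (0:ℂ) ∈ D := hz.2 0 (mem_closedBall_self hρ.le)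
    have h0Z : (0:ℂ) ∉ Z := by
      simp only [hZ, cline, mem_preimage, zero_smul, add_zero]
      exact hzS.2
    have hsub : closedBall (0:ℂ) ρ ⊆ D := hz.2
    have hdc : DiffContOnCl ℂ (fun z_1 => limUnder (𝓝[≠] z_1) fun t => F (cline z u t))
        (ball 0 |ρ|) := by
      apply DifferentiableOn.diffContOnCl
      rw [abs_of_pos hρ, closure_ball _ hρ.ne']
      exact hk.mono hsub
    have h5 := hdc.circleAverage
    rw [hke 0 ⟨h0D, h0Z⟩] at h5
    simp only [hG]
    rw [← show F (cline z u 0) = F z by simp [cline]]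
    rw [← h5]
    apply circleAverage_congr_sphere
    intro t ht
    rw [abs_of_pos hρ] at ht
    have h6 := hnotS z hz.1 hz.2 t ht
    exact (hke t ⟨hsub (sphere_subset_closedBall ht), h6.2⟩).symm
  exact (hGc.tendsto.mono_left nhdsWithin_le_nhds).congr' hEq

end

end Pool.Agent.Helper40
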