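import Mathlib
import Pool.Agent.Helper40.ThinE
import Pool.Agent.Helper40.Defs
open MeasureTheory Set Metric Real Filter Topology
open scoped ENNReal Manifold ContDiff

namespace Pool.Agent.Helper40

section
variable {E : Type*} [NormedAddCommGroup E] [NormedSpace ℂ E] {N : Type*} [TopologicalSpace N]
  [ChartedSpace E N] [IsManifold 𝓘(ℂ, E) ω N]

/-- `S` is an analytic subset of the open set `W`. -/
def IsAnalyticIn (E : Type*) [NormedAddCommGroup E] [NormedSpace ℂ E] {N : Type*}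
    [TopologicalSpace N] [ChartedSpace E N] (W S : Set N) : Prop :=
  ∀ x ∈ W, ∃ U : Set N, IsOpen U ∧ x ∈ U ∧ ∃ (m : ℕ) (f : N → Fin m → ℂ),
    ContMDiffOn 𝓘(ℂ, E) 𝓘(ℂ, Fin m → ℂ) ω f U ∧ S ∩ U = {y ∈ U | f y = 0}

theorem analyticOnNhd_chart {F : Type*} [NormedAddCommGroup F] [NormedSpace ℂ F]
    [CompleteSpace F] {f : N → F} {U : Set N}
    (hf : ContMDiffOn 𝓘(ℂ, E) 𝓘(ℂ, F) ω f U) (x : N) {V : Set E} (hV : IsOpen V)
    (hVs : V ⊆ (chartAt E x).target) (hVU : ∀ z ∈ V, (chartAt E x).symm z ∈ U) :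
    AnalyticOnNhd ℂ (fun z => f ((chartAt E x).symm z)) V := by
  have h1 : ContMDiffOn 𝓘(ℂ, E) 𝓘(ℂ, E) ω (chartAt E x).symm (chartAt E x).target :=
    contMDiffOn_chart_symm
  have h2 := hf.comp (h1.mono hVs) (fun z hz => hVU z hz)
  have h3 := h2.contDiffOn.analyticOn
  exact (hV.analyticOn_iff_analyticOnNhd).mp h3

theorem local_form {W S : Set N} (hW : IsOpen W) (hS : IsAnalyticIn E W S) {x : N} (hx : x ∈ W)
    {U : Set N} (hU : U ∈ 𝓝 x) :
    ∃ r > 0, ∃ (m : ℕ) (f : Fin m → E → ℂ),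
      ball (chartAt E x x) r ⊆ (chartAt E x).target ∧
      (∀ z ∈ ball (chartAt E x x) r, (chartAt E x).symm z ∈ U ∩ W) ∧
      (∀ i, AnalyticOnNhd ℂ (f i) (ball (chartAt E x x) r)) ∧
      ∀ z ∈ ball (chartAt E x x) r, (chartAt E x).symm z ∈ S ↔ ∀ i, f i z = 0 := by
  obtain ⟨U', hU'o, hxU', m, f, hf, hSf⟩ := hS x hx
  have hmem : (chartAt E x).target ∩ (chartAt E x).symm ⁻¹' ((U ∩ W) ∩ U') ∈ 𝓝 (chartAt E x x) := by
    have h1 : (chartAt E x).target ∈ 𝓝 (chartAt E x x) :=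
      (chartAt E x).open_target.mem_nhds (mem_chart_target E x)
    have h2 : ContinuousAt (chartAt E x).symm (chartAt E x x) :=
      (chartAt E x).symm.continuousAt (mem_chart_target E x)
    refine inter_mem h1 (h2.preimage_mem_nhds ?_)
    rw [(chartAt E x).left_inv (mem_chart_source E x)]
    exact inter_mem (inter_mem hU (hW.mem_nhds hx)) (hU'o.mem_nhds hxU')
  obtain ⟨r, hr, hrs⟩ := Metric.mem_nhds_iff.mp hmem
  refine ⟨r, hr, m, fun i z => f ((chartAt E x).symm z) i, fun z hz => (hrs hz).1,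
    fun z hz => (hrs hz).2.1, ?_, ?_⟩
  · intro i
    have h3 := analyticOnNhd_chart hf x isOpen_ball (fun z hz => (hrs hz).1)
      (fun z hz => (hrs hz).2.2)
    intro z hz
    exact (analyticAt_pi_iff.mp (h3 z hz)) i
  · intro z hz
    have h4 : (chartAt E x).symm z ∈ U' := (hrs hz).2.2
    have h5 : (chartAt E x).symm z ∈ S ↔ (chartAt E x).symm z ∈ S ∩ U' :=
      ⟨fun h => ⟨h, h4⟩, fun h => h.1⟩
    rw [h5, hSf]
    constructor
    · rintro ⟨_, h⟩ i
      change f ((chartAt E x).symm z) i = 0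
      rw [h]; rfl
    · intro h
      exact ⟨h4, funext h⟩

omit [NormedSpace ℂ E] [IsManifold 𝓘(ℂ, E) ω N] in
theorem chart_symm_image_mem_nhds {x : N} {r : ℝ} (hr : 0 < r)
    (hrt : ball (chartAt E x x) r ⊆ (chartAt E x).target) :
    IsOpen ((chartAt E x).symm '' ball (chartAt E x x) r) ∧
      x ∈ (chartAt E x).symm '' ball (chartAt E x x) r := by
  constructor
  · exact (chartAt E x).symm.isOpen_image_of_subset_source isOpen_ball hrt
  · exact ⟨chartAt E x x, mem_ball_self hr, (chartAt E x).left_inv (mem_chart_source E x)⟩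

/-- identity theorem for analytic sets -/
theorem IsAnalyticIn.subset_of_interior {W S : Set N} (hW : IsOpen W) (hWc : IsPreconnected W)
    (hS : IsAnalyticIn E W S) (hne : (W ∩ interior S).Nonempty) : W ⊆ S := by
  refine (hWc.subset_of_closure_inter_subset isOpen_interior hne ?_).trans interior_subset
  rintro x ⟨hx, hxW⟩
  obtain ⟨r, hr, m, f, h1, h2, h3, h4⟩ := local_form hW hS hxW univ_mem
  obtain ⟨ho, hxm⟩ := chart_symm_image_mem_nhds hr h1
  obtain ⟨y, hy1, hy2⟩ := mem_closure_iff.mp hx _ ho hxm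
  obtain ⟨z, hz, rfl⟩ := hy1
  have hcont : ContinuousAt (chartAt E x).symm z := (chartAt E x).symm.continuousAt (h1 hz)
  have hnear : ∀ᶠ z' in 𝓝 z, (chartAt E x).symm z' ∈ S := by
    filter_upwards [hcont.preimage_mem_nhds (isOpen_interior.mem_nhds hy2)] with z' hz'
    exact interior_subset hz'
  have hall : ∀ z' ∈ ball (chartAt E x x) r, (chartAt E x).symm z' ∈ S := by
    intro z' hz'
    rw [h4 z' hz']
    intro i
    have hev : f i =ᶠ[𝓝 z] 0 := by
      filter_upwards [hnear, isOpen_ball.mem_nhds hz] with w hw hwb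
      exact (h4 w hwb).mp hw i
    exact (h3 i).eqOn_zero_of_preconnected_of_eventuallyEq_zero
      (convex_ball _ _).isPreconnected hz hev hz'
  rw [mem_interior]
  refine ⟨_, ?_, ho, hxm⟩
  rintro _ ⟨z', hz', rfl⟩
  exact hall z' hz'

/-- local structure of a nowhere dense analytic set -/
theorem local_thin {W S : Set N} (hW : IsOpen W)
    (hS : IsAnalyticIn E W S) (hint : W ∩ interior S = ∅) {x : N} (hx : x ∈ W)
    {U : Set N} (hU : U ∈ 𝓝 x) :
    ∃ r > 0, ∃ (f : E → ℂ),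
      ball (chartAt E x x) r ⊆ (chartAt E x).target ∧
      (∀ z ∈ ball (chartAt E x x) r, (chartAt E x).symm z ∈ U ∩ W) ∧
      (AnalyticOnNhd ℂ f (ball (chartAt E x x) r)) ∧ (∃ a ∈ ball (chartAt E x x) r, f a ≠ 0) ∧
      ∀ z ∈ ball (chartAt E x x) r, (chartAt E x).symm z ∈ S → f z = 0 := by
  obtain ⟨r, hr, m, f, h1, h2, h3, h4⟩ := local_form hW hS hx hU
  by_contra hcon
  push Not at hcon
  have hall : ∀ z ∈ ball (chartAt E x x) r, (chartAt E x).symm z ∈ S := by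
    intro z hz
    rw [h4 z hz]
    intro i
    by_contra hne
    obtain ⟨z', hz', h5, h6⟩ := hcon r hr (f i) h1 h2 (h3 i) ⟨z, hz, hne⟩
    exact h6 ((h4 z' hz').mp h5 i)
  obtain ⟨ho, hxm⟩ := chart_symm_image_mem_nhds hr h1
  have : x ∈ W ∩ interior S := by
    refine ⟨hx, mem_interior.mpr ⟨_, ?_, ho, hxm⟩⟩
    rintro _ ⟨z', hz', rfl⟩
    exact hall z' hz'
  rw [hint] at this
  exact this

theorem IsAnalyticIn.isPreconnected_diff {W S : Set N} (hW : IsOpen W) (hWc : IsPreconnected W)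
    (hS : IsAnalyticIn E W S) (hint : W ∩ interior S = ∅) : IsPreconnected (W \ S) := by
  have hdense : ∀ x ∈ W, ∀ U ∈ 𝓝 x, (U ∩ (W \ S)).Nonempty := by
    intro x hx U hU
    by_contra hcon
    rw [not_nonempty_iff_eq_empty] at hcon
    have : x ∈ W ∩ interior S := by
      refine ⟨hx, mem_interior_iff_mem_nhds.mpr ?_⟩
      filter_upwards [hU, hW.mem_nhds hx] with y h1 h2
      by_contra h3
      have : y ∈ U ∩ (W \ S) := ⟨h1, h2, h3⟩
      rw [hcon] at this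
      exact this
    rw [hint] at this
    exact this
  have hloc : ∀ x ∈ W, ∃ V, IsOpen V ∧ x ∈ V ∧ V ⊆ W ∧ IsPreconnected (V \ S) := by
    intro x hx
    obtain ⟨r, hr, f, h1, h2, h3, ⟨a, ha, hfa⟩, h5⟩ := local_thin hW hS hint hx univ_mem
    obtain ⟨ho, hxm⟩ := chart_symm_image_mem_nhds hr h1
    refine ⟨_, ho, hxm, ?_, ?_⟩
    · rintro _ ⟨z', hz', rfl⟩
      exact (h2 z' hz').2
    · have hpre := isPreconnected_diff_thin (S := (chartAt E x).symm ⁻¹' S) isOpen_ball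
        (convex_ball _ _) h3 ha hfa h5
      have := hpre.image (chartAt E x).symm
        ((chartAt E x).continuousOn_symm.mono (sdiff_subset.trans h1))
      convert this using 1
      ext y
      constructor
      · rintro ⟨⟨z, hz, rfl⟩, h⟩
        exact ⟨z, ⟨hz, h⟩, rfl⟩
      · rintro ⟨z, ⟨hz, h⟩, rfl⟩
        exact ⟨⟨z, hz, rfl⟩, h⟩
  intro u v hu hv huv hau hav
  by_contra hcon
  rw [not_nonempty_iff_eq_empty] at hcon
  -- every local piece is in `u` or in `v`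
  have hpiece : ∀ V, V ⊆ W → IsPreconnected (V \ S) → V \ S ⊆ u ∨ V \ S ⊆ v := by
    intro V hVW hV
    have hsub : V \ S ⊆ u ∪ v := (sdiff_subset_sdiff_left hVW).trans huv
    by_cases h1 : (V \ S ∩ u).Nonempty
    · by_cases h2 : (V \ S ∩ v).Nonempty
      · obtain ⟨y, hy1, hy2⟩ := hV u v hu hv hsub h1 h2
        have : y ∈ W \ S ∩ (u ∩ v) := ⟨⟨hVW hy1.1, hy1.2⟩, hy2⟩
        rw [hcon] at this
        exact this.elim
      · left
        intro y hy
        rcases hsub hy with h | h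
        · exact h
        · exact (h2 ⟨y, hy, h⟩).elim
    · right
      intro y hy
      rcases hsub hy with h | h
      · exact (h1 ⟨y, hy, h⟩).elim
      · exact h
  set u' : Set N := ⋃₀ {V | IsOpen V ∧ V ⊆ W ∧ V \ S ⊆ u} with hu'
  set v' : Set N := ⋃₀ {V | IsOpen V ∧ V ⊆ W ∧ V \ S ⊆ v} with hv'
  have hu'o : IsOpen u' := isOpen_sUnion (fun V hV => hV.1)
  have hv'o : IsOpen v' := isOpen_sUnion (fun V hV => hV.1)
  have hcov : W ⊆ u' ∪ v' := by
    intro x hx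
    obtain ⟨V, hVo, hxV, hVW, hVp⟩ := hloc x hx
    rcases hpiece V hVW hVp with h | h
    · left; exact ⟨V, ⟨hVo, hVW, h⟩, hxV⟩
    · right; exact ⟨V, ⟨hVo, hVW, h⟩, hxV⟩
  have h1 : (W ∩ u').Nonempty := by
    obtain ⟨x, ⟨hxW, hxS⟩, hxu⟩ := hau
    rcases hcov hxW with h | h
    · exact ⟨x, hxW, h⟩
    · obtain ⟨V, ⟨_, _, hV⟩, hxV⟩ := h
      have : x ∈ W \ S ∩ (u ∩ v) := ⟨⟨hxW, hxS⟩, hxu, hV ⟨hxV, hxS⟩⟩
      rw [hcon] at this
      exact this.elim
  have h2 : (W ∩ v').Nonempty := by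
    obtain ⟨x, ⟨hxW, hxS⟩, hxv⟩ := hav
    rcases hcov hxW with h | h
    · obtain ⟨V, ⟨_, _, hV⟩, hxV⟩ := h
      have : x ∈ W \ S ∩ (u ∩ v) := ⟨⟨hxW, hxS⟩, hV ⟨hxV, hxS⟩, hxv⟩
      rw [hcon] at this
      exact this.elim
    · exact ⟨x, hxW, h⟩
  obtain ⟨x, hxW, ⟨V₁, ⟨hV₁o, hV₁W, hV₁⟩, hx1⟩, ⟨V₂, ⟨hV₂o, hV₂W, hV₂⟩, hx2⟩⟩ :=
    hWc u' v' hu'o hv'o hcov h1 h2
  obtain ⟨y, ⟨hy1, hy2⟩, hyW, hyS⟩ := hdense x hxW (V₁ ∩ V₂)
    ((hV₁o.inter hV₂o).mem_nhds ⟨hx1, hx2⟩)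
  have : y ∈ W \ S ∩ (u ∩ v) := ⟨⟨hyW, hyS⟩, hV₁ ⟨hy1, hyS⟩, hV₂ ⟨hy2, hyS⟩⟩
  rw [hcon] at this
  exact this

/-- a bounded holomorphic function has a limit at the points of a nowhere dense analytic set -/
theorem IsAnalyticIn.exists_tendsto {W S : Set N} {F : N → ℂ} (hW : IsOpen W)
    (hS : IsAnalyticIn E W S) (hint : W ∩ interior S = ∅) (hWS : IsOpen (W \ S))
    (hF : ContMDiffOn 𝓘(ℂ, E) 𝓘(ℂ, ℂ) ω F (W \ S)) {x : N} (hx : x ∈ W)
    {U : Set N} (hU : U ∈ 𝓝 x) {C : ℝ} (hC : ∀ y ∈ U ∩ (W \ S), ‖F y‖ ≤ C) :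
    ∃ l, Tendsto F (𝓝[W \ S] x) (𝓝 l) := by
  obtain ⟨r, hr, f, h1, h2, h3, ⟨a, ha, hfa⟩, h5⟩ := local_thin hW hS hint hx hU
  have hxb : chartAt E x x ∈ ball (chartAt E x x) r := mem_ball_self hr
  have hkey := tendsto_of_bounded (V := ball (chartAt E x x) r) (S := (chartAt E x).symm ⁻¹' S)
    (f := f) (F := fun z => F ((chartAt E x).symm z)) (C := C) isOpen_ball h3 hxb
    (by
      rw [frequently_iff]
      intro U' hU'
      obtain ⟨z, hz, hz'⟩ := mem_closure_ne_zero (convex_ball _ _).isPreconnected h3 ha hfa hxb hU'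
      exact ⟨z, hz, hz'⟩) h5
    (by
      intro z hz hzS
      set Q : Set E := ball (chartAt E x x) r ∩ (chartAt E x).symm ⁻¹' (W \ S) with hQ
      have hQo : IsOpen Q := by
        exact ((chartAt E x).continuousOn_symm.mono h1).isOpen_inter_preimage isOpen_ball hWS
      have := analyticOnNhd_chart (V := Q) hF x hQo (fun z hz => h1 hz.1) (fun z hz => hz.2)
      exact (this z ⟨hz, (h2 z hz).2, hzS⟩).differentiableAt)
    (by
      intro z hz hzS
      exact hC _ ⟨(h2 z hz).1, (h2 z hz).2, hzS⟩)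
  obtain ⟨l, hl⟩ := hkey
  refine ⟨l, ?_⟩
  have hcx : ContinuousAt (chartAt E x) x := (chartAt E x).continuousAt (mem_chart_source E x)
  have hevb : ∀ᶠ y in 𝓝 x, chartAt E x y ∈ ball (chartAt E x x) r :=
    hcx.preimage_mem_nhds (isOpen_ball.mem_nhds hxb)
  have hevs : ∀ᶠ y in 𝓝 x, y ∈ (chartAt E x).source :=
    (chartAt E x).open_source.mem_nhds (mem_chart_source E x)
  have ht : Tendsto (chartAt E x) (𝓝[W \ S] x)
      (𝓝[ball (chartAt E x x) r \ (chartAt E x).symm ⁻¹' S] (chartAt E x x)) := by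
    apply tendsto_nhdsWithin_of_tendsto_nhds_of_eventually_within
    · exact hcx.tendsto.mono_left nhdsWithin_le_nhds
    · filter_upwards [mem_nhdsWithin_of_mem_nhds hevb, mem_nhdsWithin_of_mem_nhds hevs,
        self_mem_nhdsWithin] with y h6 h7 h8
      refine ⟨h6, ?_⟩
      rw [mem_preimage, (chartAt E x).left_inv h7]
      exact h8.2
  refine (hl.comp ht).congr' ?_
  filter_upwards [mem_nhdsWithin_of_mem_nhds hevs] with y h7
  simp only [Function.comp]
  rw [(chartAt E x).left_inv h7]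

end

end Pool.Agent.Helper40
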