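import Mathlib
import Pool.Agent.Helper40.ThinM
open MeasureTheory Set Metric Real Filter Topology
open scoped ENNReal Manifold ContDiff

namespace Pool.Agent.Helper40

section
variable {E H : Type*} [NormedAddCommGroup E] [NormedSpace ℂ E] [TopologicalSpace H]
  {X : Type*} [TopologicalSpace X] [ChartedSpace H X] {I : ModelWithCorners ℂ E H}
  {E' H' : Type*} [NormedAddCommGroup E'] [NormedSpace ℂ E'] [TopologicalSpace H']
  {X' : Type*} [TopologicalSpace X'] [ChartedSpace H' X'] {I' : ModelWithCorners ℂ E' H'}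

theorem IsAnalyticSet.isClosed {S : Set X} (hS : IsAnalyticSet I S) : IsClosed S := by
  rw [← isOpen_compl_iff, isOpen_iff_mem_nhds]
  intro x hx
  obtain ⟨U, hUo, hxU, m, f, hf, hSf⟩ := hS x
  have hfx : f x ≠ 0 := by
    intro h
    have : x ∈ S ∩ U := by rw [hSf]; exact ⟨hxU, h⟩
    exact hx this.1
  have hc : ContinuousAt f x := (hf.continuousOn).continuousAt (hUo.mem_nhds hxU)
  filter_upwards [hc.eventually_ne hfx, hUo.mem_nhds hxU] with y h1 h2 h3
  have : y ∈ S ∩ U := ⟨h3, h2⟩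
  rw [hSf] at this
  exact h1 this.2

theorem IsAnalyticSet.inter {S S' : Set X} (hS : IsAnalyticSet I S) (hS' : IsAnalyticSet I S') :
    IsAnalyticSet I (S ∩ S') := by
  intro x
  obtain ⟨U, hUo, hxU, m, f, hf, hSf⟩ := hS x
  obtain ⟨U', hUo', hxU', m', f', hf', hSf'⟩ := hS' x
  refine ⟨U ∩ U', hUo.inter hUo', ⟨hxU, hxU'⟩, m + m', fun y => Fin.append (f y) (f' y), ?_, ?_⟩
  · rw [contMDiffOn_pi_space]
    intro i
    refine Fin.addCases (fun i => ?_) (fun i => ?_) i
    · simp only [Fin.append_left]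
      exact (contMDiffOn_pi_space.mp hf i).mono inter_subset_left
    · simp only [Fin.append_right]
      exact (contMDiffOn_pi_space.mp hf' i).mono inter_subset_right
  · ext y
    have h1 : y ∈ U → (y ∈ S ↔ f y = 0) := fun h => by
      constructor
      · intro h2
        have : y ∈ S ∩ U := ⟨h2, h⟩
        rw [hSf] at this
        exact this.2
      · intro h2
        have : y ∈ S ∩ U := by rw [hSf]; exact ⟨h, h2⟩
        exact this.1
    have h1' : y ∈ U' → (y ∈ S' ↔ f' y = 0) := fun h => by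
      constructor
      · intro h2
        have : y ∈ S' ∩ U' := ⟨h2, h⟩
        rw [hSf'] at this
        exact this.2
      · intro h2
        have : y ∈ S' ∩ U' := by rw [hSf']; exact ⟨h, h2⟩
        exact this.1
    constructor
    · rintro ⟨⟨h2, h3⟩, h4, h5⟩
      refine ⟨⟨h4, h5⟩, ?_⟩
      change Fin.append (f y) (f' y) = 0
      rw [(h1 h4).mp h2, (h1' h5).mp h3]
      ext i
      refine Fin.addCases (fun i => ?_) (fun i => ?_) i <;> simp
    · rintro ⟨⟨h4, h5⟩, h6⟩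
      refine ⟨⟨(h1 h4).mpr ?_, (h1' h5).mpr ?_⟩, h4, h5⟩
      · ext i
        have := congrFun h6 (Fin.castAdd m' i)
        simpa using this
      · ext i
        have := congrFun h6 (Fin.natAdd m i)
        simpa using this

theorem IsAnalyticSet.preimage {S : Set X} (hS : IsAnalyticSet I S) {p : X' → X}
    (hp : ContMDiff I' I ω p) : IsAnalyticSet I' (p ⁻¹' S) := by
  intro x
  obtain ⟨U, hUo, hxU, m, f, hf, hSf⟩ := hS (p x)
  refine ⟨p ⁻¹' U, hUo.preimage hp.continuous, hxU, m, fun y => f (p y), ?_, ?_⟩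
  · exact hf.comp hp.contMDiffOn (fun y hy => hy)
  · rw [← preimage_inter, hSf]
    rfl

end

section
variable {E : Type*} [NormedAddCommGroup E] [NormedSpace ℂ E] {N : Type*} [TopologicalSpace N]
  [ChartedSpace E N]
  {E' : Type*} [NormedAddCommGroup E'] [NormedSpace ℂ E'] {N' : Type*} [TopologicalSpace N']
  [ChartedSpace E' N']

theorem IsAnalyticSet.analyticIn {S : Set N} (hS : IsAnalyticSet 𝓘(ℂ, E) S) (W : Set N) :
    IsAnalyticIn E W S := fun x _ => hS x

theorem IsAnalyticSet.analyticIn_preimage {S : Set N} (hS : IsAnalyticSet 𝓘(ℂ, E) S) {W : Set N'}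
    (hW : IsOpen W) {g : N' → N} (hg : ContMDiffOn 𝓘(ℂ, E') 𝓘(ℂ, E) ω g W) :
    IsAnalyticIn E' W (g ⁻¹' S) := by
  intro x hx
  obtain ⟨U, hUo, hxU, m, f, hf, hSf⟩ := hS (g x)
  refine ⟨W ∩ g ⁻¹' U, hg.continuousOn.isOpen_inter_preimage hW hUo, ⟨hx, hxU⟩, m,
    fun y => f (g y), ?_, ?_⟩
  · exact hf.comp (hg.mono inter_subset_left) (fun y hy => hy.2)
  · ext y
    have h1 : g y ∈ S ∧ g y ∈ U ↔ g y ∈ U ∧ f (g y) = 0 := by
      have : g y ∈ S ∩ U ↔ g y ∈ {y | y ∈ U ∧ f y = 0} := by rw [hSf]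
      exact this
    constructor
    · rintro ⟨h2, h3, h4⟩
      exact ⟨⟨h3, h4⟩, (h1.mp ⟨h2, h4⟩).2⟩
    · rintro ⟨⟨h2, h3⟩, h4⟩
      exact ⟨(h1.mpr ⟨h3, h4⟩).1, h2, h3⟩

theorem isAnalyticIn_zero {W : Set N} (hW : IsOpen W) {f : N → ℂ}
    (hf : ContMDiffOn 𝓘(ℂ, E) 𝓘(ℂ, ℂ) ω f W) : IsAnalyticIn E W {y | f y = 0} := by
  intro x hx
  refine ⟨W, hW, hx, 1, fun y _ => f y, ?_, ?_⟩
  · rw [contMDiffOn_pi_space]
    exact fun _ => hf
  · ext y
    constructor
    · rintro ⟨h1, h2⟩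
      exact ⟨h2, funext fun _ => h1⟩
    · rintro ⟨h1, h2⟩
      exact ⟨congrFun h2 0, h1⟩

end

end Pool.Agent.Helper40
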