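import Mathlib
import Pool.Agent.Helper40.AnalyticSets
open MeasureTheory Set Metric Real Filter Topology
open scoped ENNReal Manifold ContDiff

namespace Pool.Agent.Helper40

/-- The data of a bimeromorphic correspondence, unfolded. -/
structure BimData (E : Type*) [NormedAddCommGroup E] [NormedSpace ℂ E]
    (X : Type*) [TopologicalSpace X] [ChartedSpace E X]
    (E' : Type*) [NormedAddCommGroup E'] [NormedSpace ℂ E']
    (Y : Type*) [TopologicalSpace Y] [ChartedSpace E' Y] where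
  Γ : Set (X × Y)
  proper1 : IsProperMap (fun p : Γ => p.1.1)
  proper2 : IsProperMap (fun p : Γ => p.1.2)
  A : Set X
  B : Set Y
  hA : IsAnalyticSet 𝓘(ℂ, E) A
  hAint : interior A = ∅
  hB : IsAnalyticSet 𝓘(ℂ, E') B
  hBint : interior B = ∅
  gX : X → Y
  g : Y → X
  gX_smooth : ContMDiffOn 𝓘(ℂ, E) 𝓘(ℂ, E') ω gX Aᶜ
  g_smooth : ContMDiffOn 𝓘(ℂ, E') 𝓘(ℂ, E) ω g Bᶜ
  gX_iff : ∀ x ∉ A, ∀ y, (x, y) ∈ Γ ↔ y = gX x
  g_iff : ∀ y ∉ B, ∀ x, (x, y) ∈ Γ ↔ x = g y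
  good : ∃ y, y ∉ B ∧ g y ∉ A

section
variable {E : Type*} [NormedAddCommGroup E] [NormedSpace ℂ E]
    {X : Type*} [TopologicalSpace X] [ChartedSpace E X]
    {E' : Type*} [NormedAddCommGroup E'] [NormedSpace ℂ E']
    {Y : Type*} [TopologicalSpace Y] [ChartedSpace E' Y]

theorem IsBimeromorphic.nonempty_bimData [Nonempty X] [Nonempty Y]
    (h : IsBimeromorphic E X E' Y) : Nonempty (BimData E X E' Y) := by
  obtain ⟨Γ, hΓ, ⟨hp1, A, hA, hAint, gX, hgX, hgX'⟩, ⟨hp2, B, hB, hBint, g, hg, hg'⟩⟩ := h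
  have hg'' : ∀ y ∉ B, ∀ x, (x, y) ∈ Γ ↔ x = g y := fun y hy x => hg' y hy x
  have hp2' : IsProperMap (fun p : Γ => p.1.2) := by
    let e : Γ ≃ₜ (Prod.swap ⁻¹' Γ : Set (Y × X)) :=
      { toFun := fun p => ⟨(p.1.2, p.1.1), p.2⟩
        invFun := fun p => ⟨(p.1.2, p.1.1), p.2⟩
        left_inv := fun p => rfl
        right_inv := fun p => rfl
        continuous_toFun := by fun_prop
        continuous_invFun := by fun_prop }
    exact hp2.comp e.isProperMap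
  have hAne : ∃ x, x ∉ A := by
    by_contra hcon
    push Not at hcon
    have : A = univ := eq_univ_of_forall hcon
    rw [this, interior_univ] at hAint
    exact (univ_nonempty (α := X)).ne_empty hAint
  have hBne : ∃ y, y ∉ B := by
    by_contra hcon
    push Not at hcon
    have : B = univ := eq_univ_of_forall hcon
    rw [this, interior_univ] at hBint
    exact (univ_nonempty (α := Y)).ne_empty hBint
  obtain ⟨x₀, hx₀⟩ := hAne
  obtain ⟨y₀, hy₀⟩ := hBne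
  have hgood : ∃ y, y ∉ B ∧ g y ∉ A := by
    by_contra hcon
    push Not at hcon
    have hcov : Γ = (Γ ∩ Prod.fst ⁻¹' A) ∪ (Γ ∩ Prod.snd ⁻¹' B) := by
      ext ⟨x, y⟩
      constructor
      · intro hxy
        by_cases hy : y ∈ B
        · exact Or.inr ⟨hxy, hy⟩
        · left
          refine ⟨hxy, ?_⟩
          have := (hg'' y hy x).mp hxy
          change x ∈ A
          rw [this]
          exact hcon y hy
      · rintro (h | h)
        · exact h.1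
        · exact h.1
    have h1 : IsAnalyticSet (𝓘(ℂ, E).prod 𝓘(ℂ, E')) (Γ ∩ Prod.fst ⁻¹' A) :=
      hΓ.1.inter (hA.preimage contMDiff_fst)
    have h2 : IsAnalyticSet (𝓘(ℂ, E).prod 𝓘(ℂ, E')) (Γ ∩ Prod.snd ⁻¹' B) :=
      hΓ.1.inter (hB.preimage contMDiff_snd)
    rcases hΓ.2.2 _ _ h1 h2 hcov with h | h
    · have h3 : (x₀, gX x₀) ∈ Γ := (hgX' x₀ hx₀ _).mpr rfl
      rw [h] at h3
      exact hx₀ h3.2
    · have h3 : (g y₀, y₀) ∈ Γ := (hg'' y₀ hy₀ _).mpr rfl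
      rw [h] at h3
      exact hy₀ h3.2
  exact ⟨⟨Γ, hp1, hp2', A, B, hA, hAint, hB, hBint, gX, g, hgX, hg, hgX', hg'', hgood⟩⟩

namespace BimData

variable (D : BimData E X E' Y)

theorem isClosed_A : IsClosed D.A := D.hA.isClosed
theorem isClosed_B : IsClosed D.B := D.hB.isClosed

theorem dense_Ac : Dense D.Aᶜ := interior_eq_empty_iff_dense_compl.mp D.hAint
theorem dense_Bc : Dense D.Bᶜ := interior_eq_empty_iff_dense_compl.mp D.hBint

theorem gX_g {y : Y} (hy : y ∉ D.B) (hgy : D.g y ∉ D.A) : D.gX (D.g y) = y := by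
  have h1 : (D.g y, y) ∈ D.Γ := (D.g_iff y hy _).mpr rfl
  exact ((D.gX_iff _ hgy _).mp h1).symm

theorem g_gX {x : X} (hx : x ∉ D.A) (hgx : D.gX x ∉ D.B) : D.g (D.gX x) = x := by
  have h1 : (x, D.gX x) ∈ D.Γ := (D.gX_iff x hx _).mpr rfl
  exact ((D.g_iff _ hgx _).mp h1).symm

/-- a function on `X` which is bounded on compact sets is bounded near every point of `Y` -/
theorem locally_bounded [LocallyCompactSpace Y] {T : X → ℂ} (hT : Continuous T) (y : Y) :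
    ∃ U ∈ 𝓝 y, ∃ C : ℝ, ∀ y' ∈ U ∩ (univ \ D.B), ‖T (D.g y')‖ ≤ C := by
  obtain ⟨K, hK, hyK⟩ := exists_compact_mem_nhds y
  have h1 : IsCompact ((fun p : D.Γ => p.1.2) ⁻¹' K) := D.proper2.isCompact_preimage hK
  obtain ⟨C, hC⟩ := h1.exists_bound_of_continuousOn (f := fun p : D.Γ => T p.1.1)
    (by fun_prop)
  refine ⟨K, hyK, C, ?_⟩
  rintro y' ⟨hy', -, hyB⟩
  exact hC ⟨(D.g y', y'), (D.g_iff y' hyB _).mpr rfl⟩ hy'

/-- properness of the pulled back function -/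
theorem exists_compact {T : X → ℂ} (hT : ∀ K : Set ℂ, IsCompact K → IsCompact (T ⁻¹' K)) (C : ℝ) :
    ∃ L : Set Y, IsCompact L ∧ ∀ y ∉ D.B, ‖T (D.g y)‖ ≤ C → y ∈ L := by
  have h1 : IsCompact ((fun p : D.Γ => p.1.1) ⁻¹' (T ⁻¹' closedBall 0 C)) :=
    D.proper1.isCompact_preimage (hT _ (isCompact_closedBall _ _))
  refine ⟨(fun p : D.Γ => p.1.2) '' ((fun p : D.Γ => p.1.1) ⁻¹' (T ⁻¹' closedBall 0 C)),
    h1.image D.proper2.continuous, ?_⟩
  intro y hy hC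
  refine ⟨⟨(D.g y, y), (D.g_iff y hy _).mpr rfl⟩, ?_, rfl⟩
  simpa using hC

include D in
theorem not_compact {T : X → ℂ} (hT : Continuous T) (hTu : ∀ C : ℝ, ∃ x, C < ‖T x‖) :
    ¬ CompactSpace Y := by
  intro hcomp
  have h1 : IsCompact ((fun p : D.Γ => p.1.2) ⁻¹' univ) :=
    D.proper2.isCompact_preimage isCompact_univ
  obtain ⟨C, hC⟩ := h1.exists_bound_of_continuousOn (f := fun p : D.Γ => T p.1.1)
    (by fun_prop)
  have h2 : ∀ x ∈ D.Aᶜ, ‖T x‖ ≤ C := by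
    intro x hx
    exact hC ⟨(x, D.gX x), (D.gX_iff x hx _).mpr rfl⟩ (mem_univ _)
  obtain ⟨x, hx⟩ := hTu C
  have h3 : closure D.Aᶜ ⊆ {x | ‖T x‖ ≤ C} :=
    closure_minimal h2 (isClosed_le (by fun_prop) continuous_const)
  have h4 : x ∈ {x | ‖T x‖ ≤ C} := h3 (D.dense_Ac x)
  exact absurd h4 (not_le.mpr hx)

end BimData

end

end Pool.Agent.Helper40
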