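import Mathlib
import Pool.Agent.Helper40.BimData
open MeasureTheory Set Metric Real Filter Topology
open scoped ENNReal Manifold ContDiff

namespace Pool.Agent.Helper40

namespace BimData

variable {E : Type*} [NormedAddCommGroup E] [NormedSpace ℂ E]
    {X : Type*} [TopologicalSpace X] [ChartedSpace E X]
    {E' : Type*} [NormedAddCommGroup E'] [NormedSpace ℂ E']
    {Y : Type*} [TopologicalSpace Y] [ChartedSpace E' Y]
    (D : BimData E X E' Y)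

theorem g_smoothAt {y : Y} (hy : y ∉ D.B) : ContMDiffAt 𝓘(ℂ, E') 𝓘(ℂ, E) ω D.g y :=
  (D.g_smooth y hy).contMDiffAt (D.isClosed_B.isOpen_compl.mem_nhds hy)

theorem gX_smoothAt {x : X} (hx : x ∉ D.A) : ContMDiffAt 𝓘(ℂ, E) 𝓘(ℂ, E') ω D.gX x :=
  (D.gX_smooth x hx).contMDiffAt (D.isClosed_A.isOpen_compl.mem_nhds hx)

theorem eventually_gX_g {y : Y} (hy : y ∉ D.B) (hgy : D.g y ∉ D.A) :
    D.gX ∘ D.g =ᶠ[𝓝 y] id := by
  have h1 : ∀ᶠ y' in 𝓝 y, y' ∉ D.B := D.isClosed_B.isOpen_compl.mem_nhds hy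
  have h2 : ∀ᶠ y' in 𝓝 y, D.g y' ∉ D.A :=
    (D.g_smoothAt hy).continuousAt.preimage_mem_nhds (D.isClosed_A.isOpen_compl.mem_nhds hgy)
  filter_upwards [h1, h2] with y' h3 h4
  exact D.gX_g h3 h4

theorem eventually_g_gX {x : X} (hx : x ∉ D.A) (hgx : D.gX x ∉ D.B) :
    D.g ∘ D.gX =ᶠ[𝓝 x] id := by
  have h1 : ∀ᶠ x' in 𝓝 x, x' ∉ D.A := D.isClosed_A.isOpen_compl.mem_nhds hx
  have h2 : ∀ᶠ x' in 𝓝 x, D.gX x' ∉ D.B :=
    (D.gX_smoothAt hx).continuousAt.preimage_mem_nhds (D.isClosed_B.isOpen_compl.mem_nhds hgx)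
  filter_upwards [h1, h2] with x' h3 h4
  exact D.g_gX h3 h4

include D in
theorem nonempty_equiv [IsManifold 𝓘(ℂ, E) ω X] [IsManifold 𝓘(ℂ, E') ω Y] :
    Nonempty (E ≃L[ℂ] E') := by
  obtain ⟨y, hy, hgy⟩ := D.good
  have hyy : D.gX (D.g y) = y := D.gX_g hy hgy
  have d1 : MDifferentiableAt 𝓘(ℂ, E') 𝓘(ℂ, E) D.g y :=
    (D.g_smoothAt hy).mdifferentiableAt (by simp)
  have d2 : MDifferentiableAt 𝓘(ℂ, E) 𝓘(ℂ, E') D.gX (D.g y) :=
    (D.gX_smoothAt hgy).mdifferentiableAt (by simp)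
  have d3 : MDifferentiableAt 𝓘(ℂ, E') 𝓘(ℂ, E) D.g (D.gX (D.g y)) := by rw [hyy]; exact d1
  have e1 := mfderiv_comp y d2 d1
  have e2 := mfderiv_comp (D.g y) d3 d2
  rw [(D.eventually_gX_g hy hgy).mfderiv_eq, mfderiv_id] at e1
  rw [(D.eventually_g_gX hgy (by rw [hyy]; exact hy)).mfderiv_eq, mfderiv_id] at e2
  rw [hyy] at e2
  set P : E' →L[ℂ] E := mfderiv 𝓘(ℂ, E') 𝓘(ℂ, E) D.g y with hP
  set Q : E →L[ℂ] E' := mfderiv 𝓘(ℂ, E) 𝓘(ℂ, E') D.gX (D.g y) with hQ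
  refine ⟨ContinuousLinearEquiv.equivOfInverse Q P ?_ ?_⟩
  · intro v
    exact (congrArg (fun L : E →L[ℂ] E => L v) e2).symm
  · intro v
    exact (congrArg (fun L : E' →L[ℂ] E' => L v) e1).symm

variable [IsManifold 𝓘(ℂ, E) ω X] [IsManifold 𝓘(ℂ, E') ω Y]

omit [IsManifold 𝓘(ℂ, E) ω X] in
theorem isPreconnected_Bc [PreconnectedSpace Y] : IsPreconnected D.Bᶜ := by
  have := (D.hB.analyticIn univ).isPreconnected_diff isOpen_univ isPreconnected_univ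
    (by rw [D.hBint, inter_empty])
  rwa [← compl_eq_univ_sdiff] at this

omit [IsManifold 𝓘(ℂ, E) ω X] in
theorem interior_preimage_A [PreconnectedSpace Y] : D.Bᶜ ∩ interior (D.g ⁻¹' D.A) = ∅ := by
  by_contra hne
  have hne' := nonempty_iff_ne_empty.mpr hne
  have hsub := (D.hA.analyticIn_preimage D.isClosed_B.isOpen_compl D.g_smooth).subset_of_interior
    D.isClosed_B.isOpen_compl D.isPreconnected_Bc hne'
  obtain ⟨y, hy, hgy⟩ := D.good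
  exact hgy (hsub hy)

theorem interior_zero [PreconnectedSpace Y] [PreconnectedSpace X] {F : X → ℂ}
    (hF : ContMDiff 𝓘(ℂ, E) 𝓘(ℂ, ℂ) ω F) (hF0 : ∃ x, F x ≠ 0) :
    D.Bᶜ ∩ interior {y | F (D.g y) = 0} = ∅ := by
  by_contra hne
  have hne' := nonempty_iff_ne_empty.mpr hne
  have hsub := (isAnalyticIn_zero (E := E') D.isClosed_B.isOpen_compl
    (hF.comp_contMDiffOn D.g_smooth)).subset_of_interior
    D.isClosed_B.isOpen_compl D.isPreconnected_Bc hne'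
  obtain ⟨y, hy, hgy⟩ := D.good
  have hyy : D.gX (D.g y) = y := D.gX_g hy hgy
  have h1 : ∀ᶠ x in 𝓝 (D.g y), F x = 0 := by
    have h2 : ∀ᶠ x' in 𝓝 (D.g y), D.gX x' ∉ D.B :=
      (D.gX_smoothAt hgy).continuousAt.preimage_mem_nhds
        (D.isClosed_B.isOpen_compl.mem_nhds (by rw [hyy]; exact hy))
    filter_upwards [h2, D.eventually_g_gX hgy (by rw [hyy]; exact hy)] with x h3 h4
    have h5 : F (D.g (D.gX x)) = 0 := hsub h3
    have h6 : D.g (D.gX x) = x := h4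
    rwa [h6] at h5
  have h7 := (isAnalyticIn_zero (E := E) isOpen_univ hF.contMDiffOn).subset_of_interior
    isOpen_univ isPreconnected_univ ⟨D.g y, mem_univ _, mem_interior_iff_mem_nhds.mpr h1⟩
  obtain ⟨x, hx⟩ := hF0
  exact hx (h7 (mem_univ x))

theorem exists_good [PreconnectedSpace Y] [PreconnectedSpace X] {F : X → ℂ}
    (hF : ContMDiff 𝓘(ℂ, E) 𝓘(ℂ, ℂ) ω F) (hF0 : ∃ x, F x ≠ 0) {U : Set Y} (hU : IsOpen U)
    (hUne : U.Nonempty) : ∃ y ∈ U, y ∉ D.B ∧ D.g y ∉ D.A ∧ F (D.g y) ≠ 0 := by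
  obtain ⟨y, hyU, hyB⟩ := D.dense_Bc.inter_open_nonempty U hU hUne
  have hU1 : IsOpen (U ∩ D.Bᶜ) := hU.inter D.isClosed_B.isOpen_compl
  obtain ⟨y1, hy1, hy1A⟩ : ∃ y1 ∈ U ∩ D.Bᶜ, D.g y1 ∉ D.A := by
    by_contra hcon
    push Not at hcon
    have : y ∈ D.Bᶜ ∩ interior (D.g ⁻¹' D.A) := by
      refine ⟨hyB, mem_interior.mpr ⟨U ∩ D.Bᶜ, hcon, hU1, ⟨hyU, hyB⟩⟩⟩
    rw [D.interior_preimage_A] at this
    exact this
  have hU2 : IsOpen (U ∩ (D.Bᶜ ∩ D.g ⁻¹' D.Aᶜ)) :=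
    hU.inter (D.g_smooth.continuousOn.isOpen_inter_preimage D.isClosed_B.isOpen_compl
      D.isClosed_A.isOpen_compl)
  by_contra hcon
  push Not at hcon
  have : y1 ∈ D.Bᶜ ∩ interior {y | F (D.g y) = 0} := by
    refine ⟨hy1.2, mem_interior.mpr ⟨_, ?_, hU2, ⟨hy1.1, hy1.2, hy1A⟩⟩⟩
    rintro y2 ⟨h1, h2, h3⟩
    exact hcon y2 h1 h2 h3
  rw [D.interior_zero hF hF0] at this
  exact this

omit [IsManifold 𝓘(ℂ, E) ω X] in
theorem exists_tendsto [LocallyCompactSpace Y] {T : X → ℂ}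
    (hT : ContMDiff 𝓘(ℂ, E) 𝓘(ℂ, ℂ) ω T) (y : Y) :
    ∃ l, Tendsto (fun y => T (D.g y)) (𝓝[D.Bᶜ] y) (𝓝 l) := by
  obtain ⟨U, hU, C, hC⟩ := D.locally_bounded hT.continuous y
  have := (D.hB.analyticIn univ).exists_tendsto (F := fun y => T (D.g y)) isOpen_univ
    (by rw [D.hBint, inter_empty])
    (by rw [← compl_eq_univ_sdiff]; exact D.isClosed_B.isOpen_compl)
    (by rw [← compl_eq_univ_sdiff]; exact hT.comp_contMDiffOn D.g_smooth) (mem_univ y) hU hC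
  rwa [← compl_eq_univ_sdiff] at this

/-- the continuous extension of `T ∘ g` -/
noncomputable def ext (T : X → ℂ) : Y → ℂ := extendFrom D.Bᶜ (fun y => T (D.g y))

omit [IsManifold 𝓘(ℂ, E) ω X] in
theorem continuous_ext [LocallyCompactSpace Y] {T : X → ℂ}
    (hT : ContMDiff 𝓘(ℂ, E) 𝓘(ℂ, ℂ) ω T) : Continuous (D.ext T) :=
  continuous_extendFrom D.dense_Bc (fun y => D.exists_tendsto hT y)

omit [IsManifold 𝓘(ℂ, E) ω X] [IsManifold 𝓘(ℂ, E') ω Y] in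
theorem ext_eq {T : X → ℂ} (hT : ContMDiff 𝓘(ℂ, E) 𝓘(ℂ, ℂ) ω T) {y : Y} (hy : y ∉ D.B) :
    D.ext T y = T (D.g y) := by
  apply extendFrom_eq (D.dense_Bc y)
  have h1 : ContinuousAt (fun y => T (D.g y)) y :=
    ContinuousAt.comp (f := D.g) hT.continuous.continuousAt (D.g_smoothAt hy).continuousAt
  exact h1.tendsto.mono_left nhdsWithin_le_nhds

omit [IsManifold 𝓘(ℂ, E) ω X] in
theorem ext_compact [LocallyCompactSpace Y] [T2Space Y] {T : X → ℂ}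
    (hT : ContMDiff 𝓘(ℂ, E) 𝓘(ℂ, ℂ) ω T)
    (hTp : ∀ K : Set ℂ, IsCompact K → IsCompact (T ⁻¹' K)) (C : ℝ) :
    ∃ L : Set Y, IsCompact L ∧ ∀ y, ‖D.ext T y‖ ≤ C → y ∈ L := by
  obtain ⟨L, hL, hL'⟩ := D.exists_compact hTp (C + 1)
  refine ⟨L, hL, fun y hy => ?_⟩
  have hcl : y ∈ closure L := by
    rw [mem_closure_iff_nhds]
    intro U hU
    have h1 : ∀ᶠ y' in 𝓝 y, ‖D.ext T y'‖ < C + 1 :=
      (D.continuous_ext hT).continuousAt.norm.eventually_lt_const (by linarith)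
    obtain ⟨V, hV, hVo, hyV⟩ := mem_nhds_iff.mp (inter_mem hU h1)
    obtain ⟨y', hy'V, hy'B⟩ := D.dense_Bc.inter_open_nonempty V hVo ⟨y, hyV⟩
    refine ⟨y', (hV hy'V).1, hL' y' hy'B ?_⟩
    have h2 : ‖D.ext T y'‖ < C + 1 := (hV hy'V).2
    rw [D.ext_eq hT hy'B] at h2
    exact h2.le
  rwa [hL.isClosed.closure_eq] at hcl

end BimData

end Pool.Agent.Helper40
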