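import Mathlib
open Set Topology Metric Filter
open scoped Manifold ContDiff ComplexConjugate

namespace Pool.Agent.Helper40

/-- Gaussian integers -/
def IsGauss (μ : ℂ) : Prop := ∃ m n : ℤ, μ = m + n * Complex.I

/-- Three entire functions `lam i` and a theta function, quasi-periodic for the Gaussian integers. -/
structure ThetaData where
  lam : Fin 3 → ℂ → ℂ
  θ : ℂ → ℂ
  e : ℂ → ℂ → ℂ
  t₁ : ℂ
  lam_diff : ∀ i, Differentiable ℂ (lam i)
  θ_diff : Differentiable ℂ θ
  e_diff : ∀ μ, IsGauss μ → Differentiable ℂ (e μ)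
  e_ne : ∀ μ, IsGauss μ → ∀ t, e μ t ≠ 0
  lam_quasi : ∀ μ, IsGauss μ → ∀ i t, lam i (t + μ) = e μ t * lam i t
  θ_quasi : ∀ μ, IsGauss μ → ∀ t, θ (t + μ) ^ 2 = e μ t * θ t ^ 2
  θ_zero : ∀ μ, IsGauss μ → θ (t₁ + μ) = 0
  θ_ne : ∃ t, θ t ≠ 0
  simple : ∀ i t, lam i t = 0 → deriv (lam i) t ≠ 0
  disjoint : ∀ i j, i ≠ j → ∀ t, ¬ (lam i t = 0 ∧ lam j t = 0)
  exists_zero : ∀ i, ∃ t, lam i t = 0

/-- squared norm -/
noncomputable def nsq (v : Fin 3 → ℂ) : ℝ := ∑ k, ‖v k‖ ^ 2

/-- the matrix of the orthogonal projection to the line spanned by `v` -/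
noncomputable def projMat (v : Fin 3 → ℂ) : Fin 3 → Fin 3 → ℂ :=
  fun i j => v i * conj (v j) / (nsq v : ℂ)

theorem nsq_pos {v : Fin 3 → ℂ} (hv : v ≠ 0) : 0 < nsq v := by
  obtain ⟨k, hk⟩ := Function.ne_iff.mp hv
  exact Finset.sum_pos' (fun i _ => by positivity) ⟨k, Finset.mem_univ k, by
    have : v k ≠ 0 := hk
    positivity⟩

theorem nsq_ne {v : Fin 3 → ℂ} (hv : v ≠ 0) : (nsq v : ℂ) ≠ 0 := by
  exact_mod_cast (nsq_pos hv).ne'

theorem continuous_nsq : Continuous nsq := by unfold nsq; fun_prop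

theorem projMat_smul {c : ℂ} (hc : c ≠ 0) (v : Fin 3 → ℂ) : projMat (c • v) = projMat v := by
  ext i j
  have h1 : (nsq (c • v) : ℂ) = (c * conj c) * nsq v := by
    rw [Complex.mul_conj, Complex.normSq_eq_norm_sq]
    simp only [nsq, Pi.smul_apply, smul_eq_mul, norm_mul, mul_pow, ← Finset.mul_sum]
    push_cast
    ring
  simp only [projMat, Pi.smul_apply, smul_eq_mul, map_mul, h1]
  have h2 : c * conj c ≠ 0 := mul_ne_zero hc (by simpa using hc)
  rw [show c * v i * (conj c * conj (v j)) = (c * conj c) * (v i * conj (v j)) by ring]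
  exact mul_div_mul_left _ _ h2

theorem projMat_diag_ne {v : Fin 3 → ℂ} (hv : v ≠ 0) (j : Fin 3) :
    projMat v j j ≠ 0 ↔ v j ≠ 0 := by
  simp [projMat, nsq_ne hv]

theorem projMat_ratio {v : Fin 3 → ℂ} (hv : v ≠ 0) {j : Fin 3} (hj : v j ≠ 0) (k : Fin 3) :
    projMat v k j / projMat v j j = v k / v j := by
  have h1 := nsq_ne hv
  have h2 : conj (v j) ≠ 0 := by simpa using hj
  simp only [projMat]
  field_simp

theorem continuousAt_projMat {v : Fin 3 → ℂ} (hv : v ≠ 0) : ContinuousAt projMat v := by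
  rw [continuousAt_pi]
  intro i
  rw [continuousAt_pi]
  intro j
  apply ContinuousAt.div
  · fun_prop
  · exact (Complex.continuous_ofReal.comp continuous_nsq).continuousAt
  · exact nsq_ne hv

/-- The complex projective plane, realised by orthogonal projections of rank one. -/
def P2 : Type := {P : Fin 3 → Fin 3 → ℂ // ∃ v : Fin 3 → ℂ, v ≠ 0 ∧ P = projMat v}

noncomputable instance : TopologicalSpace P2 := instTopologicalSpaceSubtype
instance : T2Space P2 := inferInstanceAs (T2Space (Subtype _))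
instance : SecondCountableTopology P2 :=
  inferInstanceAs (SecondCountableTopology (Subtype _))

instance : CompactSpace P2 := by
  have h1 : IsCompact {v : Fin 3 → ℂ | nsq v = 1} := by
    apply Metric.isCompact_of_isClosed_isBounded
    · exact isClosed_eq continuous_nsq continuous_const
    · rw [isBounded_iff_forall_norm_le]
      refine ⟨1, fun v hv => ?_⟩
      rw [pi_norm_le_iff_of_nonneg zero_le_one]
      intro i
      have h2 : ‖v i‖ ^ 2 ≤ nsq v :=
        Finset.single_le_sum (f := fun k => ‖v k‖ ^ 2) (fun k _ => by positivity)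
          (Finset.mem_univ i)
      have h3 : nsq v = 1 := hv
      rw [h3] at h2
      exact (sq_le_one_iff₀ (norm_nonneg _)).mp h2
  have h2 : {P : Fin 3 → Fin 3 → ℂ | ∃ v : Fin 3 → ℂ, v ≠ 0 ∧ P = projMat v} =
      projMat '' {v : Fin 3 → ℂ | nsq v = 1} := by
    ext P
    constructor
    · rintro ⟨v, hv, rfl⟩
      have hpos := nsq_pos hv
      set c : ℂ := (((Real.sqrt (nsq v))⁻¹ : ℝ) : ℂ) with hc
      have hs : 0 < Real.sqrt (nsq v) := Real.sqrt_pos.mpr hpos
      have hc0 : c ≠ 0 := by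
        rw [hc]
        exact_mod_cast (inv_pos.mpr hs).ne'
      refine ⟨c • v, ?_, projMat_smul hc0 v⟩
      change nsq (c • v) = 1
      simp only [nsq, Pi.smul_apply, smul_eq_mul, norm_mul, mul_pow, ← Finset.mul_sum]
      change ‖c‖ ^ 2 * nsq v = 1
      rw [hc, Complex.norm_real, Real.norm_of_nonneg (inv_pos.mpr hs).le, inv_pow,
        Real.sq_sqrt hpos.le]
      exact inv_mul_cancel₀ hpos.ne'
    · rintro ⟨v, hv, rfl⟩
      refine ⟨v, ?_, rfl⟩
      rintro rfl
      have : nsq 0 = 1 := hv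
      simp [nsq] at this
  have h3 : IsCompact {P : Fin 3 → Fin 3 → ℂ | ∃ v : Fin 3 → ℂ, v ≠ 0 ∧ P = projMat v} := by
    rw [h2]
    apply h1.image_of_continuousOn
    intro v hv
    apply (continuousAt_projMat ?_).continuousWithinAt
    rintro rfl
    have : nsq 0 = 1 := hv
    simp [nsq] at this
  exact isCompact_iff_compactSpace.mp h3

namespace P2

/-- the point with homogeneous coordinates `v` -/
noncomputable def mk (v : Fin 3 → ℂ) (hv : v ≠ 0) : P2 := ⟨projMat v, v, hv, rfl⟩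

/-- affine coordinates -/
noncomputable def coord (P : P2) (k j : Fin 3) : ℂ := P.1 k j / P.1 j j

theorem exists_mk (P : P2) : ∃ v, ∃ hv : v ≠ 0, P = mk v hv := by
  obtain ⟨v, hv, h⟩ := P.2
  exact ⟨v, hv, Subtype.ext h⟩

theorem coord_mk {v : Fin 3 → ℂ} (hv : v ≠ 0) {j : Fin 3} (hj : v j ≠ 0) (k : Fin 3) :
    (mk v hv).coord k j = v k / v j := projMat_ratio hv hj k

theorem mk_diag_ne {v : Fin 3 → ℂ} (hv : v ≠ 0) (j : Fin 3) : (mk v hv).1 j j ≠ 0 ↔ v j ≠ 0 :=
  projMat_diag_ne hv j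

theorem exists_diag_ne (P : P2) : ∃ j, P.1 j j ≠ 0 := by
  obtain ⟨v, hv, rfl⟩ := P.exists_mk
  obtain ⟨j, hj⟩ := Function.ne_iff.mp hv
  exact ⟨j, (mk_diag_ne hv j).mpr hj⟩

theorem coord_self {P : P2} {j : Fin 3} (hj : P.1 j j ≠ 0) : P.coord j j = 1 := div_self hj

theorem coord_ne {P : P2} {j : Fin 3} (hj : P.1 j j ≠ 0) : (fun k => P.coord k j) ≠ 0 := by
  intro h
  have := congrFun h j
  simp only [coord_self hj, Pi.zero_apply] at this
  exact one_ne_zero this

theorem mk_smul {c : ℂ} (hc : c ≠ 0) {v : Fin 3 → ℂ} (hv : v ≠ 0) (h : c • v ≠ 0) :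
    mk (c • v) h = mk v hv := Subtype.ext (projMat_smul hc v)

theorem mk_coord {P : P2} {j : Fin 3} (hj : P.1 j j ≠ 0) :
    mk (fun k => P.coord k j) (coord_ne hj) = P := by
  obtain ⟨v, hv, rfl⟩ := P.exists_mk
  have hvj := (mk_diag_ne hv j).mp hj
  have h1 : (fun k => (mk v hv).coord k j) = (v j)⁻¹ • v := by
    ext k
    rw [coord_mk hv hvj]
    simp [div_eq_inv_mul]
  apply Subtype.ext
  change projMat (fun k => (mk v hv).coord k j) = projMat v
  rw [h1]
  exact projMat_smul (inv_ne_zero hvj) v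

theorem diag_ne_iff {P : P2} {i j : Fin 3} (hj : P.1 j j ≠ 0) : P.1 i i ≠ 0 ↔ P.coord i j ≠ 0 := by
  obtain ⟨v, hv, rfl⟩ := P.exists_mk
  have hvj := (mk_diag_ne hv j).mp hj
  rw [coord_mk hv hvj, mk_diag_ne]
  simp [hvj]

theorem coord_change {P : P2} {i j : Fin 3} (hj : P.1 j j ≠ 0) (hi : P.1 i i ≠ 0) (k : Fin 3) :
    P.coord k i = P.coord k j / P.coord i j := by
  obtain ⟨v, hv, rfl⟩ := P.exists_mk
  have hvj := (mk_diag_ne hv j).mp hj
  have hvi := (mk_diag_ne hv i).mp hi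
  rw [coord_mk hv hvj, coord_mk hv hvj, coord_mk hv hvi]
  field_simp

theorem continuous_entry (i j : Fin 3) : Continuous (fun P : P2 => P.1 i j) :=
  (continuous_apply j).comp ((continuous_apply i).comp continuous_subtype_val)

theorem continuousOn_coord (k j : Fin 3) :
    ContinuousOn (fun P : P2 => P.coord k j) {P | P.1 j j ≠ 0} := by
  intro P hP
  exact ((continuous_entry k j).continuousAt.div (continuous_entry j j).continuousAt
    hP).continuousWithinAt

theorem isOpen_diag_ne (j : Fin 3) : IsOpen {P : P2 | P.1 j j ≠ 0} :=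
  isOpen_ne_fun (continuous_entry j j) continuous_const

theorem continuous_mk {Y : Type*} [TopologicalSpace Y] {f : Y → Fin 3 → ℂ} (hf : Continuous f)
    (h : ∀ y, f y ≠ 0) : Continuous (fun y => mk (f y) (h y)) := by
  apply Continuous.subtype_mk
  rw [continuous_iff_continuousAt]
  intro y
  exact ContinuousAt.comp (f := f) (continuousAt_projMat (h y)) hf.continuousAt

end P2

variable (d : ThetaData)

/-- The surface `∑ lam i (t) x i ^ 3 = 0` in the product of the projective plane and the line. -/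
def XX : Type := {p : P2 × ℂ // ∀ j, ∑ i, d.lam i p.2 * (p.1.1 i j) ^ 3 = 0}

noncomputable instance : TopologicalSpace (XX d) := instTopologicalSpaceSubtype
instance : T2Space (XX d) := inferInstanceAs (T2Space (Subtype _))
instance : SecondCountableTopology (XX d) := by
  have h : SecondCountableTopology (P2 × ℂ) := inferInstance
  exact Topology.IsInducing.secondCountableTopology
    (f := (Subtype.val : XX d → P2 × ℂ)) ⟨rfl⟩

variable {d}

namespace XX

/-- projection to the plane -/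
def P (x : XX d) : P2 := x.1.1
/-- projection to the line -/
def T (x : XX d) : ℂ := x.1.2

theorem continuous_P : Continuous (P : XX d → P2) := continuous_fst.comp continuous_subtype_val
theorem continuous_T : Continuous (T : XX d → ℂ) := continuous_snd.comp continuous_subtype_val

theorem ext' {x y : XX d} (h1 : x.P = y.P) (h2 : x.T = y.T) : x = y :=
  Subtype.ext (Prod.ext h1 h2)

theorem mem_iff {v : Fin 3 → ℂ} (hv : v ≠ 0) (t : ℂ) :
    (∀ j, ∑ i, d.lam i t * ((P2.mk v hv).1 i j) ^ 3 = 0) ↔ ∑ i, d.lam i t * v i ^ 3 = 0 := by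
  have h1 : ∀ j, ∑ i, d.lam i t * ((P2.mk v hv).1 i j) ^ 3 =
      (∑ i, d.lam i t * v i ^ 3) * (conj (v j) / (nsq v : ℂ)) ^ 3 := by
    intro j
    rw [Finset.sum_mul]
    apply Finset.sum_congr rfl
    intro i _
    change d.lam i t * (v i * conj (v j) / (nsq v : ℂ)) ^ 3 = _
    ring
  constructor
  · intro h
    obtain ⟨j, hj⟩ := Function.ne_iff.mp hv
    have h2 := h j
    rw [h1 j] at h2
    rcases mul_eq_zero.mp h2 with h3 | h3
    · exact h3
    · exfalso
      have h4 : conj (v j) ≠ 0 := by simpa using hj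
      exact pow_ne_zero 3 (div_ne_zero h4 (nsq_ne hv)) h3
  · intro h j
    rw [h1 j, h, zero_mul]

/-- the point with given homogeneous coordinates -/
noncomputable def mk (v : Fin 3 → ℂ) (hv : v ≠ 0) (t : ℂ) (h : ∑ i, d.lam i t * v i ^ 3 = 0) :
    XX d := ⟨(P2.mk v hv, t), (mem_iff hv t).mpr h⟩

@[simp] theorem mk_P (v : Fin 3 → ℂ) (hv : v ≠ 0) (t : ℂ) (h : ∑ i, d.lam i t * v i ^ 3 = 0) :
    (mk v hv t h : XX d).P = P2.mk v hv := rfl
@[simp] theorem mk_T (v : Fin 3 → ℂ) (hv : v ≠ 0) (t : ℂ) (h : ∑ i, d.lam i t * v i ^ 3 = 0) :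
    (mk v hv t h : XX d).T = t := rfl

/-- affine coordinates on the surface -/
noncomputable def coord (x : XX d) (k j : Fin 3) : ℂ := x.P.coord k j

/-- the affine pieces -/
def dom (j : Fin 3) : Set (XX d) := {x | x.P.1 j j ≠ 0}

theorem isOpen_dom (j : Fin 3) : IsOpen (dom j : Set (XX d)) :=
  (P2.isOpen_diag_ne j).preimage continuous_P

theorem exists_dom (x : XX d) : ∃ j, x ∈ dom j := x.P.exists_diag_ne

theorem continuousOn_coord (k j : Fin 3) :
    ContinuousOn (fun x : XX d => x.coord k j) (dom j) :=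
  (P2.continuousOn_coord k j).comp continuous_P.continuousOn (fun _ hx => hx)

theorem coord_self {x : XX d} {j : Fin 3} (hx : x ∈ dom j) : x.coord j j = 1 := P2.coord_self hx

theorem coord_ne {x : XX d} {j : Fin 3} (hx : x ∈ dom j) : (fun k => x.coord k j) ≠ 0 :=
  P2.coord_ne hx

theorem equation {x : XX d} {j : Fin 3} (hx : x ∈ dom j) :
    ∑ i, d.lam i x.T * x.coord i j ^ 3 = 0 := by
  rw [← mem_iff (d := d) (coord_ne hx) x.T]
  have h1 : P2.mk (fun k => x.coord k j) (coord_ne hx) = x.P := P2.mk_coord hx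
  rw [h1]
  exact x.2

theorem mk_coord {x : XX d} {j : Fin 3} (hx : x ∈ dom j) :
    mk (fun k => x.coord k j) (coord_ne hx) x.T (equation hx) = x :=
  ext' (P2.mk_coord hx) rfl

theorem coord_mk {v : Fin 3 → ℂ} (hv : v ≠ 0) {t : ℂ} (h : ∑ i, d.lam i t * v i ^ 3 = 0)
    {j : Fin 3} (hj : v j ≠ 0) (k : Fin 3) : (mk v hv t h : XX d).coord k j = v k / v j :=
  P2.coord_mk hv hj k

theorem mk_mem_dom {v : Fin 3 → ℂ} (hv : v ≠ 0) {t : ℂ} (h : ∑ i, d.lam i t * v i ^ 3 = 0)
    {j : Fin 3} : (mk v hv t h : XX d) ∈ dom j ↔ v j ≠ 0 := P2.mk_diag_ne hv j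

theorem mem_dom_iff {x : XX d} {i j : Fin 3} (hx : x ∈ dom j) : x ∈ dom i ↔ x.coord i j ≠ 0 :=
  P2.diag_ne_iff hx

theorem coord_change {x : XX d} {i j : Fin 3} (hj : x ∈ dom j) (hi : x ∈ dom i) (k : Fin 3) :
    x.coord k i = x.coord k j / x.coord i j := P2.coord_change hj hi k

theorem exists_mk (x : XX d) : ∃ v, ∃ hv : v ≠ 0, ∃ h : ∑ i, d.lam i x.T * v i ^ 3 = 0,
    x = mk v hv x.T h := by
  obtain ⟨j, hj⟩ := exists_dom x
  exact ⟨_, coord_ne hj, equation hj, (mk_coord hj).symm⟩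

theorem continuous_mk {Y : Type*} [TopologicalSpace Y] {f : Y → Fin 3 → ℂ} (hf : Continuous f)
    (h : ∀ y, f y ≠ 0) {t : Y → ℂ} (ht : Continuous t)
    (h' : ∀ y, ∑ i, d.lam i (t y) * f y i ^ 3 = 0) :
    Continuous (fun y => (mk (f y) (h y) (t y) (h' y) : XX d)) := by
  apply Continuous.subtype_mk
  exact (P2.continuous_mk hf h).prodMk ht

/-- `T` is proper -/
theorem isCompact_preimage_T {K : Set ℂ} (hK : IsCompact K) : IsCompact (T ⁻¹' K : Set (XX d)) := by
  have hcl : IsClosed {p : P2 × ℂ | ∀ j, ∑ i, d.lam i p.2 * (p.1.1 i j) ^ 3 = 0} := by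
    simp only [ofPred_forall]
    apply isClosed_iInter
    intro j
    apply isClosed_eq _ continuous_const
    apply continuous_finsetSum
    intro i _
    exact ((d.lam_diff i).continuous.comp continuous_snd).mul
      (((P2.continuous_entry i j).comp continuous_fst).pow 3)
  have hemb : IsClosedEmbedding (Subtype.val : XX d → P2 × ℂ) :=
    hcl.isClosedEmbedding_subtypeVal
  have h1 : (T ⁻¹' K : Set (XX d)) = Subtype.val ⁻¹' ((univ : Set P2) ×ˢ K) := by
    ext x
    constructor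
    · intro h
      exact ⟨mem_univ _, h⟩
    · intro h
      exact h.2
  rw [h1]
  exact hemb.isCompact_preimage (isCompact_univ.prod hK)

/-- translations -/
def shift (μ : ℂ) (hμ : IsGauss μ) (x : XX d) : XX d :=
  ⟨(x.1.1, x.1.2 + μ), fun j => by
    have h := x.2 j
    simp only
    simp_rw [d.lam_quasi μ hμ, mul_assoc]
    rw [← Finset.mul_sum, h, mul_zero]⟩

end XX

end Pool.Agent.Helper40
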