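import Mathlib
import Pool.Agent.Helper40.Surface
open Set Topology Metric Filter
open scoped Manifold ContDiff ComplexConjugate

namespace Pool.Agent.Helper40

variable (d : ThetaData)

/-- the local equation of the surface in the affine piece `j` -/
noncomputable def GG (j : Fin 3) (z : Fin 3 → ℂ) : ℂ :=
  d.lam j (z 2) + d.lam (j + 1) (z 2) * z 0 ^ 3 + d.lam (j + 2) (z 2) * z 1 ^ 3

/-- the gradient of the local equation -/
noncomputable def dG (j : Fin 3) (z : Fin 3 → ℂ) : Fin 3 → ℂ :=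
  ![3 * d.lam (j + 1) (z 2) * z 0 ^ 2, 3 * d.lam (j + 2) (z 2) * z 1 ^ 2,
    deriv (d.lam j) (z 2) + deriv (d.lam (j + 1)) (z 2) * z 0 ^ 3 +
      deriv (d.lam (j + 2)) (z 2) * z 1 ^ 3]

theorem lam_contDiff (i : Fin 3) : ContDiff ℂ ω (d.lam i) := (d.lam_diff i).contDiff

theorem dlam_contDiff (i : Fin 3) : ContDiff ℂ ω (deriv (d.lam i)) := by
  have : Differentiable ℂ (deriv (d.lam i)) := (d.lam_diff i).deriv
  exact this.contDiff

theorem GG_contDiff (j : Fin 3) : ContDiff ℂ ω (GG d j) := by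
  have h := lam_contDiff d
  unfold GG
  have h2 : ContDiff ℂ ω (fun z : Fin 3 → ℂ => z 2) := contDiff_apply ℂ ℂ 2
  have h0 : ContDiff ℂ ω (fun z : Fin 3 → ℂ => z 0) := contDiff_apply ℂ ℂ 0
  have h1 : ContDiff ℂ ω (fun z : Fin 3 → ℂ => z 1) := contDiff_apply ℂ ℂ 1
  exact (((h j).comp h2).add (((h (j + 1)).comp h2).mul (h0.pow 3))).add
    (((h (j + 2)).comp h2).mul (h1.pow 3))

theorem dG_contDiff (j k : Fin 3) : ContDiff ℂ ω (fun z => dG d j z k) := by
  have h := lam_contDiff d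
  have h' := dlam_contDiff d
  have h2 : ContDiff ℂ ω (fun z : Fin 3 → ℂ => z 2) := contDiff_apply ℂ ℂ 2
  have h0 : ContDiff ℂ ω (fun z : Fin 3 → ℂ => z 0) := contDiff_apply ℂ ℂ 0
  have h1 : ContDiff ℂ ω (fun z : Fin 3 → ℂ => z 1) := contDiff_apply ℂ ℂ 1
  unfold dG
  fin_cases k
  · exact (contDiff_const.mul ((h (j + 1)).comp h2)).mul (h0.pow 2)
  · exact (contDiff_const.mul ((h (j + 2)).comp h2)).mul (h1.pow 2)
  · exact (((h' j).comp h2).add (((h' (j + 1)).comp h2).mul (h0.pow 3))).add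
      (((h' (j + 2)).comp h2).mul (h1.pow 3))

theorem GG_hasFDerivAt (j : Fin 3) (z : Fin 3 → ℂ) :
    HasFDerivAt (GG d j) (∑ k, dG d j z k • (ContinuousLinearMap.proj k : (Fin 3 → ℂ) →L[ℂ] ℂ)) z := by
  have p0 : HasFDerivAt (fun z : Fin 3 → ℂ => z 0)
      (ContinuousLinearMap.proj 0 : (Fin 3 → ℂ) →L[ℂ] ℂ) z := hasFDerivAt_apply 0 z
  have p1 : HasFDerivAt (fun z : Fin 3 → ℂ => z 1)
      (ContinuousLinearMap.proj 1 : (Fin 3 → ℂ) →L[ℂ] ℂ) z := hasFDerivAt_apply 1 z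
  have p2 : HasFDerivAt (fun z : Fin 3 → ℂ => z 2)
      (ContinuousLinearMap.proj 2 : (Fin 3 → ℂ) →L[ℂ] ℂ) z := hasFDerivAt_apply 2 z
  have hl : ∀ i, HasFDerivAt (fun z : Fin 3 → ℂ => d.lam i (z 2))
      (deriv (d.lam i) (z 2) • (ContinuousLinearMap.proj 2 : (Fin 3 → ℂ) →L[ℂ] ℂ)) z := by
    intro i
    exact ((d.lam_diff i (z 2)).hasDerivAt).comp_hasFDerivAt z p2
  have h := ((hl j).add ((hl (j + 1)).mul (p0.pow 3))).add ((hl (j + 2)).mul (p1.pow 3))
  refine h.congr_fderiv ?_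
  ext v
  simp only [Fin.sum_univ_three, dG]
  simp
  ring

theorem exists_dG_ne {j : Fin 3} {z : Fin 3 → ℂ} (hz : GG d j z = 0) : ∃ k, dG d j z k ≠ 0 := by
  by_contra hcon
  push Not at hcon
  have h0 := hcon 0
  have h1 := hcon 1
  have h2 := hcon 2
  simp only [dG, Matrix.cons_val_zero, Matrix.cons_val_one, Matrix.cons_val, mul_eq_zero,
    OfNat.ofNat_ne_zero, false_or, pow_eq_zero_iff (two_ne_zero)] at h0 h1 h2
  have e0 : d.lam (j + 1) (z 2) * z 0 ^ 3 = 0 := by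
    rcases h0 with h | h
    · rw [h, zero_mul]
    · rw [h]; ring
  have e1 : d.lam (j + 2) (z 2) * z 1 ^ 3 = 0 := by
    rcases h1 with h | h
    · rw [h, zero_mul]
    · rw [h]; ring
  have e2 : d.lam j (z 2) = 0 := by
    have := hz
    simp only [GG, e0, e1, add_zero] at this
    exact this
  have n1 : d.lam (j + 1) (z 2) ≠ 0 := fun h =>
    d.disjoint j (j + 1) (by fin_cases j <;> decide) (z 2) ⟨e2, h⟩
  have n2 : d.lam (j + 2) (z 2) ≠ 0 := fun h =>
    d.disjoint j (j + 2) (by fin_cases j <;> decide) (z 2) ⟨e2, h⟩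
  have z0 : z 0 = 0 := h0.resolve_left n1
  have z1 : z 1 = 0 := h1.resolve_left n2
  rw [z0, z1] at h2
  simp only [ne_eq, OfNat.ofNat_ne_zero, not_false_eq_true, zero_pow, mul_zero, add_zero] at h2
  exact d.simple j (z 2) e2 h2

/-- the homogeneous vector with `j`-th coordinate `1` -/
def hvec (j : Fin 3) (z : Fin 3 → ℂ) : Fin 3 → ℂ :=
  fun i => if i = j then 1 else if i = j + 1 then z 0 else z 1

theorem hvec_self (j : Fin 3) (z : Fin 3 → ℂ) : hvec j z j = 1 := by simp [hvec]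
theorem hvec_one (j : Fin 3) (z : Fin 3 → ℂ) : hvec j z (j + 1) = z 0 := by
  fin_cases j <;> simp [hvec]
theorem hvec_two (j : Fin 3) (z : Fin 3 → ℂ) : hvec j z (j + 2) = z 1 := by
  fin_cases j <;> simp [hvec]

theorem hvec_ne (j : Fin 3) (z : Fin 3 → ℂ) : hvec j z ≠ 0 := by
  intro h
  have := congrFun h j
  rw [hvec_self] at this
  exact one_ne_zero this

theorem continuous_hvec (j : Fin 3) : Continuous (hvec j) := by
  apply continuous_pi
  intro i
  unfold hvec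
  split_ifs <;> fun_prop

theorem sum_shift (j : Fin 3) (f : Fin 3 → ℂ) : ∑ i, f i = f j + f (j + 1) + f (j + 2) := by
  rw [Fin.sum_univ_three]
  fin_cases j
  · rfl
  · change f 0 + f 1 + f 2 = f 1 + f 2 + f 0
    ring
  · change f 0 + f 1 + f 2 = f 2 + f 0 + f 1
    ring

theorem sum_hvec (j : Fin 3) (z : Fin 3 → ℂ) :
    ∑ i, d.lam i (z 2) * hvec j z i ^ 3 = GG d j z := by
  rw [sum_shift j, hvec_self, hvec_one, hvec_two, GG]
  ring

theorem eq_cases (j i : Fin 3) : i = j ∨ i = j + 1 ∨ i = j + 2 := by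
  fin_cases j <;> fin_cases i <;> decide

variable {d}

namespace XX

/-- local coordinates -/
noncomputable def zc (j : Fin 3) (x : XX d) : Fin 3 → ℂ :=
  ![x.coord (j + 1) j, x.coord (j + 2) j, x.T]

@[simp] theorem zc_zero (j : Fin 3) (x : XX d) : zc j x 0 = x.coord (j + 1) j := rfl
@[simp] theorem zc_one (j : Fin 3) (x : XX d) : zc j x 1 = x.coord (j + 2) j := rfl
@[simp] theorem zc_two (j : Fin 3) (x : XX d) : zc j x 2 = x.T := rfl

theorem hvec_zc {j : Fin 3} {x : XX d} (hx : x ∈ dom j) :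
    hvec j (zc j x) = fun k => x.coord k j := by
  ext i
  rcases eq_cases j i with rfl | rfl | rfl
  · rw [hvec_self, coord_self hx]
  · rw [hvec_one, zc_zero]
  · rw [hvec_two, zc_one]

theorem GG_zc {j : Fin 3} {x : XX d} (hx : x ∈ dom j) : GG d j (zc j x) = 0 := by
  rw [← sum_hvec, hvec_zc hx, zc_two]
  exact equation hx

theorem continuousOn_zc (j : Fin 3) : ContinuousOn (zc j : XX d → Fin 3 → ℂ) (dom j) := by
  rw [continuousOn_pi]
  intro i
  fin_cases i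
  · exact continuousOn_coord (j + 1) j
  · exact continuousOn_coord (j + 2) j
  · exact continuous_T.continuousOn

/-- the parametrisation (with a junk value off the surface) -/
noncomputable def par (j : Fin 3) (x₀ : XX d) (z : Fin 3 → ℂ) : XX d := by
  classical
  exact if h : GG d j z = 0 then mk (hvec j z) (hvec_ne j z) (z 2) (by rw [sum_hvec, h]) else x₀

theorem par_eq {j : Fin 3} {x₀ : XX d} {z : Fin 3 → ℂ} (h : GG d j z = 0) :
    par j x₀ z = mk (hvec j z) (hvec_ne j z) (z 2) (by rw [sum_hvec, h]) := by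
  simp [par, h]

theorem par_mem {j : Fin 3} {x₀ : XX d} {z : Fin 3 → ℂ} (h : GG d j z = 0) :
    par j x₀ z ∈ dom j := by
  rw [par_eq h, mk_mem_dom, hvec_self]
  exact one_ne_zero

theorem zc_par {j : Fin 3} {x₀ : XX d} {z : Fin 3 → ℂ} (h : GG d j z = 0) :
    zc j (par j x₀ z) = z := by
  have hj : hvec j z j ≠ 0 := by rw [hvec_self]; exact one_ne_zero
  rw [par_eq h]
  ext i
  fin_cases i
  · change (mk _ _ _ _ : XX d).coord (j + 1) j = z 0
    rw [coord_mk _ _ hj, hvec_self, div_one, hvec_one]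
  · change (mk _ _ _ _ : XX d).coord (j + 2) j = z 1
    rw [coord_mk _ _ hj, hvec_self, div_one, hvec_two]
  · rfl

theorem par_zc {j : Fin 3} {x₀ x : XX d} (hx : x ∈ dom j) : par j x₀ (zc j x) = x := by
  rw [par_eq (GG_zc hx)]
  apply ext'
  · change P2.mk (hvec j (zc j x)) (hvec_ne j (zc j x)) = x.P
    have h1 : P2.mk (fun k => x.coord k j) (coord_ne hx) = x.P := P2.mk_coord hx
    rw [← h1]
    congr 1
    exact hvec_zc hx
  · rfl

theorem continuousOn_par (j : Fin 3) (x₀ : XX d) :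
    ContinuousOn (par j x₀) {z | GG d j z = 0} := by
  rw [continuousOn_iff_continuous_domRestrict]
  have h1 : (({z | GG d j z = 0} : Set (Fin 3 → ℂ)).domRestrict (par j x₀)) = fun z =>
      mk (hvec j z.1) (hvec_ne j z.1) (z.1 2) (by rw [sum_hvec, z.2]) := by
    ext z
    exact par_eq z.2
  rw [h1]
  exact continuous_mk ((continuous_hvec j).comp continuous_subtype_val) (fun z => hvec_ne j z.1)
    ((continuous_apply 2).comp continuous_subtype_val) _

end XX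

/-- the map to which the inverse function theorem is applied -/
noncomputable def Phi (d : ThetaData) (j k : Fin 3) (z : Fin 3 → ℂ) : (ℂ × ℂ) × ℂ :=
  ((z (k + 1), z (k + 2)), GG d j z)

theorem Phi_contDiff (j k : Fin 3) : ContDiff ℂ ω (Phi d j k) :=
  ((contDiff_apply ℂ ℂ (k + 1)).prodMk (contDiff_apply ℂ ℂ (k + 2))).prodMk (GG_contDiff d j)

/-- derivative of `Phi` -/
noncomputable def dPhi (d : ThetaData) (j k : Fin 3) (z : Fin 3 → ℂ) :
    (Fin 3 → ℂ) →L[ℂ] (ℂ × ℂ) × ℂ :=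
  ((ContinuousLinearMap.proj (k + 1) : (Fin 3 → ℂ) →L[ℂ] ℂ).prod
    (ContinuousLinearMap.proj (k + 2) : (Fin 3 → ℂ) →L[ℂ] ℂ)).prod
    (∑ k, dG d j z k • (ContinuousLinearMap.proj k : (Fin 3 → ℂ) →L[ℂ] ℂ))

theorem Phi_hasFDerivAt (j k : Fin 3) (z : Fin 3 → ℂ) :
    HasFDerivAt (Phi d j k) (dPhi d j k z) z :=
  ((hasFDerivAt_apply (k + 1) z).prodMk (hasFDerivAt_apply (k + 2) z)).prodMk
    (GG_hasFDerivAt d j z)

theorem dPhi_injective {j k : Fin 3} {z : Fin 3 → ℂ} (h : dG d j z k ≠ 0) :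
    Function.Injective (dPhi d j k z) := by
  rw [injective_iff_map_eq_zero]
  intro v hv
  have h1 : v (k + 1) = 0 := congrArg (fun p => p.1.1) hv
  have h2 : v (k + 2) = 0 := congrArg (fun p => p.1.2) hv
  have h3 : ∑ i, dG d j z i * v i = 0 := by
    have := congrArg (fun p => p.2) hv
    simpa [dPhi] using this
  rw [sum_shift k, h1, h2, mul_zero, mul_zero, add_zero, add_zero] at h3
  have h4 : v k = 0 := (mul_eq_zero.mp h3).resolve_left h
  ext i
  rcases eq_cases k i with rfl | rfl | rfl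
  · exact h4
  · exact h1
  · exact h2

theorem exists_equiv {j k : Fin 3} {z : Fin 3 → ℂ} (h : dG d j z k ≠ 0) :
    ∃ e : (Fin 3 → ℂ) ≃L[ℂ] (ℂ × ℂ) × ℂ, (e : (Fin 3 → ℂ) →L[ℂ] (ℂ × ℂ) × ℂ) = dPhi d j k z := by
  have hfr : Module.finrank ℂ (Fin 3 → ℂ) = Module.finrank ℂ ((ℂ × ℂ) × ℂ) := by simp
  refine ⟨(LinearEquiv.ofInjectiveOfFinrankEq (dPhi d j k z : (Fin 3 → ℂ) →ₗ[ℂ] (ℂ × ℂ) × ℂ)
    (dPhi_injective h) hfr).toContinuousLinearEquiv, ?_⟩
  ext v <;> rfl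

theorem exists_psi {j k : Fin 3} {z₀ : Fin 3 → ℂ} (h : dG d j z₀ k ≠ 0) :
    ∃ Ψ : OpenPartialHomeomorph (Fin 3 → ℂ) ((ℂ × ℂ) × ℂ), z₀ ∈ Ψ.source ∧
      (∀ z, Ψ z = Phi d j k z) ∧ (∀ z ∈ Ψ.source, dG d j z k ≠ 0) ∧
      (∀ c ∈ Ψ.target, ContDiffAt ℂ ω Ψ.symm c) := by
  obtain ⟨e, he⟩ := exists_equiv h
  have hd : HasFDerivAt (Phi d j k) (e : (Fin 3 → ℂ) →L[ℂ] (ℂ × ℂ) × ℂ) z₀ := by
    rw [he]; exact Phi_hasFDerivAt j k z₀
  have hc : ContDiffAt ℂ ω (Phi d j k) z₀ := (Phi_contDiff j k).contDiffAt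
  set Ψ0 := hc.toOpenPartialHomeomorph (Phi d j k) hd (by simp) with hΨ0
  have hopen : IsOpen {z | dG d j z k ≠ 0} :=
    isOpen_ne_fun (dG_contDiff d j k).continuous continuous_const
  set Ψ := Ψ0.restrOpen {z | dG d j z k ≠ 0} hopen with hΨ
  have hsrc : Ψ.source = Ψ0.source ∩ {z | dG d j z k ≠ 0} := Ψ0.restrOpen_source _ _
  have hcoe : ∀ z, Ψ z = Phi d j k z := fun z => rfl
  refine ⟨Ψ, ?_, hcoe, ?_, ?_⟩
  · rw [hsrc]
    exact ⟨hc.mem_toOpenPartialHomeomorph_source hd (by simp), h⟩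
  · intro z hz
    rw [hsrc] at hz
    exact hz.2
  · intro c hc'
    have hz : Ψ.symm c ∈ Ψ.source := Ψ.map_target hc'
    rw [hsrc] at hz
    obtain ⟨e', he'⟩ := exists_equiv hz.2
    refine Ψ.contDiffAt_symm (f₀' := e') hc' ?_ ?_
    · have h1 : (Ψ : (Fin 3 → ℂ) → (ℂ × ℂ) × ℂ) = Phi d j k := funext hcoe
      rw [h1, he']
      exact Phi_hasFDerivAt j k _
    · have h1 : (Ψ : (Fin 3 → ℂ) → (ℂ × ℂ) × ℂ) = Phi d j k := funext hcoe
      rw [h1]
      exact (Phi_contDiff j k).contDiffAt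

namespace XX

/-- charts of the surface: two of the three affine coordinates -/
structure Nice (j k : Fin 3) (κ : OpenPartialHomeomorph (XX d) (ℂ × ℂ)) : Prop where
  dom : κ.source ⊆ XX.dom j
  dG_ne : ∀ y ∈ κ.source, dG d j (zc j y) k ≠ 0
  coe : ∀ y, κ y = (zc j y (k + 1), zc j y (k + 2))
  smooth : ∀ c ∈ κ.target, ContDiffAt ℂ ω (fun c => zc j (κ.symm c)) c

theorem exists_nice {j k : Fin 3} {x₀ : XX d} (hx : x₀ ∈ dom j) (h : dG d j (zc j x₀) k ≠ 0) :
    ∃ κ : OpenPartialHomeomorph (XX d) (ℂ × ℂ), x₀ ∈ κ.source ∧ Nice j k κ := by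
  obtain ⟨Ψ, h0, hcoe, hne, hsm⟩ := exists_psi h
  have hG0 : ∀ c : ℂ × ℂ, (c, (0:ℂ)) ∈ Ψ.target → GG d j (Ψ.symm (c, 0)) = 0 := by
    intro c hc
    have h1 := Ψ.right_inv hc
    rw [hcoe] at h1
    exact congrArg Prod.snd h1
  have hΨz : ∀ y ∈ (dom j : Set (XX d)), Ψ (zc j y) = ((zc j y (k + 1), zc j y (k + 2)), 0) := by
    intro y hy
    rw [hcoe, Phi, GG_zc hy]
  have hcont : Continuous (fun c : ℂ × ℂ => (c, (0:ℂ))) := by fun_prop
  let κ : OpenPartialHomeomorph (XX d) (ℂ × ℂ) :=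
    { toFun := fun y => (zc j y (k + 1), zc j y (k + 2))
      invFun := fun c => par j x₀ (Ψ.symm (c, 0))
      source := dom j ∩ zc j ⁻¹' Ψ.source
      target := (fun c : ℂ × ℂ => (c, (0:ℂ))) ⁻¹' Ψ.target
      map_source' := by
        rintro y ⟨hy, hy'⟩
        change (((zc j y (k + 1), zc j y (k + 2)), 0) : (ℂ × ℂ) × ℂ) ∈ Ψ.target
        rw [← hΨz y hy]
        exact Ψ.map_source hy'
      map_target' := by
        intro c hc
        refine ⟨par_mem (hG0 c hc), ?_⟩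
        change zc j (par j x₀ (Ψ.symm (c, 0))) ∈ Ψ.source
        rw [zc_par (hG0 c hc)]
        exact Ψ.map_target hc
      left_inv' := by
        rintro y ⟨hy, hy'⟩
        rw [← hΨz y hy, Ψ.left_inv hy', par_zc hy]
      right_inv' := by
        intro c hc
        rw [zc_par (hG0 c hc)]
        have h1 := Ψ.right_inv hc
        rw [hcoe] at h1
        exact congrArg Prod.fst h1
      open_source := (continuousOn_zc j).isOpen_inter_preimage (isOpen_dom j) Ψ.open_source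
      open_target := Ψ.open_target.preimage hcont
      continuousOn_toFun := by
        have h1 := (continuousOn_zc (d := d) j).mono
          (inter_subset_left : dom j ∩ zc j ⁻¹' Ψ.source ⊆ dom j)
        exact ((continuous_apply (k + 1)).comp_continuousOn h1).prodMk
          ((continuous_apply (k + 2)).comp_continuousOn h1)
      continuousOn_invFun := by
        apply (continuousOn_par j x₀).comp
        · exact Ψ.continuousOn_symm.comp hcont.continuousOn (fun c hc => hc)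
        · intro c hc
          exact hG0 c hc }
  refine ⟨κ, ⟨hx, h0⟩, ⟨inter_subset_left, fun y hy => hne _ hy.2, fun y => rfl, ?_⟩⟩
  intro c hc
  have hev : (fun c => zc j (κ.symm c)) =ᶠ[𝓝 c] fun c => Ψ.symm (c, 0) := by
    filter_upwards [κ.open_target.mem_nhds hc] with c' hc'
    exact zc_par (hG0 c' hc')
  apply ContDiffAt.congr_of_eventuallyEq _ hev
  have h1 : ContDiffAt ℂ ω Ψ.symm (c, (0:ℂ)) := hsm _ hc
  exact h1.comp c (contDiffAt_id.prodMk contDiffAt_const)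

theorem exists_nice' (x : XX d) : ∃ (j k : Fin 3) (κ : OpenPartialHomeomorph (XX d) (ℂ × ℂ)),
    x ∈ κ.source ∧ Nice j k κ := by
  obtain ⟨j, hj⟩ := exists_dom x
  obtain ⟨k, hk⟩ := exists_dG_ne d (GG_zc hj)
  obtain ⟨κ, h1, h2⟩ := exists_nice hj hk
  exact ⟨j, k, κ, h1, h2⟩

noncomputable instance : ChartedSpace (ℂ × ℂ) (XX d) where
  atlas := {κ | ∃ j k, Nice j k κ}
  chartAt x := (exists_nice' x).choose_spec.choose_spec.choose
  mem_chart_source x := (exists_nice' x).choose_spec.choose_spec.choose_spec.1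
  chart_mem_atlas x := ⟨_, _, (exists_nice' x).choose_spec.choose_spec.choose_spec.2⟩

theorem Nice.mem_atlas {j k : Fin 3} {κ : OpenPartialHomeomorph (XX d) (ℂ × ℂ)}
    (h : Nice j k κ) : κ ∈ atlas (ℂ × ℂ) (XX d) := ⟨j, k, h⟩

theorem Nice.coord_smooth {j k : Fin 3} {κ : OpenPartialHomeomorph (XX d) (ℂ × ℂ)}
    (h : Nice j k κ) {c : ℂ × ℂ} (hc : c ∈ κ.target) (i : Fin 3) :
    ContDiffAt ℂ ω (fun c => (κ.symm c).coord i j) c := by
  have h1 := h.smooth c hc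
  rcases eq_cases j i with rfl | rfl | rfl
  · apply (contDiffAt_const (c := (1:ℂ))).congr_of_eventuallyEq
    filter_upwards [κ.open_target.mem_nhds hc] with c' hc'
    exact coord_self (h.dom (κ.map_target hc'))
  · exact contDiffAt_pi.mp h1 0
  · exact contDiffAt_pi.mp h1 1

theorem Nice.T_smooth {j k : Fin 3} {κ : OpenPartialHomeomorph (XX d) (ℂ × ℂ)}
    (h : Nice j k κ) {c : ℂ × ℂ} (hc : c ∈ κ.target) :
    ContDiffAt ℂ ω (fun c => (κ.symm c).T) c :=
  contDiffAt_pi.mp (h.smooth c hc) 2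

theorem Nice.coord_smooth' {j k : Fin 3} {κ : OpenPartialHomeomorph (XX d) (ℂ × ℂ)}
    (h : Nice j k κ) {c : ℂ × ℂ} (hc : c ∈ κ.target) {j' : Fin 3} (hj' : κ.symm c ∈ XX.dom j')
    (i : Fin 3) :
    ContDiffAt ℂ ω (fun c => (κ.symm c).coord i j') c := by
  have hcj : κ.symm c ∈ XX.dom j := h.dom (κ.map_target hc)
  have h1 : (fun c => (κ.symm c).coord i j') =ᶠ[𝓝 c]
      fun c => (κ.symm c).coord i j / (κ.symm c).coord j' j := by
    have hcont : ContinuousAt κ.symm c := κ.symm.continuousAt hc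
    filter_upwards [hcont.preimage_mem_nhds ((isOpen_dom j).mem_nhds hcj),
      hcont.preimage_mem_nhds ((isOpen_dom j').mem_nhds hj')] with c' h1 h2
    exact coord_change h1 h2 i
  apply ContDiffAt.congr_of_eventuallyEq _ h1
  exact (h.coord_smooth hc i).div (h.coord_smooth hc j') ((mem_dom_iff hcj).mp hj')

theorem Nice.zc_smooth {j k : Fin 3} {κ : OpenPartialHomeomorph (XX d) (ℂ × ℂ)}
    (h : Nice j k κ) {c : ℂ × ℂ} (hc : c ∈ κ.target) {j' : Fin 3} (hj' : κ.symm c ∈ XX.dom j') :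
    ContDiffAt ℂ ω (fun c => zc j' (κ.symm c)) c := by
  rw [contDiffAt_pi]
  intro i
  fin_cases i
  · exact h.coord_smooth' hc hj' (j' + 1)
  · exact h.coord_smooth' hc hj' (j' + 2)
  · exact h.T_smooth hc

instance : IsManifold 𝓘(ℂ, ℂ × ℂ) ω (XX d) := by
  apply isManifold_of_contDiffOn
  rintro κ κ' ⟨j, k, h⟩ ⟨j', k', h'⟩
  simp only [modelWithCornersSelf_coe, modelWithCornersSelf_coe_symm, Function.id_comp,
    Function.comp_id, range_id, inter_univ, preimage_id_eq, id]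
  intro c hc
  rw [OpenPartialHomeomorph.trans_source] at hc
  have hc1 : c ∈ κ.target := hc.1
  have hc2 : κ.symm c ∈ κ'.source := hc.2
  have h1 := h.zc_smooth hc1 (h'.dom hc2)
  apply ContDiffAt.contDiffWithinAt
  have h2 : ((κ.symm.trans κ' : OpenPartialHomeomorph (ℂ × ℂ) (ℂ × ℂ)) : ℂ × ℂ → ℂ × ℂ) =
      fun c => (zc j' (κ.symm c) (k' + 1), zc j' (κ.symm c) (k' + 2)) := by
    ext1 c
    exact h'.coe _
  rw [h2]
  exact (contDiffAt_pi.mp h1 (k' + 1)).prodMk (contDiffAt_pi.mp h1 (k' + 2))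

theorem Nice.mem_maximalAtlas {j k : Fin 3} {κ : OpenPartialHomeomorph (XX d) (ℂ × ℂ)}
    (h : Nice j k κ) : κ ∈ IsManifold.maximalAtlas 𝓘(ℂ, ℂ × ℂ) ω (XX d) :=
  IsManifold.subset_maximalAtlas h.mem_atlas

theorem Nice.contMDiffAt {j k : Fin 3} {κ : OpenPartialHomeomorph (XX d) (ℂ × ℂ)}
    (h : Nice j k κ) {F : Type*} [NormedAddCommGroup F] [NormedSpace ℂ F] {f : XX d → F}
    {x : XX d} (hx : x ∈ κ.source) (hf : ContDiffAt ℂ ω (fun c => f (κ.symm c)) (κ x)) :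
    ContMDiffAt 𝓘(ℂ, ℂ × ℂ) 𝓘(ℂ, F) ω f x := by
  have h1 : ContMDiffAt 𝓘(ℂ, ℂ × ℂ) 𝓘(ℂ, ℂ × ℂ) ω κ x :=
    contMDiffAt_of_mem_maximalAtlas h.mem_maximalAtlas hx
  have h2 := hf.contMDiffAt.comp x h1
  apply h2.congr_of_eventuallyEq
  filter_upwards [κ.open_source.mem_nhds hx] with y hy
  simp only [Function.comp]
  rw [κ.left_inv hy]

theorem contMDiff_T : ContMDiff 𝓘(ℂ, ℂ × ℂ) 𝓘(ℂ, ℂ) ω (T : XX d → ℂ) := by
  intro x
  obtain ⟨j, k, κ, hx, h⟩ := exists_nice' x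
  exact h.contMDiffAt hx (h.T_smooth (κ.map_source hx))

theorem contMDiffAt_zc {j : Fin 3} {x : XX d} (hj : x ∈ dom j) :
    ContMDiffAt 𝓘(ℂ, ℂ × ℂ) 𝓘(ℂ, Fin 3 → ℂ) ω (zc j) x := by
  obtain ⟨j', k, κ, hx, h⟩ := exists_nice' x
  apply h.contMDiffAt hx
  apply h.zc_smooth (κ.map_source hx)
  rwa [κ.left_inv hx]

theorem contMDiffAt_coord {j : Fin 3} {x : XX d} (hj : x ∈ dom j) (i : Fin 3) :
    ContMDiffAt 𝓘(ℂ, ℂ × ℂ) 𝓘(ℂ, ℂ) ω (fun x => x.coord i j) x := by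
  obtain ⟨j', k, κ, hx, h⟩ := exists_nice' x
  apply h.contMDiffAt hx
  apply h.coord_smooth' (κ.map_source hx)
  rwa [κ.left_inv hx]

/-- smooth maps to the surface -/
theorem contMDiffAt_of_zc {E' : Type*} [NormedAddCommGroup E'] [NormedSpace ℂ E']
    {H' : Type*} [TopologicalSpace H'] {I' : ModelWithCorners ℂ E' H'}
    {N : Type*} [TopologicalSpace N] [ChartedSpace H' N] {g : N → XX d} {y : N}
    (hg : ContinuousAt g y) {j : Fin 3} (hj : g y ∈ dom j)
    (h : ContMDiffAt I' 𝓘(ℂ, Fin 3 → ℂ) ω (fun y => zc j (g y)) y) :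
    ContMDiffAt I' 𝓘(ℂ, ℂ × ℂ) ω g y := by
  obtain ⟨k, hk⟩ := exists_dG_ne d (GG_zc hj)
  obtain ⟨κ, hx, hκ⟩ := exists_nice hj hk
  have h1 : ContMDiffAt I' 𝓘(ℂ, ℂ × ℂ) ω (fun y => κ (g y)) y := by
    have e : (fun y => κ (g y)) = (fun z : Fin 3 → ℂ => (z (k + 1), z (k + 2))) ∘
        fun y => zc j (g y) := by
      ext1 y
      exact hκ.coe _
    rw [e]
    have h2 : ContDiff ℂ ω (fun z : Fin 3 → ℂ => (z (k + 1), z (k + 2))) :=
      (contDiff_apply ℂ ℂ (k + 1)).prodMk (contDiff_apply ℂ ℂ (k + 2))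
    exact h2.contMDiff.contMDiffAt.comp y h
  have h3 : ContMDiffAt 𝓘(ℂ, ℂ × ℂ) 𝓘(ℂ, ℂ × ℂ) ω κ.symm (κ (g y)) :=
    contMDiffAt_symm_of_mem_maximalAtlas hκ.mem_maximalAtlas (κ.map_source hx)
  have h4 := h3.comp y h1
  apply h4.congr_of_eventuallyEq
  filter_upwards [hg.preimage_mem_nhds (κ.open_source.mem_nhds hx)] with y' hy'
  simp only [Function.comp]
  rw [κ.left_inv hy']

theorem continuous_shift (μ : ℂ) (hμ : IsGauss μ) : Continuous (shift μ hμ : XX d → XX d) := by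
  apply Continuous.subtype_mk
  exact (continuous_fst.comp continuous_subtype_val).prodMk
    ((continuous_snd.comp continuous_subtype_val).add continuous_const)

theorem contMDiff_shift (μ : ℂ) (hμ : IsGauss μ) :
    ContMDiff 𝓘(ℂ, ℂ × ℂ) 𝓘(ℂ, ℂ × ℂ) ω (shift μ hμ : XX d → XX d) := by
  intro x
  obtain ⟨j, hj⟩ := exists_dom x
  have hj' : shift μ hμ x ∈ dom j := hj
  apply contMDiffAt_of_zc (continuous_shift μ hμ).continuousAt hj'
  rw [contMDiffAt_pi_space]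
  intro i
  fin_cases i
  · exact contMDiffAt_coord hj (j + 1)
  · exact contMDiffAt_coord hj (j + 2)
  · have h1 : ContDiff ℂ ω (fun t : ℂ => t + μ) := contDiff_id.add contDiff_const
    exact (h1.contMDiff.contMDiffAt).comp x (contMDiff_T x)

end XX

end Pool.Agent.Helper40
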