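import Mathlib

open Set Filter Topology Metric Complex

namespace Pool.Agent.Helper40

/-- The maximum principle for functions continuous on the closure of the non-vanishing set. -/
theorem rado_max {f : ℂ → ℂ} (hf : ContinuousOn f (closedBall 0 1))
    (hd : ∀ z ∈ ball (0 : ℂ) 1, f z ≠ 0 → DifferentiableAt ℂ f z)
    {g : ℂ → ℂ} {m : ℝ} (hm : 0 ≤ m)
    (hgc : ContinuousOn g (closure {z | z ∈ ball (0 : ℂ) 1 ∧ f z ≠ 0}))
    (hgd : DifferentiableOn ℂ g {z | z ∈ ball (0 : ℂ) 1 ∧ f z ≠ 0})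
    (hgm : ∀ z ∈ closure {z | z ∈ ball (0 : ℂ) 1 ∧ f z ≠ 0}, z ∈ sphere (0 : ℂ) 1 → ‖g z‖ ≤ m)
    {a : ℂ} (ha : a ∈ {z | z ∈ ball (0 : ℂ) 1 ∧ f z ≠ 0}) : ‖g a‖ ≤ m := by
  set Ω : Set ℂ := {z | z ∈ ball (0 : ℂ) 1 ∧ f z ≠ 0} with hΩ
  have hΩb : Ω ⊆ ball 0 1 := fun z hz => hz.1
  have hcl : closure Ω ⊆ closedBall 0 1 :=
    closure_minimal (hΩb.trans ball_subset_closedBall) isClosed_closedBall
  have hΩo : IsOpen Ω := by
    have h1 : ContinuousOn f (ball 0 1) := hf.mono ball_subset_closedBall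
    exact h1.isOpen_inter_preimage isOpen_ball isOpen_compl_singleton
  obtain ⟨C, hC⟩ := (isCompact_closedBall (0 : ℂ) 1).exists_bound_of_continuousOn hf
  have hC0 : 0 < C := lt_of_lt_of_le (norm_pos_iff.2 ha.2) (hC a (ball_subset_closedBall ha.1))
  have key : ∀ n : ℕ, ‖f a‖ * ‖g a‖ ^ (n + 1) ≤ C * m ^ (n + 1) := by
    intro n
    have hF : DiffContOnCl ℂ (fun z => f z * g z ^ (n + 1)) Ω := by
      refine ⟨?_, ?_⟩
      · intro z hz
        exact ((hd z hz.1 hz.2).differentiableWithinAt).mul ((hgd z hz).pow (n + 1))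
      · exact (hf.mono hcl).mul (hgc.pow (n + 1))
    have := Complex.norm_le_of_forall_mem_frontier_norm_le (isBounded_ball.subset hΩb) hF
      (C := C * m ^ (n + 1)) (z := a) ?_ (subset_closure ha)
    · simpa [norm_mul, norm_pow] using this
    · intro z hz
      have hzc : z ∈ closure Ω := frontier_subset_closure hz
      have hzn : z ∉ Ω := by
        rw [hΩo.frontier_eq] at hz
        exact hz.2
      rw [norm_mul, norm_pow]
      by_cases hzs : z ∈ sphere (0 : ℂ) 1
      · exact mul_le_mul (hC z (hcl hzc)) (pow_le_pow_left₀ (norm_nonneg _) (hgm z hzc hzs) _)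
          (by positivity) hC0.le
      · have hzb : z ∈ ball (0 : ℂ) 1 := by
          have := hcl hzc
          rw [mem_closedBall] at this
          rw [mem_sphere] at hzs
          rw [mem_ball]
          exact lt_of_le_of_ne this hzs
        have hfz : f z = 0 := by
          by_contra h
          exact hzn ⟨hzb, h⟩
        rw [hfz, norm_zero, zero_mul]
        positivity
  by_contra hlt
  push Not at hlt
  have hga : 0 < ‖g a‖ := lt_of_le_of_lt hm hlt
  have hfa : 0 < ‖f a‖ := norm_pos_iff.2 ha.2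
  have h1 : Tendsto (fun n : ℕ => C * (m / ‖g a‖) ^ (n + 1)) atTop (𝓝 (C * 0)) := by
    apply Tendsto.const_mul
    exact (tendsto_pow_atTop_nhds_zero_of_lt_one (div_nonneg hm hga.le)
      ((div_lt_one hga).2 hlt)).comp (tendsto_add_atTop_nat 1)
  rw [mul_zero] at h1
  have h2 : ‖f a‖ ≤ 0 := by
    refine ge_of_tendsto h1 (Eventually.of_forall fun n => ?_)
    have := key n
    rw [div_pow, ← mul_div_assoc, le_div_iff₀ (by positivity)]
    exact this
  linarith

/-- density of the non-vanishing set -/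
theorem rado_dense {f : ℂ → ℂ} (hf : ContinuousOn f (closedBall 0 1))
    (hd : ∀ z ∈ ball (0 : ℂ) 1, f z ≠ 0 → DifferentiableAt ℂ f z)
    (hne : {z | z ∈ ball (0 : ℂ) 1 ∧ f z ≠ 0}.Nonempty) :
    ball (0 : ℂ) 1 ⊆ closure {z | z ∈ ball (0 : ℂ) 1 ∧ f z ≠ 0} := by
  set Ω : Set ℂ := {z | z ∈ ball (0 : ℂ) 1 ∧ f z ≠ 0} with hΩ
  -- the main inequality
  have key : ∀ a ∈ Ω, ∀ b ∈ ball (0 : ℂ) 1, b ∉ closure Ω → 1 - ‖b‖ ≤ ‖a - b‖ := by
    intro a ha b hb hbΩ
    have hb1 : ‖b‖ < 1 := by simpa using hb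
    have hne' : ∀ z ∈ closure Ω, z - b ≠ 0 := by
      intro z hz h
      rw [sub_eq_zero] at h
      exact hbΩ (h ▸ hz)
    have h := rado_max hf hd (g := fun z => (z - b)⁻¹) (m := (1 - ‖b‖)⁻¹)
      (inv_nonneg.2 (by linarith)) ?_ ?_ ?_ ha
    · rw [norm_inv] at h
      have hab : 0 < ‖a - b‖ := norm_pos_iff.2 (hne' a (subset_closure ha))
      rwa [inv_le_inv₀ hab (by linarith)] at h
    · exact (continuousOn_id.sub continuousOn_const).inv₀ hne'
    · intro z hz
      exact ((differentiableAt_id.sub_const b).inv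
        (hne' z (subset_closure hz))).differentiableWithinAt
    · intro z hz hzs
      rw [norm_inv]
      have hz1 : ‖z‖ = 1 := by simpa using hzs
      have h1 : 1 - ‖b‖ ≤ ‖z - b‖ := by
        have := norm_sub_norm_le z b
        linarith
      exact inv_anti₀ (by linarith) h1
  by_contra hno
  rw [not_subset] at hno
  obtain ⟨b0, hb0, hb0'⟩ := hno
  -- connectedness
  have hpre : IsPreconnected (ball (0 : ℂ) 1) := (convex_ball _ _).isPreconnected
  obtain ⟨a0, ha0⟩ := hne
  -- V is open, relatively closed would give a contradiction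
  have hV : ∃ z0 ∈ ball (0 : ℂ) 1, z0 ∈ closure (ball (0 : ℂ) 1 ∩ (closure Ω)ᶜ) ∧ z0 ∈ closure Ω := by
    by_contra hcon
    push Not at hcon
    have h1 := hpre (closure Ω)ᶜ (closure (ball (0 : ℂ) 1 ∩ (closure Ω)ᶜ))ᶜ
      isClosed_closure.isOpen_compl isClosed_closure.isOpen_compl ?_ ⟨b0, hb0, hb0'⟩ ?_
    · obtain ⟨z, hz, hz1, hz2⟩ := h1
      exact hz2 (subset_closure ⟨hz, hz1⟩)
    · intro z hz
      by_cases h : z ∈ closure Ω
      · right
        intro h2
        exact hcon z hz h2 h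
      · exact Or.inl h
    · refine ⟨a0, ha0.1, ?_⟩
      intro h2
      exact hcon a0 ha0.1 h2 (subset_closure ha0)
  obtain ⟨z0, hz0, hz1, hz2⟩ := hV
  have hz0' : ‖z0‖ < 1 := by simpa using hz0
  set δ : ℝ := (1 - ‖z0‖) / 4 with hδ
  have hδ0 : 0 < δ := by rw [hδ]; linarith
  obtain ⟨b, hb, hbd⟩ := Metric.mem_closure_iff.1 hz1 δ hδ0
  obtain ⟨a, ha, had⟩ := Metric.mem_closure_iff.1 hz2 δ hδ0
  have h1 := key a ha b hb.1 hb.2
  have h2 : ‖a - b‖ < 2 * δ := by
    have : dist a b ≤ dist z0 a + dist z0 b := by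
      rw [dist_comm z0 a]; exact dist_triangle _ _ _
    rw [dist_eq_norm] at this
    linarith
  have h3 : ‖b‖ ≤ ‖z0‖ + δ := by
    have : ‖b‖ ≤ ‖z0‖ + ‖z0 - b‖ := by
      have := norm_sub_norm_le b z0
      rw [norm_sub_rev] at this
      linarith
    rw [dist_eq_norm] at hbd
    linarith
  linarith

/-- approximation of trigonometric polynomials -/
theorem fourier_span_ext (q : C(AddCircle (1 : ℝ), ℂ))
    (hq : q ∈ Submodule.span ℂ (range (fourier : ℤ → C(AddCircle (1 : ℝ), ℂ)))) :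
    ∃ A B : ℂ → ℂ, Differentiable ℂ A ∧ Differentiable ℂ B ∧
      ∀ x : AddCircle (1 : ℝ), q x = A (AddCircle.toCircle x : ℂ) +
        (starRingEnd ℂ) (B (AddCircle.toCircle x : ℂ)) := by
  induction hq using Submodule.span_induction with
  | mem q h =>
    obtain ⟨n, rfl⟩ := h
    rcases Int.eq_nat_or_neg n with ⟨k, rfl | rfl⟩
    · refine ⟨fun z => z ^ k, fun _ => 0, by fun_prop, by fun_prop, fun x => ?_⟩
      rw [fourier_apply, AddCircle.toCircle_zsmul]
      simp
    · refine ⟨fun _ => 0, fun z => z ^ k, by fun_prop, by fun_prop, fun x => ?_⟩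
      rw [fourier_neg, fourier_apply, AddCircle.toCircle_zsmul]
      simp
  | zero => exact ⟨fun _ => 0, fun _ => 0, by fun_prop, by fun_prop, fun x => by simp⟩
  | add q q' _ _ h h' =>
    obtain ⟨A, B, hA, hB, h⟩ := h
    obtain ⟨A', B', hA', hB', h'⟩ := h'
    refine ⟨fun z => A z + A' z, fun z => B z + B' z, hA.add hA', hB.add hB', fun x => ?_⟩
    rw [ContinuousMap.add_apply, h, h', map_add]
    ring
  | smul c q _ h =>
    obtain ⟨A, B, hA, hB, h⟩ := h
    refine ⟨fun z => c * A z, fun z => (starRingEnd ℂ) c * B z, hA.const_mul c, hB.const_mul _,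
      fun x => ?_⟩
    rw [ContinuousMap.smul_apply, h, map_mul, starRingEnd_self_apply, smul_eq_mul]
    ring

/-- real continuous functions on the circle are uniform limits of real parts of entire
functions -/
theorem approx_re {u : ℂ → ℝ} (hu : ContinuousOn u (sphere 0 1)) {ε : ℝ} (hε : 0 < ε) :
    ∃ h : ℂ → ℂ, Differentiable ℂ h ∧ ∀ z ∈ sphere (0 : ℂ) 1, |(h z).re - u z| ≤ ε := by
  have : Fact ((0 : ℝ) < 1) := ⟨one_pos⟩
  have hG : Continuous (fun x : AddCircle (1 : ℝ) => ((u (AddCircle.toCircle x : ℂ) : ℝ) : ℂ)) := by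
    apply Complex.continuous_ofReal.comp
    apply hu.comp_continuous
    · exact continuous_subtype_val.comp AddCircle.continuous_toCircle
    · intro x
      rw [mem_sphere_zero_iff_norm]
      exact Circle.norm_coe _
  let G : C(AddCircle (1 : ℝ), ℂ) := ⟨_, hG⟩
  have hGm : G ∈ (Submodule.span ℂ (range (fourier : ℤ → C(AddCircle (1 : ℝ), ℂ)))).topologicalClosure := by
    rw [span_fourier_closure_eq_top]
    trivial
  obtain ⟨q, hq, hqd⟩ := Metric.mem_closure_iff.1 hGm ε hε
  obtain ⟨A, B, hA, hB, hAB⟩ := fourier_span_ext q hq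
  refine ⟨fun z => A z + B z, hA.add hB, ?_⟩
  intro z hz
  have hz1 : ‖z‖ = 1 := by simpa using hz
  obtain ⟨x, hx⟩ : ∃ x : AddCircle (1 : ℝ), (AddCircle.toCircle x : ℂ) = z := by
    let w : Circle := ⟨z, by change z ∈ sphere (0 : ℂ) 1; exact hz⟩
    refine ⟨(AddCircle.homeomorphCircle one_ne_zero).symm w, ?_⟩
    rw [← AddCircle.homeomorphCircle_apply one_ne_zero, Homeomorph.apply_symm_apply]
  have h1 : dist (G x) (q x) ≤ dist G q := ContinuousMap.dist_apply_le_dist x
  have h2 : dist (G x) (q x) ≤ ε := h1.trans hqd.le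
  rw [hAB x, hx] at h2
  have h3 : G x = ((u z : ℝ) : ℂ) := by
    change ((u (AddCircle.toCircle x : ℂ) : ℝ) : ℂ) = _
    rw [hx]
  rw [h3, dist_eq_norm] at h2
  have h4 := (Complex.abs_re_le_norm _).trans h2
  simp only [sub_re, ofReal_re, add_re, conj_re] at h4
  rw [abs_sub_comm]
  simpa using h4


/-- a uniform limit of real parts of entire functions is a real part -/
theorem exists_re_eq {u : ℂ → ℝ} (h : ℕ → ℂ → ℂ) (hh : ∀ k, Differentiable ℂ (h k))
    (hu : ∀ k, ∀ z ∈ ball (0 : ℂ) 1, |(h k z).re - u z| ≤ 1 / ((k : ℝ) + 1)) :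
    ∃ H : ℂ → ℂ, DifferentiableOn ℂ H (ball 0 1) ∧ ∀ z ∈ ball (0 : ℂ) 1, (H z).re = u z := by
  -- normalise
  let g : ℕ → ℂ → ℂ := fun k z => h k z - ((h k 0).im : ℂ) * I
  have hg : ∀ k, Differentiable ℂ (g k) := fun k => (hh k).sub_const _
  have hgre : ∀ k z, (g k z).re = (h k z).re := by
    intro k z
    simp [g]
  have hg0 : ∀ k, (g k 0).im = 0 := by
    intro k
    simp [g]
  -- Cauchy estimate
  have hcau : ∀ (N k l : ℕ), N ≤ k → N ≤ l → ∀ r : ℝ, 0 < r → r < 1 → ∀ z ∈ ball (0 : ℂ) r,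
      ‖g k z - g l z‖ ≤ 8 / (1 - r) * (1 / ((N : ℝ) + 1)) := by
    intro N k l hk hl r hr0 hr1 z hz
    have hzr : ‖z‖ < r := by simpa using hz
    have hN : (0 : ℝ) < 1 / ((N : ℝ) + 1) := by positivity
    have hk' : 1 / ((k : ℝ) + 1) ≤ 1 / ((N : ℝ) + 1) := by
      apply one_div_le_one_div_of_le (by positivity)
      have : (N : ℝ) ≤ k := by exact_mod_cast hk
      linarith
    have hl' : 1 / ((l : ℝ) + 1) ≤ 1 / ((N : ℝ) + 1) := by
      apply one_div_le_one_div_of_le (by positivity)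
      have : (N : ℝ) ≤ l := by exact_mod_cast hl
      linarith
    set M : ℝ := 2 * (1 / ((N : ℝ) + 1)) with hM
    have hM0 : 0 < M := by rw [hM]; positivity
    have hre : ∀ w ∈ ball (0 : ℂ) 1, |(g k w - g l w).re| ≤ M := by
      intro w hw
      have h1 := hu k w hw
      have h2 := hu l w hw
      rw [sub_re, hgre, hgre]
      rw [abs_le] at *
      constructor <;> linarith [h1.1, h1.2, h2.1, h2.2]
    have hbc := Complex.borelCaratheodory (f := fun w => g k w - g l w) (M := M) (R := 1) hM0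
      ((hg k).sub (hg l)).differentiableOn (fun w hw => (le_abs_self _).trans (hre w hw)) one_pos
      (z := z) (by simpa using hzr.trans hr1)
    have h0 : ‖g k 0 - g l 0‖ ≤ M := by
      have h1 := hre 0 (by simp)
      have h2 : (g k 0 - g l 0) = (((g k 0 - g l 0).re : ℝ) : ℂ) := by
        apply Complex.ext
        · simp
        · simp [hg0]
      rw [h2, Complex.norm_real, Real.norm_eq_abs]
      exact h1
    refine hbc.trans ?_
    have h1r : 0 < 1 - r := by linarith
    have h1z : 0 < 1 - ‖z‖ := by linarith [norm_nonneg z]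
    have e1 : 2 * M * ‖z‖ / (1 - ‖z‖) ≤ 2 * M / (1 - r) := by
      apply div_le_div₀ (by positivity) _ h1r (by linarith)
      have : ‖z‖ ≤ 1 := by linarith
      nlinarith [norm_nonneg z]
    have e2 : ‖g k 0 - g l 0‖ * (1 + ‖z‖) / (1 - ‖z‖) ≤ 2 * M / (1 - r) := by
      apply div_le_div₀ (by positivity) _ h1r (by linarith)
      have : 1 + ‖z‖ ≤ 2 := by linarith
      nlinarith [norm_nonneg z, norm_nonneg (g k 0 - g l 0)]
    have e3 : 8 / (1 - r) * (1 / ((N : ℝ) + 1)) = 2 * M / (1 - r) + 2 * M / (1 - r) := by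
      rw [hM]; ring
    rw [e3]
    exact add_le_add e1 e2
  have htend0 : ∀ r : ℝ, Tendsto (fun N : ℕ => 8 / (1 - r) * (1 / ((N : ℝ) + 1))) atTop (𝓝 0) := by
    intro r
    have := (tendsto_one_div_add_atTop_nhds_zero_nat (𝕜 := ℝ)).const_mul (8 / (1 - r))
    simpa using this
  have hucs : ∀ r : ℝ, 0 < r → r < 1 → UniformCauchySeqOn g atTop (ball (0 : ℂ) r) := by
    intro r hr0 hr1
    rw [Metric.uniformCauchySeqOn_iff]
    intro ε hε
    obtain ⟨N, hN⟩ := ((htend0 r).eventually (gt_mem_nhds hε)).exists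
    refine ⟨N, fun m hm n hn z hz => ?_⟩
    rw [dist_eq_norm]
    exact (hcau N m n hm hn r hr0 hr1 z hz).trans_lt hN
  have hlim : ∀ z ∈ ball (0 : ℂ) 1, ∃ w, Tendsto (fun k => g k z) atTop (𝓝 w) := by
    intro z hz
    have hz1 : ‖z‖ < 1 := by simpa using hz
    obtain ⟨r, hr1, hr2⟩ := exists_between hz1
    have h1 := hucs r (lt_of_le_of_lt (norm_nonneg z) hr1) hr2
    exact cauchySeq_tendsto_of_complete (h1.cauchySeq (by simpa using hr1))
  choose! H hH using hlim
  refine ⟨H, ?_, ?_⟩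
  · have hloc : TendstoLocallyUniformlyOn g H atTop (ball 0 1) := by
      rw [tendstoLocallyUniformlyOn_iff_forall_isCompact isOpen_ball]
      intro K hK hKc
      obtain ⟨r, hr0, hr1, hKr⟩ : ∃ r, 0 < r ∧ r < 1 ∧ K ⊆ ball (0 : ℂ) r := by
        rcases K.eq_empty_or_nonempty with rfl | hne
        · exact ⟨1 / 2, by norm_num, by norm_num, empty_subset _⟩
        · obtain ⟨x, hx, hmax⟩ := hKc.exists_isMaxOn hne continuous_norm.continuousOn
          have hx1 : ‖x‖ < 1 := by simpa using hK hx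
          obtain ⟨r, hr1, hr2⟩ := exists_between hx1
          refine ⟨r, lt_of_le_of_lt (norm_nonneg x) hr1, hr2, fun y hy => ?_⟩
          have : ‖y‖ ≤ ‖x‖ := hmax hy
          simpa using lt_of_le_of_lt this hr1
      have h1 := (hucs r hr0 hr1).tendstoUniformlyOn_of_tendsto (f := H) (fun z hz =>
        hH z (ball_subset_ball hr1.le hz))
      exact h1.mono hKr
    exact hloc.differentiableOn (Eventually.of_forall fun k => (hg k).differentiableOn)
      isOpen_ball
  · intro z hz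
    have h1 : Tendsto (fun k => (g k z).re) atTop (𝓝 (H z).re) :=
      (Complex.continuous_re.tendsto _).comp (hH z hz)
    have h2 : Tendsto (fun k => (g k z).re) atTop (𝓝 (u z)) := by
      rw [tendsto_iff_dist_tendsto_zero]
      refine squeeze_zero (fun _ => dist_nonneg) (fun k => ?_)
        (tendsto_one_div_add_atTop_nhds_zero_nat (𝕜 := ℝ))
      rw [Real.dist_eq, hgre]
      exact hu k z hz
    exact tendsto_nhds_unique h1 h2

/-- real part of a function as in Rado's theorem is the real part of a holomorphic function -/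
theorem rado_re {f : ℂ → ℂ} (hf : ContinuousOn f (closedBall 0 1))
    (hd : ∀ z ∈ ball (0 : ℂ) 1, f z ≠ 0 → DifferentiableAt ℂ f z)
    (hne : {z | z ∈ ball (0 : ℂ) 1 ∧ f z ≠ 0}.Nonempty) :
    ∃ H : ℂ → ℂ, DifferentiableOn ℂ H (ball 0 1) ∧ ∀ z ∈ ball (0 : ℂ) 1, (H z).re = (f z).re := by
  have hcontu : ContinuousOn (fun z => (f z).re) (sphere 0 1) :=
    Complex.continuous_re.comp_continuousOn (hf.mono sphere_subset_closedBall)
  have happ : ∀ k : ℕ, ∃ h : ℂ → ℂ, Differentiable ℂ h ∧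
      ∀ z ∈ sphere (0 : ℂ) 1, |(h z).re - (f z).re| ≤ 1 / ((k : ℝ) + 1) := fun k =>
    approx_re hcontu (by positivity)
  choose h hh1 hh2 using happ
  apply exists_re_eq h hh1
  intro k
  -- bound on the non-vanishing set
  have hΩ : ∀ z ∈ {z | z ∈ ball (0 : ℂ) 1 ∧ f z ≠ 0}, |(h k z).re - (f z).re| ≤ 1 / ((k : ℝ) + 1) := by
    intro z hz
    have hcl : closure {z | z ∈ ball (0 : ℂ) 1 ∧ f z ≠ 0} ⊆ closedBall 0 1 :=
      closure_minimal (fun z hz => ball_subset_closedBall hz.1) isClosed_closedBall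
    have h1 := rado_max hf hd (g := fun z => Complex.exp (h k z - f z))
      (m := Real.exp (1 / ((k : ℝ) + 1))) (Real.exp_pos _).le
      (((hh1 k).continuous.continuousOn.sub (hf.mono hcl)).cexp)
      (fun w hw => (((hh1 k w).sub (hd w hw.1 hw.2)).cexp).differentiableWithinAt)
      (fun w _ hws => by
        rw [Complex.norm_exp, sub_re]
        exact Real.exp_le_exp.2 ((le_abs_self _).trans (hh2 k w hws))) hz
    have h2 := rado_max hf hd (g := fun z => Complex.exp (f z - h k z))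
      (m := Real.exp (1 / ((k : ℝ) + 1))) (Real.exp_pos _).le
      (((hf.mono hcl).sub (hh1 k).continuous.continuousOn).cexp)
      (fun w hw => (((hd w hw.1 hw.2).sub (hh1 k w)).cexp).differentiableWithinAt)
      (fun w _ hws => by
        rw [Complex.norm_exp, sub_re]
        refine Real.exp_le_exp.2 (le_trans ?_ (hh2 k w hws))
        rw [abs_sub_comm]
        exact le_abs_self _) hz
    rw [Complex.norm_exp, sub_re, Real.exp_le_exp] at h1 h2
    rw [abs_le]
    constructor <;> linarith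
  intro z hz
  -- extend by density
  have hzc := rado_dense hf hd hne hz
  have hcont : ContinuousOn (fun z => |(h k z).re - (f z).re|) (ball 0 1) := by
    apply ContinuousOn.abs
    exact (Complex.continuous_re.comp (hh1 k).continuous).continuousOn.sub
      (Complex.continuous_re.comp_continuousOn (hf.mono ball_subset_closedBall))
  have hcl2 : z ∈ closure {z | z ∈ ball (0 : ℂ) 1 ∧ f z ≠ 0} := hzc
  rw [mem_closure_iff_nhdsWithin_neBot] at hcl2
  have ht : Tendsto (fun z => |(h k z).re - (f z).re|)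
      (𝓝[{z | z ∈ ball (0 : ℂ) 1 ∧ f z ≠ 0}] z) (𝓝 |(h k z).re - (f z).re|) :=
    ((hcont z hz).mono (fun w hw => hw.1))
  exact le_of_tendsto ht (eventually_nhdsWithin_of_forall hΩ)

theorem rado_disc {f : ℂ → ℂ} (hf : ContinuousOn f (closedBall 0 1))
    (hd : ∀ z ∈ ball (0 : ℂ) 1, f z ≠ 0 → DifferentiableAt ℂ f z) :
    DifferentiableOn ℂ f (ball 0 1) := by
  by_cases hne : {z | z ∈ ball (0 : ℂ) 1 ∧ f z ≠ 0}.Nonempty
  swap
  · have h0 : EqOn f (fun _ => 0) (ball 0 1) := by
      intro z hz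
      by_contra h
      exact hne ⟨z, hz, h⟩
    exact (differentiableOn_const (0 : ℂ)).congr h0
  obtain ⟨H, hH, hHre⟩ := rado_re hf hd hne
  have hf' : ContinuousOn (fun z => -I * f z) (closedBall 0 1) := continuousOn_const.mul hf
  have hd' : ∀ z ∈ ball (0 : ℂ) 1, (fun z => -I * f z) z ≠ 0 →
      DifferentiableAt ℂ (fun z => -I * f z) z := by
    intro z hz h
    exact (hd z hz (fun h0 => h (by simp [h0]))).const_mul _
  have hne' : {z | z ∈ ball (0 : ℂ) 1 ∧ (fun z => -I * f z) z ≠ 0}.Nonempty := by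
    obtain ⟨z, hz, hz'⟩ := hne
    exact ⟨z, hz, by simpa using hz'⟩
  obtain ⟨K, hK, hKre⟩ := rado_re hf' hd' hne'
  have hKre' : ∀ z ∈ ball (0 : ℂ) 1, (K z).re = (f z).im := by
    intro z hz
    rw [hKre z hz]
    simp
  -- `H - i K` is constant
  let ψ : ℂ → ℂ := fun z => H z - I * K z
  have hψ : DifferentiableOn ℂ ψ (ball 0 1) := hH.sub (hK.const_mul I)
  have hψa : AnalyticOnNhd ℂ ψ (ball 0 1) := hψ.analyticOnNhd isOpen_ball
  have hpre : IsPreconnected (ball (0 : ℂ) 1) := (convex_ball _ _).isPreconnected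
  -- local constancy near a point of the non-vanishing set
  obtain ⟨a, ha, ha'⟩ := hne
  have hΩo : IsOpen {z | z ∈ ball (0 : ℂ) 1 ∧ f z ≠ 0} :=
    (hf.mono ball_subset_closedBall).isOpen_inter_preimage isOpen_ball isOpen_compl_singleton
  obtain ⟨ρ, hρ, hρs⟩ := Metric.isOpen_iff.1 hΩo a ⟨ha, ha'⟩
  have hfd : DifferentiableOn ℂ f (ball a ρ) := fun z hz =>
    (hd z (hρs hz).1 (hρs hz).2).differentiableWithinAt
  have hsub : ball a ρ ⊆ ball (0 : ℂ) 1 := fun z hz => (hρs hz).1
  have hpreb : IsConnected (ball a ρ) :=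
    ⟨⟨a, mem_ball_self hρ⟩, (convex_ball _ _).isPreconnected⟩
  obtain ⟨c1, hc1⟩ := AnalyticOnNhd.eq_const_of_re_eq_const (c₀ := 0)
    (((hfd.sub (hH.mono hsub))).analyticOnNhd isOpen_ball)
    (fun z hz => by simp [hHre z (hsub hz)]) isOpen_ball hpreb
  obtain ⟨c2, hc2⟩ := AnalyticOnNhd.eq_const_of_re_eq_const (c₀ := 0)
    (((hfd.const_mul (-I)).sub (hK.mono hsub)).analyticOnNhd isOpen_ball)
    (fun z hz => by simp [hKre' z (hsub hz)]) isOpen_ball hpreb
  have hloc : ∀ z ∈ ball a ρ, ψ z = I * c2 - c1 := by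
    intro z hz
    have h1 := hc1 z hz
    have h2 := hc2 z hz
    simp only [Pi.sub_apply] at h1 h2
    simp only [ψ]
    rw [← h1, ← h2]
    ring_nf
    rw [Complex.I_sq]
    ring
  have hconst : EqOn ψ (fun _ => I * c2 - c1) (ball 0 1) := by
    apply hψa.eqOn_of_preconnected_of_eventuallyEq (fun _ _ => analyticAt_const) hpre ha
    filter_upwards [isOpen_ball.mem_nhds (mem_ball_self hρ)] with z hz
    exact hloc z hz
  -- conclusion
  have hfin : EqOn f (fun z => I * K z + (((I * c2 - c1).re : ℝ) : ℂ)) (ball 0 1) := by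
    intro z hz
    have h1 : ψ z = I * c2 - c1 := hconst hz
    have h2 : (H z).re + (K z).im = (I * c2 - c1).re := by
      rw [← h1]
      simp [ψ]
    apply Complex.ext
    · simp only [add_re, ofReal_re, mul_re, I_re, I_im]
      rw [← h2, hHre z hz]
      ring
    · simp only [add_im, ofReal_im, mul_im, I_re, I_im]
      rw [hKre' z hz]
      ring
  exact ((hK.const_mul I).add_const _).congr hfin

/-- **Rado's theorem** in one variable. -/
theorem rado {f : ℂ → ℂ} {U : Set ℂ} (hU : IsOpen U) (hf : ContinuousOn f U)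
    (hd : ∀ z ∈ U, f z ≠ 0 → DifferentiableAt ℂ f z) : DifferentiableOn ℂ f U := by
  intro a ha
  obtain ⟨R, hR, hRU⟩ := Metric.nhds_basis_closedBall.mem_iff.1 (hU.mem_nhds ha)
  have hmap : ∀ w : ℂ, w ∈ closedBall (0 : ℂ) 1 → a + R * w ∈ U := by
    intro w hw
    apply hRU
    rw [mem_closedBall, dist_eq_norm, add_sub_cancel_left, norm_mul, Complex.norm_real,
      Real.norm_of_nonneg hR.le]
    have : ‖w‖ ≤ 1 := by simpa using hw
    nlinarith
  have haff : Differentiable ℂ (fun w : ℂ => a + R * w) := by fun_prop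
  have h1 := rado_disc (f := fun w => f (a + R * w))
    (hf.comp haff.continuous.continuousOn hmap)
    (fun w hw hfw => (hd _ (hmap w (ball_subset_closedBall hw)) hfw).comp w (haff w))
  have h2 : DifferentiableAt ℂ (fun w => f (a + R * w)) 0 :=
    h1.differentiableAt (ball_mem_nhds _ one_pos)
  have hR' : (R : ℂ) ≠ 0 := by exact_mod_cast hR.ne'
  have h3 : f = (fun w => f (a + R * w)) ∘ (fun z => (z - a) / R) := by
    funext z
    simp only [Function.comp]
    congr 1
    field_simp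
    ring
  have h4 : DifferentiableAt ℂ f a := by
    rw [h3]
    apply DifferentiableAt.comp
    · simpa using h2
    · fun_prop
  exact h4.differentiableWithinAt

end Pool.Agent.Helper40
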