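import Mathlib
import Pool.Agent.Helper40.Thin
import Pool.Agent.Helper40.Rado
open MeasureTheory Set Metric Real Filter Topology
open scoped ENNReal

namespace Pool.Agent.Helper40

theorem slice_differentiableAt {O S : Set (ℂ × ℂ)} {k : ℂ × ℂ → ℂ} (hOS : IsOpen (O \ S))
    (hd : DifferentiableOn ℂ k (O \ S)) {z w : ℂ} (hz : (z, w) ∈ O \ S) :
    DifferentiableAt ℂ (fun z => k (z, w)) z := by
  have h1 : DifferentiableAt ℂ k (z, w) := hd.differentiableAt (hOS.mem_nhds hz)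
  exact h1.comp (f := fun z : ℂ => (z, w)) z (by fun_prop)

/-- one variable extension on a slice -/
theorem slice_extend {r : ℝ} {O S : Set (ℂ × ℂ)} {q k : ℂ × ℂ → ℂ} {w : ℂ}
    (hO : IsOpen O) (hq0 : ∀ z ∈ ball (0:ℂ) r, q (z, w) ≠ 0 ↔ (z, w) ∈ O)
    (hOP : ∀ z, (z, w) ∈ O → z ∈ ball (0:ℂ) r)
    (hS : ∀ z, (z, w) ∈ O → ∀ᶠ z' in 𝓝[≠] z, (z', w) ∉ S) (hOS : IsOpen (O \ S))
    (hqz : ∀ z ∈ ball (0:ℂ) r, ∀ᶠ z' in 𝓝[≠] z, q (z', w) ≠ 0)
    (hkd : DifferentiableOn ℂ k (O \ S))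
    (hkL : ∫⁻ z in {z | (z, w) ∈ O \ S}, ‖k (z, w)‖ₑ ^ 2 ≠ ∞) :
    ∃ kh : ℂ → ℂ, DifferentiableOn ℂ kh (ball 0 r) ∧
      ∀ z ∈ ball (0:ℂ) r, (z, w) ∈ O \ S → kh z = k (z, w) := by
  set Ow : Set ℂ := {z | (z, w) ∈ O} with hOw
  set Sw : Set ℂ := {z | (z, w) ∈ S} with hSw
  have hOwo : IsOpen Ow := hO.preimage (by fun_prop : Continuous fun z : ℂ => (z, w))
  have hdiff : Ow \ Sw = {z | (z, w) ∈ O \ S} := rfl
  have h1 := removable_L2 (D := Ow) (Z := Sw) (f := fun z => k (z, w)) hOwo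
    (fun z hz => hS z hz)
    (fun z hz => (slice_differentiableAt hOS hkd (z := z) (w := w) hz).differentiableWithinAt)
    (fun z hz => ⟨1, one_pos, by
      rw [← hdiff] at hkL
      exact ne_top_of_le_ne_top hkL (lintegral_mono_set inter_subset_right)⟩)
  set k1 : ℂ → ℂ := fun z => limUnder (𝓝[≠] z) (fun z => k (z, w)) with hk1
  obtain ⟨hk1d, hk1e⟩ := h1
  -- second step
  set Z : Set ℂ := {z | q (z, w) = 0} with hZ
  have hDZ : ball (0:ℂ) r \ Z = Ow := by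
    ext z
    constructor
    · rintro ⟨hz, hz'⟩
      exact (hq0 z hz).mp hz'
    · intro hz
      exact ⟨hOP z hz, (hq0 z (hOP z hz)).mpr hz⟩
  have hcount : (Ow ∩ Sw).Countable := by
    apply countable_of_isolated
    intro z hz
    filter_upwards [hS z hz.1] with z' hz' h
    exact hz' h.2
  have hk1L : ∫⁻ z in Ow, ‖k1 z‖ₑ ^ 2 ≠ ∞ := by
    have e1 : ∫⁻ z in Ow, ‖k1 z‖ₑ ^ 2 = ∫⁻ z in Ow \ Sw, ‖k1 z‖ₑ ^ 2 := by
      apply setLIntegral_congr
      have : Ow \ Sw = Ow \ (Ow ∩ Sw) := by ext z; simp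
      rw [this]
      exact (sdiff_null_ae_eq_self (hcount.measure_zero volume)).symm
    have e2 : ∫⁻ z in Ow \ Sw, ‖k1 z‖ₑ ^ 2 = ∫⁻ z in Ow \ Sw, ‖k (z, w)‖ₑ ^ 2 := by
      apply setLIntegral_congr_fun
      · rw [hdiff]
        exact (hOS.preimage (by fun_prop : Continuous fun z : ℂ => (z, w))).measurableSet
      · intro z hz
        have := hk1e z hz
        simp only
        rw [← this]
    rw [e1, e2, hdiff]
    exact hkL
  have h2 := removable_L2 (D := ball (0:ℂ) r) (Z := Z) (f := k1) isOpen_ball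
    (fun z hz => by filter_upwards [hqz z hz] with z' hz' using hz')
    (by rw [hDZ]; exact hk1d)
    (fun z hz => ⟨1, one_pos, by
      rw [hDZ]
      exact ne_top_of_le_ne_top hk1L (lintegral_mono_set inter_subset_right)⟩)
  refine ⟨_, h2.1, fun z hz hz' => ?_⟩
  rw [h2.2 z (by rw [hDZ]; exact hz'.1)]
  exact hk1e z hz'

theorem core {r : ℝ} (hr : 0 < r) {O S : Set (ℂ × ℂ)} {q h : ℂ × ℂ → ℂ}
    {hl : ℕ → ℂ × ℂ → ℂ} {lam : ℕ → ℂ}
    (hO : IsOpen O) (hOP : O ⊆ ball 0 r ×ˢ ball 0 r)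
    (hq : ContinuousOn q (ball 0 r ×ˢ ball 0 r))
    (hq0 : ∀ p ∈ ball (0:ℂ) r ×ˢ ball (0:ℂ) r, q p ≠ 0 ↔ p ∈ O)
    (hS : IsThin O S) (hOS : IsOpen (O \ S))
    (hqd : DifferentiableOn ℂ q (O \ S))
    (hd : DifferentiableOn ℂ h (O \ S)) (hL : ∫⁻ p in O \ S, ‖h p‖ₑ ^ 2 ≠ ∞)
    (hld : ∀ n, DifferentiableOn ℂ (hl n) (O \ S))
    (hlL : ∀ n, ∫⁻ p in O \ S, ‖hl n p‖ₑ ^ 2 ≠ ∞)
    (hrel : ∀ n, ∀ p ∈ O \ S, q p * h p = (1 - lam n * q p) * hl n p)
    (hlam : Tendsto (fun n => ‖lam n‖) atTop atTop)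
    (h0 : q (0, 0) = 0) {z₁ : ℂ} (hz₁ : (z₁, 0) ∈ O \ S) (hh : h (z₁, 0) ≠ 0) : False := by
  obtain ⟨C, hC, hCS⟩ := hS.slices
  have hr0 : (0:ℂ) ∈ ball (0:ℂ) r := mem_ball_self hr
  have hz₁r : z₁ ∈ ball (0:ℂ) r := (hOP hz₁.1).1
  -- holomorphy on good slices
  have good : ∀ w ∈ ball (0:ℂ) r, w ∉ C → DifferentiableOn ℂ (fun z => q (z, w)) (ball 0 r) := by
    intro w hw hwC
    apply rado isOpen_ball
    · apply hq.comp (f := fun z : ℂ => (z, w)) (by fun_prop)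
      intro z hz
      exact ⟨hz, hw⟩
    · intro z hz hqz
      have hzO : (z, w) ∈ O := (hq0 (z, w) ⟨hz, hw⟩).mp hqz
      have e1 : ∀ᶠ z' in 𝓝[≠] z, (z', w) ∈ O := by
        apply mem_nhdsWithin_of_mem_nhds
        exact (by fun_prop : Continuous fun z : ℂ => (z, w)).continuousAt.preimage_mem_nhds
          (hO.mem_nhds hzO)
      have e2 := hCS w hwC z hzO
      apply AnalyticAt.differentiableAt
      apply Complex.analyticAt_of_differentiable_on_punctured_nhds_of_continuousAt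
      · filter_upwards [e1, e2] with z' h1 h2
        exact slice_differentiableAt hOS hqd ⟨h1, h2⟩
      · have : ContinuousAt q (z, w) :=
          hq.continuousAt ((isOpen_ball.prod isOpen_ball).mem_nhds ⟨hz, hw⟩)
        exact ContinuousAt.comp (f := fun z : ℂ => (z, w)) this (by fun_prop)
  have hdense : Dense Cᶜ := hC.dense_compl ℂ
  have allw : ∀ w ∈ ball (0:ℂ) r, DifferentiableOn ℂ (fun z => q (z, w)) (ball 0 r) := by
    intro w hw
    have hne : (𝓝[Cᶜ] w).NeBot := mem_closure_iff_nhdsWithin_neBot.mp (hdense w)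
    have htl : TendstoLocallyUniformlyOn (fun (w' : ℂ) z => q (z, w')) (fun z => q (z, w))
        (𝓝[Cᶜ] w) (ball 0 r) := by
      rw [Metric.tendstoLocallyUniformlyOn_iff]
      intro ε hε z hz
      have hcq : ContinuousAt q (z, w) :=
        hq.continuousAt ((isOpen_ball.prod isOpen_ball).mem_nhds ⟨hz, hw⟩)
      have hev := Metric.continuousAt_iff'.mp hcq (ε / 2) (by positivity)
      rw [nhds_prod_eq, eventually_prod_iff] at hev
      obtain ⟨pa, hpa, pb, hpb, hpab⟩ := hev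
      refine ⟨{z' | pa z'}, mem_nhdsWithin_of_mem_nhds hpa, ?_⟩
      filter_upwards [mem_nhdsWithin_of_mem_nhds hpb] with w' hw' z' hz'
      have h1 := hpab hz' hw'
      have h2 := hpab hz' hpb.self_of_nhds
      calc dist (q (z', w)) (q (z', w')) ≤ dist (q (z', w)) (q (z, w)) +
            dist (q (z, w)) (q (z', w')) := dist_triangle _ _ _
        _ < ε / 2 + ε / 2 := by rw [dist_comm (q (z, w))]; exact add_lt_add h2 h1
        _ = ε := by ring
    apply htl.differentiableOn _ isOpen_ball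
    have hb : ∀ᶠ w' in 𝓝[Cᶜ] w, w' ∈ ball (0:ℂ) r :=
      mem_nhdsWithin_of_mem_nhds (isOpen_ball.mem_nhds hw)
    filter_upwards [hb, self_mem_nhdsWithin] with w' h1 h2
    exact good w' h1 h2
  -- radius
  have hq1 : q (z₁, 0) ≠ 0 := (hq0 (z₁, 0) ⟨hz₁r, hr0⟩).mpr hz₁.1
  have hiso0 := isolated_zeros isOpen_ball (convex_ball (0:ℂ) r).isPreconnected
    (allw 0 hr0) hz₁r hq1 0 hr0
  obtain ⟨ρ, hρ, hρr, hρne⟩ : ∃ ρ > 0, ρ < r ∧ ∀ z, ‖z‖ = ρ → q (z, 0) ≠ 0 := by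
    rw [eventually_nhdsWithin_iff, Metric.eventually_nhds_iff] at hiso0
    obtain ⟨ε, hε, h⟩ := hiso0
    refine ⟨min ε r / 2, by positivity, ?_, ?_⟩
    · have := min_le_right ε r
      linarith
    · intro z hz
      apply h
      · rw [dist_zero_right, hz]
        have := min_le_left ε r
        have : 0 < min ε r := by positivity
        linarith
      · intro hz0
        rw [mem_singleton_iff] at hz0
        rw [hz0, norm_zero] at hz
        have : 0 < min ε r := by positivity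
        linarith
  have hsphere : sphere (0:ℂ) ρ ⊆ ball 0 r := fun z hz => by
    rw [mem_ball_zero_iff]; rw [mem_sphere_zero_iff_norm] at hz; linarith
  -- uniform lower bound near w = 0
  obtain ⟨m, hm, hmlow⟩ : ∃ m > 0, ∀ᶠ w in 𝓝 (0:ℂ), ∀ z ∈ sphere (0:ℂ) ρ, m ≤ ‖q (z, w)‖ := by
    have hcs : IsCompact (sphere (0:ℂ) ρ) := isCompact_sphere _ _
    have hne : (sphere (0:ℂ) ρ).Nonempty := NormedSpace.sphere_nonempty.mpr hρ.le
    have hc0 : ContinuousOn (fun z => ‖q (z, 0)‖) (sphere (0:ℂ) ρ) := by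
      have := (allw 0 hr0).continuousOn.mono hsphere
      exact this.norm
    obtain ⟨zm, hzm, hmin⟩ := hcs.exists_isMinOn hne hc0
    have hpos : 0 < ‖q (zm, 0)‖ := norm_pos_iff.mpr (hρne zm (by simpa using hzm))
    refine ⟨‖q (zm, 0)‖ / 2, by positivity, ?_⟩
    have hloc : ∀ z ∈ sphere (0:ℂ) ρ, ∀ᶠ p in 𝓝 (z, (0:ℂ)), ‖q (zm, 0)‖ / 2 < ‖q (p.1, p.2)‖ := by
      intro z hz
      have hcq : ContinuousAt q (z, 0) :=
        hq.continuousAt ((isOpen_ball.prod isOpen_ball).mem_nhds ⟨hsphere hz, hr0⟩)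
      have h1 : ‖q (zm, 0)‖ ≤ ‖q (z, 0)‖ := hmin hz
      exact hcq.norm.eventually_const_lt (by linarith)
    have := hcs.eventually_forall_of_forall_eventually (x₀ := (0:ℂ))
      (P := fun w z => ‖q (zm, 0)‖ / 2 < ‖q (z, w)‖) (fun z hz => by
        have h2 := hloc z hz
        have h3 : Tendsto (fun p : ℂ × ℂ => (p.2, p.1)) (𝓝 ((0:ℂ), z)) (𝓝 (z, (0:ℂ))) :=
          (by fun_prop : Continuous fun p : ℂ × ℂ => (p.2, p.1)).tendsto _
        exact h3.eventually h2)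
    filter_upwards [this] with w hw z hz
    exact (hw z hz).le
  have hcenter : ∀ᶠ w in 𝓝 (0:ℂ), ‖q (0, w)‖ < m := by
    have hcq : ContinuousAt q (0, 0) :=
      hq.continuousAt ((isOpen_ball.prod isOpen_ball).mem_nhds ⟨hr0, hr0⟩)
    have hc2 : ContinuousAt (fun w => ‖q (0, w)‖) 0 :=
      (ContinuousAt.comp (f := fun w : ℂ => ((0:ℂ), w)) hcq (by fun_prop)).norm
    apply hc2.eventually_lt_const
    change ‖q (0, 0)‖ < m
    rw [h0, norm_zero]
    exact hm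
  have hz1w : ∀ᶠ w in 𝓝 (0:ℂ), (z₁, w) ∈ O \ S ∧ h (z₁, w) ≠ 0 := by
    have hch : ContinuousAt h (z₁, 0) :=
      (hd.differentiableAt (hOS.mem_nhds hz₁)).continuousAt
    have e1 : ∀ᶠ p in 𝓝 (z₁, (0:ℂ)), p ∈ O \ S ∧ h p ≠ 0 :=
      Filter.Eventually.and (hOS.mem_nhds hz₁) (hch.eventually_ne hh)
    exact (by fun_prop : Continuous fun w : ℂ => (z₁, w)).continuousAt.eventually e1
  have hrw : ∀ᶠ w in 𝓝 (0:ℂ), w ∈ ball (0:ℂ) r := isOpen_ball.mem_nhds hr0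
  -- integrability of almost all slices
  have hslice : ∀ k : ℂ × ℂ → ℂ, DifferentiableOn ℂ k (O \ S) →
      ∫⁻ p in O \ S, ‖k p‖ₑ ^ 2 ≠ ∞ →
      ∀ᵐ w : ℂ, ∫⁻ z in {z | (z, w) ∈ O \ S}, ‖k (z, w)‖ₑ ^ 2 ≠ ∞ := by
    intro k hk hkL
    have hmk : AEMeasurable (fun p : ℂ × ℂ => (O \ S).indicator (fun p => ‖k p‖ₑ ^ 2) p)
        (volume.prod volume) := by
      rw [aemeasurable_indicator_iff hOS.measurableSet]
      apply ContinuousOn.aemeasurable _ hOS.measurableSet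
      have hk' := hk.continuousOn.norm
      have : ContinuousOn (fun p => ENNReal.ofReal (‖k p‖ ^ 2)) (O \ S) :=
        ENNReal.continuous_ofReal.comp_continuousOn (hk'.pow 2)
      refine this.congr (fun p _ => ?_)
      change ‖k p‖ₑ ^ 2 = ENNReal.ofReal (‖k p‖ ^ 2)
      rw [ENNReal.ofReal_pow (norm_nonneg _), ofReal_norm]
    rw [← lintegral_indicator hOS.measurableSet, Measure.volume_eq_prod,
      lintegral_prod_symm _ hmk] at hkL
    have hmk2 : AEMeasurable (fun w : ℂ => ∫⁻ z : ℂ,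
        (O \ S).indicator (fun p => ‖k p‖ₑ ^ 2) (z, w)) volume := by
      exact hmk.lintegral_prod_left'
    have := ae_lt_top' hmk2 hkL
    filter_upwards [this] with w hw
    have hms : MeasurableSet {z | (z, w) ∈ O \ S} :=
      (hOS.preimage (by fun_prop : Continuous fun z : ℂ => (z, w))).measurableSet
    rw [← lintegral_indicator hms]
    exact hw.ne
  have hae : ∀ᵐ w : ℂ, w ∉ C ∧ (∫⁻ z in {z | (z, w) ∈ O \ S}, ‖h (z, w)‖ₑ ^ 2 ≠ ∞) ∧
      ∀ n, ∫⁻ z in {z | (z, w) ∈ O \ S}, ‖hl n (z, w)‖ₑ ^ 2 ≠ ∞ := by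
    have hCn : ∀ᵐ w : ℂ, w ∉ C := hC.ae_notMem volume
    have h2 : ∀ᵐ w : ℂ, ∀ n, ∫⁻ z in {z | (z, w) ∈ O \ S}, ‖hl n (z, w)‖ₑ ^ 2 ≠ ∞ :=
      ae_all_iff.mpr (fun n => hslice (hl n) (hld n) (hlL n))
    filter_upwards [hCn, hslice h hd hL, h2] with w h1 h2 h3 using ⟨h1, h2, h3⟩
  obtain ⟨w, ⟨⟨hwm, hwc⟩, hwz, hwr⟩, hwC, hwh, hwl⟩ :
      ∃ w, (((∀ z ∈ sphere (0:ℂ) ρ, m ≤ ‖q (z, w)‖) ∧ ‖q (0, w)‖ < m) ∧
        ((z₁, w) ∈ O \ S ∧ h (z₁, w) ≠ 0) ∧ w ∈ ball (0:ℂ) r) ∧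
        w ∉ C ∧ (∫⁻ z in {z | (z, w) ∈ O \ S}, ‖h (z, w)‖ₑ ^ 2 ≠ ∞) ∧
      ∀ n, ∫⁻ z in {z | (z, w) ∈ O \ S}, ‖hl n (z, w)‖ₑ ^ 2 ≠ ∞ := by
    have hV := (hmlow.and hcenter).and (hz1w.and hrw)
    rw [Metric.eventually_nhds_iff_ball] at hV
    obtain ⟨ε, hε, hV⟩ := hV
    have hpos : volume (ball (0:ℂ) ε) ≠ 0 := (measure_ball_pos volume (0:ℂ) hε).ne'
    obtain ⟨w, hw, hw'⟩ := Measure.exists_mem_of_measure_ne_zero_of_ae hpos
      (ae_restrict_of_ae hae)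
    exact ⟨w, hV w hw, hw'⟩
  -- the slice `w`
  have hqw := allw w hwr
  have hqw1 : q (z₁, w) ≠ 0 := (hq0 (z₁, w) ⟨hz₁r, hwr⟩).mpr hwz.1.1
  have hisow := isolated_zeros isOpen_ball (convex_ball (0:ℂ) r).isPreconnected
    hqw hz₁r hqw1
  have hext : ∀ k : ℂ × ℂ → ℂ, DifferentiableOn ℂ k (O \ S) →
      ∫⁻ z in {z | (z, w) ∈ O \ S}, ‖k (z, w)‖ₑ ^ 2 ≠ ∞ →
      ∃ kh : ℂ → ℂ, DifferentiableOn ℂ kh (ball 0 r) ∧
        ∀ z ∈ ball (0:ℂ) r, (z, w) ∈ O \ S → kh z = k (z, w) := by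
    intro k hk hkL
    exact slice_extend hO (fun z hz => hq0 (z, w) ⟨hz, hwr⟩) (fun z hz => (hOP hz).1)
      (hCS w hwC) hOS hisow hk hkL
  obtain ⟨hh', hhd, hhe⟩ := hext h hd hwh
  choose hl' hld' hle' using fun n => hext (hl n) (hld n) (hwl n)
  have hrel' : ∀ n, ∀ z ∈ ball (0:ℂ) r, q (z, w) ≠ 0 →
      q (z, w) * hh' z = (1 - lam n * q (z, w)) * hl' n z := by
    intro n z hz hqz
    have hzO : (z, w) ∈ O := (hq0 (z, w) ⟨hz, hwr⟩).mp hqz
    have e1 : ∀ᶠ z' in 𝓝[≠] z, (z', w) ∈ O := by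
      apply mem_nhdsWithin_of_mem_nhds
      exact (by fun_prop : Continuous fun z : ℂ => (z, w)).continuousAt.preimage_mem_nhds
        (hO.mem_nhds hzO)
    have e2 := hCS w hwC z hzO
    have hev : ∀ᶠ z' in 𝓝[≠] z, q (z', w) * hh' z' = (1 - lam n * q (z', w)) * hl' n z' := by
      filter_upwards [e1, e2] with z' h1 h2
      have hz'r : z' ∈ ball (0:ℂ) r := (hOP h1).1
      rw [hhe z' hz'r ⟨h1, h2⟩, hle' n z' hz'r ⟨h1, h2⟩]
      exact hrel n (z', w) ⟨h1, h2⟩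
    have hnh := isOpen_ball.mem_nhds hz
    have c1 : ContinuousAt (fun z => q (z, w)) z := (hqw.differentiableAt hnh).continuousAt
    have c2 : ContinuousAt hh' z := (hhd.differentiableAt hnh).continuousAt
    have c3 : ContinuousAt (hl' n) z := ((hld' n).differentiableAt hnh).continuousAt
    have t1 : Tendsto (fun z' => q (z', w) * hh' z') (𝓝[≠] z) (𝓝 (q (z, w) * hh' z)) :=
      (c1.mul c2).tendsto.mono_left nhdsWithin_le_nhds
    have t2 : Tendsto (fun z' => (1 - lam n * q (z', w)) * hl' n z') (𝓝[≠] z)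
        (𝓝 ((1 - lam n * q (z, w)) * hl' n z)) :=
      ((continuousAt_const.sub (continuousAt_const.mul c1)).mul c3).tendsto.mono_left
        nhdsWithin_le_nhds
    exact tendsto_nhds_unique_of_eventuallyEq t1 t2 hev
  -- a zero of `q (·, w)` in the small disc
  obtain ⟨zw, hzw, hqzw⟩ : ∃ z ∈ ball (0:ℂ) ρ, q (z, w) = 0 := by
    by_contra hcon
    push Not at hcon
    have hcl : closure (ball (0:ℂ) ρ) = closedBall 0 ρ := closure_ball _ hρ.ne'
    have hsub : closedBall (0:ℂ) ρ ⊆ ball 0 r := closedBall_subset_ball hρr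
    have hne : ∀ z ∈ closedBall (0:ℂ) ρ, q (z, w) ≠ 0 := by
      intro z hz
      rcases eq_or_lt_of_le (mem_closedBall_zero_iff.mp hz) with h | h
      · have := hwm z (by simpa using h)
        intro h0'
        rw [h0', norm_zero] at this
        linarith
      · exact hcon z (by simpa using h)
    have hinv : DifferentiableOn ℂ (fun z => (q (z, w))⁻¹) (closedBall 0 ρ) :=
      (hqw.mono hsub).inv hne
    have hdc : DiffContOnCl ℂ (fun z => (q (z, w))⁻¹) (ball 0 ρ) := by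
      apply DifferentiableOn.diffContOnCl
      rw [hcl]
      exact hinv
    have hb := Complex.norm_le_of_forall_mem_frontier_norm_le (U := ball (0:ℂ) ρ) isBounded_ball
      hdc (C := m⁻¹) (fun z hz => by
        rw [frontier_ball _ hρ.ne'] at hz
        rw [norm_inv]
        exact inv_anti₀ hm (hwm z hz)) (z := 0) (subset_closure (mem_ball_self hρ))
    rw [norm_inv] at hb
    have hq0w : 0 < ‖q (0, w)‖ := norm_pos_iff.mpr (hne 0 (mem_closedBall_self hρ.le))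
    have := (inv_le_inv₀ hq0w hm).mp hb
    linarith
  have hzwr : zw ∈ ball (0:ℂ) r := ball_subset_ball hρr.le hzw
  have han : AnalyticAt ℂ (fun z => q (z, w)) zw := (hqw.analyticOnNhd isOpen_ball) zw hzwr
  have hopenmap : 𝓝 (0:ℂ) ≤ map (fun z => q (z, w)) (𝓝 zw) := by
    rcases han.eventually_constant_or_nhds_le_map_nhds with hc | hc
    · exfalso
      have h1 := hisow zw hzwr
      have h2 : ∀ᶠ z in 𝓝[≠] zw, q (z, w) = q (zw, w) := mem_nhdsWithin_of_mem_nhds hc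
      obtain ⟨z, h3, h4⟩ := (h1.and h2).exists
      rw [hqzw] at h4
      exact h3 h4
    · simpa [hqzw] using hc
  have hlim : Tendsto (fun n => (lam n)⁻¹) atTop (𝓝 0) := by
    rw [tendsto_zero_iff_norm_tendsto_zero]
    simp only [norm_inv]
    exact tendsto_inv_atTop_zero.comp hlam
  have hfreq : ∃ᶠ z in 𝓝[≠] zw, hh' z = 0 := by
    rw [frequently_nhdsWithin_iff, Filter.frequently_iff]
    intro V hV
    have hVr : V ∩ ball (0:ℂ) r ∈ 𝓝 zw := inter_mem hV (isOpen_ball.mem_nhds hzwr)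
    have himg : (fun z => q (z, w)) '' (V ∩ ball (0:ℂ) r) ∈ 𝓝 (0:ℂ) :=
      hopenmap (image_mem_map hVr)
    have hev1 : ∀ᶠ n in atTop, (lam n)⁻¹ ∈ (fun z => q (z, w)) '' (V ∩ ball (0:ℂ) r) :=
      hlim.eventually himg
    have hev2 : ∀ᶠ n in atTop, 1 ≤ ‖lam n‖ := hlam.eventually_ge_atTop 1
    obtain ⟨n, ⟨z, hz, hzq⟩, hn⟩ := (hev1.and hev2).exists
    have hlne : lam n ≠ 0 := norm_pos_iff.mp (by linarith)
    simp only at hzq
    have hqne : q (z, w) ≠ 0 := by rw [hzq]; exact inv_ne_zero hlne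
    refine ⟨z, hz.1, ?_, ?_⟩
    · have := hrel' n z hz.2 hqne
      rw [hzq, mul_inv_cancel₀ hlne, sub_self, zero_mul] at this
      rcases mul_eq_zero.mp this with h | h
      · exact absurd h (inv_ne_zero hlne)
      · exact h
    · intro hzz
      rw [mem_singleton_iff] at hzz
      rw [hzz] at hqne
      exact hqne hqzw
  have hzero := (hhd.analyticOnNhd isOpen_ball).eqOn_zero_of_preconnected_of_frequently_eq_zero
    (convex_ball (0:ℂ) r).isPreconnected hzwr hfreq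
  have := hzero hz₁r
  rw [hhe z₁ hz₁r hwz.1] at this
  exact hwz.2 this

end Pool.Agent.Helper40
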