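import Pool.Agent.Helper40.SCUnion

open Set Filter Topology

namespace Pool.Agent.Helper40

theorem isSimplyConnected_preimage_cutting {X : Type*} [TopologicalSpace X] {T : X → ℂ}
    (hT : Continuous T) {S : Set ℂ}
    (h1 : ∀ D : Set ℂ, IsOpen D → Convex ℝ D → ∀ p, D ∩ S = {p} → IsSimplyConnected (T ⁻¹' D))
    (h0 : ∀ D : Set ℂ, IsOpen D → Convex ℝ D → D.Nonempty → D ∩ S = ∅ →
      IsPathConnected (T ⁻¹' D)) :
    ∀ (n : ℕ) (D : Set ℂ), IsOpen D → Convex ℝ D → (D ∩ S).Finite → (D ∩ S).ncard = n →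
      (D ∩ S).Nonempty → IsSimplyConnected (T ⁻¹' D) := by
  intro n
  induction n using Nat.strong_induction_on with
  | _ n ih =>
    intro D hDo hDc hfin hcard hne
    obtain ⟨p₀, hp₀⟩ := hne
    by_cases hsub : ∀ q ∈ D ∩ S, q = p₀
    · refine h1 D hDo hDc p₀ ?_
      ext q
      constructor
      · intro hq; exact hsub q hq
      · intro hq; rw [mem_singleton_iff] at hq; rw [hq]; exact hp₀
    · push Not at hsub
      obtain ⟨q₀, hq₀, hne0⟩ := hsub
      -- a real linear functional separating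
      obtain ⟨l, hl⟩ : ∃ l : ℂ →L[ℝ] ℝ, l p₀ ≠ l q₀ := by
        by_cases hre : p₀.re = q₀.re
        · refine ⟨Complex.imCLM, ?_⟩
          intro him
          exact hne0 (Complex.ext hre.symm (by simpa using him.symm))
        · exact ⟨Complex.reCLM, by simpa using hre⟩
      -- WLOG l p < l q
      obtain ⟨p, q, hp, hq, hlt⟩ : ∃ p q : ℂ, p ∈ D ∩ S ∧ q ∈ D ∩ S ∧ l p < l q := by
        rcases lt_or_gt_of_ne hl with h | h
        · exact ⟨p₀, q₀, hp₀, hq₀, h⟩
        · exact ⟨q₀, p₀, hq₀, hp₀, h⟩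
      -- the next value
      set F : Set ℂ := {s | s ∈ D ∩ S ∧ l p < l s} with hF
      have hFfin : F.Finite := hfin.subset (fun s hs => hs.1)
      have hFne : F.Nonempty := ⟨q, hq, hlt⟩
      obtain ⟨r, hrF, hrmin⟩ := hFfin.exists_minimalFor l F hFne
      have hrmin' : ∀ s ∈ D ∩ S, l p < l s → l r ≤ l s := by
        intro s hs hps
        by_contra hcon
        push Not at hcon
        exact absurd (hrmin ⟨hs, hps⟩ hcon.le) (not_le.mpr hcon)
      have hpr : l p < l r := hrF.2
      set α : ℝ := l p + (l r - l p) / 3 with hα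
      set β : ℝ := l p + 2 * (l r - l p) / 3 with hβ
      have hpα : l p < α := by rw [hα]; linarith
      have hαβ : α < β := by rw [hα, hβ]; linarith
      have hβr : β < l r := by rw [hβ]; linarith
      set D₁ : Set ℂ := D ∩ {z | l z < β} with hD₁
      set D₂ : Set ℂ := D ∩ {z | α < l z} with hD₂
      have ho1 : IsOpen D₁ := hDo.inter (isOpen_lt l.continuous continuous_const)
      have ho2 : IsOpen D₂ := hDo.inter (isOpen_lt continuous_const l.continuous)
      have hc1 : Convex ℝ D₁ := hDc.inter (convex_halfSpace_lt l.isLinear β)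
      have hc2 : Convex ℝ D₂ := hDc.inter (convex_halfSpace_gt l.isLinear α)
      have hcov : D₁ ∪ D₂ = D := by
        ext z
        constructor
        · rintro (h | h) <;> exact h.1
        · intro hz
          by_cases h : l z < β
          · exact Or.inl ⟨hz, h⟩
          · exact Or.inr ⟨hz, lt_of_lt_of_le hαβ (not_lt.mp h)⟩
      have hss1 : D₁ ∩ S ⊂ D ∩ S := by
        refine ⟨fun z hz => ⟨hz.1.1, hz.2⟩, fun h => ?_⟩
        have := (h hrF.1).1.2
        exact absurd this (not_lt.mpr hβr.le)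
      have hss2 : D₂ ∩ S ⊂ D ∩ S := by
        refine ⟨fun z hz => ⟨hz.1.1, hz.2⟩, fun h => ?_⟩
        have := (h hp).1.2
        exact absurd this (not_lt.mpr hpα.le)
      have hcard1 : (D₁ ∩ S).ncard < n := hcard ▸ Set.ncard_lt_ncard hss1 hfin
      have hcard2 : (D₂ ∩ S).ncard < n := hcard ▸ Set.ncard_lt_ncard hss2 hfin
      have hs1 : IsSimplyConnected (T ⁻¹' D₁) :=
        ih _ hcard1 D₁ ho1 hc1 (hfin.subset hss1.subset) rfl
          ⟨p, ⟨hp.1, hpα.trans hαβ⟩, hp.2⟩
      have hs2 : IsSimplyConnected (T ⁻¹' D₂) :=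
        ih _ hcard2 D₂ ho2 hc2 (hfin.subset hss2.subset) rfl
          ⟨r, ⟨hrF.1.1, hαβ.trans hβr⟩, hrF.1.2⟩
      have hpc : IsPathConnected (T ⁻¹' (D₁ ∩ D₂)) := by
        refine h0 _ (ho1.inter ho2) (hc1.inter hc2) ?_ ?_
        · -- a point of the segment
          refine ⟨(1 / 2 : ℝ) • p + (1 / 2 : ℝ) • r, ?_⟩
          have hmem : (1 / 2 : ℝ) • p + (1 / 2 : ℝ) • r ∈ D :=
            hDc hp.1 hrF.1.1 (by norm_num) (by norm_num) (by norm_num)
          have hval : l ((1 / 2 : ℝ) • p + (1 / 2 : ℝ) • r) = (l p + l r) / 2 := by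
            rw [map_add, map_smul, map_smul, smul_eq_mul, smul_eq_mul]; ring
          refine ⟨⟨hmem, ?_⟩, hmem, ?_⟩
          · show l _ < β
            rw [hval, hβ]; linarith
          · show α < l _
            rw [hval, hα]; linarith
        · rw [Set.eq_empty_iff_forall_notMem]
          rintro z ⟨⟨⟨hzD, hz1⟩, _, hz2⟩, hzS⟩
          have hz1' : l z < β := hz1
          have hz2' : α < l z := hz2
          have := hrmin' z ⟨hzD, hzS⟩ (hpα.trans hz2')
          linarith
      have := isSimplyConnected_union (ho1.preimage hT) (ho2.preimage hT) hs1 hs2 hpc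
      rwa [← preimage_union, hcov] at this

theorem isSimplyConnected_cutting {X : Type*} [TopologicalSpace X] {T : X → ℂ}
    (hT : Continuous T) {S : Set ℂ} (hS : ∀ R : ℝ, (S ∩ Metric.ball 0 R).Finite)
    (hne : S.Nonempty)
    (h1 : ∀ D : Set ℂ, IsOpen D → Convex ℝ D → ∀ p, D ∩ S = {p} → IsSimplyConnected (T ⁻¹' D))
    (h0 : ∀ D : Set ℂ, IsOpen D → Convex ℝ D → D.Nonempty → D ∩ S = ∅ →
      IsPathConnected (T ⁻¹' D)) : SimplyConnectedSpace X := by
  obtain ⟨s, hs⟩ := hne
  have key := isSimplyConnected_preimage_cutting hT h1 h0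
  have hU : IsSimplyConnected (⋃ n : ℕ, T ⁻¹' (Metric.ball (0 : ℂ) (‖s‖ + 1 + n))) := by
    refine isSimplyConnected_iUnion_mono (fun n => Metric.isOpen_ball.preimage hT) ?_ ?_
    · intro m n hmn
      refine preimage_mono (Metric.ball_subset_ball ?_)
      have : (m : ℝ) ≤ n := by exact_mod_cast hmn
      linarith
    · intro n
      refine key _ _ Metric.isOpen_ball (convex_ball _ _) ?_ rfl ⟨s, ?_, hs⟩
      · rw [inter_comm]; exact hS _
      · rw [mem_ball_zero_iff]
        have : (0 : ℝ) ≤ n := Nat.cast_nonneg n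
        linarith
  have huniv : (⋃ n : ℕ, T ⁻¹' (Metric.ball (0 : ℂ) (‖s‖ + 1 + n))) = univ := by
    rw [eq_univ_iff_forall]
    intro x
    obtain ⟨n, hn⟩ := exists_nat_gt ‖T x‖
    rw [mem_iUnion]
    refine ⟨n, ?_⟩
    rw [mem_preimage, mem_ball_zero_iff]
    have := norm_nonneg s
    linarith
  rw [huniv] at hU
  have := hU.simplyConnectedSpace
  exact (Homeomorph.Set.univ X).toHomotopyEquiv.simplyConnectedSpace_iff.mp this
end Pool.Agent.Helper40
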