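import Mathlib
import Pool.Agent.Helper40.Thin
open MeasureTheory Set Metric Real Filter Topology
open scoped ENNReal

namespace Pool.Agent.Helper40

theorem det_real_eq (L : ℂ × ℂ →L[ℂ] ℂ × ℂ) :
    |(L.restrictScalars ℝ).det| = ‖L.det‖ ^ 2 := by
  have h1 : (L.restrictScalars ℝ).det = Algebra.norm ℝ (L.det) := by
    have := LinearMap.det_restrictScalars (R := ℝ) (S := ℂ) (A := ℂ × ℂ) (f := (L : ℂ × ℂ →ₗ[ℂ] ℂ × ℂ))
    exact this
  rw [h1, Algebra.norm_complex_apply, Complex.normSq_eq_norm_sq, abs_of_nonneg (by positivity)]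

theorem IsThin.measure_zero {O S : Set (ℂ × ℂ)} (hS : IsThin O S)
    (hm : MeasurableSet (O ∩ S)) : volume (O ∩ S) = 0 := by
  obtain ⟨C, hC, h⟩ := hS.slices
  rw [Measure.volume_eq_prod, ← Measure.prod_swap, Measure.map_apply measurable_swap hm,
    Measure.measure_prod_null (measurable_swap hm)]
  filter_upwards [hC.ae_notMem volume] with w hw
  have : (Prod.mk w ⁻¹' (Prod.swap ⁻¹' (O ∩ S))).Countable := by
    apply countable_of_isolated
    intro z hz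
    filter_upwards [h w hw z hz.1] with z' h1 h2 using h1 h2.2
  exact this.measure_zero volume

theorem lintegral_form_le {ι : Type*} [Countable ι] {P R : Set (ℂ × ℂ)} {Q : ι → Set (ℂ × ℂ)}
    {h : ℂ × ℂ → ℂ} {k : ι → ℂ × ℂ → ℂ × ℂ} {b : ι → ℂ × ℂ → ℂ} {β : ι → ℝ≥0∞}
    (hRm : MeasurableSet (P ∩ R)) (hcov : P ⊆ ⋃ i, Q i) (hQP : ∀ i, Q i ⊆ P)
    (hQ : ∀ i, MeasurableSet (Q i))
    (hk : ∀ i, ∀ x ∈ Q i, DifferentiableAt ℂ (k i) x)
    (hinj : ∀ i, InjOn (k i) (Q i \ R))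
    (hh : ∀ i, ∀ x ∈ Q i, h x = b i x * (fderiv ℂ (k i) x).det)
    (hb : ∀ i, ∀ x ∈ Q i, ‖b i x‖ₑ ^ 2 ≤ β i)
    (hR : volume (P ∩ R) = 0) :
    ∫⁻ x in P, ‖h x‖ₑ ^ 2 ≤ ∑' i, β i * volume (k i '' (Q i \ R)) := by
  have h1 : ∫⁻ x in P, ‖h x‖ₑ ^ 2 ≤ ∫⁻ x in ⋃ i, (Q i \ R), ‖h x‖ₑ ^ 2 := by
    have e1 : ∫⁻ x in P, ‖h x‖ₑ ^ 2 = ∫⁻ x in P \ R, ‖h x‖ₑ ^ 2 := by
      apply setLIntegral_congr
      have : P \ R = P \ (P ∩ R) := by ext t; simp
      rw [this]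
      exact (sdiff_null_ae_eq_self hR).symm
    rw [e1]
    apply lintegral_mono_set
    rintro x ⟨hx, hx'⟩
    obtain ⟨i, hi⟩ := mem_iUnion.mp (hcov hx)
    exact mem_iUnion.mpr ⟨i, hi, hx'⟩
  refine h1.trans ((lintegral_iUnion_le _ _).trans ?_)
  apply ENNReal.tsum_le_tsum
  intro i
  have hQR : MeasurableSet (Q i \ R) := by
    have : Q i \ R = Q i \ (P ∩ R) := by
      ext t
      constructor
      · rintro ⟨h1, h2⟩
        exact ⟨h1, fun h => h2 h.2⟩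
      · rintro ⟨h1, h2⟩
        exact ⟨h1, fun h => h2 ⟨hQP i h1, h⟩⟩
    rw [this]
    exact (hQ i).diff hRm
  have h2 : ∫⁻ x in Q i \ R, ‖h x‖ₑ ^ 2 ≤ ∫⁻ x in Q i \ R,
      β i * ENNReal.ofReal |((fderiv ℂ (k i) x).restrictScalars ℝ).det| := by
    apply setLIntegral_mono' hQR
    intro x hx
    rw [hh i x hx.1, enorm_mul, mul_pow, det_real_eq]
    gcongr
    · exact hb i x hx.1
    · rw [ENNReal.ofReal_pow (norm_nonneg _), ofReal_norm]
  refine h2.trans ?_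
  have : (volume : Measure (ℂ × ℂ)).IsAddHaarMeasure := by
    rw [Measure.volume_eq_prod]; infer_instance
  have h3 := lintegral_image_eq_lintegral_abs_det_fderiv_mul volume hQR
    (f := k i) (f' := fun x => (fderiv ℂ (k i) x).restrictScalars ℝ)
    (fun x hx => ((hk i x hx.1).hasFDerivAt.restrictScalars ℝ).hasFDerivWithinAt) (hinj i)
    (fun _ => β i)
  rw [setLIntegral_const] at h3
  rw [h3]
  apply le_of_eq
  congr 1
  ext x
  rw [mul_comm]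

end Pool.Agent.Helper40
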