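import Mathlib
import Pool.Agent.Helper40.BimData2
import Pool.Agent.Helper40.L2Transfer
open MeasureTheory Set Metric Real Filter Topology TopologicalSpace
open scoped ENNReal Manifold ContDiff

namespace Pool.Agent.Helper40

theorem det_eq (L : ℂ × ℂ →L[ℂ] ℂ × ℂ) :
    L.det = (L (1, 0)).1 * (L (0, 1)).2 - (L (0, 1)).1 * (L (1, 0)).2 := by
  have h := LinearMap.det_toMatrix (Module.Basis.finTwoProd ℂ) (L : ℂ × ℂ →ₗ[ℂ] ℂ × ℂ)
  change LinearMap.det (L : ℂ × ℂ →ₗ[ℂ] ℂ × ℂ) = _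
  rw [← h, Matrix.det_fin_two]
  simp [LinearMap.toMatrix_apply]

theorem differentiable_det :
    Differentiable ℂ (fun L : ℂ × ℂ →L[ℂ] ℂ × ℂ => L.det) := by
  have : (fun L : ℂ × ℂ →L[ℂ] ℂ × ℂ => L.det) =
      fun L => (L (1, 0)).1 * (L (0, 1)).2 - (L (0, 1)).1 * (L (1, 0)).2 := by
    ext L; exact det_eq L
  rw [this]
  fun_prop

section
variable {E : Type*} [NormedAddCommGroup E] [NormedSpace ℂ E]
  {Y : Type*} [TopologicalSpace Y] [ChartedSpace E Y]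

theorem isThin_preimage {W S : Set Y} (hS : IsAnalyticIn E W S)
    (hint : W ∩ interior S = ∅)
    {s : ℂ × ℂ → Y} {O : Set (ℂ × ℂ)} (hO : IsOpen O) (hsO : ∀ p ∈ O, s p ∈ W)
    (hs : ∀ p ∈ O, ContMDiffAt 𝓘(ℂ, ℂ × ℂ) 𝓘(ℂ, E) ω s p)
    (hso : ∀ U ⊆ O, IsOpen U → IsOpen (s '' U)) : IsThin O (s ⁻¹' S) := by
  intro p hp
  obtain ⟨U, hUo, hpU, m, f, hf, hSf⟩ := hS (s p) (hsO p hp)
  have hmem : O ∩ s ⁻¹' U ∈ 𝓝 p :=
    inter_mem (hO.mem_nhds hp) ((hs p hp).continuousAt.preimage_mem_nhds (hUo.mem_nhds hpU))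
  obtain ⟨V, hV, hVo, hpV⟩ := _root_.mem_nhds_iff.mp hmem
  obtain ⟨ρ, hρ, hρV⟩ := Metric.isOpen_iff.mp hVo p hpV
  have hball : ball p.1 ρ ×ˢ ball p.2 ρ = ball p ρ := by
    rw [ball_prod_same]
  have hsub : ball p.1 ρ ×ˢ ball p.2 ρ ⊆ O ∩ s ⁻¹' U := by
    rw [hball]; exact hρV.trans hV
  have hfs : ∀ p' ∈ ball p.1 ρ ×ˢ ball p.2 ρ, ∀ i, s p' ∈ S → f (s p') i = 0 := by
    intro p' hp' i h
    have h2 := hsub hp'
    have h3 : s p' ∈ S ∩ U := ⟨h, h2.2⟩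
    rw [hSf] at h3
    rw [h3.2]; rfl
  by_contra hcon
  push Not at hcon
  have hall : ∀ p' ∈ ball p.1 ρ ×ˢ ball p.2 ρ, s p' ∈ S := by
    intro p' hp'
    have h2 := hsub hp'
    suffices h3 : s p' ∈ S ∩ U from h3.1
    rw [hSf]
    refine ⟨h2.2, funext fun i => ?_⟩
    by_contra hne
    obtain ⟨p2, hp2, h5, h6⟩ := hcon ρ hρ (fun p => f (s p) i) (hsub.trans inter_subset_left) (by
      intro p' hp'
      have h3 := hsub hp'
      have h4 : ContMDiffAt 𝓘(ℂ, E) 𝓘(ℂ, Fin m → ℂ) ω f (s p') :=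
        (hf (s p') h3.2).contMDiffAt (hUo.mem_nhds h3.2)
      have h5 := h4.comp p' (hs p' h3.1)
      have h6 : DifferentiableAt ℂ (f ∘ s) p' :=
        (h5.contDiffAt).differentiableAt (by simp)
      exact ((differentiableAt_pi.mp h6) i).differentiableWithinAt) ⟨p', hp', hne⟩
    exact h6 (hfs p2 hp2 i h5)
  have hopen := hso (ball p.1 ρ ×ˢ ball p.2 ρ) (hsub.trans inter_subset_left)
    (isOpen_ball.prod isOpen_ball)
  have hpm : p ∈ ball p.1 ρ ×ˢ ball p.2 ρ := ⟨mem_ball_self hρ, mem_ball_self hρ⟩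
  have : s p ∈ W ∩ interior S := by
    refine ⟨hsO p hp, mem_interior.mpr ⟨_, ?_, hopen, ⟨p, hpm, rfl⟩⟩⟩
    rintro _ ⟨p', hp', rfl⟩
    exact hall p' hp'
  rw [hint] at this
  exact this

end

section
variable {N : Type*} [TopologicalSpace N]

open Classical in
/-- the reciprocal of a function on an open subset, extended by zero -/
noncomputable def recipExt (Ω : Opens N) (τ : Ω → ℂ) (y : N) : ℂ :=
  if h : y ∈ Ω then (τ ⟨y, h⟩)⁻¹ else 0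

theorem recipExt_val (Ω : Opens N) (τ : Ω → ℂ) (y : Ω) : recipExt Ω τ y = (τ y)⁻¹ := by
  simp [recipExt]

theorem recipExt_of_mem {Ω : Opens N} (τ : Ω → ℂ) {y : N} (hy : y ∈ Ω) :
    recipExt Ω τ y = (τ ⟨y, hy⟩)⁻¹ := by
  simp [recipExt, hy]

theorem recipExt_of_notMem {Ω : Opens N} (τ : Ω → ℂ) {y : N} (hy : y ∉ Ω) :
    recipExt Ω τ y = 0 := by
  simp [recipExt, hy]

theorem exists_recipExt_nhds [T2Space N] {Ω : Opens N} {τ : Ω → ℂ} (hτ : Continuous τ)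
    (hL : ∀ C : ℝ, ∃ L : Set Ω, IsCompact L ∧ ∀ y, ‖τ y‖ ≤ C → y ∈ L) {x : N} (hx : x ∉ Ω) :
    ∃ V : Set N, IsOpen V ∧ x ∈ V ∧ ContinuousOn (recipExt Ω τ) V ∧
      (∀ y ∈ V, recipExt Ω τ y ≠ 0 ↔ y ∈ Ω) ∧ (∀ y : Ω, (y : N) ∈ V → τ y ≠ 0) := by
  have hnb : ∀ C : ℝ, ∃ V : Set N, IsOpen V ∧ (∀ x ∉ Ω, x ∈ V) ∧ ∀ y : Ω, (y : N) ∈ V → C < ‖τ y‖ := by
    intro C
    obtain ⟨L, hL, hL'⟩ := hL C
    refine ⟨(Subtype.val '' L)ᶜ, (hL.image continuous_subtype_val).isClosed.isOpen_compl, ?_, ?_⟩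
    · rintro x hx ⟨y, _, rfl⟩
      exact hx y.2
    · intro y hy
      by_contra hcon
      exact hy ⟨y, hL' y (not_lt.mp hcon), rfl⟩
  obtain ⟨V, hVo, hV1, hV2⟩ := hnb 1
  have hne : ∀ y : Ω, (y : N) ∈ V → τ y ≠ 0 := by
    intro y hy
    have := hV2 y hy
    intro h0
    rw [h0, norm_zero] at this
    linarith
  refine ⟨V, hVo, hV1 x hx, ?_, ?_, hne⟩
  · intro y hy
    apply ContinuousAt.continuousWithinAt
    by_cases hyΩ : y ∈ Ω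
    · have hc : ContinuousAt (fun y : Ω => (τ y)⁻¹) ⟨y, hyΩ⟩ :=
        hτ.continuousAt.inv₀ (hne ⟨y, hyΩ⟩ hy)
      have hc2 : ContinuousAt (recipExt Ω τ ∘ (Subtype.val : Ω → N)) ⟨y, hyΩ⟩ := by
        convert hc using 1
        ext z
        exact recipExt_val Ω τ z
      exact (Ω.isOpenEmbedding'.continuousAt_iff (x := ⟨y, hyΩ⟩)).mp hc2
    · rw [ContinuousAt, recipExt_of_notMem τ hyΩ, Metric.tendsto_nhds]
      intro ε hε
      obtain ⟨V', hV'o, hV'1, hV'2⟩ := hnb (1 / ε)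
      filter_upwards [hV'o.mem_nhds (hV'1 y hyΩ)] with z hz
      rw [dist_zero_right]
      by_cases hzΩ : z ∈ Ω
      · rw [recipExt_of_mem τ hzΩ, norm_inv]
        have := hV'2 ⟨z, hzΩ⟩ hz
        rw [inv_lt_comm₀ (lt_trans (by positivity) this) hε]
        rwa [one_div] at this
      · rw [recipExt_of_notMem τ hzΩ, norm_zero]
        exact hε
  · intro y hy
    by_cases hyΩ : y ∈ Ω
    · rw [recipExt_of_mem τ hyΩ]
      simp [hyΩ, hne ⟨y, hyΩ⟩ hy]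
    · simp [recipExt_of_notMem τ hyΩ, hyΩ]

end

end Pool.Agent.Helper40
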