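import Mathlib
import Pool.Agent.Helper40.TransferAux
import Pool.Agent.Helper40.Core
open MeasureTheory Set Metric Real Filter Topology TopologicalSpace
open scoped ENNReal Manifold ContDiff

namespace Pool.Agent.Helper40

/-- A surface `X` with a proper holomorphic function `T` and square integrable holomorphic
two-forms `f₀(T) β`, `f n (T) β` with `f₀ = (t - lam n) f n`. The form `β` is given by its
coefficients with respect to charts. -/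
structure FormData (X : Type*) [TopologicalSpace X] [ChartedSpace (ℂ × ℂ) X] where
  T : X → ℂ
  T_smooth : ContMDiff 𝓘(ℂ, ℂ × ℂ) 𝓘(ℂ, ℂ) ω T
  T_proper : ∀ K : Set ℂ, IsCompact K → IsCompact (T ⁻¹' K)
  T_unbounded : ∀ C : ℝ, ∃ x, C < ‖T x‖
  ι : Type
  countable : Countable ι
  κ : ι → OpenPartialHomeomorph X (ℂ × ℂ)
  κ_mem : ∀ i, κ i ∈ IsManifold.maximalAtlas 𝓘(ℂ, ℂ × ℂ) ω X
  cover : ∀ x, ∃ i, x ∈ (κ i).source
  β : ι → X → ℂ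
  β_smooth : ∀ i, ContMDiffOn 𝓘(ℂ, ℂ × ℂ) 𝓘(ℂ, ℂ) ω (β i) (κ i).source
  β_ne : ∀ i, ∀ x ∈ (κ i).source, β i x ≠ 0
  compat : ∀ (i j : ι) (G : ℂ × ℂ → X) (p : ℂ × ℂ),
    ContMDiffAt 𝓘(ℂ, ℂ × ℂ) 𝓘(ℂ, ℂ × ℂ) ω G p →
    G p ∈ (κ i).source → G p ∈ (κ j).source →
    β i (G p) * (fderiv ℂ (κ i ∘ G) p).det = β j (G p) * (fderiv ℂ (κ j ∘ G) p).det
  f₀ : ℂ → ℂ
  f : ℕ → ℂ → ℂ
  lam : ℕ → ℂ
  f₀_diff : Differentiable ℂ f₀
  f_diff : ∀ n, Differentiable ℂ (f n)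
  rel : ∀ n t, f₀ t = (t - lam n) * f n t
  lam_tendsto : Tendsto (fun n => ‖lam n‖) atTop atTop
  f₀_ne : ∃ x, f₀ (T x) ≠ 0
  L2₀ : ∃ c : ι → ℝ≥0∞, (∀ i, ∀ x ∈ (κ i).source, ‖f₀ (T x) * β i x‖ₑ ^ 2 ≤ c i) ∧
    ∑' i, c i * volume (κ i).target ≠ ⊤
  L2 : ∀ n, ∃ c : ι → ℝ≥0∞, (∀ i, ∀ x ∈ (κ i).source, ‖f n (T x) * β i x‖ₑ ^ 2 ≤ c i) ∧
    ∑' i, c i * volume (κ i).target ≠ ⊤

namespace FormData

variable {X : Type*} [TopologicalSpace X] [ChartedSpace (ℂ × ℂ) X] [IsManifold 𝓘(ℂ, ℂ × ℂ) ω X]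
  (D : FormData X)

/-- index of a chart containing the point -/
noncomputable def idx (x : X) : D.ι := (D.cover x).choose

omit [IsManifold 𝓘(ℂ, ℂ × ℂ) ω X] in
theorem idx_spec (x : X) : x ∈ (D.κ (D.idx x)).source := (D.cover x).choose_spec

/-- coefficient of the pull back of the form -/
noncomputable def coef (f : ℂ → ℂ) (G : ℂ × ℂ → X) (p : ℂ × ℂ) : ℂ :=
  f (D.T (G p)) * (D.β (D.idx (G p)) (G p)) * (fderiv ℂ (D.κ (D.idx (G p)) ∘ G) p).det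

omit [IsManifold 𝓘(ℂ, ℂ × ℂ) ω X] in
theorem coef_eq {f : ℂ → ℂ} {G : ℂ × ℂ → X} {p : ℂ × ℂ}
    (hG : ContMDiffAt 𝓘(ℂ, ℂ × ℂ) 𝓘(ℂ, ℂ × ℂ) ω G p) {i : D.ι} (hi : G p ∈ (D.κ i).source) :
    D.coef f G p = f (D.T (G p)) * D.β i (G p) * (fderiv ℂ (D.κ i ∘ G) p).det := by
  rw [coef, mul_assoc, mul_assoc, D.compat _ i G p hG (D.idx_spec _) hi]

omit [IsManifold 𝓘(ℂ, ℂ × ℂ) ω X] in
theorem κ_comp_contDiffAt {G : ℂ × ℂ → X} {p : ℂ × ℂ}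
    (hG : ContMDiffAt 𝓘(ℂ, ℂ × ℂ) 𝓘(ℂ, ℂ × ℂ) ω G p) {i : D.ι} (hi : G p ∈ (D.κ i).source) :
    ContDiffAt ℂ ω (D.κ i ∘ G) p := by
  have h1 : ContMDiffAt 𝓘(ℂ, ℂ × ℂ) 𝓘(ℂ, ℂ × ℂ) ω (D.κ i) (G p) :=
    contMDiffAt_of_mem_maximalAtlas (D.κ_mem i) hi
  exact (h1.comp p hG).contDiffAt

omit [IsManifold 𝓘(ℂ, ℂ × ℂ) ω X] in
theorem coef_differentiableOn {f : ℂ → ℂ} (hf : Differentiable ℂ f) {G : ℂ × ℂ → X}
    {P : Set (ℂ × ℂ)} (hP : IsOpen P)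
    (hG : ∀ p ∈ P, ContMDiffAt 𝓘(ℂ, ℂ × ℂ) 𝓘(ℂ, ℂ × ℂ) ω G p) :
    DifferentiableOn ℂ (D.coef f G) P := by
  intro p hp
  apply DifferentiableAt.differentiableWithinAt
  set i := D.idx (G p) with hi
  have hsrc : G p ∈ (D.κ i).source := D.idx_spec _
  have hev : D.coef f G =ᶠ[𝓝 p]
      fun p => f (D.T (G p)) * D.β i (G p) * (fderiv ℂ (D.κ i ∘ G) p).det := by
    filter_upwards [hP.mem_nhds hp, (hG p hp).continuousAt.preimage_mem_nhds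
      ((D.κ i).open_source.mem_nhds hsrc)] with p' h1 h2
    exact D.coef_eq (hG p' h1) h2
  apply DifferentiableAt.congr_of_eventuallyEq _ hev
  have d1 : DifferentiableAt ℂ (fun p => D.T (G p)) p := by
    have := (D.T_smooth.contMDiffAt (x := G p)).comp p (hG p hp)
    exact this.contDiffAt.differentiableAt (by simp)
  have d2 : DifferentiableAt ℂ (fun p => D.β i (G p)) p := by
    have h0 : ContMDiffAt 𝓘(ℂ, ℂ × ℂ) 𝓘(ℂ, ℂ) ω (D.β i) (G p) :=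
      (D.β_smooth i (G p) hsrc).contMDiffAt ((D.κ i).open_source.mem_nhds hsrc)
    exact (h0.comp p (hG p hp)).contDiffAt.differentiableAt (by simp)
  have d3 : DifferentiableAt ℂ (fun p => fderiv ℂ (D.κ i ∘ G) p) p := by
    have := (D.κ_comp_contDiffAt (hG p hp) hsrc).fderiv_right (m := 1) (by exact le_top)
    exact this.differentiableAt (by simp)
  have d4 : DifferentiableAt ℂ (fun p => (fderiv ℂ (D.κ i ∘ G) p).det) p :=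
    DifferentiableAt.comp (g := fun L : ℂ × ℂ →L[ℂ] ℂ × ℂ => L.det)
      (f := fun p => fderiv ℂ (D.κ i ∘ G) p) p (differentiable_det _) d3
  exact ((hf.differentiableAt.comp p d1).mul d2).mul d4

omit [IsManifold 𝓘(ℂ, ℂ × ℂ) ω X] in
theorem lintegral_coef_ne_top {f : ℂ → ℂ}
    (hL : ∃ c : D.ι → ℝ≥0∞, (∀ i, ∀ x ∈ (D.κ i).source, ‖f (D.T x) * D.β i x‖ₑ ^ 2 ≤ c i) ∧
      ∑' i, c i * volume (D.κ i).target ≠ ⊤) {G : ℂ × ℂ → X}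
    {P R : Set (ℂ × ℂ)} (hP : IsOpen P)
    (hG : ∀ p ∈ P, ContMDiffAt 𝓘(ℂ, ℂ × ℂ) 𝓘(ℂ, ℂ × ℂ) ω G p) (hinj : InjOn G (P \ R))
    (hRm : MeasurableSet (P ∩ R)) (hR0 : volume (P ∩ R) = 0) :
    ∫⁻ p in P, ‖D.coef f G p‖ₑ ^ 2 ≠ ⊤ := by
  obtain ⟨c, hc, hcs⟩ := hL
  have := D.countable
  have hGc : ContinuousOn G P := fun p hp => (hG p hp).continuousAt.continuousWithinAt
  set Q : D.ι → Set (ℂ × ℂ) := fun i => P ∩ G ⁻¹' (D.κ i).source with hQ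
  have hQo : ∀ i, IsOpen (Q i) := fun i => hGc.isOpen_inter_preimage hP (D.κ i).open_source
  have hle := lintegral_form_le (P := P) (R := R) (Q := Q) (h := D.coef f G)
    (k := fun i => D.κ i ∘ G) (b := fun i p => f (D.T (G p)) * D.β i (G p)) (β := c) hRm
    (by
      intro p hp
      exact mem_iUnion.mpr ⟨D.idx (G p), hp, D.idx_spec _⟩)
    (fun i => inter_subset_left) (fun i => (hQo i).measurableSet)
    (fun i p hp => (D.κ_comp_contDiffAt (hG p hp.1) hp.2).differentiableAt (by simp))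
    (by
      intro i p hp p' hp' hpp
      exact hinj ⟨hp.1.1, hp.2⟩ ⟨hp'.1.1, hp'.2⟩ ((D.κ i).injOn hp.1.2 hp'.1.2 hpp))
    (fun i p hp => D.coef_eq (hG p hp.1) hp.2)
    (fun i p hp => hc i _ hp.2) hR0
  refine ne_top_of_le_ne_top hcs (hle.trans ?_)
  apply ENNReal.tsum_le_tsum
  intro i
  gcongr
  rintro _ ⟨p, hp, rfl⟩
  exact (D.κ i).map_source hp.1.2

end FormData

end Pool.Agent.Helper40
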