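import Mathlib
import Pool.Agent.Helper40.Charts
import Pool.Agent.Helper40.TransferAux
open Set Topology Metric Filter
open scoped Manifold ContDiff ComplexConjugate

namespace Pool.Agent.Helper40

variable {d : ThetaData}

/-- the minors of two vectors -/
def minor (a b : Fin 3 → ℂ) (k : Fin 3) : ℂ := a (k + 1) * b (k + 2) - b (k + 1) * a (k + 2)

/-- a cross product of two vectors orthogonal to `g ≠ 0` is a multiple of `g` -/
theorem exists_minor_eq {g a b : Fin 3 → ℂ} (hg : ∃ k, g k ≠ 0) (ha : ∑ k, g k * a k = 0)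
    (hb : ∑ k, g k * b k = 0) : ∃ α : ℂ, ∀ k, minor a b k = α * g k := by
  obtain ⟨k₀, hk⟩ := hg
  refine ⟨minor a b k₀ / g k₀, ?_⟩
  rw [Fin.sum_univ_three] at ha hb
  have key : ∀ k l, g k * minor a b l = g l * minor a b k := by
    intro k l
    fin_cases k <;> fin_cases l <;> simp [minor, Fin.reduceAdd] <;>
      first
        | linear_combination a 0 * hb - b 0 * ha
        | linear_combination b 0 * ha - a 0 * hb
        | linear_combination a 1 * hb - b 1 * ha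
        | linear_combination b 1 * ha - a 1 * hb
        | linear_combination a 2 * hb - b 2 * ha
        | linear_combination b 2 * ha - a 2 * hb
  intro k
  rw [div_mul_eq_mul_div, eq_div_iff hk]
  linear_combination key k₀ k

/-- change of affine piece for the minors -/
theorem minor_change {j : Fin 3} {z z' a b a' b' : Fin 3 → ℂ} {α : ℂ} (hz : z 0 ≠ 0)
    (hG : GG d j z = 0) (hm : ∀ k, minor a b k = α * dG d j z k)
    (hz0 : z' 0 = z 1 / z 0) (hz1 : z' 1 = 1 / z 0) (hz2 : z' 2 = z 2)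
    (ha0 : a' 0 = (a 1 * z 0 - z 1 * a 0) / z 0 ^ 2) (ha1 : a' 1 = -a 0 / z 0 ^ 2) (ha2 : a' 2 = a 2)
    (hb0 : b' 0 = (b 1 * z 0 - z 1 * b 0) / z 0 ^ 2) (hb1 : b' 1 = -b 0 / z 0 ^ 2) (hb2 : b' 2 = b 2) :
    ∀ k, minor a' b' k = α * dG d (j + 1) z' k := by
  have m0 := hm 0
  have m1 := hm 1
  have m2 := hm 2
  simp [minor, dG] at m0 m1 m2
  have e1 : j + 1 + 1 = j + 2 := by fin_cases j <;> decide
  have e2 : j + 1 + 2 = j := by fin_cases j <;> decide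
  simp only [GG] at hG
  intro k
  fin_cases k
  · simp [minor, dG, e1, e2, hz0, hz1, hz2, ha0, ha1, ha2, hb0, hb1, hb2]
    field_simp
    linear_combination m1
  · simp [minor, dG, e1, e2, hz0, hz1, hz2, ha0, ha1, ha2, hb0, hb1, hb2]
    field_simp
    linear_combination (-z 0) * m0 - z 1 * m1 - 3 * α * hG
  · simp [minor, dG, e1, e2, hz0, hz1, hz2, ha0, ha1, ha2, hb0, hb1, hb2]
    field_simp
    linear_combination z 0 * m2

namespace XX

/-- derivative of the local coordinates along a map -/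
noncomputable def DD (j : Fin 3) (G : ℂ × ℂ → XX d) (p : ℂ × ℂ) : ℂ × ℂ →L[ℂ] (Fin 3 → ℂ) :=
  fderiv ℂ (fun q => zc j (G q)) p

theorem hasFDerivAt_zc {j : Fin 3} {G : ℂ × ℂ → XX d} {p : ℂ × ℂ}
    (hG : ContMDiffAt 𝓘(ℂ, ℂ × ℂ) 𝓘(ℂ, ℂ × ℂ) ω G p) (hj : G p ∈ dom j) :
    HasFDerivAt (fun q => zc j (G q)) (DD j G p) p := by
  have h1 := (contMDiffAt_zc hj).comp p hG
  exact (h1.contDiffAt.differentiableAt (by simp)).hasFDerivAt

theorem DD_orth {j : Fin 3} {G : ℂ × ℂ → XX d} {p : ℂ × ℂ}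
    (hG : ContMDiffAt 𝓘(ℂ, ℂ × ℂ) 𝓘(ℂ, ℂ × ℂ) ω G p) (hj : G p ∈ dom j) (v : ℂ × ℂ) :
    ∑ k, dG d j (zc j (G p)) k * DD j G p v k = 0 := by
  have h1 := (GG_hasFDerivAt d j (zc j (G p))).comp p (hasFDerivAt_zc hG hj)
  have h2 : (GG d j ∘ fun q => zc j (G q)) =ᶠ[𝓝 p] fun _ => 0 := by
    filter_upwards [hG.continuousAt.preimage_mem_nhds ((isOpen_dom j).mem_nhds hj)] with q hq
    exact GG_zc hq
  have h3 := (hasFDerivAt_const (𝕜 := ℂ) (0:ℂ) p).congr_of_eventuallyEq h2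
  have h4 := congrArg (fun L : ℂ × ℂ →L[ℂ] ℂ => L v) (h1.unique h3)
  simpa using h4

theorem hasDerivAt_line {j : Fin 3} {G : ℂ × ℂ → XX d} {p : ℂ × ℂ}
    (hG : ContMDiffAt 𝓘(ℂ, ℂ × ℂ) 𝓘(ℂ, ℂ × ℂ) ω G p) (hj : G p ∈ dom j) (v : ℂ × ℂ) (i : Fin 3) :
    HasDerivAt (fun t : ℂ => zc j (G (p + t • v)) i) (DD j G p v i) 0 := by
  have h0 : HasDerivAt (fun t : ℂ => p + t • v) v 0 := by
    have := ((hasDerivAt_id (0:ℂ)).smul_const v).const_add p
    simpa using this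
  have hG' : HasFDerivAt (fun q => zc j (G q)) (DD j G p) (p + (0:ℂ) • v) := by
    simpa using hasFDerivAt_zc hG hj
  have h1 := hG'.comp_hasDerivAt (0:ℂ) h0
  exact (hasDerivAt_pi.mp h1) i

theorem DD_change {j : Fin 3} {G : ℂ × ℂ → XX d} {p : ℂ × ℂ}
    (hG : ContMDiffAt 𝓘(ℂ, ℂ × ℂ) 𝓘(ℂ, ℂ × ℂ) ω G p) (hj : G p ∈ dom j)
    (hj' : G p ∈ dom (j + 1)) (v : ℂ × ℂ) :
    DD (j + 1) G p v 0 = (DD j G p v 1 * zc j (G p) 0 - zc j (G p) 1 * DD j G p v 0) /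
      zc j (G p) 0 ^ 2 ∧
    DD (j + 1) G p v 1 = -DD j G p v 0 / zc j (G p) 0 ^ 2 ∧
    DD (j + 1) G p v 2 = DD j G p v 2 := by
  have e1 : j + 1 + 1 = j + 2 := by fin_cases j <;> decide
  have e2 : j + 1 + 2 = j := by fin_cases j <;> decide
  have hz : zc j (G p) 0 ≠ 0 := (mem_dom_iff hj).mp hj'
  have hline : ContinuousAt (fun t : ℂ => p + t • v) 0 := by fun_prop
  have hp0 : p + (0:ℂ) • v = p := by simp
  have hGl : ContinuousAt (fun t : ℂ => G (p + t • v)) 0 := by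
    have : ContinuousAt G (p + (0:ℂ) • v) := by rw [hp0]; exact hG.continuousAt
    exact ContinuousAt.comp (f := fun t : ℂ => p + t • v) this hline
  have hev : ∀ᶠ t : ℂ in 𝓝 0, G (p + t • v) ∈ dom j ∧ G (p + t • v) ∈ dom (j + 1) := by
    have h1 : G (p + (0:ℂ) • v) ∈ dom j ∩ dom (j + 1) := by rw [hp0]; exact ⟨hj, hj'⟩
    exact hGl.preimage_mem_nhds (((isOpen_dom j).inter (isOpen_dom (j + 1))).mem_nhds h1)
  have d0 := hasDerivAt_line hG hj v 0
  have d1 := hasDerivAt_line hG hj v 1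
  have d2 := hasDerivAt_line hG hj v 2
  have d0' := hasDerivAt_line hG hj' v 0
  have d1' := hasDerivAt_line hG hj' v 1
  have d2' := hasDerivAt_line hG hj' v 2
  refine ⟨?_, ?_, ?_⟩
  · have h1 := d1.div d0 (by rw [hp0]; exact hz)
    rw [hp0] at h1
    refine d0'.unique (h1.congr_of_eventuallyEq ?_)
    filter_upwards [hev] with t ht
    change (G (p + t • v)).coord (j + 1 + 1) (j + 1) = _
    rw [coord_change ht.1 ht.2, e1]
    rfl
  · have h1 := d0.inv (by rw [hp0]; exact hz)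
    rw [hp0] at h1
    refine d1'.unique (h1.congr_of_eventuallyEq ?_)
    filter_upwards [hev] with t ht
    change (G (p + t • v)).coord (j + 1 + 2) (j + 1) = _
    rw [coord_change ht.1 ht.2, e2, coord_self ht.1, one_div]
    rfl
  · exact d2'.unique d2

theorem exists_alpha {G : ℂ × ℂ → XX d} {p : ℂ × ℂ}
    (hG : ContMDiffAt 𝓘(ℂ, ℂ × ℂ) 𝓘(ℂ, ℂ × ℂ) ω G p) :
    ∃ α : ℂ, ∀ j, G p ∈ dom j → ∀ k,
      minor (DD j G p (1, 0)) (DD j G p (0, 1)) k = α * dG d j (zc j (G p)) k := by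
  have hex : ∀ j, G p ∈ dom j → ∃ α : ℂ, ∀ k,
      minor (DD j G p (1, 0)) (DD j G p (0, 1)) k = α * dG d j (zc j (G p)) k := fun j hj =>
    exists_minor_eq (exists_dG_ne d (GG_zc hj)) (DD_orth hG hj _) (DD_orth hG hj _)
  have hstep : ∀ j, G p ∈ dom j → G p ∈ dom (j + 1) → ∀ α : ℂ,
      (∀ k, minor (DD j G p (1, 0)) (DD j G p (0, 1)) k = α * dG d j (zc j (G p)) k) →
      ∀ k, minor (DD (j + 1) G p (1, 0)) (DD (j + 1) G p (0, 1)) k =
        α * dG d (j + 1) (zc (j + 1) (G p)) k := by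
    intro j hj hj' α hα
    have e1 : j + 1 + 1 = j + 2 := by fin_cases j <;> decide
    have e2 : j + 1 + 2 = j := by fin_cases j <;> decide
    have hz : zc j (G p) 0 ≠ 0 := (mem_dom_iff hj).mp hj'
    obtain ⟨a0, a1, a2⟩ := DD_change hG hj hj' (1, 0)
    obtain ⟨b0, b1, b2⟩ := DD_change hG hj hj' (0, 1)
    apply minor_change hz (GG_zc hj) hα _ _ _ a0 a1 a2 b0 b1 b2
    · change (G p).coord (j + 1 + 1) (j + 1) = _
      rw [coord_change hj hj', e1]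
      rfl
    · change (G p).coord (j + 1 + 2) (j + 1) = _
      rw [coord_change hj hj', e2, coord_self hj]
      rfl
    · rfl
  obtain ⟨j₀, hj₀⟩ := exists_dom (G p)
  obtain ⟨α, hα⟩ := hex j₀ hj₀
  refine ⟨α, fun j hj => ?_⟩
  rcases eq_cases j₀ j with rfl | rfl | rfl
  · exact hα
  · exact hstep j₀ hj₀ hj α hα
  · obtain ⟨α', hα'⟩ := hex _ hj
    have e3 : j₀ + 2 + 1 = j₀ := by fin_cases j₀ <;> decide
    have h1 := hstep (j₀ + 2) hj (by rw [e3]; exact hj₀) α' hα'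
    rw [e3] at h1
    obtain ⟨k, hk⟩ := exists_dG_ne d (GG_zc hj₀)
    have h2 : α' = α := by
      have := (h1 k).symm.trans (hα k)
      exact mul_right_cancel₀ hk this
    rw [← h2]
    exact hα'

/-- the coefficient of the holomorphic form does not depend on the chart -/
theorem compat_aux {G : ℂ × ℂ → XX d} {p : ℂ × ℂ}
    (hG : ContMDiffAt 𝓘(ℂ, ℂ × ℂ) 𝓘(ℂ, ℂ × ℂ) ω G p) :
    ∃ α : ℂ, ∀ (j k : Fin 3) (c : ℂ × ℂ) (κ : XX d → ℂ × ℂ),
      (∀ y, κ y = (zc j y (k + 1) + c.1, zc j y (k + 2) + c.2)) →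
      G p ∈ dom j → dG d j (zc j (G p)) k ≠ 0 →
      (dG d j (zc j (G p)) k)⁻¹ * (fderiv ℂ (κ ∘ G) p).det = α := by
  obtain ⟨α, hα⟩ := exists_alpha hG
  refine ⟨α, ?_⟩
  intro j k c κ hκ hj hk
  have h1 := hasFDerivAt_zc hG hj
  have h2 : κ ∘ G = fun q => (zc j (G q) (k + 1) + c.1, zc j (G q) (k + 2) + c.2) := by
    ext1 q; exact hκ _
  have h3 := (((hasFDerivAt_pi'.mp h1 (k + 1)).add_const c.1).prodMk
    ((hasFDerivAt_pi'.mp h1 (k + 2)).add_const c.2))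
  rw [h2, h3.fderiv, det_eq]
  have h4 := hα j hj k
  simp only [minor] at h4
  change (dG d j (zc j (G p)) k)⁻¹ * (DD j G p (1, 0) (k + 1) * DD j G p (0, 1) (k + 2) -
    DD j G p (0, 1) (k + 1) * DD j G p (1, 0) (k + 2)) = α
  rw [h4]
  field_simp

end XX

end Pool.Agent.Helper40
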