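import Mathlib
import Pool.Agent.Helper40.Surface
open Set Topology Metric Filter
open scoped Manifold ContDiff ComplexConjugate

namespace Pool.Agent.Helper40

namespace LocalPC

/-- the affine Fermat cubic -/
def AA : Set (ℂ × ℂ) := {p | p.1 ^ 3 + p.2 ^ 3 = -1}

theorem isSimplyConnected_univ_real : IsSimplyConnected (univ : Set ℝ) := by
  have : ContractibleSpace (univ : Set ℝ) := convex_univ.contractibleSpace univ_nonempty
  exact inferInstanceAs (SimplyConnectedSpace (univ : Set ℝ))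

theorem exists_cube_root_real {g : ℝ → ℂ} (hg : Continuous g) (h0 : ∀ t, g t ≠ 0) :
    ∃ f : ℝ → ℂ, Continuous f ∧ ∀ x, f x ^ 3 = g x := by
  obtain ⟨f, hf, h⟩ := Complex.exists_continuousOn_pow_eq isSimplyConnected_univ_real isOpen_univ
    hg.continuousOn (by rintro ⟨t, -, ht⟩; exact h0 t ht) three_ne_zero
  exact ⟨f, continuousOn_univ.mp hf, h⟩

theorem joined_one {s z : ℂ} (h : s ^ 3 + z ^ 3 = -1)
    (hz : ∀ t ∈ Icc (0 : ℝ) 1, -1 - ((t : ℂ) * z) ^ 3 ≠ 0) :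
    ∃ b : ℂ, b ^ 3 = -1 ∧ JoinedIn AA (b, 0) (s, z) := by
  let c : ℝ → ℝ := fun t => max 0 (min 1 t)
  have hc : Continuous c := by fun_prop
  have hcI : ∀ t, c t ∈ Icc (0 : ℝ) 1 := fun t =>
    ⟨le_max_left _ _, max_le zero_le_one (min_le_left _ _)⟩
  have hceq : ∀ t ∈ Icc (0 : ℝ) 1, c t = t := fun t ht => by
    simp only [c, min_eq_right ht.2, max_eq_right ht.1]
  obtain ⟨f, hf, hf3⟩ := exists_cube_root_real (g := fun t => -1 - (((c t : ℝ) : ℂ) * z) ^ 3)
    (by fun_prop) (fun t => hz _ (hcI t))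
  have h1 : f 1 ^ 3 = s ^ 3 := by
    rw [hf3 1, hceq 1 ⟨zero_le_one, le_refl _⟩]
    push_cast
    linear_combination -h
  have hs : s ≠ 0 := by
    intro hs
    apply hz 1 ⟨zero_le_one, le_refl _⟩
    rw [hs] at h
    push_cast
    linear_combination -h
  have hf1 : f 1 ≠ 0 := by
    intro h0
    rw [h0] at h1
    have : s ^ 3 = 0 := by rw [← h1]; simp
    exact hs (pow_eq_zero_iff (three_ne_zero) |>.mp this)
  have hζ : (s / f 1) ^ 3 = 1 := by
    rw [div_pow, h1]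
    exact div_self (pow_ne_zero 3 hs)
  refine ⟨s / f 1 * f 0, ?_, ?_⟩
  · rw [mul_pow, hζ, hf3 0, hceq 0 ⟨le_refl _, zero_le_one⟩]
    push_cast
    ring
  · apply JoinedIn.ofLine (f := fun t : ℝ => (s / f 1 * f t, (t : ℂ) * z))
    · fun_prop
    · simp
    · simp [div_mul_cancel₀ _ hf1]
    · rintro _ ⟨t, ht, rfl⟩
      change (s / f 1 * f t) ^ 3 + ((t : ℂ) * z) ^ 3 = -1
      rw [mul_pow, hζ, hf3 t, hceq t ht]
      ring

theorem joinedIn_swap {p q : ℂ × ℂ} (h : JoinedIn AA p q) : JoinedIn AA p.swap q.swap := by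
  obtain ⟨γ, hγ⟩ := h
  refine ⟨γ.map continuous_swap, fun t => ?_⟩
  have h1 := hγ t
  change (γ t).2 ^ 3 + (γ t).1 ^ 3 = -1
  rw [add_comm]
  exact h1

theorem joined_base {b : ℂ} (hb : b ^ 3 = -1) : JoinedIn AA (b, 0) (0, -1) := by
  have hcont : Continuous fun t : ℝ => (((max 0 (1 - t ^ 3) : ℝ) ^ ((1 : ℝ) / 3) : ℝ) : ℂ) := by
    apply Complex.continuous_ofReal.comp
    exact Continuous.rpow_const (by fun_prop) (fun x => Or.inr (by norm_num))
  apply JoinedIn.ofLine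
    (f := fun t : ℝ => (b * (((max 0 (1 - t ^ 3) : ℝ) ^ ((1 : ℝ) / 3) : ℝ) : ℂ), -(t : ℂ)))
  · apply Continuous.continuousOn
    exact (continuous_const.mul hcont).prodMk (by fun_prop)
  · simp
  · simp
  · rintro _ ⟨t, ht, rfl⟩
    have h1 : 0 ≤ 1 - t ^ 3 := by
      have : t ^ 3 ≤ 1 := pow_le_one₀ ht.1 ht.2
      linarith
    have h2 : ((1 - t ^ 3 : ℝ) ^ ((1 : ℝ) / 3)) ^ 3 = 1 - t ^ 3 := by
      rw [← Real.rpow_natCast, ← Real.rpow_mul h1]
      norm_num
    change (b * (((max 0 (1 - t ^ 3) : ℝ) ^ ((1 : ℝ) / 3) : ℝ) : ℂ)) ^ 3 + (-(t : ℂ)) ^ 3 = -1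
    rw [max_eq_right h1, mul_pow, hb, ← Complex.ofReal_pow, h2]
    push_cast
    ring

theorem joined_all {p : ℂ × ℂ} (hp : p ∈ AA) : JoinedIn AA (0, -1) p := by
  obtain ⟨s, z⟩ := p
  have hp' : s ^ 3 + z ^ 3 = -1 := hp
  by_cases hz : ∀ t ∈ Icc (0 : ℝ) 1, -1 - ((t : ℂ) * z) ^ 3 ≠ 0
  · obtain ⟨b, hb, hj⟩ := joined_one hp' hz
    exact (joined_base hb).symm.trans hj
  · push Not at hz
    obtain ⟨t, ht, h0⟩ := hz
    have ht0 : t ≠ 0 := by
      rintro rfl
      simp at h0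
    -- `s ^ 3` is a nonnegative real
    have hs3 : s ^ 3 = (((t ^ 3)⁻¹ - 1 : ℝ) : ℂ) := by
      have htc : (t : ℂ) ≠ 0 := by exact_mod_cast ht0
      have hz3 : z ^ 3 = -((t : ℂ) ^ 3)⁻¹ := by
        field_simp
        linear_combination -h0
      push_cast
      rw [show s ^ 3 = -1 - z ^ 3 by linear_combination hp', hz3]
      ring
    have hnn : 0 ≤ (t ^ 3)⁻¹ - 1 := by
      have h1 : 0 < t := lt_of_le_of_ne ht.1 (Ne.symm ht0)
      have h2 : t ^ 3 ≤ 1 := pow_le_one₀ ht.1 ht.2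
      have h3 : 1 ≤ (t ^ 3)⁻¹ := (one_le_inv₀ (by positivity)).mpr h2
      linarith
    have hs : ∀ u ∈ Icc (0 : ℝ) 1, -1 - ((u : ℂ) * s) ^ 3 ≠ 0 := by
      intro u hu h
      rw [mul_pow, hs3] at h
      have h1 : (-1 - u ^ 3 * ((t ^ 3)⁻¹ - 1) : ℝ) = 0 := by exact_mod_cast h
      have h2 : 0 ≤ u ^ 3 * ((t ^ 3)⁻¹ - 1) := mul_nonneg (pow_nonneg hu.1 3) hnn
      linarith
    obtain ⟨b, hb, hj⟩ := joined_one (s := z) (z := s) (by rw [add_comm]; exact hp') hs
    have h1 : JoinedIn AA (0, b) (s, z) := joinedIn_swap hj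
    have h2 : JoinedIn AA (0, b) (-1, 0) := joinedIn_swap (joined_base hb)
    have h3 : JoinedIn AA (-1, 0) (0, -1) := joined_base (by norm_num)
    exact (h3.symm.trans h2.symm).trans h1

theorem isPathConnected_AA : IsPathConnected AA :=
  ⟨(0, -1), by change (0 : ℂ) ^ 3 + (-1) ^ 3 = -1; norm_num, fun {_} hy => joined_all hy⟩

/-- the homogeneous vector -/
def vec (j : Fin 3) (r0 r1 r2 : ℂ) : Fin 3 → ℂ :=
  fun i => if i = j then r0 else if i = j + 1 then r1 else r2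

theorem vec_zero (j : Fin 3) (r0 r1 r2 : ℂ) : vec j r0 r1 r2 j = r0 := by simp [vec]
theorem vec_one (j : Fin 3) (r0 r1 r2 : ℂ) : vec j r0 r1 r2 (j + 1) = r1 := by
  fin_cases j <;> simp [vec]
theorem vec_two (j : Fin 3) (r0 r1 r2 : ℂ) : vec j r0 r1 r2 (j + 2) = r2 := by
  fin_cases j <;> simp [vec]

theorem sum_shift' (j : Fin 3) (f : Fin 3 → ℂ) : ∑ i, f i = f j + f (j + 1) + f (j + 2) := by
  rw [Fin.sum_univ_three]
  fin_cases j
  · rfl
  · change f 0 + f 1 + f 2 = f 1 + f 2 + f 0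
    ring
  · change f 0 + f 1 + f 2 = f 2 + f 0 + f 1
    ring

theorem exists_roots (d : ThetaData) {D : Set ℂ} (hD : IsOpen D) (hDc : Convex ℝ D)
    (hne : D.Nonempty) (hS : D ∩ {t | ∃ i, d.lam i t = 0} = ∅) :
    ∃ a : Fin 3 → ℂ → ℂ, (∀ i, ContinuousOn (a i) D) ∧ (∀ i, ∀ t, a i t ^ 3 = d.lam i t) ∧
      ∀ i, ∀ t ∈ D, a i t ≠ 0 := by
  have hsc : IsSimplyConnected D := by
    have : ContractibleSpace D := hDc.contractibleSpace hne
    exact inferInstanceAs (SimplyConnectedSpace D)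
  have hne0 : ∀ i, ∀ t ∈ D, d.lam i t ≠ 0 := by
    intro i t ht h
    have : t ∈ D ∩ {t | ∃ i, d.lam i t = 0} := ⟨ht, i, h⟩
    rw [hS] at this
    exact this
  have key : ∀ i, ∃ a : ℂ → ℂ, ContinuousOn a D ∧ ∀ t, a t ^ 3 = d.lam i t := fun i =>
    Complex.exists_continuousOn_pow_eq hsc hD (d.lam_diff i).continuous.continuousOn
      (by rintro ⟨t, ht, h⟩; exact hne0 i t ht h) three_ne_zero
  choose a ha h3 using key
  refine ⟨a, ha, h3, fun i t ht h => hne0 i t ht ?_⟩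
  rw [← h3 i t, h]
  simp

end LocalPC

open LocalPC

theorem isPathConnected_none (d : ThetaData) {D : Set ℂ} (hD : IsOpen D) (hDc : Convex ℝ D)
    (hne : D.Nonempty) (hS : D ∩ {t | ∃ i, d.lam i t = 0} = ∅) :
    IsPathConnected (XX.T ⁻¹' D : Set (XX d)) := by
  obtain ⟨a, hac, ha3, ha0⟩ := exists_roots d hD hDc hne hS
  have hpc : IsPathConnected (AA ×ˢ D) := isPathConnected_AA.prod (hDc.isPathConnected hne)
  have : PathConnectedSpace (AA ×ˢ D : Set ((ℂ × ℂ) × ℂ)) :=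
    isPathConnected_iff_pathConnectedSpace.mp hpc
  -- parametrisation of the piece `j`
  have hvne : ∀ j (y : (AA ×ˢ D : Set ((ℂ × ℂ) × ℂ))),
      vec j (1 / a j y.1.2) (y.1.1.1 / a (j + 1) y.1.2) (y.1.1.2 / a (j + 2) y.1.2) ≠ 0 := by
    intro j y h
    have h1 := congrFun h j
    rw [vec_zero, Pi.zero_apply, one_div, inv_eq_zero] at h1
    exact ha0 j _ y.2.2 h1
  have hveq : ∀ j (y : (AA ×ˢ D : Set ((ℂ × ℂ) × ℂ))),
      ∑ i, d.lam i y.1.2 * (vec j (1 / a j y.1.2) (y.1.1.1 / a (j + 1) y.1.2)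
        (y.1.1.2 / a (j + 2) y.1.2)) i ^ 3 = 0 := by
    intro j y
    have h0 := ha0 j _ y.2.2
    have h1 := ha0 (j + 1) _ y.2.2
    have h2 := ha0 (j + 2) _ y.2.2
    have hA : y.1.1.1 ^ 3 + y.1.1.2 ^ 3 = -1 := y.2.1
    rw [sum_shift' j, vec_zero, vec_one, vec_two, ← ha3 j, ← ha3 (j + 1), ← ha3 (j + 2)]
    field_simp
    linear_combination hA
  let Ψ : ∀ j : Fin 3, (AA ×ˢ D : Set ((ℂ × ℂ) × ℂ)) → XX d := fun j y =>
    XX.mk _ (hvne j y) y.1.2 (hveq j y)
  have hΨc : ∀ j, Continuous (Ψ j) := by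
    intro j
    have hcA : ∀ i, Continuous fun y : (AA ×ˢ D : Set ((ℂ × ℂ) × ℂ)) => a i y.1.2 := by
      intro i
      exact (hac i).comp_continuous (by fun_prop) (fun y => y.2.2)
    apply XX.continuous_mk _ _ (by fun_prop)
    apply continuous_pi
    intro i
    unfold vec
    split_ifs
    · exact continuous_const.div (hcA _) fun y => ha0 _ _ y.2.2
    · exact Continuous.div (by fun_prop) (hcA _) fun y => ha0 _ _ y.2.2
    · exact Continuous.div (by fun_prop) (hcA _) fun y => ha0 _ _ y.2.2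
  have hrange : ∀ j, IsPathConnected (range (Ψ j)) := fun j => isPathConnected_range (hΨc j)
  have hsub : ∀ j, range (Ψ j) ⊆ XX.T ⁻¹' D := by
    rintro j _ ⟨y, rfl⟩
    exact y.2.2
  have hsup : ∀ j (x : XX d), x ∈ XX.dom j → x.T ∈ D → x ∈ range (Ψ j) := by
    intro j x hx hxT
    have h0 := ha0 j _ hxT
    have h1 := ha0 (j + 1) _ hxT
    have h2 := ha0 (j + 2) _ hxT
    have heq := XX.equation hx
    rw [sum_shift' j, XX.coord_self hx, ← ha3 j, ← ha3 (j + 1), ← ha3 (j + 2)] at heq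
    refine ⟨⟨((a (j + 1) x.T * x.coord (j + 1) j / a j x.T,
      a (j + 2) x.T * x.coord (j + 2) j / a j x.T), x.T), ?_, hxT⟩, ?_⟩
    · change (a (j + 1) x.T * x.coord (j + 1) j / a j x.T) ^ 3 +
        (a (j + 2) x.T * x.coord (j + 2) j / a j x.T) ^ 3 = -1
      field_simp
      linear_combination heq
    · conv_rhs => rw [← XX.mk_coord hx]
      apply XX.ext'
      · have hsm : vec j (1 / a j x.T)
            (a (j + 1) x.T * x.coord (j + 1) j / a j x.T / a (j + 1) x.T)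
            (a (j + 2) x.T * x.coord (j + 2) j / a j x.T / a (j + 2) x.T) =
            (a j x.T)⁻¹ • fun k => x.coord k j := by
          ext i
          have hi : i = j ∨ i = j + 1 ∨ i = j + 2 := by
            fin_cases j <;> fin_cases i <;> decide
          rcases hi with rfl | rfl | rfl
          · rw [vec_zero, Pi.smul_apply, XX.coord_self hx, smul_eq_mul, one_div, mul_one]
          · rw [vec_one, Pi.smul_apply, smul_eq_mul]
            field_simp
          · rw [vec_two, Pi.smul_apply, smul_eq_mul]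
            field_simp
        apply Subtype.ext
        change projMat (vec j (1 / a j x.T)
            (a (j + 1) x.T * x.coord (j + 1) j / a j x.T / a (j + 1) x.T)
            (a (j + 2) x.T * x.coord (j + 2) j / a j x.T / a (j + 2) x.T)) =
          projMat (fun k => x.coord k j)
        rw [hsm]
        exact projMat_smul (inv_ne_zero h0) _
      · rfl
  have hcover : (XX.T ⁻¹' D : Set (XX d)) = (range (Ψ 0) ∪ range (Ψ 1)) ∪ range (Ψ 2) := by
    apply Subset.antisymm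
    · intro x hx
      obtain ⟨j, hj⟩ := XX.exists_dom x
      have := hsup j x hj hx
      fin_cases j
      · exact Or.inl (Or.inl this)
      · exact Or.inl (Or.inr this)
      · exact Or.inr this
    · exact union_subset (union_subset (hsub 0) (hsub 1)) (hsub 2)
  -- intersections
  obtain ⟨t, ht⟩ := hne
  have hmeet : ∀ j, (range (Ψ j) ∩ range (Ψ (j + 1))).Nonempty := by
    intro j
    let y : (AA ×ˢ D : Set ((ℂ × ℂ) × ℂ)) := ⟨((-1, 0), t), by
      refine ⟨?_, ht⟩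
      change (-1 : ℂ) ^ 3 + 0 ^ 3 = -1
      norm_num⟩
    refine ⟨Ψ j y, mem_range_self y, hsup (j + 1) (Ψ j y) ?_ ht⟩
    change XX.mk _ (hvne j y) y.1.2 (hveq j y) ∈ XX.dom (j + 1)
    rw [XX.mk_mem_dom, vec_one]
    exact div_ne_zero (by change (-1 : ℂ) ≠ 0; norm_num) (ha0 _ _ ht)
  rw [hcover]
  refine ((hrange 0).union (hrange 1) (hmeet 0)).union (hrange 2) ?_
  obtain ⟨x, hx1, hx2⟩ := hmeet 1
  exact ⟨x, Or.inr hx1, hx2⟩

end Pool.Agent.Helper40
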