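import Mathlib

open Set Filter Topology unitInterval

namespace Pool.Agent.Helper40

section paths

variable {X : Type*} [TopologicalSpace X]

/-- two paths in a simply connected set with the same endpoints are homotopic -/
theorem IsSimplyConnected.homotopic_of_mem {s : Set X} (hs : IsSimplyConnected s) {x y : X}
    (p q : Path x y) (hp : ∀ t, p t ∈ s) (hq : ∀ t, q t ∈ s) : p.Homotopic q := by
  have := hs.simplyConnectedSpace
  have hx : x ∈ s := by simpa using hp 0
  have hy : y ∈ s := by simpa using hp 1
  let p' : Path (⟨x, hx⟩ : s) ⟨y, hy⟩ :=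
    { toFun := fun t => ⟨p t, hp t⟩
      source' := by simp
      target' := by simp }
  let q' : Path (⟨x, hx⟩ : s) ⟨y, hy⟩ :=
    { toFun := fun t => ⟨q t, hq t⟩
      source' := by simp
      target' := by simp }
  have h := SimplyConnectedSpace.paths_homotopic p' q'
  have h2 := h.map (⟨Subtype.val, continuous_subtype_val⟩ : C(s, X))
  exact h2

/-- gluing: the whole space is the union of two open simply connected sets with path connected
intersection -/
theorem simplyConnectedSpace_of_union {U V : Set X} (hU : IsOpen U) (hV : IsOpen V)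
    (hU2 : IsSimplyConnected U) (hV2 : IsSimplyConnected V) (hUV : IsPathConnected (U ∩ V))
    (huniv : U ∪ V = univ) : SimplyConnectedSpace X := by
  classical
  obtain ⟨x0, hx0⟩ := hUV.nonempty
  have hex : ∀ x : X, ∃ γ : Path x0 x, (x ∈ U → ∀ t, γ t ∈ U) ∧ (x ∈ V → ∀ t, γ t ∈ V) := by
    intro x
    by_cases hxU : x ∈ U
    · by_cases hxV : x ∈ V
      · obtain ⟨γ, hγ⟩ := hUV.joinedIn x0 hx0 x ⟨hxU, hxV⟩
        exact ⟨γ, fun _ t => (hγ t).1, fun _ t => (hγ t).2⟩
      · obtain ⟨γ, hγ⟩ := hU2.isPathConnected.joinedIn x0 hx0.1 x hxU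
        exact ⟨γ, fun _ t => hγ t, fun h => absurd h hxV⟩
    · have hxV : x ∈ V := by
        have : x ∈ U ∪ V := by rw [huniv]; trivial
        exact this.resolve_left hxU
      obtain ⟨γ, hγ⟩ := hV2.isPathConnected.joinedIn x0 hx0.2 x hxV
      exact ⟨γ, fun h => absurd h hxU, fun _ t => hγ t⟩
  choose γ hγU hγV using hex
  have htrans_mem : ∀ (s : Set X) {a b c : X} (p : Path a b) (q : Path b c), (∀ t, p t ∈ s) →
      (∀ t, q t ∈ s) → ∀ t, (p.trans q) t ∈ s := by
    intro s a b c p q hp hq t
    have : (p.trans q) t ∈ range (p.trans q) := mem_range_self t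
    rw [Path.trans_range] at this
    rcases this with ⟨t', ht'⟩ | ⟨t', ht'⟩
    · rw [← ht']; exact hp t'
    · rw [← ht']; exact hq t'
  -- small pieces
  have hsmall : ∀ {x y : X} (q : Path x y), ((∀ t, q t ∈ U) ∨ (∀ t, q t ∈ V)) →
      ((γ x).trans q).Homotopic (γ y) := by
    intro x y q hq
    rcases hq with hq | hq
    · have hx : x ∈ U := by simpa using hq 0
      have hy : y ∈ U := by simpa using hq 1
      exact IsSimplyConnected.homotopic_of_mem hU2 _ _ (htrans_mem U _ _ (hγU x hx) hq) (hγU y hy)
    · have hx : x ∈ V := by simpa using hq 0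
      have hy : y ∈ V := by simpa using hq 1
      exact IsSimplyConnected.homotopic_of_mem hV2 _ _ (htrans_mem V _ _ (hγV x hx) hq) (hγV y hy)
  -- long paths
  have hlong : ∀ {x y : X} (p : Path x y) (t : I),
      ((γ (p 0)).trans (p.subpath 0 t)).Homotopic (γ (p t)) := by
    intro x y p
    -- local step
    have hstep : ∀ t0 : I, ∃ N ∈ 𝓝 t0, ∀ t ∈ N, ∀ t' ∈ N,
        ((γ (p 0)).trans (p.subpath 0 t)).Homotopic (γ (p t)) →
        ((γ (p 0)).trans (p.subpath 0 t')).Homotopic (γ (p t')) := by
      intro t0
      have hW : ∃ W : Set X, IsOpen W ∧ p t0 ∈ W ∧ (W = U ∨ W = V) := by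
        have : p t0 ∈ U ∪ V := by rw [huniv]; trivial
        rcases this with h | h
        · exact ⟨U, hU, h, Or.inl rfl⟩
        · exact ⟨V, hV, h, Or.inr rfl⟩
      obtain ⟨W, hWo, hpW, hWUV⟩ := hW
      have hnhds : p ⁻¹' W ∈ 𝓝 t0 := p.continuous.continuousAt.preimage_mem_nhds (hWo.mem_nhds hpW)
      obtain ⟨ε, hε, hball⟩ := Metric.mem_nhds_iff.1 hnhds
      refine ⟨Metric.ball t0 ε, Metric.ball_mem_nhds _ hε, fun t ht t' ht' hhom => ?_⟩
      have hsub : ∀ s, (p.subpath t t') s ∈ W := by
        intro s
        have hr : (p.subpath t t') s ∈ range (p.subpath t t') := mem_range_self s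
        rw [Path.range_subpath] at hr
        obtain ⟨r, hr, hrs⟩ := hr
        rw [← hrs]
        apply hball
        rw [Metric.mem_ball] at *
        rw [Subtype.dist_eq, Real.dist_eq] at *
        have h1 : min (t : ℝ) t' ≤ r := by
          have := hr.1
          rw [← Subtype.coe_le_coe] at this
          rcases le_total t t' with h | h
          · rw [inf_eq_left.2 h] at this
            exact (min_le_left _ _).trans this
          · rw [inf_eq_right.2 h] at this
            exact (min_le_right _ _).trans this
        have h2 : (r : ℝ) ≤ max (t : ℝ) t' := by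
          have := hr.2
          rw [← Subtype.coe_le_coe] at this
          rcases le_total t t' with h | h
          · rw [sup_eq_right.2 h] at this
            exact this.trans (le_max_right _ _)
          · rw [sup_eq_left.2 h] at this
            exact this.trans (le_max_left _ _)
        rw [abs_lt] at *
        rcases le_total (t : ℝ) t' with h | h
        · rw [min_eq_left h] at h1
          rw [max_eq_right h] at h2
          constructor <;> linarith [ht.1, ht.2, ht'.1, ht'.2]
        · rw [min_eq_right h] at h1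
          rw [max_eq_left h] at h2
          constructor <;> linarith [ht.1, ht.2, ht'.1, ht'.2]
      have h1 : ((γ (p t)).trans (p.subpath t t')).Homotopic (γ (p t')) := by
        apply hsmall
        rcases hWUV with rfl | rfl
        · exact Or.inl hsub
        · exact Or.inr hsub
      have h2 : ((p.subpath 0 t).trans (p.subpath t t')).Homotopic (p.subpath 0 t') :=
        ⟨Path.Homotopy.subpathTransSubpath p 0 t t'⟩
      have h3 : ((γ (p 0)).trans (p.subpath 0 t')).Homotopic
          ((γ (p 0)).trans ((p.subpath 0 t).trans (p.subpath t t'))) :=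
        (Path.Homotopic.refl _).hcomp h2.symm
      have h4 : ((γ (p 0)).trans ((p.subpath 0 t).trans (p.subpath t t'))).Homotopic
          (((γ (p 0)).trans (p.subpath 0 t)).trans (p.subpath t t')) :=
        Path.Homotopic.symm ⟨Path.Homotopy.transAssoc _ _ _⟩
      have h5 : (((γ (p 0)).trans (p.subpath 0 t)).trans (p.subpath t t')).Homotopic
          ((γ (p t)).trans (p.subpath t t')) := hhom.hcomp (Path.Homotopic.refl _)
      exact h3.trans (h4.trans (h5.trans h1))
    set S : Set I := {t | ((γ (p 0)).trans (p.subpath 0 t)).Homotopic (γ (p t))} with hS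
    have hclopen : IsClopen S := by
      constructor
      · rw [← isOpen_compl_iff, isOpen_iff_mem_nhds]
        intro t0 ht0
        obtain ⟨N, hN, hN'⟩ := hstep t0
        filter_upwards [hN] with t ht hcon
        exact ht0 (hN' t ht t0 (mem_of_mem_nhds hN) hcon)
      · rw [isOpen_iff_mem_nhds]
        intro t0 ht0
        obtain ⟨N, hN, hN'⟩ := hstep t0
        filter_upwards [hN] with t ht
        exact hN' t0 (mem_of_mem_nhds hN) t ht ht0
    have h0 : (0 : I) ∈ S := by
      change ((γ (p 0)).trans (p.subpath 0 0)).Homotopic (γ (p 0))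
      rw [Path.subpath_self]
      exact ⟨Path.Homotopy.transRefl _⟩
    have huS : S = univ := hclopen.eq_univ ⟨0, h0⟩
    intro t
    have : t ∈ S := by rw [huS]; trivial
    exact this
  have hcast : ∀ {x y x' y' : X} (p : Path x y) (hx : x' = x) (hy : y' = y),
      ((γ x').trans (p.cast hx hy)).Homotopic (γ y') → ((γ x).trans p).Homotopic (γ y) := by
    intro x y x' y' p hx hy h
    subst hx
    subst hy
    exact h
  have hfull : ∀ {x y : X} (p : Path x y), ((γ x).trans p).Homotopic (γ y) := by
    intro x y p
    have h := hlong p 1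
    rw [Path.subpath_zero_one] at h
    exact hcast p p.source p.target h
  rw [simply_connected_iff_paths_homotopic']
  refine ⟨?_, ?_⟩
  · exact { nonempty := ⟨x0⟩, joined := fun x y => ⟨(γ x).symm.trans (γ y)⟩ }
  · intro x y p q
    have h1 : ((γ x).trans p).Homotopic ((γ x).trans q) := (hfull p).trans (hfull q).symm
    have h2 : ∀ r : Path x y, ((γ x).symm.trans ((γ x).trans r)).Homotopic r := by
      intro r
      have e1 : ((γ x).symm.trans ((γ x).trans r)).Homotopic (((γ x).symm.trans (γ x)).trans r) :=
        Path.Homotopic.symm ⟨Path.Homotopy.transAssoc _ _ _⟩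
      have e2 : (((γ x).symm.trans (γ x)).trans r).Homotopic ((Path.refl x).trans r) := by
        apply Path.Homotopic.hcomp _ (Path.Homotopic.refl _)
        exact Path.Homotopic.symm ⟨Path.Homotopy.reflSymmTrans (γ x)⟩
      have e3 : ((Path.refl x).trans r).Homotopic r := ⟨Path.Homotopy.reflTrans _⟩
      exact e1.trans (e2.trans e3)
    exact (h2 p).symm.trans (((Path.Homotopic.refl _).hcomp h1).trans (h2 q))

end paths

/-- preimage under the inclusion of a larger set -/
theorem isSimplyConnected_preimage_val {X : Type*} [TopologicalSpace X] {U W : Set X}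
    (h : U ⊆ W) : IsSimplyConnected ((↑) ⁻¹' U : Set W) ↔ IsSimplyConnected U := by
  have h1 := (Topology.IsEmbedding.subtypeVal (p := fun x => x ∈ W)).isSimplyConnected_image
    (s := ((↑) ⁻¹' U : Set W))
  have h2 : (Subtype.val '' ((↑) ⁻¹' U : Set W)) = U := by
    rw [Subtype.image_preimage_coe, inter_eq_right.2 h]
  rw [h2] at h1
  exact h1.symm

theorem isSimplyConnected_union {X : Type*} [TopologicalSpace X] {U V : Set X} (hU : IsOpen U)
    (hV : IsOpen V) (hU2 : IsSimplyConnected U) (hV2 : IsSimplyConnected V)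
    (hUV : IsPathConnected (U ∩ V)) : IsSimplyConnected (U ∪ V) := by
  change SimplyConnectedSpace (U ∪ V : Set X)
  apply simplyConnectedSpace_of_union (U := ((↑) ⁻¹' U : Set (U ∪ V : Set X)))
    (V := ((↑) ⁻¹' V : Set (U ∪ V : Set X)))
    (hU.preimage continuous_subtype_val) (hV.preimage continuous_subtype_val)
  · exact (isSimplyConnected_preimage_val subset_union_left).2 hU2
  · exact (isSimplyConnected_preimage_val subset_union_right).2 hV2
  · rw [← preimage_inter]
    rw [Topology.IsInducing.subtypeVal.isPathConnected_iff, Subtype.image_preimage_coe,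
      inter_eq_right.2 (inter_subset_left.trans subset_union_left)]
    exact hUV
  · rw [← preimage_union, Subtype.coe_preimage_self]

theorem isSimplyConnected_iUnion_mono {X : Type*} [TopologicalSpace X] {U : ℕ → Set X}
    (hU : ∀ n, IsOpen (U n)) (hm : Monotone U) (hs : ∀ n, IsSimplyConnected (U n)) :
    IsSimplyConnected (⋃ n, U n) := by
  rw [isSimplyConnected_iff_exists_homotopy_refl_forall_mem]
  refine ⟨?_, ?_⟩
  · obtain ⟨x, hx⟩ := (hs 0).nonempty
    refine ⟨x, mem_iUnion.2 ⟨0, hx⟩, fun {y} hy => ?_⟩
    obtain ⟨n, hn⟩ := mem_iUnion.1 hy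
    exact ((hs n).isPathConnected.joinedIn x (hm (Nat.zero_le n) hx) y hn).mono
      (subset_iUnion U n)
  · intro x p hp
    have hc : IsCompact (range p) := isCompact_range p.continuous
    obtain ⟨n, hn⟩ := hc.elim_directed_cover U hU (by rintro _ ⟨t, rfl⟩; exact hp t)
      (hm.directed_le)
    obtain ⟨F, hF⟩ := (isSimplyConnected_iff_exists_homotopy_refl_forall_mem.1 (hs n)).2 x p
      (fun t => hn (mem_range_self t))
    exact ⟨F, fun t => mem_iUnion.2 ⟨n, hF t⟩⟩

end Pool.Agent.Helper40
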