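import Mathlib
import Pool.Agent.Helper40.Charts
import Pool.Agent.Helper40.SCUnion
open Set Topology Metric Filter
open scoped ComplexConjugate

namespace Pool.Agent.Helper40

/-- retracts of star-convex sets are simply connected -/
theorem isSimplyConnected_of_retract {X V : Type*} [TopologicalSpace X] [NormedAddCommGroup V]
    [NormedSpace ℝ V] {U : Set X} {Ω : Set V} {z₀ : V} (hΩ : StarConvex ℝ z₀ Ω) (hz₀ : z₀ ∈ Ω)
    {C : X → V} {A : V → X} (hC : ContinuousOn C U) (hA : ContinuousOn A Ω)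
    (hCU : MapsTo C U Ω) (hAU : MapsTo A Ω U) (hAC : ∀ x ∈ U, A (C x) = x) :
    IsSimplyConnected U := by
  have hcontr : ContractibleSpace Ω := hΩ.contractibleSpace ⟨z₀, hz₀⟩
  let C' : C(U, Ω) := ⟨hCU.restrict C U Ω, hC.mapsToRestrict hCU⟩
  let A' : C(Ω, U) := ⟨hAU.restrict A Ω U, hA.mapsToRestrict hAU⟩
  have h1 : A'.comp C' = ContinuousMap.id U :=
    ContinuousMap.ext fun x => Subtype.ext (hAC x.1 x.2)
  have h2 : (ContinuousMap.id Ω).Nullhomotopic := id_nullhomotopic Ω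
  have h3 : ((A'.comp (ContinuousMap.id Ω)).comp C').Nullhomotopic :=
    (h2.comp_right A').comp_left C'
  rw [ContinuousMap.comp_id, h1] at h3
  have : ContractibleSpace U := contractible_iff_id_nullhomotopic U |>.mpr h3
  change SimplyConnectedSpace U
  infer_instance

/-! ### cube roots -/

/-- principal cube root -/
noncomputable def crt (w : ℂ) : ℂ := w ^ (((3 : ℕ) : ℂ)⁻¹)

theorem crt_pow (w : ℂ) : crt w ^ 3 = w := Complex.cpow_nat_inv_pow w (by norm_num)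

theorem crt_of_sector {y : ℂ} (hy : ‖y‖ < 2 * y.re) : crt (y ^ 3) = y := by
  have hy0 : y ≠ 0 := by
    rintro rfl
    simp at hy
  have hn : 0 < ‖y‖ := norm_pos_iff.mpr hy0
  have hcos : 1 / 2 < Real.cos y.arg := by
    rw [Complex.cos_arg hy0, lt_div_iff₀ hn]
    linarith
  have h3 : |y.arg| < Real.pi / 3 := by
    by_contra hcon
    push Not at hcon
    have h4 : Real.cos |y.arg| ≤ Real.cos (Real.pi / 3) :=
      Real.cos_le_cos_of_nonneg_of_le_pi (by positivity) (Complex.abs_arg_le_pi y) hcon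
    rw [Real.cos_abs, Real.cos_pi_div_three] at h4
    linarith
  rw [abs_lt] at h3
  have h4 : ((3:ℕ):ℝ) = 3 := by norm_num
  exact Complex.pow_cpow_nat_inv (by norm_num) (by rw [h4]; linarith [h3.1])
    (by rw [h4]; exact h3.2.le)

theorem crt_sector {w : ℂ} (hw : w ∈ Complex.slitPlane) : ‖crt w‖ < 2 * (crt w).re := by
  have hw0 : w ≠ 0 := Complex.slitPlane_ne_zero hw
  have harg : w.arg < Real.pi := by
    apply lt_of_le_of_ne (Complex.arg_le_pi w)
    exact (Complex.mem_slitPlane_iff_arg.mp hw).1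
  have harg' : -Real.pi < w.arg := Complex.neg_pi_lt_arg w
  have e1 : crt w = Complex.exp (Complex.log w / 3) := by
    rw [crt, Complex.cpow_def_of_ne_zero hw0]
    congr 1
  rw [e1, Complex.norm_exp, Complex.exp_re]
  have e2 : (Complex.log w / 3).im = w.arg / 3 := by
    have : Complex.log w / 3 = (((1/3:ℝ)):ℂ) * Complex.log w := by push_cast; ring
    rw [this, Complex.im_ofReal_mul, Complex.log_im]
    ring
  rw [e2]
  have hcos : 1 / 2 < Real.cos (w.arg / 3) := by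
    rw [← Real.cos_pi_div_three, ← Real.cos_abs (w.arg / 3)]
    apply Real.cos_lt_cos_of_nonneg_of_le_pi (abs_nonneg _)
    · linarith [Real.pi_pos]
    · rw [abs_lt]
      constructor <;> linarith
  have hpos : 0 < Real.exp (Complex.log w / 3).re := Real.exp_pos _
  nlinarith

theorem crt_continuousOn : ContinuousOn crt Complex.slitPlane := by
  intro w hw
  exact (continuousAt_id.cpow continuousAt_const hw).continuousWithinAt

theorem mem_slitPlane_of_norm_lt {w : ℂ} (h : ‖w - 1‖ < 1) : w ∈ Complex.slitPlane := by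
  left
  have h1 : |(w - 1).re| ≤ ‖w - 1‖ := Complex.abs_re_le_norm _
  rw [Complex.sub_re, Complex.one_re] at h1
  have := (abs_lt.mp (lt_of_le_of_lt h1 h)).1
  linarith

/-! ### the local model -/

/-- cube roots of the coefficients over `D` -/
structure LocalData (d : ThetaData) (D : Set ℂ) (p : ℂ) where
  i : Fin 3
  c : ℂ → ℂ
  a : ℂ → ℂ
  b : ℂ → ℂ
  hc : ContinuousOn c D
  ha : ContinuousOn a D
  hb : ContinuousOn b D
  hc0 : ∀ t ∈ D, c t ≠ 0
  ha0 : ∀ t ∈ D, a t ≠ 0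
  hb0 : ∀ t ∈ D, b t ≠ 0
  h0 : ∀ t ∈ D, d.lam i t = (t - p) * c t ^ 3
  h1 : ∀ t ∈ D, d.lam (i + 1) t = a t ^ 3
  h2 : ∀ t ∈ D, d.lam (i + 2) t = b t ^ 3

theorem exists_cube_root {D : Set ℂ} (hD : IsOpen D) (hDc : Convex ℝ D) (hne : D.Nonempty)
    {g : ℂ → ℂ} (hg : ContinuousOn g D) (hg0 : ∀ t ∈ D, g t ≠ 0) :
    ∃ f : ℂ → ℂ, ContinuousOn f D ∧ (∀ t, f t ^ 3 = g t) ∧ ∀ t ∈ D, f t ≠ 0 := by
  have hsc : IsSimplyConnected D := by
    have : ContractibleSpace D := hDc.contractibleSpace hne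
    change SimplyConnectedSpace D
    infer_instance
  obtain ⟨f, hf, hfe⟩ := Complex.exists_continuousOn_pow_eq hsc hD hg (by
    rintro ⟨t, ht, h⟩
    exact hg0 t ht h) (n := 3) (by norm_num)
  refine ⟨f, hf, hfe, fun t ht h => hg0 t ht ?_⟩
  rw [← hfe t, h]
  norm_num

theorem nonempty_localData (d : ThetaData) {D : Set ℂ} (hD : IsOpen D) (hDc : Convex ℝ D) {p : ℂ}
    (hp : D ∩ {t | ∃ i, d.lam i t = 0} = {p}) : Nonempty (LocalData d D p) := by
  have hpD : p ∈ D ∩ {t | ∃ i, d.lam i t = 0} := by rw [hp]; rfl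
  obtain ⟨hpD, i, hi⟩ := hpD
  have hne : D.Nonempty := ⟨p, hpD⟩
  have honly : ∀ t ∈ D, ∀ j, d.lam j t = 0 → t = p := by
    intro t ht j hj
    have : t ∈ D ∩ {t | ∃ i, d.lam i t = 0} := ⟨ht, j, hj⟩
    rw [hp] at this
    exact this
  have h1ne : ∀ t ∈ D, d.lam (i + 1) t ≠ 0 := by
    intro t ht h
    have := honly t ht _ h
    rw [this] at h
    exact d.disjoint i (i + 1) (by fin_cases i <;> decide) p ⟨hi, h⟩
  have h2ne : ∀ t ∈ D, d.lam (i + 2) t ≠ 0 := by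
    intro t ht h
    have := honly t ht _ h
    rw [this] at h
    exact d.disjoint i (i + 2) (by fin_cases i <;> decide) p ⟨hi, h⟩
  have hds : ∀ t, d.lam i t = (t - p) * dslope (d.lam i) p t := by
    intro t
    have := sub_smul_dslope (d.lam i) p t
    rw [hi, sub_zero, smul_eq_mul] at this
    exact this.symm
  have h0ne : ∀ t ∈ D, dslope (d.lam i) p t ≠ 0 := by
    intro t ht h
    have h3 := hds t
    rw [h, mul_zero] at h3
    have h4 := honly t ht _ h3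
    rw [h4, dslope_same] at h
    exact d.simple i p hi h
  have hdsc : Continuous (dslope (d.lam i) p) := by
    rw [continuous_iff_continuousAt]
    intro t
    by_cases ht : t = p
    · rw [ht, continuousAt_dslope_same]
      exact d.lam_diff i p
    · rw [continuousAt_dslope_of_ne ht]
      exact (d.lam_diff i).continuous.continuousAt
  obtain ⟨c, hc, hce, hc0⟩ := exists_cube_root hD hDc hne hdsc.continuousOn h0ne
  obtain ⟨a, ha, hae, ha0⟩ := exists_cube_root hD hDc hne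
    (d.lam_diff (i + 1)).continuous.continuousOn h1ne
  obtain ⟨b, hb, hbe, hb0⟩ := exists_cube_root hD hDc hne
    (d.lam_diff (i + 2)).continuous.continuousOn h2ne
  exact ⟨{
    i := i, c := c, a := a, b := b, hc := hc, ha := ha, hb := hb, hc0 := hc0, ha0 := ha0
    hb0 := hb0
    h0 := fun t _ => by rw [hce]; exact hds t
    h1 := fun t _ => (hae t).symm
    h2 := fun t _ => (hbe t).symm }⟩

namespace LocalData

variable {d : ThetaData} {D : Set ℂ} {p : ℂ} (L : LocalData d D p)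

/-- homogeneous coordinates -/
noncomputable def vec (x y z t : ℂ) : Fin 3 → ℂ :=
  fun i => if i = L.i then x / L.c t else if i = L.i + 1 then y / L.a t else z / L.b t

theorem vec_zero (x y z t : ℂ) : L.vec x y z t L.i = x / L.c t := by simp [vec]
theorem vec_one (x y z t : ℂ) : L.vec x y z t (L.i + 1) = y / L.a t := by
  have h1 : ∀ i : Fin 3, i + 1 ≠ i := by decide
  simp [vec, h1]
theorem vec_two (x y z t : ℂ) : L.vec x y z t (L.i + 2) = z / L.b t := by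
  have h1 : ∀ i : Fin 3, i + 2 ≠ i := by decide
  have h2 : ∀ i : Fin 3, i + 2 ≠ i + 1 := by decide
  simp [vec, h1, h2]

/-- admissible parameters -/
def Adm (_ : LocalData d D p) (x y z t : ℂ) : Prop :=
  t ∈ D ∧ (t - p) * x ^ 3 + y ^ 3 + z ^ 3 = 0 ∧ (x ≠ 0 ∨ y ≠ 0 ∨ z ≠ 0)

variable {L}

theorem Adm.vec_ne {x y z t : ℂ} (h : L.Adm x y z t) : L.vec x y z t ≠ 0 := by
  intro h0
  have e0 := congrFun h0 L.i
  have e1 := congrFun h0 (L.i + 1)
  have e2 := congrFun h0 (L.i + 2)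
  rw [vec_zero, Pi.zero_apply, div_eq_zero_iff] at e0
  rw [vec_one, Pi.zero_apply, div_eq_zero_iff] at e1
  rw [vec_two, Pi.zero_apply, div_eq_zero_iff] at e2
  rcases h.2.2 with hx | hy | hz
  · exact hx (e0.resolve_right (L.hc0 t h.1))
  · exact hy (e1.resolve_right (L.ha0 t h.1))
  · exact hz (e2.resolve_right (L.hb0 t h.1))

theorem Adm.sum_eq {x y z t : ℂ} (h : L.Adm x y z t) :
    ∑ i, d.lam i t * L.vec x y z t i ^ 3 = 0 := by
  rw [sum_shift L.i, vec_zero, vec_one, vec_two, L.h0 t h.1, L.h1 t h.1, L.h2 t h.1]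
  have h0 := L.hc0 t h.1
  have h1 := L.ha0 t h.1
  have h2 := L.hb0 t h.1
  rw [← h.2.1]
  field_simp

variable (L)

/-- the point with given model coordinates -/
noncomputable def pt (x₀ : XX d) (x y z t : ℂ) : XX d := by
  classical
  exact if h : L.Adm x y z t then XX.mk (L.vec x y z t) h.vec_ne t h.sum_eq else x₀

theorem pt_eq (x₀ : XX d) {x y z t : ℂ} (h : L.Adm x y z t) :
    L.pt x₀ x y z t = XX.mk (L.vec x y z t) h.vec_ne t h.sum_eq := by
  simp [pt, h]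

theorem pt_T (x₀ : XX d) {x y z t : ℂ} (h : L.Adm x y z t) : (L.pt x₀ x y z t).T = t := by
  rw [pt_eq L x₀ h]; rfl

theorem pt_smul (x₀ : XX d) {x y z t s : ℂ} (hs : s ≠ 0) (h : L.Adm x y z t) :
    L.pt x₀ (s * x) (s * y) (s * z) t = L.pt x₀ x y z t := by
  have h' : L.Adm (s * x) (s * y) (s * z) t := by
    refine ⟨h.1, ?_, ?_⟩
    · have := h.2.1
      linear_combination s ^ 3 * this
    · rcases h.2.2 with h1 | h1 | h1
      · exact Or.inl (mul_ne_zero hs h1)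
      · exact Or.inr (Or.inl (mul_ne_zero hs h1))
      · exact Or.inr (Or.inr (mul_ne_zero hs h1))
  rw [pt_eq L x₀ h, pt_eq L x₀ h']
  refine XX.ext' ?_ (by rfl)
  have e : L.vec (s * x) (s * y) (s * z) t = s • L.vec x y z t := by
    ext i
    simp only [vec, Pi.smul_apply, smul_eq_mul]
    split_ifs <;> ring
  change P2.mk (L.vec (s * x) (s * y) (s * z) t) h'.vec_ne = P2.mk (L.vec x y z t) h.vec_ne
  have h2 : s • L.vec x y z t ≠ 0 := by rw [← e]; exact h'.vec_ne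
  rw [← P2.mk_smul hs h.vec_ne h2]
  congr 1

theorem continuousOn_pt (x₀ : XX d) {Y : Type*} [TopologicalSpace Y] {s : Set Y}
    {x y z t : Y → ℂ} (hx : ContinuousOn x s) (hy : ContinuousOn y s) (hz : ContinuousOn z s)
    (ht : ContinuousOn t s) (h : ∀ q ∈ s, L.Adm (x q) (y q) (z q) (t q)) :
    ContinuousOn (fun q => L.pt x₀ (x q) (y q) (z q) (t q)) s := by
  rw [continuousOn_iff_continuous_domRestrict]
  have h1 : s.domRestrict (fun q => L.pt x₀ (x q) (y q) (z q) (t q)) = fun q : s =>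
      XX.mk (L.vec (x q) (y q) (z q) (t q)) (h q q.2).vec_ne (t q) (h q q.2).sum_eq := by
    ext1 q
    exact pt_eq L x₀ (h q q.2)
  rw [h1]
  have hts : Continuous (fun q : s => t q) := ht.domRestrict
  have htD : ∀ q : s, t q ∈ D := fun q => (h q q.2).1
  have hc' : Continuous (fun q : s => L.c (t q)) := L.hc.comp_continuous hts htD
  have ha' : Continuous (fun q : s => L.a (t q)) := L.ha.comp_continuous hts htD
  have hb' : Continuous (fun q : s => L.b (t q)) := L.hb.comp_continuous hts htD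
  refine XX.continuous_mk (f := fun q : s => L.vec (x q) (y q) (z q) (t q)) ?_ _ hts _
  apply continuous_pi
  intro i
  simp only [vec]
  split_ifs
  · exact hx.domRestrict.div hc' (fun q => L.hc0 _ (htD q))
  · exact hy.domRestrict.div ha' (fun q => L.ha0 _ (htD q))
  · exact hz.domRestrict.div hb' (fun q => L.hb0 _ (htD q))

/-- model coordinates of a point, with respect to the affine piece `j` -/
noncomputable def mx (j : Fin 3) (x : XX d) : ℂ := L.c x.T * x.coord L.i j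
/-- model coordinates of a point, with respect to the affine piece `j` -/
noncomputable def my (j : Fin 3) (x : XX d) : ℂ := L.a x.T * x.coord (L.i + 1) j
/-- model coordinates of a point, with respect to the affine piece `j` -/
noncomputable def mz (j : Fin 3) (x : XX d) : ℂ := L.b x.T * x.coord (L.i + 2) j

theorem vec_m {j : Fin 3} {x : XX d} (hT : x.T ∈ D) :
    L.vec (L.mx j x) (L.my j x) (L.mz j x) x.T = fun k => x.coord k j := by
  ext k
  rcases eq_cases L.i k with h | h | h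
  · rw [h, vec_zero, mx, mul_div_cancel_left₀ _ (L.hc0 _ hT)]
  · rw [h, vec_one, my, mul_div_cancel_left₀ _ (L.ha0 _ hT)]
  · rw [h, vec_two, mz, mul_div_cancel_left₀ _ (L.hb0 _ hT)]

theorem adm_m {j : Fin 3} {x : XX d} (hT : x.T ∈ D) (hj : x ∈ XX.dom j) :
    L.Adm (L.mx j x) (L.my j x) (L.mz j x) x.T := by
  refine ⟨hT, ?_, ?_⟩
  · have h := XX.equation hj
    rw [sum_shift L.i, L.h0 _ hT, L.h1 _ hT, L.h2 _ hT] at h
    simp only [mx, my, mz]
    linear_combination h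
  · by_contra hcon
    push Not at hcon
    obtain ⟨h0, h1, h2⟩ := hcon
    have h3 := L.vec_m (j := j) hT
    have h4 : L.vec (L.mx j x) (L.my j x) (L.mz j x) x.T = 0 := by
      ext k
      simp only [vec, h0, h1, h2, zero_div, ite_self, Pi.zero_apply]
    rw [h4] at h3
    exact XX.coord_ne hj h3.symm

theorem pt_m (x₀ : XX d) {j : Fin 3} {x : XX d} (hT : x.T ∈ D) (hj : x ∈ XX.dom j) :
    L.pt x₀ (L.mx j x) (L.my j x) (L.mz j x) x.T = x := by
  rw [pt_eq L x₀ (L.adm_m hT hj)]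
  refine XX.ext' ?_ (by rfl)
  change P2.mk (L.vec (L.mx j x) (L.my j x) (L.mz j x) x.T) (L.adm_m hT hj).vec_ne = x.P
  have h1 : P2.mk (fun k => x.coord k j) (XX.coord_ne hj) = x.P := P2.mk_coord hj
  rw [← h1]
  congr 1
  exact L.vec_m hT

theorem continuousOn_mx (j : Fin 3) : ContinuousOn (L.mx j) (XX.T ⁻¹' D ∩ XX.dom j) :=
  (L.hc.comp XX.continuous_T.continuousOn (fun _ hx => hx.1)).mul
    ((XX.continuousOn_coord _ j).mono inter_subset_right)
theorem continuousOn_my (j : Fin 3) : ContinuousOn (L.my j) (XX.T ⁻¹' D ∩ XX.dom j) :=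
  (L.ha.comp XX.continuous_T.continuousOn (fun _ hx => hx.1)).mul
    ((XX.continuousOn_coord _ j).mono inter_subset_right)
theorem continuousOn_mz (j : Fin 3) : ContinuousOn (L.mz j) (XX.T ⁻¹' D ∩ XX.dom j) :=
  (L.hb.comp XX.continuous_T.continuousOn (fun _ hx => hx.1)).mul
    ((XX.continuousOn_coord _ j).mono inter_subset_right)

/-- membership in the affine pieces -/
theorem pt_mem_dom0 (x₀ : XX d) {x y z t : ℂ} (h : L.Adm x y z t) :
    L.pt x₀ x y z t ∈ XX.dom L.i ↔ x ≠ 0 := by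
  rw [pt_eq L x₀ h, XX.mk_mem_dom, vec_zero]
  simp [L.hc0 t h.1]

theorem pt_mem_dom2 (x₀ : XX d) {x y z t : ℂ} (h : L.Adm x y z t) :
    L.pt x₀ x y z t ∈ XX.dom (L.i + 2) ↔ z ≠ 0 := by
  rw [pt_eq L x₀ h, XX.mk_mem_dom, vec_two]
  simp [L.hb0 t h.1]

theorem mx_pt (x₀ : XX d) {x y z t : ℂ} (h : L.Adm x y z t) (hz : z ≠ 0) :
    L.mx (L.i + 2) (L.pt x₀ x y z t) = L.b t * x / z := by
  have h2 : L.vec x y z t (L.i + 2) ≠ 0 := by
    rw [vec_two]; exact div_ne_zero hz (L.hb0 t h.1)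
  rw [mx, pt_T L x₀ h, pt_eq L x₀ h, XX.coord_mk _ _ h2, vec_zero, vec_two]
  have h0 := L.hc0 t h.1
  have h1 := L.hb0 t h.1
  field_simp

theorem my_pt (x₀ : XX d) {x y z t : ℂ} (h : L.Adm x y z t) (hz : z ≠ 0) :
    L.my (L.i + 2) (L.pt x₀ x y z t) = L.b t * y / z := by
  have h2 : L.vec x y z t (L.i + 2) ≠ 0 := by
    rw [vec_two]; exact div_ne_zero hz (L.hb0 t h.1)
  rw [my, pt_T L x₀ h, pt_eq L x₀ h, XX.coord_mk _ _ h2, vec_one, vec_two]
  have h0 := L.ha0 t h.1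
  have h1 := L.hb0 t h.1
  field_simp

theorem mz_pt (x₀ : XX d) {x y z t : ℂ} (h : L.Adm x y z t) (hz : z ≠ 0) :
    L.mz (L.i + 2) (L.pt x₀ x y z t) = L.b t := by
  have h2 : L.vec x y z t (L.i + 2) ≠ 0 := by
    rw [vec_two]; exact div_ne_zero hz (L.hb0 t h.1)
  rw [mz, pt_T L x₀ h, pt_eq L x₀ h, XX.coord_mk _ _ h2, div_self h2, mul_one]

/-- the main piece -/
def UU : Set (XX d) := XX.T ⁻¹' D ∩ XX.dom L.i

theorem isSimplyConnected_UU (hpD : p ∈ D) (hDc : Convex ℝ D) : IsSimplyConnected L.UU := by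
  obtain ⟨x₀, -⟩ : ∃ x : XX d, True := by
    have h : L.Adm 1 0 0 p := ⟨hpD, by ring, Or.inl one_ne_zero⟩
    exact ⟨XX.mk _ h.vec_ne p h.sum_eq, trivial⟩
  set Ω : Set (ℂ × ℂ) := {q | p - (q.1 ^ 3 + q.2 ^ 3) ∈ D} with hΩ
  have hadm : ∀ q ∈ Ω, L.Adm 1 q.1 q.2 (p - (q.1 ^ 3 + q.2 ^ 3)) := by
    intro q hq
    exact ⟨hq, by ring, Or.inl one_ne_zero⟩
  have hcoordne : ∀ x ∈ L.UU, L.mx L.i x ≠ 0 := by
    intro x hx
    rw [mx, XX.coord_self hx.2, mul_one]
    exact L.hc0 _ hx.1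
  refine isSimplyConnected_of_retract (z₀ := (0 : ℂ × ℂ)) (Ω := Ω)
    (C := fun x => (L.my L.i x / L.mx L.i x, L.mz L.i x / L.mx L.i x))
    (A := fun q => L.pt x₀ 1 q.1 q.2 (p - (q.1 ^ 3 + q.2 ^ 3))) ?_ ?_ ?_ ?_ ?_ ?_ ?_
  · -- star convex
    intro q hq s t hs ht hst
    simp only [smul_zero, zero_add]
    change p - ((t • q).1 ^ 3 + (t • q).2 ^ 3) ∈ D
    have h1 : p - ((t • q).1 ^ 3 + (t • q).2 ^ 3) =
        (1 - t ^ 3) • p + (t ^ 3) • (p - (q.1 ^ 3 + q.2 ^ 3)) := by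
      simp only [Prod.smul_fst, Prod.smul_snd, Complex.real_smul]
      push_cast
      ring
    rw [h1]
    have ht1 : t ≤ 1 := by linarith
    have ht3 : t ^ 3 ≤ 1 := pow_le_one₀ ht ht1
    exact hDc hpD hq (by linarith) (by positivity) (by ring)
  · change p - ((0:ℂ) ^ 3 + (0:ℂ) ^ 3) ∈ D
    simpa using hpD
  · exact ((L.continuousOn_my L.i).div (L.continuousOn_mx L.i) hcoordne).prodMk
      ((L.continuousOn_mz L.i).div (L.continuousOn_mx L.i) hcoordne)
  · exact L.continuousOn_pt x₀ (by fun_prop) (by fun_prop) (by fun_prop) (by fun_prop) hadm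
  · intro x hx
    have h1 := (L.adm_m hx.1 hx.2).2.1
    have h2 := hcoordne x hx
    change p - ((L.my L.i x / L.mx L.i x) ^ 3 + (L.mz L.i x / L.mx L.i x) ^ 3) ∈ D
    have h3 : p - ((L.my L.i x / L.mx L.i x) ^ 3 + (L.mz L.i x / L.mx L.i x) ^ 3) = x.T := by
      field_simp
      linear_combination -h1
    rw [h3]
    exact hx.1
  · intro q hq
    have h := hadm q hq
    refine ⟨?_, (L.pt_mem_dom0 x₀ h).mpr one_ne_zero⟩
    change (L.pt x₀ 1 q.1 q.2 (p - (q.1 ^ 3 + q.2 ^ 3))).T ∈ D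
    rw [L.pt_T x₀ h]
    exact hq
  · intro x hx
    have h1 := (L.adm_m hx.1 hx.2).2.1
    have h2 := hcoordne x hx
    have h3 : p - ((L.my L.i x / L.mx L.i x) ^ 3 + (L.mz L.i x / L.mx L.i x) ^ 3) = x.T := by
      field_simp
      linear_combination -h1
    simp only
    rw [h3]
    have h4 := L.pt_smul x₀ (inv_ne_zero h2) (L.adm_m hx.1 hx.2)
    rw [L.pt_m x₀ hx.1 hx.2] at h4
    calc L.pt x₀ 1 (L.my L.i x / L.mx L.i x) (L.mz L.i x / L.mx L.i x) x.T =
          L.pt x₀ ((L.mx L.i x)⁻¹ * L.mx L.i x) ((L.mx L.i x)⁻¹ * L.my L.i x)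
            ((L.mx L.i x)⁻¹ * L.mz L.i x) x.T := by
          rw [inv_mul_cancel₀ h2, div_eq_inv_mul, div_eq_inv_mul]
      _ = x := h4

/-- normalised coordinates in the piece where the last coordinate is nonzero -/
noncomputable def nx (x : XX d) : ℂ := L.mx (L.i + 2) x / L.mz (L.i + 2) x
/-- normalised coordinates in the piece where the last coordinate is nonzero -/
noncomputable def ny (x : XX d) : ℂ := L.my (L.i + 2) x / L.mz (L.i + 2) x

theorem mz_ne {x : XX d} (hT : x.T ∈ D) (hx : x ∈ XX.dom (L.i + 2)) : L.mz (L.i + 2) x ≠ 0 := by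
  rw [mz, XX.coord_self hx, mul_one]
  exact L.hb0 _ hT

theorem n_eq {x : XX d} (hT : x.T ∈ D) (hx : x ∈ XX.dom (L.i + 2)) :
    (x.T - p) * L.nx x ^ 3 + L.ny x ^ 3 + 1 = 0 := by
  have h1 := (L.adm_m hT hx).2.1
  have h2 := L.mz_ne hT hx
  unfold nx ny
  field_simp
  linear_combination h1

theorem continuousOn_nx : ContinuousOn L.nx (XX.T ⁻¹' D ∩ XX.dom (L.i + 2)) :=
  (L.continuousOn_mx _).div (L.continuousOn_mz _) (fun _ hx => L.mz_ne hx.1 hx.2)
theorem continuousOn_ny : ContinuousOn L.ny (XX.T ⁻¹' D ∩ XX.dom (L.i + 2)) :=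
  (L.continuousOn_my _).div (L.continuousOn_mz _) (fun _ hx => L.mz_ne hx.1 hx.2)

/-- the small pieces around the points at infinity -/
def TT (η : ℂ) : Set (XX d) := (XX.T ⁻¹' D ∩ XX.dom (L.i + 2)) ∩
  {x | ‖(x.T - p) * L.nx x ^ 3‖ < 1 ∧ ‖L.ny x‖ < 2 * (-(η * L.ny x)).re}

theorem isOpen_TT (hD : IsOpen D) (η : ℂ) : IsOpen (L.TT η) := by
  have hO : IsOpen (XX.T ⁻¹' D ∩ XX.dom (L.i + 2) : Set (XX d)) :=
    (hD.preimage XX.continuous_T).inter (XX.isOpen_dom _)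
  have h1 : ContinuousOn (fun x : XX d => ‖(x.T - p) * L.nx x ^ 3‖)
      (XX.T ⁻¹' D ∩ XX.dom (L.i + 2)) :=
    (((XX.continuous_T.sub continuous_const).continuousOn).mul (L.continuousOn_nx.pow 3)).norm
  have h2 : ContinuousOn (fun x : XX d => 2 * (-(η * L.ny x)).re - ‖L.ny x‖)
      (XX.T ⁻¹' D ∩ XX.dom (L.i + 2)) := by
    apply ContinuousOn.sub
    · apply ContinuousOn.mul continuousOn_const
      exact Complex.continuous_re.comp_continuousOn ((continuousOn_const.mul L.continuousOn_ny).neg)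
    · exact L.continuousOn_ny.norm
  have h3 : L.TT η = ((XX.T ⁻¹' D ∩ XX.dom (L.i + 2)) ∩
      (fun x : XX d => ‖(x.T - p) * L.nx x ^ 3‖) ⁻¹' (Iio 1)) ∩
      ((XX.T ⁻¹' D ∩ XX.dom (L.i + 2)) ∩
      (fun x : XX d => 2 * (-(η * L.ny x)).re - ‖L.ny x‖) ⁻¹' (Ioi 0)) := by
    ext x
    simp only [TT, mem_inter_iff, mem_preimage, mem_Iio, mem_Ioi, mem_ofPred_eq, sub_pos]
    tauto
  rw [h3]
  exact (h1.isOpen_inter_preimage hO isOpen_Iio).inter (h2.isOpen_inter_preimage hO isOpen_Ioi)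

/-- parameter domain of the small pieces -/
def WW (_ : LocalData d D p) : Set (ℂ × ℂ) := {q | q.2 ∈ D ∧ ‖(q.2 - p) * q.1 ^ 3‖ < 1}

/-- parametrisation of the small pieces -/
noncomputable def AA (x₀ : XX d) (η : ℂ) (q : ℂ × ℂ) : XX d :=
  L.pt x₀ q.1 (-(η⁻¹ * crt (1 + (q.2 - p) * q.1 ^ 3))) 1 q.2

theorem AA_adm {η : ℂ} (hη : η ^ 3 = 1) {q : ℂ × ℂ} (hq : q ∈ L.WW) :
    L.Adm q.1 (-(η⁻¹ * crt (1 + (q.2 - p) * q.1 ^ 3))) 1 q.2 := by
  refine ⟨hq.1, ?_, Or.inr (Or.inr one_ne_zero)⟩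
  have h1 : (-(η⁻¹ * crt (1 + (q.2 - p) * q.1 ^ 3))) ^ 3 = -(1 + (q.2 - p) * q.1 ^ 3) := by
    rw [Odd.neg_pow (by decide), mul_pow, crt_pow, inv_pow, hη, inv_one, one_mul]
  rw [h1]
  ring

theorem WW_slit {q : ℂ × ℂ} (hq : q ∈ L.WW) : 1 + (q.2 - p) * q.1 ^ 3 ∈ Complex.slitPlane := by
  apply mem_slitPlane_of_norm_lt
  have := hq.2
  simpa using this

theorem continuousOn_AA (x₀ : XX d) {η : ℂ} (hη : η ^ 3 = 1) :
    ContinuousOn (L.AA x₀ η) L.WW := by
  apply L.continuousOn_pt x₀ (by fun_prop) _ (by fun_prop) (by fun_prop)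
    (fun q hq => L.AA_adm hη hq)
  apply ContinuousOn.neg
  apply ContinuousOn.mul continuousOn_const
  exact crt_continuousOn.comp (by fun_prop) (fun q hq => L.WW_slit hq)

theorem nx_AA (x₀ : XX d) {η : ℂ} (hη : η ^ 3 = 1) {q : ℂ × ℂ} (hq : q ∈ L.WW) :
    L.nx (L.AA x₀ η q) = q.1 := by
  have h := L.AA_adm hη hq
  rw [nx, AA, L.mx_pt x₀ h one_ne_zero, L.mz_pt x₀ h one_ne_zero]
  have := L.hb0 q.2 hq.1
  field_simp

theorem ny_AA (x₀ : XX d) {η : ℂ} (hη : η ^ 3 = 1) {q : ℂ × ℂ} (hq : q ∈ L.WW) :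
    L.ny (L.AA x₀ η q) = -(η⁻¹ * crt (1 + (q.2 - p) * q.1 ^ 3)) := by
  have h := L.AA_adm hη hq
  rw [ny, AA, L.my_pt x₀ h one_ne_zero, L.mz_pt x₀ h one_ne_zero]
  have := L.hb0 q.2 hq.1
  field_simp

theorem AA_mem (x₀ : XX d) {η : ℂ} (hη : η ^ 3 = 1) (hη1 : ‖η‖ = 1) {q : ℂ × ℂ}
    (hq : q ∈ L.WW) : L.AA x₀ η q ∈ L.TT η := by
  have h := L.AA_adm hη hq
  have hη0 : η ≠ 0 := by
    rintro rfl
    simp at hη1
  have hT : (L.AA x₀ η q).T = q.2 := L.pt_T x₀ h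
  refine ⟨⟨?_, (L.pt_mem_dom2 x₀ h).mpr one_ne_zero⟩, ?_, ?_⟩
  · change (L.AA x₀ η q).T ∈ D
    rw [hT]
    exact hq.1
  · rw [hT, L.nx_AA x₀ hη hq]
    exact hq.2
  · rw [L.ny_AA x₀ hη hq]
    have e1 : -(η * -(η⁻¹ * crt (1 + (q.2 - p) * q.1 ^ 3))) = crt (1 + (q.2 - p) * q.1 ^ 3) := by
      field_simp
    rw [e1, norm_neg, norm_mul, norm_inv, hη1, inv_one, one_mul]
    exact crt_sector (L.WW_slit hq)

theorem AA_n (x₀ : XX d) {η : ℂ} (hη : η ^ 3 = 1) (hη1 : ‖η‖ = 1) {x : XX d}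
    (hx : x ∈ L.TT η) : L.AA x₀ η (L.nx x, x.T) = x := by
  obtain ⟨⟨hT, hd⟩, h1, h2⟩ := hx
  have hη0 : η ≠ 0 := by
    rintro rfl
    simp at hη1
  have hn := L.n_eq hT hd
  have h3 : crt (1 + (x.T - p) * L.nx x ^ 3) = -(η * L.ny x) := by
    have e1 : 1 + (x.T - p) * L.nx x ^ 3 = (-(η * L.ny x)) ^ 3 := by
      rw [Odd.neg_pow (by decide), mul_pow, hη, one_mul]
      linear_combination hn
    rw [e1]
    apply crt_of_sector
    rw [norm_neg, norm_mul, hη1, one_mul]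
    exact h2
  have h4 : -(η⁻¹ * crt (1 + (x.T - p) * L.nx x ^ 3)) = L.ny x := by
    rw [h3]
    field_simp
  have hz := L.mz_ne hT hd
  simp only [AA]
  rw [h4]
  have h5 := L.pt_smul x₀ (inv_ne_zero hz) (L.adm_m hT hd)
  rw [L.pt_m x₀ hT hd] at h5
  calc L.pt x₀ (L.nx x) (L.ny x) 1 x.T =
        L.pt x₀ ((L.mz (L.i + 2) x)⁻¹ * L.mx (L.i + 2) x) ((L.mz (L.i + 2) x)⁻¹ * L.my (L.i + 2) x)
          ((L.mz (L.i + 2) x)⁻¹ * L.mz (L.i + 2) x) x.T := by
        rw [inv_mul_cancel₀ hz, nx, ny, div_eq_inv_mul, div_eq_inv_mul]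
    _ = x := h5

theorem isSimplyConnected_TT (hpD : p ∈ D) (hDc : Convex ℝ D) {η : ℂ} (hη : η ^ 3 = 1)
    (hη1 : ‖η‖ = 1) : IsSimplyConnected (L.TT η) := by
  obtain ⟨x₀, -⟩ : ∃ x : XX d, True := by
    have h : L.Adm 1 0 0 p := ⟨hpD, by ring, Or.inl one_ne_zero⟩
    exact ⟨XX.mk _ h.vec_ne p h.sum_eq, trivial⟩
  refine isSimplyConnected_of_retract (z₀ := ((0, p) : ℂ × ℂ)) (Ω := L.WW)
    (C := fun x => (L.nx x, x.T)) (A := L.AA x₀ η) ?_ ?_ ?_ (L.continuousOn_AA x₀ hη) ?_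
    (fun q hq => L.AA_mem x₀ hη hη1 hq) (fun x hx => L.AA_n x₀ hη hη1 hx)
  · intro q hq s t hs ht hst
    have h1 : s • ((0, p) : ℂ × ℂ) + t • q = ((t : ℂ) * q.1, (s : ℂ) * p + (t : ℂ) * q.2) := by
      ext <;> simp
    rw [h1]
    refine ⟨?_, ?_⟩
    · change (s : ℂ) * p + (t : ℂ) * q.2 ∈ D
      have := hDc hpD hq.1 hs ht hst
      simpa using this
    · change ‖((s : ℂ) * p + (t : ℂ) * q.2 - p) * ((t : ℂ) * q.1) ^ 3‖ < 1
      have h2 : ((s : ℂ) * p + (t : ℂ) * q.2 - p) * ((t : ℂ) * q.1) ^ 3 =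
          ((t ^ 4 : ℝ) : ℂ) * ((q.2 - p) * q.1 ^ 3) := by
        have h3 : (s : ℂ) = 1 - t := by
          have : s = 1 - t := by linarith
          rw [this]; push_cast; ring
        rw [h3]
        push_cast
        ring
      rw [h2, norm_mul, Complex.norm_real, Real.norm_of_nonneg (by positivity)]
      have ht1 : t ≤ 1 := by linarith
      calc t ^ 4 * ‖(q.2 - p) * q.1 ^ 3‖ ≤ 1 * ‖(q.2 - p) * q.1 ^ 3‖ := by
            gcongr
            exact pow_le_one₀ ht ht1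
        _ < 1 := by rw [one_mul]; exact hq.2
  · exact ⟨hpD, by simp⟩
  · exact (L.continuousOn_nx.mono inter_subset_left).prodMk XX.continuous_T.continuousOn
  · intro x hx
    exact ⟨hx.1.1, hx.2.1⟩

theorem isPathConnected_UU_TT (hpD : p ∈ D) (hDc : Convex ℝ D) {η : ℂ} (hη : η ^ 3 = 1)
    (hη1 : ‖η‖ = 1) : IsPathConnected (L.UU ∩ L.TT η) := by
  obtain ⟨x₀, -⟩ : ∃ x : XX d, True := by
    have h : L.Adm 1 0 0 p := ⟨hpD, by ring, Or.inl one_ne_zero⟩
    exact ⟨XX.mk _ h.vec_ne p h.sum_eq, trivial⟩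
  set W' : Set (ℂ × ℂ) := L.WW ∩ {q | q.1 ≠ 0} with hW'
  have himg : L.UU ∩ L.TT η = L.AA x₀ η '' W' := by
    ext x
    constructor
    · rintro ⟨hx1, hx2⟩
      refine ⟨(L.nx x, x.T), ⟨⟨hx2.1.1, hx2.2.1⟩, ?_⟩, L.AA_n x₀ hη hη1 hx2⟩
      change L.nx x ≠ 0
      have h1 : x.coord L.i (L.i + 2) ≠ 0 := (XX.mem_dom_iff hx2.1.2).mp hx1.2
      exact div_ne_zero (mul_ne_zero (L.hc0 _ hx1.1) h1) (L.mz_ne hx2.1.1 hx2.1.2)
    · rintro ⟨q, ⟨hq1, hq2⟩, rfl⟩
      have hm := L.AA_mem x₀ hη hη1 hq1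
      exact ⟨⟨hm.1.1, (L.pt_mem_dom0 x₀ (L.AA_adm hη hq1)).mpr hq2⟩, hm⟩
  rw [himg]
  apply IsPathConnected.image' _ ((L.continuousOn_AA x₀ hη).mono inter_subset_left)
  -- the parameter set is path connected
  have hbase : ((1, p) : ℂ × ℂ) ∈ W' := ⟨⟨hpD, by simp⟩, one_ne_zero⟩
  refine ⟨(1, p), hbase, ?_⟩
  rintro ⟨x, t⟩ ⟨⟨htD, htn⟩, hx0⟩
  simp only at htD htn
  change x ≠ 0 at hx0
  -- first the segment in the second variable
  have j1 : JoinedIn W' (x, p) (x, t) := by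
    apply JoinedIn.ofLine (f := fun s : ℝ => ((x, (1 - s : ℝ) • p + s • t) : ℂ × ℂ))
    · fun_prop
    · simp
    · simp
    · rintro _ ⟨s, hs, rfl⟩
      refine ⟨⟨hDc hpD htD (by linarith [hs.2]) hs.1 (by ring), ?_⟩, hx0⟩
      change ‖((1 - s : ℝ) • p + s • t - p) * x ^ 3‖ < 1
      have h2 : ((1 - s : ℝ) • p + s • t - p) * x ^ 3 = (s : ℂ) * ((t - p) * x ^ 3) := by
        simp only [Complex.real_smul]
        push_cast
        ring
      rw [h2, norm_mul, Complex.norm_real, Real.norm_of_nonneg hs.1]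
      calc s * ‖(t - p) * x ^ 3‖ ≤ 1 * ‖(t - p) * x ^ 3‖ := by
            gcongr
            exact hs.2
        _ < 1 := by rw [one_mul]; exact htn
  have j2 : JoinedIn W' (1, p) (x, p) := by
    have hpc : IsPathConnected ({0}ᶜ : Set ℂ) :=
      isPathConnected_compl_singleton_of_one_lt_rank (by simp) 0
    have h3 : JoinedIn ({0}ᶜ : Set ℂ) 1 x := hpc.joinedIn 1 (by simp) x (by simpa using hx0)
    obtain ⟨γ, hγ⟩ := h3
    refine ⟨γ.map' (f := fun z : ℂ => ((z, p) : ℂ × ℂ)) (by fun_prop), ?_⟩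
    intro s
    refine ⟨⟨hpD, ?_⟩, hγ s⟩
    change ‖(p - p) * (γ s) ^ 3‖ < 1
    simp
  exact j2.trans j1

theorem TT_disjoint {η η' : ℂ} (hη' : ‖η + η'‖ = 1) : L.TT η ∩ L.TT η' = ∅ := by
  rw [← not_nonempty_iff_eq_empty]
  rintro ⟨x, ⟨_, _, h1⟩, ⟨_, _, h2⟩⟩
  have h3 : (-(η * L.ny x)).re + (-(η' * L.ny x)).re ≤ ‖L.ny x‖ := by
    rw [← Complex.add_re]
    have h4 : -(η * L.ny x) + -(η' * L.ny x) = -((η + η') * L.ny x) := by ring
    rw [h4]
    calc (-((η + η') * L.ny x)).re ≤ ‖-((η + η') * L.ny x)‖ := Complex.re_le_norm _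
      _ = ‖L.ny x‖ := by rw [norm_neg, norm_mul, hη', one_mul]
  linarith

theorem cover {w : ℂ} (hw : w ^ 2 + w + 1 = 0) {x : XX d} (hT : x.T ∈ D) :
    x ∈ L.UU ∪ L.TT 1 ∪ L.TT w ∪ L.TT (w ^ 2) := by
  by_cases h0 : x ∈ XX.dom L.i
  · exact Or.inl (Or.inl (Or.inl ⟨hT, h0⟩))
  have hw3 : w ^ 3 = 1 := by linear_combination (w - 1) * hw
  obtain ⟨j, hj⟩ := XX.exists_dom x
  have hx0 : L.mx j x = 0 := by
    have h1 : x.coord L.i j = 0 := by
      by_contra h
      exact h0 ((XX.mem_dom_iff hj).mpr h)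
    rw [mx, h1, mul_zero]
  have hadm := L.adm_m hT hj
  have hd : x ∈ XX.dom (L.i + 2) := by
    rw [XX.mem_dom_iff hj]
    intro h2
    have hz : L.mz j x = 0 := by rw [mz, h2, mul_zero]
    have h3 := hadm.2.1
    rw [hx0, hz] at h3
    have hy : L.my j x = 0 := by
      have : L.my j x ^ 3 = 0 := by linear_combination h3
      exact pow_eq_zero_iff (three_ne_zero) |>.mp this
    rcases hadm.2.2 with h | h | h
    · exact h hx0
    · exact h hy
    · exact h hz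
  have hnx : L.nx x = 0 := by
    have h1 : x.coord L.i (L.i + 2) = 0 := by
      by_contra h
      exact h0 ((XX.mem_dom_iff hd).mpr h)
    rw [nx, mx, h1, mul_zero, zero_div]
  have hn := L.n_eq hT hd
  rw [hnx] at hn
  have hprod : (L.ny x + 1) * (w * L.ny x + 1) * (w ^ 2 * L.ny x + 1) = 0 := by
    linear_combination (L.ny x ^ 3) * (hw3) + hn + (L.ny x + L.ny x ^ 2 * w) * hw
  have hnw : ‖w‖ = 1 := by
    have : ‖w‖ ^ 3 = 1 := by rw [← norm_pow, hw3, norm_one]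
    exact (pow_eq_one_iff_of_nonneg (norm_nonneg _) three_ne_zero).mp this
  have key : ∀ η : ℂ, ‖η‖ = 1 → η * L.ny x + 1 = 0 → x ∈ L.TT η := by
    intro η hη h
    refine ⟨⟨hT, hd⟩, by simp [hnx], ?_⟩
    have h1 : -(η * L.ny x) = 1 := by linear_combination -h
    have h2 : ‖L.ny x‖ = 1 := by
      have : ‖-(η * L.ny x)‖ = ‖L.ny x‖ := by rw [norm_neg, norm_mul, hη, one_mul]
      rw [← this, h1, norm_one]
    rw [h1, h2]
    norm_num
  rcases mul_eq_zero.mp hprod with h | h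
  · rcases mul_eq_zero.mp h with h | h
    · exact Or.inl (Or.inl (Or.inr (key 1 norm_one (by rw [one_mul]; exact h))))
    · exact Or.inl (Or.inr (key w hnw h))
  · exact Or.inr (key (w ^ 2) (by rw [norm_pow, hnw, one_pow]) h)


end LocalData

/-- the part of the surface over a convex domain with one special point is simply connected -/
theorem isSimplyConnected_one (d : ThetaData) {D : Set ℂ} (hD : IsOpen D) (hDc : Convex ℝ D)
    {p : ℂ} (hp : D ∩ {t | ∃ i, d.lam i t = 0} = {p}) :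
    IsSimplyConnected (XX.T ⁻¹' D : Set (XX d)) := by
  obtain ⟨L⟩ := nonempty_localData d hD hDc hp
  have hpD : p ∈ D := by
    have : p ∈ D ∩ {t | ∃ i, d.lam i t = 0} := by rw [hp]; rfl
    exact this.1
  obtain ⟨w, hw⟩ : ∃ w : ℂ, w ^ 2 + w + 1 = 0 := by
    refine ⟨-(1 / 2) + (Real.sqrt 3 / 2 : ℝ) * Complex.I, ?_⟩
    have h3 : ((Real.sqrt 3 : ℝ) : ℂ) ^ 2 = 3 := by
      rw [← Complex.ofReal_pow, Real.sq_sqrt (by norm_num)]
      norm_num
    push_cast
    linear_combination (1 / 4 : ℂ) * Complex.I ^ 2 * h3 + (3 / 4 : ℂ) * Complex.I_sq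
  have hw3 : w ^ 3 = 1 := by linear_combination (w - 1) * hw
  have hnw : ‖w‖ = 1 := by
    have : ‖w‖ ^ 3 = 1 := by rw [← norm_pow, hw3, norm_one]
    exact (pow_eq_one_iff_of_nonneg (norm_nonneg _) three_ne_zero).mp this
  have hw23 : (w ^ 2) ^ 3 = 1 := by
    rw [← pow_mul, mul_comm, pow_mul, hw3, one_pow]
  have hnw2 : ‖w ^ 2‖ = 1 := by rw [norm_pow, hnw, one_pow]
  have hUo : IsOpen L.UU := (hD.preimage XX.continuous_T).inter (XX.isOpen_dom _)
  have h1o := L.isOpen_TT hD 1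
  have h2o := L.isOpen_TT hD w
  have h3o := L.isOpen_TT hD (w ^ 2)
  have d12 : L.TT 1 ∩ L.TT w = ∅ := L.TT_disjoint (by
    have : 1 + w = -(w ^ 2) := by linear_combination hw
    rw [this, norm_neg, hnw2])
  have d13 : L.TT 1 ∩ L.TT (w ^ 2) = ∅ := L.TT_disjoint (by
    have : 1 + w ^ 2 = -w := by linear_combination hw
    rw [this, norm_neg, hnw])
  have d23 : L.TT w ∩ L.TT (w ^ 2) = ∅ := L.TT_disjoint (by
    have : w + w ^ 2 = -1 := by linear_combination hw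
    rw [this, norm_neg, norm_one])
  have s1 : IsSimplyConnected (L.UU ∪ L.TT 1) :=
    isSimplyConnected_union hUo h1o (L.isSimplyConnected_UU hpD hDc)
      (L.isSimplyConnected_TT hpD hDc (by norm_num) norm_one)
      (L.isPathConnected_UU_TT hpD hDc (by norm_num) norm_one)
  have s2 : IsSimplyConnected (L.UU ∪ L.TT 1 ∪ L.TT w) := by
    apply isSimplyConnected_union (hUo.union h1o) h2o s1 (L.isSimplyConnected_TT hpD hDc hw3 hnw)
    rw [union_inter_distrib_right, d12, union_empty]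
    exact L.isPathConnected_UU_TT hpD hDc hw3 hnw
  have s3 : IsSimplyConnected (L.UU ∪ L.TT 1 ∪ L.TT w ∪ L.TT (w ^ 2)) := by
    apply isSimplyConnected_union ((hUo.union h1o).union h2o) h3o s2
      (L.isSimplyConnected_TT hpD hDc hw23 hnw2)
    rw [union_inter_distrib_right, union_inter_distrib_right, d13, d23, union_empty, union_empty]
    exact L.isPathConnected_UU_TT hpD hDc hw23 hnw2
  have heq : (XX.T ⁻¹' D : Set (XX d)) = L.UU ∪ L.TT 1 ∪ L.TT w ∪ L.TT (w ^ 2) := by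
    ext x
    constructor
    · intro hx
      exact L.cover hw hx
    · rintro (((h | h) | h) | h)
      · exact h.1
      · exact h.1.1
      · exact h.1.1
      · exact h.1.1
  rw [heq]
  exact s3

end Pool.Agent.Helper40
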