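import Mathlib

/-!
# Quotients of manifolds by free, properly discontinuous, smooth actions

The quotient of a `C^n` manifold by a free and properly discontinuous action of a group by `C^n`
maps is a `C^n` manifold, and the projection is a local diffeomorphism and a covering map.
-/

open scoped Manifold ContDiff Topology
open Set Filter

namespace Pool.Agent.Helper40

noncomputable section

section General

variable {𝕜 : Type*} [NontriviallyNormedField 𝕜] {E : Type*} [NormedAddCommGroup E]
  [NormedSpace 𝕜 E] {H : Type*} [TopologicalSpace H] (I : ModelWithCorners 𝕜 E H)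
  (n : WithTop ℕ∞)
  {X : Type*} [TopologicalSpace X] [ChartedSpace H X] {Y : Type*} [TopologicalSpace Y]

/-- Any two points of a fibre of `π` are related by a smooth map over `π`. -/
def DeckSmooth (π : X → Y) : Prop :=
  ∀ x x' : X, π x = π x' → ∃ γ : X → X, ContMDiff I I n γ ∧ γ x = x' ∧ ∀ z, π (γ z) = π z

variable {I n}

lemma contMDiffAt_section_comp {π : X → Y} (hd : DeckSmooth I n π)
    (s : OpenPartialHomeomorph Y X) (hs : ∀ y ∈ s.source, π (s y) = y) {x : X}
    (hx : π x ∈ s.source) : ContMDiffAt I I n (fun z => s (π z)) x := by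
  obtain ⟨γ, hγ, hγx, hπγ⟩ := hd x (s (π x)) (hs _ hx).symm
  refine (hγ x).congr_of_eventuallyEq ?_
  have hmem : ∀ᶠ z in 𝓝 x, γ z ∈ s.target := by
    refine hγ.continuous.continuousAt.eventually_mem (s.open_target.mem_nhds ?_)
    rw [hγx]
    exact s.map_source hx
  filter_upwards [hmem] with z hz
  have h1 : π (γ z) = s.symm (γ z) := by
    conv_lhs => rw [← s.right_inv hz]
    exact hs _ (s.map_target hz)
  rw [← hπγ z, h1, s.right_inv hz]

/-- The chart of the quotient used by Mathlib. -/
def qchart {π : X → Y} (hπ : IsLocalHomeomorph π) (p : X) : OpenPartialHomeomorph Y H :=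
  (hπ.localInverseAt p).trans (chartAt H p)

lemma contMDiffOn_transition [IsManifold I n X] {π : X → Y} (hπ : IsLocalHomeomorph π)
    (hd : DeckSmooth I n π) (p q : X) :
    ContMDiffOn I I n ((qchart (H := H) hπ p).symm ≫ₕ qchart (H := H) hπ q)
      ((qchart (H := H) hπ p).symm ≫ₕ qchart (H := H) hπ q).source := by
  intro h hh
  apply ContMDiffAt.contMDiffWithinAt
  have hh1 : h ∈ (qchart (H := H) hπ p).target := by
    have := hh.1
    simpa using this
  have hh2 : (qchart (H := H) hπ p).symm h ∈ (qchart (H := H) hπ q).source := by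
    have := hh.2
    simpa using this
  have a1 : h ∈ (chartAt H p).target := by
    have := hh1
    simp only [qchart, OpenPartialHomeomorph.trans_target] at this
    exact this.1
  have a2 : (qchart (H := H) hπ p).symm h = π ((chartAt H p).symm h) := by
    simp [qchart]
  rw [a2] at hh2
  have a3 : π ((chartAt H p).symm h) ∈ (hπ.localInverseAt q).source := by
    simp only [qchart, OpenPartialHomeomorph.trans_source] at hh2
    exact hh2.1
  have a4 : hπ.localInverseAt q (π ((chartAt H p).symm h)) ∈ (chartAt H q).source := by
    simp only [qchart, OpenPartialHomeomorph.trans_source] at hh2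
    exact hh2.2
  have b1 : ContMDiffAt I I n (chartAt H p).symm h :=
    (contMDiffOn_chart_symm (I := I) (n := n) (x := p)).contMDiffAt
      ((chartAt H p).open_target.mem_nhds a1)
  have b2 : ContMDiffAt I I n (fun z => hπ.localInverseAt q (π z)) ((chartAt H p).symm h) :=
    contMDiffAt_section_comp hd _ (fun y hy => hπ.apply_localInverseAt_of_mem hy) a3
  have b3 : ContMDiffAt I I n (chartAt H q)
      (hπ.localInverseAt q (π ((chartAt H p).symm h))) :=
    (contMDiffOn_chart (I := I) (n := n) (x := q)).contMDiffAt
      ((chartAt H q).open_source.mem_nhds a4)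
  have b4 := ContMDiffAt.comp (g := chartAt H q) h b3 (b2.comp h b1)
  refine b4.congr_of_eventuallyEq (Eventually.of_forall fun z => ?_)
  simp [qchart]

theorem isManifold_of_deck [IsManifold I n X] {π : X → Y} (hπ : IsLocalHomeomorph π)
    {g : Y → X} (hg : Function.RightInverse g π) (hd : DeckSmooth I n π) :
    letI : ChartedSpace H Y := hπ.chartedSpaceOfRightInverse hg
    IsManifold I n Y := by
  let _ : ChartedSpace H Y := hπ.chartedSpaceOfRightInverse hg
  apply isManifold_of_contDiffOn
  rintro _ _ ⟨p, rfl⟩ ⟨q, rfl⟩
  have h := contMDiffOn_transition (I := I) (n := n) hπ hd (g p) (g q)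
  rw [contMDiffOn_iff] at h
  obtain ⟨-, h⟩ := h
  intro v hv
  have h1 := h (I.symm v) (I.symm v)
  simp only [extChartAt, chartAt_self_eq, OpenPartialHomeomorph.extend] at h1
  refine (h1.mono ?_) v hv
  intro w hw
  refine ⟨?_, ?_⟩
  · simpa using hw.2
  · exact ⟨hw.1, by simp⟩

/-- The charts of the induced structure. -/
lemma chartAt_ofRightInverse {π : X → Y} (hπ : IsLocalHomeomorph π) {g : Y → X}
    (hg : Function.RightInverse g π) (y : Y) :
    letI : ChartedSpace H Y := hπ.chartedSpaceOfRightInverse hg
    chartAt H y = qchart (H := H) hπ (g y) := rfl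

theorem contMDiff_proj_of_deck [IsManifold I n X] {π : X → Y} (hπ : IsLocalHomeomorph π)
    {g : Y → X} (hg : Function.RightInverse g π) (hd : DeckSmooth I n π) :
    letI : ChartedSpace H Y := hπ.chartedSpaceOfRightInverse hg
    ContMDiff I I n π := by
  let _ : ChartedSpace H Y := hπ.chartedSpaceOfRightInverse hg
  have _ : IsManifold I n Y := isManifold_of_deck hπ hg hd
  intro x
  have hp : π (g (π x)) = π x := hg (π x)
  have hsrc : π x ∈ (hπ.localInverseAt (g (π x))).source := by
    have h := hπ.apply_self_mem_localInverseAt_source (x := g (π x))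
    rwa [hp] at h
  have hsx : hπ.localInverseAt (g (π x)) (π x) = g (π x) := by
    have h := hπ.localInverseAt_apply_self (x := g (π x))
    rwa [hp] at h
  have b1 : ContMDiffAt I I n (fun z => hπ.localInverseAt (g (π x)) (π z)) x :=
    contMDiffAt_section_comp hd _ (fun y hy => hπ.apply_localInverseAt_of_mem hy) hsrc
  have b2 : ContMDiffAt I I n (chartAt H (g (π x)))
      (hπ.localInverseAt (g (π x)) (π x)) := by
    rw [hsx]
    exact (contMDiffOn_chart (I := I) (n := n) (x := g (π x))).contMDiffAt
      ((chartAt H (g (π x))).open_source.mem_nhds (mem_chart_source H _))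
  have heq : ∀ w, chartAt H (π x) w =
      chartAt H (g (π x)) (hπ.localInverseAt (g (π x)) w) := fun w => rfl
  have b3 : ContMDiffAt I I n (chartAt H (π x)).symm
      (chartAt H (g (π x)) (hπ.localInverseAt (g (π x)) (π x))) := by
    refine (contMDiffOn_chart_symm (I := I) (n := n) (x := π x)).contMDiffAt
      ((chartAt H (π x)).open_target.mem_nhds ?_)
    rw [← heq]
    exact mem_chart_target H (π x)
  have b4 := ContMDiffAt.comp (g := (chartAt H (π x)).symm) x b3
    (ContMDiffAt.comp (g := chartAt H (g (π x))) x b2 b1)
  refine b4.congr_of_eventuallyEq ?_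
  have hev : ∀ᶠ z in 𝓝 x, π z ∈ (chartAt H (π x)).source :=
    hπ.continuous.continuousAt.eventually_mem
      ((chartAt H (π x)).open_source.mem_nhds (mem_chart_source H _))
  filter_upwards [hev] with z hz
  simp only [Function.comp_apply]
  rw [← heq, (chartAt H (π x)).left_inv hz]

theorem contMDiffOn_section_of_deck [IsManifold I n X] {π : X → Y} (hπ : IsLocalHomeomorph π)
    {g : Y → X} (hg : Function.RightInverse g π) (hd : DeckSmooth I n π)
    (s : OpenPartialHomeomorph Y X) (hs : ∀ y ∈ s.source, π (s y) = y) :
    letI : ChartedSpace H Y := hπ.chartedSpaceOfRightInverse hg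
    ContMDiffOn I I n s s.source := by
  let _ : ChartedSpace H Y := hπ.chartedSpaceOfRightInverse hg
  have _ : IsManifold I n Y := isManifold_of_deck hπ hg hd
  intro y hy
  apply ContMDiffAt.contMDiffWithinAt
  have hp : π (g y) = y := hg y
  have hsy : hπ.localInverseAt (g y) y = g y := by
    have h := hπ.localInverseAt_apply_self (x := g y)
    rwa [hp] at h
  have heq : ∀ w, chartAt H y w = chartAt H (g y) (hπ.localInverseAt (g y) w) := fun w => rfl
  have heqy : (chartAt H (g y)).symm (chartAt H y y) = g y := by
    rw [heq, hsy]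
    exact (chartAt H (g y)).left_inv (mem_chart_source H _)
  have b1 : ContMDiffAt I I n (chartAt H y) y :=
    (contMDiffOn_chart (I := I) (n := n) (x := y)).contMDiffAt
      ((chartAt H y).open_source.mem_nhds (mem_chart_source H _))
  have b2 : ContMDiffAt I I n (chartAt H (g y)).symm (chartAt H y y) := by
    refine (contMDiffOn_chart_symm (I := I) (n := n) (x := g y)).contMDiffAt
      ((chartAt H (g y)).open_target.mem_nhds ?_)
    rw [heq, hsy]
    exact mem_chart_target H _
  have b3 : ContMDiffAt I I n (fun z => s (π z)) ((chartAt H (g y)).symm (chartAt H y y)) := by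
    rw [heqy]
    exact contMDiffAt_section_comp hd s hs (by rw [hp]; exact hy)
  have b4 := ContMDiffAt.comp (g := fun z => s (π z)) y b3
    (ContMDiffAt.comp (g := (chartAt H (g y)).symm) y b2 b1)
  refine b4.congr_of_eventuallyEq ?_
  filter_upwards [(chartAt H y).open_source.mem_nhds (mem_chart_source H y)] with w hw
  have hw' : w ∈ (hπ.localInverseAt (g y)).source ∧
      hπ.localInverseAt (g y) w ∈ (chartAt H (g y)).source := by
    have : w ∈ (qchart (H := H) hπ (g y)).source := hw
    simp only [qchart, OpenPartialHomeomorph.trans_source] at this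
    exact ⟨this.1, this.2⟩
  simp only [Function.comp_apply]
  rw [heq, (chartAt H (g y)).left_inv hw'.2, hπ.apply_localInverseAt_of_mem hw'.1]

theorem isLocalDiffeomorph_of_deck [IsManifold I n X] {π : X → Y} (hπ : IsLocalHomeomorph π)
    {g : Y → X} (hg : Function.RightInverse g π) (hd : DeckSmooth I n π) :
    letI : ChartedSpace H Y := hπ.chartedSpaceOfRightInverse hg
    IsLocalDiffeomorph I I n π := by
  let _ : ChartedSpace H Y := hπ.chartedSpaceOfRightInverse hg
  intro x
  have hsym : ((hπ.localInverseAt x).symm : X → Y) = π := hπ.localInverseAt_symm x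
  refine ⟨{ toPartialEquiv := (hπ.localInverseAt x).symm.toPartialEquiv
            open_source := (hπ.localInverseAt x).open_target
            open_target := (hπ.localInverseAt x).open_source
            contMDiffOn_toFun := ?_
            contMDiffOn_invFun := ?_ }, ?_, ?_⟩
  · have h := (contMDiff_proj_of_deck hπ hg hd).contMDiffOn (s := (hπ.localInverseAt x).target)
    show ContMDiffOn I I n ((hπ.localInverseAt x).symm : X → Y) (hπ.localInverseAt x).target
    rw [hsym]
    exact h
  · exact contMDiffOn_section_of_deck hπ hg hd (hπ.localInverseAt x)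
      (fun y hy => hπ.apply_localInverseAt_of_mem hy)
  · exact hπ.self_mem_localInverseAt_target
  · intro z _
    show π z = ((hπ.localInverseAt x).symm : X → Y) z
    rw [hsym]

end General

section Action

variable {𝕜 : Type*} [NontriviallyNormedField 𝕜] {E : Type*} [NormedAddCommGroup E]
  [NormedSpace 𝕜 E] {H : Type*} [TopologicalSpace H] {I : ModelWithCorners 𝕜 E H}
  {n : WithTop ℕ∞}
  {X : Type*} [TopologicalSpace X] [ChartedSpace H X] [T2Space X] [LocallyCompactSpace X]
  {G : Type*} [AddGroup G] [AddAction G X] [ProperlyDiscontinuousVAdd G X]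
  [ContinuousConstVAdd G X] [IsCancelVAdd G X]

/-- The orbit projection. -/
abbrev proj (G X : Type*) [AddGroup G] [AddAction G X] : X → AddAction.orbitRel.Quotient G X :=
  Quotient.mk (AddAction.orbitRel G X)

lemma isAddQuotientCoveringMap_proj : IsAddQuotientCoveringMap (proj G X) G :=
  isAddQuotientCoveringMap_quotientMk_of_properlyDiscontinuousVAdd

lemma isCoveringMap_proj : IsCoveringMap (proj G X) :=
  isAddQuotientCoveringMap_proj.isCoveringMap

lemma deckSmooth_proj (hG : ∀ g : G, ContMDiff I I n (fun x : X => g +ᵥ x)) :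
    DeckSmooth I n (proj G X) := by
  intro x x' h
  have h1 : x' ∈ AddAction.orbit G x :=
    (isAddQuotientCoveringMap_proj (G := G) (X := X)).apply_eq_iff_mem_orbit.1 h.symm
  obtain ⟨g, hg⟩ := h1
  exact ⟨fun z => g +ᵥ z, hG g, hg, fun z =>
    (isAddQuotientCoveringMap_proj (G := G) (X := X)).map_vadd g⟩

theorem isManifold_quotient [IsManifold I n X]
    (hG : ∀ g : G, ContMDiff I I n (fun x : X => g +ᵥ x)) :
    IsManifold I n (AddAction.orbitRel.Quotient G X) :=
  isManifold_of_deck (isCoveringMap_proj (G := G) (X := X)).isLocalHomeomorph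
    Quotient.mk_surjective.hasRightInverse.choose_spec (deckSmooth_proj hG)

theorem contMDiff_proj [IsManifold I n X]
    (hG : ∀ g : G, ContMDiff I I n (fun x : X => g +ᵥ x)) :
    ContMDiff I I n (proj G X) :=
  contMDiff_proj_of_deck (isCoveringMap_proj (G := G) (X := X)).isLocalHomeomorph
    Quotient.mk_surjective.hasRightInverse.choose_spec (deckSmooth_proj hG)

theorem isLocalDiffeomorph_proj [IsManifold I n X]
    (hG : ∀ g : G, ContMDiff I I n (fun x : X => g +ᵥ x)) :
    IsLocalDiffeomorph I I n (proj G X) :=
  isLocalDiffeomorph_of_deck (isCoveringMap_proj (G := G) (X := X)).isLocalHomeomorph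
    Quotient.mk_surjective.hasRightInverse.choose_spec (deckSmooth_proj hG)

omit [IsCancelVAdd G X] in
theorem t2Space_quotient : T2Space (AddAction.orbitRel.Quotient G X) :=
  t2Space_of_properlyDiscontinuousVAdd_of_t2Space

omit [T2Space X] [LocallyCompactSpace X] [ProperlyDiscontinuousVAdd G X] [IsCancelVAdd G X] in
theorem secondCountable_quotient [SecondCountableTopology X] :
    SecondCountableTopology (AddAction.orbitRel.Quotient G X) :=
  ContinuousConstVAdd.secondCountableTopology

theorem infinite_fundamentalGroup_quotient [Infinite G] [PathConnectedSpace X]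
    (x : AddAction.orbitRel.Quotient G X) : Infinite (FundamentalGroup _ x) := by
  have hp := (isAddQuotientCoveringMap_proj (G := G) (X := X)).toMultiplicative
  obtain ⟨e, he⟩ := hp.surjective x
  have : Infinite (Multiplicative G)ᵐᵒᵖ :=
    Infinite.of_injective (fun a : Multiplicative G => MulOpposite.op a) MulOpposite.op_injective
  exact Infinite.of_surjective _
    (hp.fundamentalGroupToMulOpposite_surjective (⟨e, he⟩ : (proj G X) ⁻¹' {x}))

end Action

end

end Pool.Agent.Helper40
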