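import Mathlib
import Pool.Agent.Helper40.Charts
import Pool.Agent.Helper40.QuotientManifold
import Pool.Agent.Helper40.Defs
open Set Topology Metric Filter
open scoped Manifold ContDiff ComplexConjugate

namespace Pool.Agent.Helper40

variable {d : ThetaData}

/-- the Gaussian integer attached to a pair of integers -/
noncomputable def gauss (g : ℤ × ℤ) : ℂ := (g.1 : ℂ) + (g.2 : ℂ) * Complex.I

theorem isGauss_gauss (g : ℤ × ℤ) : IsGauss (gauss g) := ⟨g.1, g.2, rfl⟩

theorem gauss_add (g h : ℤ × ℤ) : gauss (g + h) = gauss g + gauss h := by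
  simp [gauss]; ring

theorem gauss_zero : gauss 0 = 0 := by simp [gauss]

theorem gauss_injective : Function.Injective gauss := by
  intro g h hgh
  have h1 := congrArg Complex.re hgh
  have h2 := congrArg Complex.im hgh
  simp [gauss] at h1 h2
  exact Prod.ext h1 h2

theorem finite_gauss (R : ℝ) : {g : ℤ × ℤ | ‖gauss g‖ ≤ R}.Finite := by
  apply ((Set.finite_Icc (-⌈R⌉) ⌈R⌉).prod (Set.finite_Icc (-⌈R⌉) ⌈R⌉)).subset
  intro g hg
  have hg' : ‖gauss g‖ ≤ R := hg
  have h1 : |(g.1 : ℝ)| ≤ R := by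
    have := (Complex.abs_re_le_norm (gauss g)).trans hg'
    simpa [gauss] using this
  have h2 : |(g.2 : ℝ)| ≤ R := by
    have := (Complex.abs_im_le_norm (gauss g)).trans hg'
    simpa [gauss] using this
  have key : ∀ n : ℤ, |(n : ℝ)| ≤ R → n ∈ Set.Icc (-⌈R⌉) ⌈R⌉ := by
    intro n hn
    rw [abs_le] at hn
    have h3 : (n : ℝ) ≤ ⌈R⌉ := hn.2.trans (Int.le_ceil R)
    have h4 : -(⌈R⌉ : ℝ) ≤ n := by linarith [Int.le_ceil R]
    constructor
    · exact_mod_cast h4
    · exact_mod_cast h3
  exact ⟨key _ h1, key _ h2⟩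

namespace XX

noncomputable instance : AddAction (ℤ × ℤ) (XX d) where
  vadd g x := shift (gauss g) (isGauss_gauss g) x
  zero_vadd x := by
    apply ext'
    · rfl
    · change x.T + gauss 0 = x.T
      rw [gauss_zero, add_zero]
  add_vadd g h x := by
    apply ext'
    · rfl
    · change x.T + gauss (g + h) = (x.T + gauss h) + gauss g
      rw [gauss_add]; ring

theorem vadd_T (g : ℤ × ℤ) (x : XX d) : (g +ᵥ x).T = x.T + gauss g := rfl
theorem vadd_P (g : ℤ × ℤ) (x : XX d) : (g +ᵥ x).P = x.P := rfl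

instance : ContinuousConstVAdd (ℤ × ℤ) (XX d) where
  continuous_const_vadd g := continuous_shift (gauss g) (isGauss_gauss g)

theorem contMDiff_vadd (g : ℤ × ℤ) :
    ContMDiff 𝓘(ℂ, ℂ × ℂ) 𝓘(ℂ, ℂ × ℂ) ω (fun x : XX d => g +ᵥ x) :=
  contMDiff_shift (gauss g) (isGauss_gauss g)

instance : IsCancelVAdd (ℤ × ℤ) (XX d) where
  left_cancel' g x y h := (vadd_left_cancel_iff g).mp h
  right_cancel' g h x hgh := by
    have h1 := congrArg T hgh
    rw [vadd_T, vadd_T] at h1
    exact gauss_injective (add_left_cancel h1)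

instance : ProperlyDiscontinuousVAdd (ℤ × ℤ) (XX d) where
  finite_disjoint_inter_image := by
    intro K L hK hL
    obtain ⟨C, hC⟩ := hK.exists_bound_of_continuousOn (f := T) continuous_T.continuousOn
    obtain ⟨C', hC'⟩ := hL.exists_bound_of_continuousOn (f := T) continuous_T.continuousOn
    apply (finite_gauss (C + C')).subset
    rintro g hg
    obtain ⟨y, ⟨x, hx, rfl⟩, hy⟩ := hg
    have h1 := hC x hx
    have h2 := hC' _ hy
    have h3 : gauss g = (g +ᵥ x).T - x.T := by rw [vadd_T]; ring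
    change ‖gauss g‖ ≤ C + C'
    rw [h3]
    calc ‖(g +ᵥ x).T - x.T‖ ≤ ‖(g +ᵥ x).T‖ + ‖x.T‖ := norm_sub_le _ _
      _ ≤ C + C' := by rw [add_comm]; exact add_le_add h1 h2

instance : LocallyCompactSpace (XX d) := ChartedSpace.locallyCompactSpace (ℂ × ℂ) (XX d)

end XX

variable (d) in
/-- The compact surface. -/
abbrev MM : Type := AddAction.orbitRel.Quotient (ℤ × ℤ) (XX d)

variable (d) in
/-- The covering. -/
noncomputable abbrev piM : XX d → MM d := proj (ℤ × ℤ) (XX d)

instance : IsManifold 𝓘(ℂ, ℂ × ℂ) ω (MM d) := isManifold_quotient XX.contMDiff_vadd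

theorem isComplexManifold_XX : IsComplexManifold (ℂ × ℂ) (XX d) where
  finiteDimensional := inferInstance
  t2Space := inferInstance
  secondCountable := inferInstance
  isManifold := inferInstance

theorem isComplexManifold_MM : IsComplexManifold (ℂ × ℂ) (MM d) where
  finiteDimensional := inferInstance
  t2Space := t2Space_quotient
  secondCountable := secondCountable_quotient
  isManifold := inferInstance

/-- every point of the line is equivalent to a point of the unit square -/
theorem exists_gauss_near (t : ℂ) : ∃ g : ℤ × ℤ, t + gauss g ∈ Complex.re ⁻¹' Icc 0 1 ∩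
    Complex.im ⁻¹' Icc 0 1 := by
  refine ⟨(-⌊t.re⌋, -⌊t.im⌋), ?_, ?_⟩
  · simp only [gauss, mem_preimage, mem_Icc]
    simp
    constructor
    · linarith [Int.floor_le t.re]
    · linarith [Int.lt_floor_add_one t.re]
  · simp only [gauss, mem_preimage, mem_Icc]
    simp
    constructor
    · linarith [Int.floor_le t.im]
    · linarith [Int.lt_floor_add_one t.im]

instance : CompactSpace (MM d) := by
  have h1 : IsCompact (Complex.re ⁻¹' Icc 0 1 ∩ Complex.im ⁻¹' Icc 0 1 : Set ℂ) := by
    have := isCompact_Icc.reProdIm (isCompact_Icc (a := (0:ℝ)) (b := 1)) (s := Icc (0:ℝ) 1)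
    exact this
  have h2 := (XX.isCompact_preimage_T (d := d) h1).image (f := piM d)
    (contMDiff_proj XX.contMDiff_vadd (I := 𝓘(ℂ, ℂ × ℂ)) (n := ω)).continuous
  have h3 : piM d '' (XX.T ⁻¹' (Complex.re ⁻¹' Icc 0 1 ∩ Complex.im ⁻¹' Icc 0 1)) = univ := by
    rw [eq_univ_iff_forall]
    intro y
    obtain ⟨x, rfl⟩ := Quotient.mk_surjective y
    obtain ⟨g, hg⟩ := exists_gauss_near x.T
    refine ⟨g +ᵥ x, hg, ?_⟩
    exact Quotient.sound ⟨g, rfl⟩
  rw [h3] at h2
  exact isCompact_univ_iff.mp h2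

end Pool.Agent.Helper40
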