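import Mathlib
import Pool.Agent.Helper40.Surface
import Pool.Agent.Helper40.Charts
import Pool.Agent.Helper40.QuotientManifold
import Pool.Agent.Helper40.Quot
import Pool.Agent.Helper40.TorusEmbedding
import Pool.Agent.Helper40.Defs
open Set Topology Metric Filter
open scoped Manifold ContDiff ComplexConjugate LinearAlgebra.Projectivization

namespace Pool.Agent.Helper40

/-- An auxiliary form of the notion of projective embedding, with manifold derivatives. -/
def IsProjectiveEmbeddingMf {E : Type*} [NormedAddCommGroup E] [NormedSpace ℂ E]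
    {M : Type*} [TopologicalSpace M] [ChartedSpace E M] (r : ℕ)
    (φ : M → Projectivization ℂ (Fin (r + 1) → ℂ)) : Prop :=
  Function.Injective φ ∧
  ∀ x : M, ∃ U : Set M, IsOpen U ∧ x ∈ U ∧ ∃ F : M → Fin (r + 1) → ℂ,
    ContMDiffOn 𝓘(ℂ, E) 𝓘(ℂ, Fin (r + 1) → ℂ) ω F U ∧
    (∀ y ∈ U, ∃ h : F y ≠ 0, φ y = Projectivization.mk ℂ (F y) h) ∧
    ∀ v : TangentSpace 𝓘(ℂ, E) x,
      (∃ c : ℂ, mfderiv 𝓘(ℂ, E) 𝓘(ℂ, Fin (r + 1) → ℂ) F x v = (c • F x : Fin (r + 1) → ℂ)) → v = 0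

theorem IsProjectiveEmbeddingMf.toEmbedding {E : Type*} [NormedAddCommGroup E] [NormedSpace ℂ E]
    {M : Type*} [TopologicalSpace M] [ChartedSpace E M] {r : ℕ}
    {φ : M → Projectivization ℂ (Fin (r + 1) → ℂ)} (h : IsProjectiveEmbeddingMf (E := E) r φ) :
    IsProjectiveEmbedding E φ := by
  refine ⟨h.1, fun x => ?_⟩
  obtain ⟨U, hU, hxU, F, hF, hF2, hF3⟩ := h.2 x
  refine ⟨U, hU, hxU, F, ⟨hF, hF2⟩, ?_⟩
  rintro v ⟨c, hc⟩
  apply hF3 v
  refine ⟨c, ?_⟩
  have hmd : MDifferentiableAt 𝓘(ℂ, E) 𝓘(ℂ, Fin (r + 1) → ℂ) F x :=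
    ((hF x hxU).contMDiffAt (hU.mem_nhds hxU)).mdifferentiableAt (by simp)
  have h1 : (mfderiv 𝓘(ℂ, E) 𝓘(ℂ, Fin (r + 1) → ℂ) F x : E →L[ℂ] (Fin (r + 1) → ℂ)) =
      fderiv ℂ (fun z => F ((chartAt E x).symm z)) (chartAt E x x) := by
    rw [hmd.mfderiv]
    simp only [mfld_simps, fderivWithin_univ]
    rfl
  change (mfderiv 𝓘(ℂ, E) 𝓘(ℂ, Fin (r + 1) → ℂ) F x : E →L[ℂ] (Fin (r + 1) → ℂ)) v = c • F x
  rw [h1]
  exact hc

namespace Proj

/-- pairs of indices -/
def idx : Fin 3 × Fin 3 ≃ Fin (8 + 1) := finProdFinEquiv (m := 3) (n := 3)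

/-- product of two vectors, as a vector of length nine -/
def tens (a b : Fin 3 → ℂ) : Fin (8 + 1) → ℂ := fun n => a (idx.symm n).1 * b (idx.symm n).2

theorem tens_idx (a b : Fin 3 → ℂ) (k l : Fin 3) : tens a b (idx (k, l)) = a k * b l := by
  simp [tens]

theorem tens_ne {a b : Fin 3 → ℂ} (ha : a ≠ 0) (hb : b ≠ 0) : tens a b ≠ 0 := by
  obtain ⟨k, hk⟩ := Function.ne_iff.mp ha
  obtain ⟨l, hl⟩ := Function.ne_iff.mp hb
  intro h
  have := congrFun h (idx (k, l))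
  rw [tens_idx, Pi.zero_apply] at this
  exact mul_ne_zero hk hl this

theorem tens_smul (c c' : ℂ) (a b : Fin 3 → ℂ) :
    tens (c • a) (c' • b) = (c * c') • tens a b := by
  ext n
  simp only [tens, Pi.smul_apply, smul_eq_mul]
  ring

/-- the Segre map -/
noncomputable def seg (p q : ℙ ℂ (Fin 3 → ℂ)) : ℙ ℂ (Fin (8 + 1) → ℂ) :=
  Projectivization.mk ℂ (tens p.rep q.rep) (tens_ne p.rep_nonzero q.rep_nonzero)

theorem seg_mk {a b : Fin 3 → ℂ} (ha : a ≠ 0) (hb : b ≠ 0) :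
    seg (Projectivization.mk ℂ a ha) (Projectivization.mk ℂ b hb) =
      Projectivization.mk ℂ (tens a b) (tens_ne ha hb) := by
  have h1 : Projectivization.mk ℂ (Projectivization.mk ℂ a ha).rep
      (Projectivization.rep_nonzero _) = Projectivization.mk ℂ a ha := Projectivization.mk_rep _
  have h2 : Projectivization.mk ℂ (Projectivization.mk ℂ b hb).rep
      (Projectivization.rep_nonzero _) = Projectivization.mk ℂ b hb := Projectivization.mk_rep _
  rw [Projectivization.mk_eq_mk_iff'] at h1 h2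
  obtain ⟨c, hc⟩ := h1
  obtain ⟨c', hc'⟩ := h2
  unfold seg
  rw [Projectivization.mk_eq_mk_iff']
  refine ⟨c * c', ?_⟩
  rw [← hc, ← hc', tens_smul]

theorem seg_injective {p q p' q' : ℙ ℂ (Fin 3 → ℂ)} (h : seg p q = seg p' q') :
    p = p' ∧ q = q' := by
  induction p with | h a ha
  induction q with | h b hb
  induction p' with | h a' ha'
  induction q' with | h b' hb'
  rw [seg_mk, seg_mk, Projectivization.mk_eq_mk_iff'] at h
  obtain ⟨c, hc⟩ := h
  have key : ∀ k l, c * (a' k * b' l) = a k * b l := by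
    intro k l
    have := congrFun hc (idx (k, l))
    rwa [Pi.smul_apply, tens_idx, tens_idx, smul_eq_mul] at this
  obtain ⟨k, hk⟩ := Function.ne_iff.mp ha
  obtain ⟨l, hl⟩ := Function.ne_iff.mp hb
  rw [Pi.zero_apply] at hk hl
  constructor
  · rw [Projectivization.mk_eq_mk_iff']
    refine ⟨c * b' l / b l, ?_⟩
    ext i
    rw [Pi.smul_apply, smul_eq_mul]
    field_simp
    linear_combination key i l
  · rw [Projectivization.mk_eq_mk_iff']
    refine ⟨c * a' k / a k, ?_⟩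
    ext i
    rw [Pi.smul_apply, smul_eq_mul]
    field_simp
    linear_combination key k i

/-- from the model of the plane to the projective space of Mathlib -/
noncomputable def toProj (P : P2) : ℙ ℂ (Fin 3 → ℂ) :=
  Projectivization.mk ℂ P.exists_mk.choose P.exists_mk.choose_spec.choose

theorem toProj_mk {v : Fin 3 → ℂ} (hv : v ≠ 0) :
    toProj (P2.mk v hv) = Projectivization.mk ℂ v hv := by
  set w := (P2.mk v hv).exists_mk.choose with hw
  have hw0 : w ≠ 0 := (P2.mk v hv).exists_mk.choose_spec.choose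
  have hw1 : P2.mk v hv = P2.mk w hw0 := (P2.mk v hv).exists_mk.choose_spec.choose_spec
  change Projectivization.mk ℂ w hw0 = _
  rw [Projectivization.mk_eq_mk_iff']
  obtain ⟨j, hj⟩ := Function.ne_iff.mp hv
  have hwj : w j ≠ 0 := by
    rw [← P2.mk_diag_ne hw0 j, ← hw1, P2.mk_diag_ne hv j]
    exact hj
  refine ⟨w j / v j, ?_⟩
  ext k
  have h1 : (P2.mk v hv).coord k j = v k / v j := P2.coord_mk hv hj k
  have h2 : (P2.mk w hw0).coord k j = w k / w j := P2.coord_mk hw0 hwj k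
  rw [hw1, h2] at h1
  rw [Pi.smul_apply, smul_eq_mul]
  rw [Pi.zero_apply] at hj
  field_simp at h1 ⊢
  linear_combination -h1

theorem toProj_injective : Function.Injective toProj := by
  intro P Q h
  obtain ⟨v, hv, rfl⟩ := P.exists_mk
  obtain ⟨w, hw, rfl⟩ := Q.exists_mk
  rw [toProj_mk, toProj_mk, Projectivization.mk_eq_mk_iff'] at h
  obtain ⟨c, hc⟩ := h
  have hc0 : c ≠ 0 := by
    rintro rfl
    rw [zero_smul] at hc
    exact hv hc.symm
  subst hc
  exact P2.mk_smul hc0 hw hv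

/-- derivative of the homogeneous vector -/
def dh (j : Fin 3) (w : Fin 3 → ℂ) : Fin 3 → ℂ :=
  fun i => if i = j then 0 else if i = j + 1 then w 0 else w 1

theorem dh_self (j : Fin 3) (w : Fin 3 → ℂ) : dh j w j = 0 := by simp [dh]
theorem dh_one (j : Fin 3) (w : Fin 3 → ℂ) : dh j w (j + 1) = w 0 := by
  fin_cases j <;> simp [dh]
theorem dh_two (j : Fin 3) (w : Fin 3 → ℂ) : dh j w (j + 2) = w 1 := by
  fin_cases j <;> simp [dh]

theorem tens_immersion {j : Fin 3} {z w b b' : Fin 3 → ℂ} (hb : b ≠ 0)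
    (hb' : ∀ c : ℂ, b' ≠ c • b) (c : ℂ)
    (h : tens (dh j w) b + tens (hvec j z) (w 2 • b') = c • tens (hvec j z) b) : w = 0 := by
  have key : ∀ k l, dh j w k * b l + hvec j z k * (w 2 * b' l) = c * (hvec j z k * b l) := by
    intro k l
    have := congrFun h (idx (k, l))
    simpa only [Pi.add_apply, Pi.smul_apply, tens_idx, smul_eq_mul] using this
  have h0 : ∀ l, w 2 * b' l = c * b l := by
    intro l
    have := key j l
    rw [dh_self, hvec_self] at this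
    linear_combination this
  have hw2 : w 2 = 0 := by
    by_contra hw
    apply hb' (c / w 2)
    ext l
    rw [Pi.smul_apply, smul_eq_mul]
    field_simp
    linear_combination h0 l
  obtain ⟨l, hl⟩ := Function.ne_iff.mp hb
  rw [Pi.zero_apply] at hl
  have hc : c = 0 := by
    have := h0 l
    rw [hw2, zero_mul] at this
    exact (mul_eq_zero.mp this.symm).resolve_right hl
  have h1 : ∀ k, dh j w k = 0 := by
    intro k
    have := key k l
    rw [hw2, hc, zero_mul, mul_zero, add_zero, zero_mul] at this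
    exact (mul_eq_zero.mp this).resolve_right hl
  ext i
  fin_cases i
  · have := h1 (j + 1)
    rw [dh_one] at this
    exact this
  · have := h1 (j + 2)
    rw [dh_two] at this
    exact this
  · exact hw2

/-- the lift of the embedding in local coordinates -/
def HH (j : Fin 3) (F1 : ℂ → Fin 3 → ℂ) (z : Fin 3 → ℂ) : Fin (8 + 1) → ℂ :=
  tens (hvec j z) (F1 (z 2))

/-- its derivative -/
noncomputable def dHH (j : Fin 3) (F1 : ℂ → Fin 3 → ℂ) (z : Fin 3 → ℂ) :
    (Fin 3 → ℂ) →L[ℂ] (Fin (8 + 1) → ℂ) :=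
  ContinuousLinearMap.pi fun n =>
    hvec j z (idx.symm n).1 • (deriv F1 (z 2) (idx.symm n).2 •
      (ContinuousLinearMap.proj 2 : (Fin 3 → ℂ) →L[ℂ] ℂ)) +
    F1 (z 2) (idx.symm n).2 • (if (idx.symm n).1 = j then 0 else
      if (idx.symm n).1 = j + 1 then (ContinuousLinearMap.proj 0 : (Fin 3 → ℂ) →L[ℂ] ℂ)
      else ContinuousLinearMap.proj 1)

theorem dHH_apply (j : Fin 3) (F1 : ℂ → Fin 3 → ℂ) (z w : Fin 3 → ℂ) :
    dHH j F1 z w = tens (dh j w) (F1 (z 2)) + tens (hvec j z) (w 2 • deriv F1 (z 2)) := by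
  ext n
  simp only [dHH, ContinuousLinearMap.coe_pi', _root_.add_apply,
    _root_.smul_apply, ContinuousLinearMap.proj_apply, smul_eq_mul, tens,
    Pi.add_apply, Pi.smul_apply, dh]
  split_ifs
  · simp only [_root_.zero_apply]
    ring
  · simp only [ContinuousLinearMap.proj_apply]
    ring
  · simp only [ContinuousLinearMap.proj_apply]
    ring

theorem hasFDerivAt_HH {j : Fin 3} {F1 : ℂ → Fin 3 → ℂ} {z : Fin 3 → ℂ}
    (h : DifferentiableAt ℂ F1 (z 2)) : HasFDerivAt (HH j F1) (dHH j F1 z) z := by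
  rw [hasFDerivAt_pi']
  intro n
  have p2 : HasFDerivAt (fun z : Fin 3 → ℂ => z 2)
      (ContinuousLinearMap.proj 2 : (Fin 3 → ℂ) →L[ℂ] ℂ) z := hasFDerivAt_apply 2 z
  have q2 : HasDerivAt (fun s => F1 s (idx.symm n).2) (deriv F1 (z 2) (idx.symm n).2) (z 2) :=
    hasDerivAt_pi.mp h.hasDerivAt (idx.symm n).2
  have h2 : HasFDerivAt (fun z : Fin 3 → ℂ => F1 (z 2) (idx.symm n).2)
      (deriv F1 (z 2) (idx.symm n).2 • (ContinuousLinearMap.proj 2 : (Fin 3 → ℂ) →L[ℂ] ℂ)) z := by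
    have := HasDerivAt.comp_hasFDerivAt (h₂ := fun s => F1 s (idx.symm n).2) z q2 p2
    exact this
  have h1 : HasFDerivAt (fun z : Fin 3 → ℂ => hvec j z (idx.symm n).1)
      (if (idx.symm n).1 = j then 0 else
        if (idx.symm n).1 = j + 1 then (ContinuousLinearMap.proj 0 : (Fin 3 → ℂ) →L[ℂ] ℂ)
        else ContinuousLinearMap.proj 1) z := by
    unfold hvec
    split_ifs
    · exact hasFDerivAt_const _ _
    · exact hasFDerivAt_apply 0 z
    · exact hasFDerivAt_apply 1 z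
  have h3 := h1.mul h2
  exact h3

theorem contDiffOn_HH {j : Fin 3} {F1 : ℂ → Fin 3 → ℂ} {U : Set ℂ} (hU : IsOpen U)
    (h : DifferentiableOn ℂ F1 U) : ContDiffOn ℂ ω (HH j F1) {z | z 2 ∈ U} := by
  rw [contDiffOn_pi]
  intro n
  have h0 : ContDiffOn ℂ ω F1 U := h.contDiffOn hU
  have h1 : ContDiffOn ℂ ω (fun z : Fin 3 → ℂ => F1 (z 2)) {z | z 2 ∈ U} :=
    h0.comp (contDiff_apply ℂ ℂ 2).contDiffOn (fun z hz => hz)
  have h2 : ContDiffOn ℂ ω (fun z : Fin 3 → ℂ => F1 (z 2) (idx.symm n).2) {z | z 2 ∈ U} :=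
    contDiffOn_pi.mp h1 _
  have h3 : ContDiff ℂ ω (fun z : Fin 3 → ℂ => hvec j z (idx.symm n).1) := by
    unfold hvec
    split_ifs
    · exact contDiff_const
    · exact contDiff_apply ℂ ℂ 0
    · exact contDiff_apply ℂ ℂ 1
  exact h3.contDiffOn.mul h2

open XX in
/-- the embedding, upstairs -/
noncomputable def phi0 (ψ : ℂ → ℙ ℂ (Fin 3 → ℂ)) (d : ThetaData) (x : XX d) :
    ℙ ℂ (Fin (8 + 1) → ℂ) := seg (toProj x.P) (ψ x.T)

theorem phi0_eq {ψ : ℂ → ℙ ℂ (Fin 3 → ℂ)} {d : ThetaData} {x : XX d} {j : Fin 3}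
    (hx : x ∈ XX.dom j) {F1 : ℂ → Fin 3 → ℂ} (h0 : F1 x.T ≠ 0)
    (h : ψ x.T = Projectivization.mk ℂ (F1 x.T) h0) :
    ∃ h' : HH j F1 (XX.zc j x) ≠ 0,
      phi0 ψ d x = Projectivization.mk ℂ (HH j F1 (XX.zc j x)) h' := by
  refine ⟨tens_ne (hvec_ne j _) h0, ?_⟩
  unfold phi0
  have h1 : P2.mk (fun k => x.coord k j) (XX.coord_ne hx) = x.P := P2.mk_coord hx
  rw [← h1, toProj_mk, h, seg_mk]
  congr 1
  change tens (fun k => x.coord k j) (F1 x.T) = tens (hvec j (XX.zc j x)) (F1 x.T)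
  rw [XX.hvec_zc hx]

theorem contMDiffAt_HH {d : ThetaData} {x : XX d} {j : Fin 3} (hx : x ∈ XX.dom j)
    {F1 : ℂ → Fin 3 → ℂ} {U : Set ℂ} (hU : IsOpen U) (h : DifferentiableOn ℂ F1 U)
    (hxU : x.T ∈ U) :
    ContMDiffAt 𝓘(ℂ, ℂ × ℂ) 𝓘(ℂ, Fin (8 + 1) → ℂ) ω (fun x => HH j F1 (XX.zc j x)) x := by
  have h1 : ContDiffAt ℂ ω (HH j F1) (XX.zc j x) :=
    (contDiffOn_HH (j := j) hU h).contDiffAt ((hU.preimage (continuous_apply 2)).mem_nhds hxU)
  exact h1.contMDiffAt.comp x (XX.contMDiffAt_zc hx)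

end Proj

open Proj

theorem exists_projectiveEmbeddingMf (d : ThetaData) :
    ∃ (r : ℕ) (φ : MM d → Projectivization ℂ (Fin (r + 1) → ℂ)),
      IsProjectiveEmbeddingMf (E := ℂ × ℂ) r φ := by
  classical
  obtain ⟨ψ, hψ1, hψ2, hψ3⟩ := exists_torusEmbedding
  have hinv : ∀ (g : ℤ × ℤ) (x : XX d), phi0 ψ d (g +ᵥ x) = phi0 ψ d x := by
    intro g x
    unfold phi0
    rw [XX.vadd_P, XX.vadd_T]
    have : ψ (x.T + gauss g) = ψ x.T := hψ2 x.T g.1 g.2
    rw [this]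
  let φ : MM d → ℙ ℂ (Fin (8 + 1) → ℂ) := Quotient.lift (phi0 ψ d) (by
    rintro x y ⟨g, hg⟩
    rw [← hg]
    exact hinv g y)
  have hφ : ∀ x : XX d, φ (piM d x) = phi0 ψ d x := fun x => rfl
  refine ⟨8, φ, ?_, ?_⟩
  · intro p q hpq
    obtain ⟨x, rfl⟩ := Quotient.mk_surjective p
    obtain ⟨y, rfl⟩ := Quotient.mk_surjective q
    have h1 : phi0 ψ d x = phi0 ψ d y := hpq
    obtain ⟨h2, h3⟩ := seg_injective h1
    have h4 := toProj_injective h2
    obtain ⟨m, n, hmn⟩ := hψ3 _ _ h3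
    apply Quotient.sound
    refine ⟨(m, n), ?_⟩
    apply XX.ext'
    · change y.P = x.P
      exact h4.symm
    · change y.T + gauss (m, n) = x.T
      change x.T - y.T = gauss (m, n) at hmn
      rw [← hmn]
      ring
  · intro y0
    have hloc := (isCoveringMap_proj (G := ℤ × ℤ) (X := XX d)).isLocalHomeomorph
    have hright := (Quotient.mk_surjective (s := AddAction.orbitRel (ℤ × ℤ) (XX d))).hasRightInverse.choose_spec
    set g := (Quotient.mk_surjective (s := AddAction.orbitRel (ℤ × ℤ) (XX d))).hasRightInverse.choose with hg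
    set x0 : XX d := g y0 with hx0
    have hpx0 : proj (ℤ × ℤ) (XX d) x0 = y0 := hright y0
    set s : OpenPartialHomeomorph (MM d) (XX d) := hloc.localInverseAt x0 with hs
    have hchart : chartAt (ℂ × ℂ) y0 = s.trans (chartAt (ℂ × ℂ) x0) := rfl
    obtain ⟨j, k, hnice⟩ : ∃ j k, XX.Nice j k (chartAt (ℂ × ℂ) x0) :=
      ⟨_, _, (XX.exists_nice' x0).choose_spec.choose_spec.choose_spec.2⟩
    set κ := chartAt (ℂ × ℂ) x0 with hκ
    have hxκ : x0 ∈ κ.source := mem_chart_source _ x0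
    have hdom : x0 ∈ XX.dom j := hnice.dom hxκ
    obtain ⟨U1, hU1, hTU, F1, hF1, hF2, hF3⟩ := hψ1 x0.T
    have hsrc : y0 ∈ s.source := by
      have := hloc.apply_self_mem_localInverseAt_source (x := x0)
      rwa [hpx0] at this
    have hsy : s y0 = x0 := by
      have := hloc.localInverseAt_apply_self (x := x0)
      rwa [hpx0] at this
    have hsec : ∀ y ∈ s.source, piM d (s y) = y := fun y hy =>
      hloc.apply_localInverseAt_of_mem hy
    have hsm : ContMDiffOn 𝓘(ℂ, ℂ × ℂ) 𝓘(ℂ, ℂ × ℂ) ω s s.source :=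
      contMDiffOn_section_of_deck hloc hright (deckSmooth_proj XX.contMDiff_vadd) s hsec
    have hW : IsOpen (XX.dom j ∩ XX.T ⁻¹' U1 : Set (XX d)) :=
      (XX.isOpen_dom j).inter (hU1.preimage XX.continuous_T)
    let F : MM d → Fin (8 + 1) → ℂ := fun y => HH j F1 (XX.zc j (s y))
    have hFsm : ∀ y ∈ s.source ∩ s ⁻¹' (XX.dom j ∩ XX.T ⁻¹' U1),
        ContMDiffAt 𝓘(ℂ, ℂ × ℂ) 𝓘(ℂ, Fin (8 + 1) → ℂ) ω F y := by
      rintro y ⟨hy, hyd, hyU⟩
      exact (contMDiffAt_HH hyd hU1 hF1 hyU).comp y (hsm.contMDiffAt (s.open_source.mem_nhds hy))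
    have hy0 : y0 ∈ s.source ∩ s ⁻¹' (XX.dom j ∩ XX.T ⁻¹' U1) :=
      ⟨hsrc, by rw [mem_preimage, hsy]; exact ⟨hdom, hTU⟩⟩
    refine ⟨s.source ∩ s ⁻¹' (XX.dom j ∩ XX.T ⁻¹' U1),
      s.continuousOn.isOpen_inter_preimage s.open_source hW, hy0, F, ?_, ?_, ?_⟩
    · intro y hy
      exact (hFsm y hy).contMDiffWithinAt
    · rintro y ⟨hy, hyd, hyU⟩
      obtain ⟨h0, h1⟩ := hF2 _ hyU
      obtain ⟨h2, h3⟩ := phi0_eq hyd h0 h1
      refine ⟨h2, ?_⟩
      have h4 : φ y = φ (piM d (s y)) := by rw [hsec y hy]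
      rw [h4, hφ]
      exact h3
    · rintro v ⟨c, hc⟩
      have hmd : MDifferentiableAt 𝓘(ℂ, ℂ × ℂ) 𝓘(ℂ, Fin (8 + 1) → ℂ) F y0 :=
        (hFsm y0 hy0).mdifferentiableAt (by simp)
      set c0 : ℂ × ℂ := κ x0 with hc0
      have hc0t : c0 ∈ κ.target := κ.map_source hxκ
      have hκs : κ.symm c0 = x0 := κ.left_inv hxκ
      let Z : ℂ × ℂ → Fin 3 → ℂ := fun c => XX.zc j (κ.symm c)
      have hZc : ContDiffAt ℂ ω Z c0 := hnice.smooth c0 hc0t
      have hZ : HasFDerivAt Z (fderiv ℂ Z c0) c0 := (hZc.differentiableAt (by simp)).hasFDerivAt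
      have hZ0 : Z c0 = XX.zc j x0 := by
        change XX.zc j (κ.symm c0) = _
        rw [hκs]
      have hHH : HasFDerivAt (HH j F1) (dHH j F1 (Z c0)) (Z c0) := by
        apply hasFDerivAt_HH
        rw [hZ0]
        exact (hF1 x0.T hTU).differentiableAt (hU1.mem_nhds hTU)
      have hcomp := hHH.comp c0 hZ
      have hev : (F ∘ (chartAt (ℂ × ℂ) y0).symm) =ᶠ[𝓝 c0] (HH j F1 ∘ Z) := by
        have h1 : ∀ᶠ c in 𝓝 c0, κ.symm c ∈ s.target := by
          apply (κ.continuousAt_symm hc0t).eventually_mem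
          apply s.open_target.mem_nhds
          rw [hκs, ← hsy]
          exact s.map_source hsrc
        filter_upwards [h1] with c hc
        change HH j F1 (XX.zc j (s ((chartAt (ℂ × ℂ) y0).symm c))) = HH j F1 (XX.zc j (κ.symm c))
        have h2 : (chartAt (ℂ × ℂ) y0).symm c = s.symm (κ.symm c) := rfl
        rw [h2, s.right_inv hc]
      have hcc : (chartAt (ℂ × ℂ) y0) y0 = c0 := by
        change κ (s y0) = c0
        rw [hsy]
      have hder : HasFDerivAt (F ∘ (chartAt (ℂ × ℂ) y0).symm)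
          ((dHH j F1 (Z c0)).comp (fderiv ℂ Z c0)) c0 := hcomp.congr_of_eventuallyEq hev
      have hmf : mfderiv 𝓘(ℂ, ℂ × ℂ) 𝓘(ℂ, Fin (8 + 1) → ℂ) F y0 =
          (dHH j F1 (Z c0)).comp (fderiv ℂ Z c0) := by
        rw [hmd.mfderiv]
        have e1 : writtenInExtChartAt 𝓘(ℂ, ℂ × ℂ) 𝓘(ℂ, Fin (8 + 1) → ℂ) y0 F =
            F ∘ (chartAt (ℂ × ℂ) y0).symm := rfl
        have e2 : extChartAt 𝓘(ℂ, ℂ × ℂ) y0 y0 = c0 := hcc
        rw [e1, e2, modelWithCornersSelf_coe, range_id, fderivWithin_univ]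
        exact hder.fderiv
      rw [hmf] at hc
      have hF0 : F y0 = tens (hvec j (Z c0)) (F1 (Z c0 2)) := by
        change HH j F1 (XX.zc j (s y0)) = _
        rw [hsy, ← hZ0]
        rfl
      have hc' : dHH j F1 (Z c0) (fderiv ℂ Z c0 v) = c • F y0 := hc
      rw [dHH_apply, hF0] at hc'
      have hT : Z c0 2 = x0.T := by rw [hZ0]; rfl
      have hw : fderiv ℂ Z c0 v = 0 := by
        refine tens_immersion (j := j) (z := Z c0) ?_ ?_ c hc'
        · rw [hT]
          exact (hF2 x0.T hTU).choose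
        · rw [hT]
          exact hF3
      have hcoord : ∀ c ∈ κ.target, Z c (k + 1) = c.1 ∧ Z c (k + 2) = c.2 := by
        intro c hc
        have h1 := hnice.coe (κ.symm c)
        rw [κ.right_inv hc] at h1
        exact ⟨(congrArg Prod.fst h1).symm, (congrArg Prod.snd h1).symm⟩
      have hpi := hasFDerivAt_pi'.mp hZ
      have k1 : (ContinuousLinearMap.proj (k + 1) : (Fin 3 → ℂ) →L[ℂ] ℂ).comp (fderiv ℂ Z c0) =
          ContinuousLinearMap.fst ℂ ℂ ℂ := by
        apply (hpi (k + 1)).unique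
        apply (ContinuousLinearMap.fst ℂ ℂ ℂ).hasFDerivAt.congr_of_eventuallyEq
        filter_upwards [κ.open_target.mem_nhds hc0t] with c hc
        exact (hcoord c hc).1
      have k2 : (ContinuousLinearMap.proj (k + 2) : (Fin 3 → ℂ) →L[ℂ] ℂ).comp (fderiv ℂ Z c0) =
          ContinuousLinearMap.snd ℂ ℂ ℂ := by
        apply (hpi (k + 2)).unique
        apply (ContinuousLinearMap.snd ℂ ℂ ℂ).hasFDerivAt.congr_of_eventuallyEq
        filter_upwards [κ.open_target.mem_nhds hc0t] with c hc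
        exact (hcoord c hc).2
      have v1 := DFunLike.congr_fun k1 v
      have v2 := DFunLike.congr_fun k2 v
      change fderiv ℂ Z c0 v (k + 1) = Prod.fst (α := ℂ) (β := ℂ) v at v1
      change fderiv ℂ Z c0 v (k + 2) = Prod.snd (α := ℂ) (β := ℂ) v at v2
      rw [hw, Pi.zero_apply] at v1 v2
      exact Prod.ext (α := ℂ) (β := ℂ) v1.symm v2.symm

theorem exists_projectiveEmbedding (d : ThetaData) :
    ∃ (r : ℕ) (φ : MM d → Projectivization ℂ (Fin (r + 1) → ℂ)),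
      IsProjectiveEmbedding (ℂ × ℂ) φ := by
  obtain ⟨r, φ, h⟩ := exists_projectiveEmbeddingMf d
  exact ⟨r, φ, h.toEmbedding⟩

end Pool.Agent.Helper40
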