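import Mathlib
import Pool.Agent.Helper40.Surface

open Set Filter Topology Metric

namespace Pool.Agent.Helper40

/-- A set of points of the plane all of whose points are isolated in it is countable. -/
theorem tx_countable_of_isolated {S : Set ℂ} (h : ∀ z ∈ S, ∀ᶠ z' in 𝓝[≠] z, z' ∉ S) :
    S.Countable := by
  apply (HereditarilyLindelofSpace.isLindelof S).countable
  rw [← isDiscrete_iff_discreteTopology, isDiscrete_iff_nhdsNE]
  intro z hz
  have := h z hz
  rw [inf_principal_eq_bot]
  exact this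

/-- the zero set of a nonzero entire function is countable -/
theorem tx_countable_zeros {f : ℂ → ℂ} (hf : Differentiable ℂ f) {a : ℂ} (hfa : f a ≠ 0) :
    {z | f z = 0}.Countable := by
  apply tx_countable_of_isolated
  intro z hz
  have han : AnalyticOnNhd ℂ f univ := hf.differentiableOn.analyticOnNhd isOpen_univ
  rcases (han z (mem_univ z)).eventually_eq_zero_or_eventually_ne_zero with h | h
  · exact absurd (han.eqOn_zero_of_preconnected_of_eventuallyEq_zero isPreconnected_univ
      (mem_univ z) h (mem_univ a)) hfa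
  · filter_upwards [h] with z' hz' h'
    exact hz' h'

/-- Jacobi's theta function for the Gaussian lattice -/
noncomputable def thG (z : ℂ) : ℂ := jacobiTheta₂ z Complex.I

/-- the factor of automorphy of `thG` -/
noncomputable def epsG (n z : ℂ) : ℂ :=
  Complex.exp (-(Real.pi : ℂ) * Complex.I * (n ^ 2 * Complex.I + 2 * n * z))

theorem thG_diff : Differentiable ℂ thG := fun z =>
  differentiableAt_jacobiTheta₂_fst z (by simp)

theorem epsG_ne (n z : ℂ) : epsG n z ≠ 0 := Complex.exp_ne_zero _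

theorem epsG_diff (n : ℂ) : Differentiable ℂ (epsG n) := by
  unfold epsG
  fun_prop

theorem thG_neg (z : ℂ) : thG (-z) = thG z := jacobiTheta₂_neg_left z _

theorem thG_add_one (z : ℂ) : thG (z + 1) = thG z := jacobiTheta₂_add_left z _

theorem thG_add_int (m : ℤ) (z : ℂ) : thG (z + m) = thG z := by
  induction m using Int.induction_on with
  | zero => simp
  | succ n ih =>
    have : z + ((n + 1 : ℤ) : ℂ) = (z + (n : ℤ)) + 1 := by push_cast; ring
    rw [this, thG_add_one, ih]
  | pred n ih =>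
    have : z + ((-n : ℤ) : ℂ) = (z + ((-n - 1 : ℤ) : ℂ)) + 1 := by push_cast; ring
    rw [this, thG_add_one] at ih
    exact ih

theorem thG_add_I (z : ℂ) : thG (z + Complex.I) = epsG 1 z * thG z := by
  have := jacobiTheta₂_add_left' z Complex.I
  unfold thG epsG
  rw [this]
  congr 2
  ring

theorem thG_add_int_I (n : ℤ) (z : ℂ) : thG (z + n * Complex.I) = epsG n z * thG z := by
  induction n using Int.induction_on with
  | zero => simp [epsG]
  | succ n ih =>
    have h1 : z + ((n + 1 : ℤ) : ℂ) * Complex.I = (z + (n : ℤ) * Complex.I) + Complex.I := by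
      push_cast; ring
    rw [h1, thG_add_I, ih, ← mul_assoc]
    congr 1
    unfold epsG
    rw [← Complex.exp_add]
    congr 1
    push_cast
    ring
  | pred n ih =>
    have h1 : z + ((-n : ℤ) : ℂ) * Complex.I =
        (z + ((-n - 1 : ℤ) : ℂ) * Complex.I) + Complex.I := by push_cast; ring
    rw [h1, thG_add_I] at ih
    have h2 : epsG ((-n : ℤ) : ℂ) z =
        epsG 1 (z + ((-n - 1 : ℤ) : ℂ) * Complex.I) * epsG ((-n - 1 : ℤ) : ℂ) z := by
      unfold epsG
      rw [← Complex.exp_add]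
      congr 1
      push_cast
      ring
    rw [h2, mul_assoc] at ih
    exact mul_left_cancel₀ (epsG_ne _ _) ih

theorem thG_add (m n : ℤ) (z : ℂ) :
    thG (z + (m + n * Complex.I)) = epsG n z * thG z := by
  have : z + ((m : ℂ) + n * Complex.I) = (z + n * Complex.I) + m := by ring
  rw [this, thG_add_int, thG_add_int_I]

theorem thG_zero_ne : thG 0 ≠ 0 := by
  intro h
  have h1 := norm_jacobiTheta_sub_one_le (τ := Complex.I) (by simp)
  rw [jacobiTheta_eq_jacobiTheta₂] at h1
  have h2 : jacobiTheta₂ 0 Complex.I = 0 := h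
  rw [h2, zero_sub, norm_neg, norm_one, Complex.I_im, mul_one] at h1
  have h3 : Real.exp (-Real.pi) < 1 / 3 := by
    rw [Real.exp_neg, inv_eq_one_div, one_div_lt_one_div (Real.exp_pos _) (by norm_num)]
    have := Real.add_one_le_exp Real.pi
    have := Real.pi_gt_three
    linarith
  have h4 : 0 < Real.exp (-Real.pi) := Real.exp_pos _
  have h5 : 2 / (1 - Real.exp (-Real.pi)) * Real.exp (-Real.pi) < 1 := by
    rw [div_mul_eq_mul_div, div_lt_one (by linarith)]
    linarith
  linarith

/-- a zero of theta -/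
noncomputable def tG : ℂ := (1 + Complex.I) / 2

theorem thG_tG : thG tG = 0 := by
  have h1 : thG (-tG + ((1 : ℤ) + (1 : ℤ) * Complex.I)) = epsG ((1 : ℤ) : ℂ) (-tG) * thG (-tG) :=
    thG_add 1 1 (-tG)
  have h2 : -tG + (((1 : ℤ) : ℂ) + ((1 : ℤ) : ℂ) * Complex.I) = tG := by
    unfold tG; push_cast; ring
  have h3 : epsG ((1 : ℤ) : ℂ) (-tG) = -1 := by
    unfold epsG tG
    have : -(Real.pi : ℂ) * Complex.I * (((1 : ℤ) : ℂ) ^ 2 * Complex.I +
        2 * ((1 : ℤ) : ℂ) * (-((1 + Complex.I) / 2))) = Real.pi * Complex.I := by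
      push_cast; ring
    rw [this, Complex.exp_pi_mul_I]
  rw [h2, h3, thG_neg] at h1
  have : (2 : ℂ) * thG tG = 0 := by linear_combination h1
  simpa using this

/-- an entire function with both periods of the Gaussian lattice is constant -/
theorem tx_const_of_periodic {f : ℂ → ℂ} (hf : Differentiable ℂ f)
    (hp : ∀ m n : ℤ, ∀ z, f (z + (m + n * Complex.I)) = f z) (z w : ℂ) : f z = f w := by
  obtain ⟨C, hC⟩ := (isCompact_closedBall (0 : ℂ) 2).exists_bound_of_continuousOn
    hf.continuous.continuousOn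
  refine Differentiable.apply_eq_apply_of_bounded hf ?_ z w
  rw [isBounded_iff_forall_norm_le]
  refine ⟨C, ?_⟩
  rintro _ ⟨u, rfl⟩
  have h := hp (-⌊u.re⌋) (-⌊u.im⌋) u
  rw [← h]
  refine hC _ ?_
  rw [mem_closedBall_zero_iff]
  have hre : (u + (((-⌊u.re⌋ : ℤ) : ℂ) + ((-⌊u.im⌋ : ℤ) : ℂ) * Complex.I)).re = Int.fract u.re := by
    simp [-Int.self_sub_floor, ← sub_eq_add_neg]
    exact Int.self_sub_floor _
  have him : (u + (((-⌊u.re⌋ : ℤ) : ℂ) + ((-⌊u.im⌋ : ℤ) : ℂ) * Complex.I)).im = Int.fract u.im := by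
    simp [-Int.self_sub_floor, ← sub_eq_add_neg]
    exact Int.self_sub_floor _
  calc ‖u + (((-⌊u.re⌋ : ℤ) : ℂ) + ((-⌊u.im⌋ : ℤ) : ℂ) * Complex.I)‖
      ≤ |(u + (((-⌊u.re⌋ : ℤ) : ℂ) + ((-⌊u.im⌋ : ℤ) : ℂ) * Complex.I)).re| +
        |(u + (((-⌊u.re⌋ : ℤ) : ℂ) + ((-⌊u.im⌋ : ℤ) : ℂ) * Complex.I)).im| :=
          Complex.norm_le_abs_re_add_abs_im _
    _ ≤ 1 + 1 := by
        rw [hre, him, abs_of_nonneg (Int.fract_nonneg _), abs_of_nonneg (Int.fract_nonneg _)]
        exact add_le_add (Int.fract_lt_one _).le (Int.fract_lt_one _).le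
    _ = 2 := by norm_num

/-- a shift avoiding the differences of zeros -/
theorem exists_shift : ∃ b : ℂ, ∀ z, thG z = 0 → thG (z - b) ≠ 0 ∧ thG (z + b) ≠ 0 := by
  have hZ : {z | thG z = 0}.Countable := tx_countable_zeros thG_diff thG_zero_ne
  have hZZ : (image2 (fun x y => x - y) {z | thG z = 0} {z | thG z = 0}).Countable :=
    hZ.image2 hZ _
  obtain ⟨b, hb⟩ := (hZZ.dense_compl ℝ).nonempty
  refine ⟨b, fun z hz => ⟨fun h => hb ?_, fun h => hb ?_⟩⟩
  · exact ⟨z, hz, z - b, h, by ring⟩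
  · exact ⟨z + b, h, z, hz, by ring⟩

theorem exists_thetaData : ∃ (lam : Fin 3 → ℂ → ℂ) (θ : ℂ → ℂ) (e : ℂ → ℂ → ℂ) (t₁ : ℂ),
    (∀ i, Differentiable ℂ (lam i)) ∧ Differentiable ℂ θ ∧
    (∀ μ, IsGauss μ → Differentiable ℂ (e μ)) ∧
    (∀ μ, IsGauss μ → ∀ t, e μ t ≠ 0) ∧
    (∀ μ, IsGauss μ → ∀ i t, lam i (t + μ) = e μ t * lam i t) ∧
    (∀ μ, IsGauss μ → ∀ t, θ (t + μ) ^ 2 = e μ t * θ t ^ 2) ∧
    (∀ μ, IsGauss μ → θ (t₁ + μ) = 0) ∧ (∃ t, θ t ≠ 0) ∧
    (∀ i t, lam i t = 0 → deriv (lam i) t ≠ 0) ∧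
    (∀ i j, i ≠ j → ∀ t, ¬ (lam i t = 0 ∧ lam j t = 0)) ∧ (∀ i, ∃ t, lam i t = 0) := by
  classical
  obtain ⟨b, hb⟩ := exists_shift
  set A : ℂ → ℂ := fun z => thG z ^ 2 with hA
  set B : ℂ → ℂ := fun z => thG (z - b) * thG (z + b) with hB
  have hAd : Differentiable ℂ A := thG_diff.pow 2
  have hBd : Differentiable ℂ B :=
    (thG_diff.comp (differentiable_id.sub_const b)).mul
      (thG_diff.comp (differentiable_id.add_const b))
  set e : ℂ → ℂ → ℂ := fun μ t => epsG (μ.im : ℂ) t ^ 2 with he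
  have him : ∀ m n : ℤ, (((m : ℂ) + n * Complex.I).im : ℂ) = n := by
    intro m n; simp
  have hAq : ∀ μ, IsGauss μ → ∀ t, A (t + μ) = e μ t * A t := by
    rintro μ ⟨m, n, rfl⟩ t
    simp only [hA, he, him]
    rw [thG_add]; ring
  have hBq : ∀ μ, IsGauss μ → ∀ t, B (t + μ) = e μ t * B t := by
    rintro μ ⟨m, n, rfl⟩ t
    simp only [hB, he, him]
    have h1 : t + ((m : ℂ) + n * Complex.I) - b = (t - b) + ((m : ℂ) + n * Complex.I) := by ring
    have h2 : t + ((m : ℂ) + n * Complex.I) + b = (t + b) + ((m : ℂ) + n * Complex.I) := by ring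
    rw [h1, h2, thG_add, thG_add]
    have h3 : epsG (n : ℂ) (t - b) * epsG (n : ℂ) (t + b) = epsG (n : ℂ) t ^ 2 := by
      unfold epsG
      rw [← Complex.exp_add, ← Complex.exp_nat_mul]
      congr 1
      push_cast; ring
    rw [← h3]; ring
  have hne : ∀ μ, IsGauss μ → ∀ t, e μ t ≠ 0 := fun μ _ t => pow_ne_zero 2 (epsG_ne _ _)
  have hcommon : ∀ t, A t = 0 → B t ≠ 0 := by
    intro t ht
    have h1 : thG t = 0 := by simpa [hA] using ht
    exact mul_ne_zero (hb t h1).1 (hb t h1).2
  have hA0 : A 0 ≠ 0 := pow_ne_zero 2 thG_zero_ne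
  have hAt : A tG = 0 := by simp [hA, thG_tG]
  have hBt : B tG ≠ 0 := hcommon _ hAt
  -- the Wronskian
  set W : ℂ → ℂ := fun z => deriv A z * B z - A z * deriv B z with hW
  have hWd : Differentiable ℂ W :=
    (hAd.deriv.mul hBd).sub (hAd.mul hBd.deriv)
  have hWne : ∃ a, W a ≠ 0 := by
    by_contra hcon
    push Not at hcon
    -- A / B is locally constant near tG
    have hev : ∀ᶠ z in 𝓝 tG, B z ≠ 0 := hBd.continuous.continuousAt.eventually_ne hBt
    obtain ⟨r, hr, hball⟩ := Metric.eventually_nhds_iff_ball.mp hev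
    have hAz : ∀ z ∈ ball tG r, A z = 0 := by
      intro z hz
      have hd : DifferentiableOn ℂ (fun z => A z / B z) (ball tG r) := fun w hw =>
        ((hAd w).div (hBd w) (hball w hw)).differentiableWithinAt
      have hder : ∀ w ∈ ball tG r, fderivWithin ℂ (fun z => A z / B z) (ball tG r) w = 0 := by
        intro w hw
        rw [fderivWithin_of_isOpen isOpen_ball hw]
        have : HasDerivAt (fun z => A z / B z) ((deriv A w * B w - A w * deriv B w) / B w ^ 2) w :=
          (hAd w).hasDerivAt.div (hBd w).hasDerivAt (hball w hw)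
        have hz : (deriv A w * B w - A w * deriv B w) = 0 := hcon w
        rw [hz, zero_div] at this
        have := this.hasFDerivAt.fderiv
        rw [this]
        ext; simp
      have := (convex_ball tG r).is_const_of_fderivWithin_eq_zero (𝕜 := ℂ) hd hder hz
        (mem_ball_self hr)
      rw [hAt, zero_div, div_eq_zero_iff] at this
      exact this.resolve_right (hball z hz)
    have han : AnalyticOnNhd ℂ A univ := hAd.differentiableOn.analyticOnNhd isOpen_univ
    have := han.eqOn_zero_of_preconnected_of_eventuallyEq_zero isPreconnected_univ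
      (mem_univ tG) (Metric.eventually_nhds_iff_ball.mpr ⟨r, hr, hAz⟩) (mem_univ 0)
    exact hA0 this
  obtain ⟨a, ha⟩ := hWne
  have hWc : {z | W z = 0}.Countable := tx_countable_zeros hWd ha
  set bad : Set ℂ := ((fun t => A t / B t) '' {z | W z = 0}) ∪ {0} with hbad
  have hbadc : bad.Countable := (hWc.image _).union (countable_singleton 0)
  have hinf : (badᶜ).Infinite := by
    intro hfin
    have : (univ : Set ℂ).Countable := by
      rw [← union_compl_self bad]
      exact hbadc.union hfin.countable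
    exact not_countable_complex this
  have : Infinite (badᶜ : Set ℂ) := hinf.to_subtype
  set c : Fin 3 → ℂ := fun i => (Infinite.natEmbedding (badᶜ : Set ℂ) (i : ℕ) : ℂ) with hc
  have hcinj : ∀ i j, i ≠ j → c i ≠ c j := by
    intro i j hij h
    have h1 := Subtype.ext h
    have h2 := (Infinite.natEmbedding (badᶜ : Set ℂ)).injective h1
    exact hij (Fin.ext h2)
  have hcbad : ∀ i, c i ∉ bad := fun i => (Infinite.natEmbedding (badᶜ : Set ℂ) (i : ℕ)).2
  have hc0 : ∀ i, c i ≠ 0 := fun i h => hcbad i (Or.inr h)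
  refine ⟨fun i z => A z - c i * B z, thG, e, tG, ?_, thG_diff, ?_, hne, ?_, hAq, ?_,
    ⟨0, thG_zero_ne⟩, ?_, ?_, ?_⟩
  · intro i
    exact hAd.sub (hBd.const_mul _)
  · intro μ _
    exact (epsG_diff _).pow 2
  · intro μ hμ i t
    show A (t + μ) - c i * B (t + μ) = e μ t * (A t - c i * B t)
    rw [hAq μ hμ, hBq μ hμ]; ring
  · rintro μ ⟨m, n, rfl⟩
    rw [thG_add, thG_tG, mul_zero]
  · intro i t ht hdt
    have h1 : A t = c i * B t := by linear_combination ht
    have h2 : deriv A t = c i * deriv B t := by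
      have : deriv (fun z => A z - c i * B z) t = deriv A t - c i * deriv B t := by
        rw [deriv_fun_sub (hAd t) ((hBd t).const_mul _), deriv_const_mul _ (hBd t)]
      rw [this] at hdt
      linear_combination hdt
    have hB0 : B t ≠ 0 := by
      intro h
      rw [h, mul_zero] at h1
      exact hcommon t h1 h
    have hW0 : W t = 0 := by
      simp only [hW]
      rw [h1, h2]; ring
    refine hcbad i (Or.inl ⟨t, hW0, ?_⟩)
    show A t / B t = c i
    rw [h1, mul_div_assoc, div_self hB0, mul_one]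
  · rintro i j hij t ⟨h1, h2⟩
    have h1' : A t - c i * B t = 0 := h1
    have h2' : A t - c j * B t = 0 := h2
    have h3 : (c i - c j) * B t = 0 := by linear_combination h2' - h1'
    have h4 : B t = 0 := (mul_eq_zero.mp h3).resolve_left (sub_ne_zero.mpr (hcinj i j hij))
    have h5 : A t = 0 := by rw [h4] at h1'; simpa using h1'
    exact hcommon t h5 h4
  · intro i
    by_contra hcon
    push Not at hcon
    have hcon' : ∀ t, A t - c i * B t ≠ 0 := hcon
    have hfd : Differentiable ℂ (fun t => B t / (A t - c i * B t)) := fun t =>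
      (hBd t).div ((hAd.sub (hBd.const_mul _)) t) (hcon' t)
    have hper : ∀ m n : ℤ, ∀ z, (fun t => B t / (A t - c i * B t)) (z + (m + n * Complex.I)) =
        (fun t => B t / (A t - c i * B t)) z := by
      intro m n z
      have hg : IsGauss ((m : ℂ) + n * Complex.I) := ⟨m, n, rfl⟩
      show B (z + _) / (A (z + _) - c i * B (z + _)) = B z / (A z - c i * B z)
      rw [hAq _ hg, hBq _ hg]
      have : e ((m : ℂ) + n * Complex.I) z * A z - c i * (e ((m : ℂ) + n * Complex.I) z * B z) =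
          e ((m : ℂ) + n * Complex.I) z * (A z - c i * B z) := by ring
      rw [this, mul_div_mul_left _ _ (hne _ hg z)]
    have hk := tx_const_of_periodic hfd hper 0 tG
    have hk' : B 0 / (A 0 - c i * B 0) = B tG / (A tG - c i * B tG) := hk
    rw [hAt, zero_sub, div_eq_div_iff (hcon' 0) (by
      simpa using ⟨hc0 i, hBt⟩)] at hk'
    have h6 : A 0 * B tG = 0 := by linear_combination -hk'
    rcases mul_eq_zero.mp h6 with h | h
    · exact hA0 h
    · exact hBt h

theorem nonempty_thetaData : Nonempty ThetaData := by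
  obtain ⟨lam, θ, e, t₁, h1, h2, h3, h4, h5, h6, h7, h8, h9, h10, h11⟩ := exists_thetaData
  exact ⟨⟨lam, θ, e, t₁, h1, h2, h3, h4, h5, h6, h7, h8, h9, h10, h11⟩⟩

end Pool.Agent.Helper40
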