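import Mathlib
import Pool.Agent.Helper40.Forms
import Pool.Agent.Helper40.Quot
open Set Topology Metric Filter MeasureTheory
open scoped Manifold ContDiff ComplexConjugate

namespace Pool.Agent.Helper40

theorem mem_maximalAtlas_of_smooth {E M : Type*} [NormedAddCommGroup E] [NormedSpace ℂ E]
    [TopologicalSpace M] [ChartedSpace E M] [IsManifold 𝓘(ℂ, E) ω M]
    {κ : OpenPartialHomeomorph M E}
    (h1 : ContMDiffOn 𝓘(ℂ, E) 𝓘(ℂ, E) ω κ κ.source)
    (h2 : ContMDiffOn 𝓘(ℂ, E) 𝓘(ℂ, E) ω κ.symm κ.target) :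
    κ ∈ IsManifold.maximalAtlas 𝓘(ℂ, E) ω M := by
  intro e he
  have he' := IsManifold.subset_maximalAtlas (I := 𝓘(ℂ, E)) (n := ω) he
  have e1 := contMDiffOn_of_mem_maximalAtlas he'
  have e2 := contMDiffOn_symm_of_mem_maximalAtlas he'
  have k1 : ContDiffOn ℂ ω (e ∘ κ.symm) (κ.symm.trans e).source := by
    apply ContMDiffOn.contDiffOn
    apply e1.comp (h2.mono _)
    · intro c hc
      rw [OpenPartialHomeomorph.trans_source] at hc
      exact hc.2
    · intro c hc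
      rw [OpenPartialHomeomorph.trans_source] at hc
      exact hc.1
  have k2 : ContDiffOn ℂ ω (κ ∘ e.symm) (e.symm.trans κ).source := by
    apply ContMDiffOn.contDiffOn
    apply h1.comp (e2.mono _)
    · intro c hc
      rw [OpenPartialHomeomorph.trans_source] at hc
      exact hc.2
    · intro c hc
      rw [OpenPartialHomeomorph.trans_source] at hc
      exact hc.1
  have t1 : (κ.symm.trans e).target = (e.symm.trans κ).source := by
    rw [← OpenPartialHomeomorph.symm_source, OpenPartialHomeomorph.trans_symm_eq_symm_trans_symm,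
      OpenPartialHomeomorph.symm_symm]
  have t2 : (e.symm.trans κ).target = (κ.symm.trans e).source := by
    rw [← OpenPartialHomeomorph.symm_source, OpenPartialHomeomorph.trans_symm_eq_symm_trans_symm,
      OpenPartialHomeomorph.symm_symm]
  constructor
  · rw [contDiffGroupoid, mem_groupoid_of_pregroupoid]
    constructor
    · simpa [contDiffPregroupoid] using k1
    · rw [t1]
      simpa [contDiffPregroupoid, OpenPartialHomeomorph.trans_symm_eq_symm_trans_symm] using k2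
  · rw [contDiffGroupoid, mem_groupoid_of_pregroupoid]
    constructor
    · simpa [contDiffPregroupoid] using k2
    · rw [t2]
      simpa [contDiffPregroupoid, OpenPartialHomeomorph.trans_symm_eq_symm_trans_symm] using k1

variable {d : ThetaData}

theorem lam_deriv_shift {μ : ℂ} (hμ : IsGauss μ) (i : Fin 3) (t : ℂ) :
    deriv (d.lam i) (t + μ) = deriv (d.e μ) t * d.lam i t + d.e μ t * deriv (d.lam i) t := by
  have h1 : (fun t => d.lam i (t + μ)) = fun t => d.e μ t * d.lam i t := by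
    ext t; exact d.lam_quasi μ hμ i t
  have h2 : deriv (fun t => d.lam i (t + μ)) t = deriv (d.lam i) (t + μ) :=
    deriv_comp_add_const _ _ _
  rw [← h2, h1]
  exact deriv_fun_mul (d.e_diff μ hμ t) (d.lam_diff i t)

theorem dG_shift {μ : ℂ} (hμ : IsGauss μ) {j : Fin 3} {z z' : Fin 3 → ℂ} (h0 : z' 0 = z 0)
    (h1 : z' 1 = z 1) (h2 : z' 2 = z 2 + μ) (hG : GG d j z = 0) (k : Fin 3) :
    dG d j z' k = d.e μ (z 2) * dG d j z k := by
  simp only [GG] at hG
  fin_cases k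
  · simp [dG, h0, h1, h2, d.lam_quasi μ hμ]
    ring
  · simp [dG, h0, h1, h2, d.lam_quasi μ hμ]
    ring
  · simp [dG, h0, h1, h2, lam_deriv_shift hμ]
    linear_combination deriv (d.e μ) (z 2) * hG

namespace XX

theorem vadd_mem_dom {g : ℤ × ℤ} {x : XX d} {j : Fin 3} : g +ᵥ x ∈ dom j ↔ x ∈ dom j := Iff.rfl

theorem zc_vadd_zero (g : ℤ × ℤ) (x : XX d) (j : Fin 3) : zc j (g +ᵥ x) 0 = zc j x 0 := rfl
theorem zc_vadd_one (g : ℤ × ℤ) (x : XX d) (j : Fin 3) : zc j (g +ᵥ x) 1 = zc j x 1 := rfl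
theorem zc_vadd_two (g : ℤ × ℤ) (x : XX d) (j : Fin 3) :
    zc j (g +ᵥ x) 2 = zc j x 2 + gauss g := rfl

theorem exists_const (g : ℤ × ℤ) (k : Fin 3) :
    ∃ c : ℂ × ℂ, ∀ (j : Fin 3) (x : XX d), (zc j (g +ᵥ x) (k + 1), zc j (g +ᵥ x) (k + 2)) =
      (zc j x (k + 1) + c.1, zc j x (k + 2) + c.2) := by
  fin_cases k
  · refine ⟨(0, gauss g), fun j x => ?_⟩
    change (zc j (g +ᵥ x) 1, zc j (g +ᵥ x) 2) = (zc j x 1 + 0, zc j x 2 + gauss g)
    rw [zc_vadd_one, zc_vadd_two, add_zero]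
  · refine ⟨(gauss g, 0), fun j x => ?_⟩
    change (zc j (g +ᵥ x) 2, zc j (g +ᵥ x) 0) = (zc j x 2 + gauss g, zc j x 0 + 0)
    rw [zc_vadd_zero, zc_vadd_two, add_zero]
  · refine ⟨(0, 0), fun j x => ?_⟩
    change (zc j (g +ᵥ x) 0, zc j (g +ᵥ x) 1) = (zc j x 0 + 0, zc j x 1 + 0)
    rw [zc_vadd_zero, zc_vadd_one, add_zero, add_zero]

theorem dG_vadd {g : ℤ × ℤ} {x : XX d} {j : Fin 3} (hx : x ∈ dom j) (k : Fin 3) :
    dG d j (zc j (g +ᵥ x)) k = d.e (gauss g) x.T * dG d j (zc j x) k :=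
  dG_shift (isGauss_gauss g) (zc_vadd_zero g x j) (zc_vadd_one g x j) (zc_vadd_two g x j)
    (GG_zc hx) k

/-- translated chart -/
noncomputable def shiftChart (g : ℤ × ℤ) (κ : OpenPartialHomeomorph (XX d) (ℂ × ℂ)) :
    OpenPartialHomeomorph (XX d) (ℂ × ℂ) :=
  (Homeomorph.vadd (-g)).transOpenPartialHomeomorph κ

theorem shiftChart_coe (g : ℤ × ℤ) (κ : OpenPartialHomeomorph (XX d) (ℂ × ℂ)) (y : XX d) :
    shiftChart g κ y = κ (-g +ᵥ y) := rfl

theorem mem_shiftChart_source {g : ℤ × ℤ} {κ : OpenPartialHomeomorph (XX d) (ℂ × ℂ)} {y : XX d} :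
    y ∈ (shiftChart g κ).source ↔ -g +ᵥ y ∈ κ.source := Iff.rfl

theorem shiftChart_target (g : ℤ × ℤ) (κ : OpenPartialHomeomorph (XX d) (ℂ × ℂ)) :
    (shiftChart g κ).target = κ.target := rfl

theorem shiftChart_symm_coe (g : ℤ × ℤ) (κ : OpenPartialHomeomorph (XX d) (ℂ × ℂ)) (c : ℂ × ℂ) :
    (shiftChart g κ).symm c = g +ᵥ κ.symm c := by
  change (Homeomorph.vadd (-g)).symm (κ.symm c) = _
  rw [Homeomorph.symm_apply_eq]
  change κ.symm c = -g +ᵥ (g +ᵥ κ.symm c)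
  rw [neg_vadd_vadd]

theorem Nice.shift_mem_maximalAtlas {j k : Fin 3} {κ : OpenPartialHomeomorph (XX d) (ℂ × ℂ)}
    (h : Nice j k κ) (g : ℤ × ℤ) :
    shiftChart g κ ∈ IsManifold.maximalAtlas 𝓘(ℂ, ℂ × ℂ) ω (XX d) := by
  apply mem_maximalAtlas_of_smooth
  · have h1 := contMDiffOn_of_mem_maximalAtlas h.mem_maximalAtlas
    exact h1.comp (contMDiff_vadd (-g)).contMDiffOn (fun y hy => hy)
  · have h1 := contMDiffOn_symm_of_mem_maximalAtlas h.mem_maximalAtlas
    have h2 : ((shiftChart g κ).symm : ℂ × ℂ → XX d) = (fun x => g +ᵥ x) ∘ κ.symm := by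
      ext1 c; exact shiftChart_symm_coe g κ c
    rw [h2]
    exact (contMDiff_vadd g).comp_contMDiffOn h1

end XX

end Pool.Agent.Helper40
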