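import Mathlib
import Pool.Agent.Helper40.FormData
open MeasureTheory Set Metric Real Filter Topology TopologicalSpace
open scoped ENNReal Manifold ContDiff

namespace Pool.Agent.Helper40

theorem exists_linear {E : Type*} [NormedAddCommGroup E] [NormedSpace ℂ E]
    (e : (ℂ × ℂ) ≃L[ℂ] E) {u : E} (hu : u ≠ 0) {δ : ℝ} (hδ : 0 < δ) :
    ∃ L : (ℂ × ℂ) ≃L[ℂ] E, L (1, 0) = u ∧ ‖L (0, 1)‖ ≤ δ := by
  set a := e.symm u with ha
  have ha0 : a ≠ 0 := by
    intro h
    apply hu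
    have := congrArg e h
    simpa [ha] using this
  -- a vector independent from `a`
  obtain ⟨b, hb⟩ : ∃ b : ℂ × ℂ, a.1 * b.2 - a.2 * b.1 ≠ 0 := by
    by_cases h : a.1 = 0
    · have h2 : a.2 ≠ 0 := fun h2 => ha0 (Prod.ext h h2)
      exact ⟨(1, 0), by simpa [h] using h2⟩
    · exact ⟨(0, 1), by simpa using h⟩
  -- scale
  obtain ⟨c, hc, hcb⟩ : ∃ c : ℂ, c ≠ 0 ∧ ‖e (c • b)‖ ≤ δ := by
    refine ⟨((δ / (‖e b‖ + 1) : ℝ) : ℂ), ?_, ?_⟩
    · have : (0:ℝ) < δ / (‖e b‖ + 1) := by positivity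
      exact_mod_cast this.ne'
    · rw [map_smul, norm_smul, Complex.norm_real, Real.norm_of_nonneg (by positivity)]
      rw [div_mul_eq_mul_div, div_le_iff₀ (by positivity)]
      nlinarith [norm_nonneg (e b)]
  set M : (ℂ × ℂ) →ₗ[ℂ] (ℂ × ℂ) :=
    { toFun := fun p => p.1 • a + p.2 • (c • b)
      map_add' := by
        intro p q
        simp only [Prod.fst_add, Prod.snd_add, add_smul]
        abel
      map_smul' := by
        intro t p
        simp only [Prod.smul_fst, Prod.smul_snd, smul_add, smul_smul, RingHom.id_apply,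
          smul_eq_mul, mul_assoc] } with hM
  have hMinj : Function.Injective M := by
    rw [injective_iff_map_eq_zero]
    intro p hp
    have h1 : p.1 * a.1 + p.2 * (c * b.1) = 0 := by
      have := congrArg Prod.fst hp
      simpa [hM] using this
    have h2 : p.1 * a.2 + p.2 * (c * b.2) = 0 := by
      have := congrArg Prod.snd hp
      simpa [hM] using this
    have h3 : p.1 * (a.1 * b.2 - a.2 * b.1) = 0 := by
      linear_combination b.2 * h1 - b.1 * h2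
    have h4 : p.2 * (c * (a.1 * b.2 - a.2 * b.1)) = 0 := by
      linear_combination a.1 * h2 - a.2 * h1
    have h5 : p.1 = 0 := (mul_eq_zero.mp h3).resolve_right hb
    have h6 : p.2 = 0 := (mul_eq_zero.mp h4).resolve_right (mul_ne_zero hc hb)
    exact Prod.ext h5 h6
  refine ⟨(LinearEquiv.ofInjectiveEndo M hMinj).toContinuousLinearEquiv.trans e, ?_, ?_⟩
  · simp [hM, ha]
  · simpa [hM] using hcb

namespace FormData

variable {X : Type*} [TopologicalSpace X] [ChartedSpace (ℂ × ℂ) X] [IsManifold 𝓘(ℂ, ℂ × ℂ) ω X]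
  (D : FormData X)

include D in
theorem not_bimeromorphic [ConnectedSpace X] {E : Type*} [NormedAddCommGroup E] [NormedSpace ℂ E]
    {N : Type*} [TopologicalSpace N] [ChartedSpace E N] (hN : IsComplexManifold E N)
    [CompactSpace N] [ConnectedSpace N] (Ω : Opens N) (hΩ : IsConnected (Ω : Set N))
    (hb : IsBimeromorphic (ℂ × ℂ) X E Ω) : False := by
  obtain ⟨hfd, ht2, hsc, hman⟩ := hN
  have hprop : ProperSpace E := FiniteDimensional.proper ℂ E
  have hlc : LocallyCompactSpace Ω := ChartedSpace.locallyCompactSpace E Ω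
  have hconΩ : ConnectedSpace Ω := isConnected_iff_connectedSpace.mp hΩ
  obtain ⟨bd⟩ := hb.nonempty_bimData
  obtain ⟨e⟩ := bd.nonempty_equiv
  set τ := bd.ext D.T with hτ
  have hτc : Continuous τ := bd.continuous_ext D.T_smooth
  have hne : (Ω : Set N) ≠ univ := by
    intro h
    apply bd.not_compact D.T_smooth.continuous D.T_unbounded
    have hc : IsCompact (Ω : Set N) := by
      rw [h]
      exact isCompact_univ
    exact isCompact_iff_compactSpace.mp hc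
  obtain ⟨x₀, hx₀c, hx₀⟩ : ∃ x, x ∈ closure (Ω : Set N) ∧ x ∉ Ω := by
    by_contra hcon
    push Not at hcon
    have hclopen : IsClopen (Ω : Set N) := ⟨isClosed_of_closure_subset hcon, Ω.isOpen⟩
    rcases isClopen_iff.mp hclopen with h | h
    · exact hΩ.nonempty.ne_empty h
    · exact hne h
  obtain ⟨V, hVo, hxV, hqV, hqV0, hτV⟩ := exists_recipExt_nhds hτc
    (fun C => bd.ext_compact D.T_smooth D.T_proper C) hx₀
  -- chart
  set φ := chartAt E x₀ with hφ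
  set v := φ x₀ with hv
  have hvt : v ∈ φ.target := mem_chart_target E x₀
  have hvs : φ.symm v = x₀ := φ.left_inv (mem_chart_source E x₀)
  obtain ⟨R, hR, hRt, hRV⟩ : ∃ R > 0, ball v R ⊆ φ.target ∧ ∀ z ∈ ball v R, φ.symm z ∈ V := by
    have h1 : φ.target ∩ φ.symm ⁻¹' V ∈ 𝓝 v := by
      refine inter_mem (φ.open_target.mem_nhds hvt) ?_
      apply (φ.symm.continuousAt hvt).preimage_mem_nhds
      rw [hvs]
      exact hVo.mem_nhds hxV
    obtain ⟨R, hR, h⟩ := Metric.mem_nhds_iff.mp h1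
    exact ⟨R, hR, fun z hz => (h hz).1, fun z hz => (h hz).2⟩
  -- a good point
  have hR4 : 0 < R / 4 := by positivity
  have hsub4 : ball v (R / 4) ⊆ ball v R := ball_subset_ball (by linarith)
  have himo : IsOpen (φ.symm '' ball v (R / 4)) :=
    φ.symm.isOpen_image_of_subset_source isOpen_ball (hsub4.trans hRt)
  have hxim : x₀ ∈ φ.symm '' ball v (R / 4) := ⟨v, mem_ball_self hR4, hvs⟩
  obtain ⟨y₁, hy₁U, hy₁B, hy₁A, hy₁F⟩ := bd.exists_good (F := fun x => D.f₀ (D.T x))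
    ((D.f₀_diff.contDiff.contMDiff).comp D.T_smooth) D.f₀_ne
    (U := Subtype.val ⁻¹' (φ.symm '' ball v (R / 4))) (himo.preimage continuous_subtype_val) (by
      obtain ⟨y, hy1, hy2⟩ := mem_closure_iff.mp hx₀c _ himo hxim
      exact ⟨⟨y, hy2⟩, hy1⟩)
  obtain ⟨w₁, hw₁, hw₁y⟩ := hy₁U
  set u := w₁ - v with hu
  have hu0 : u ≠ 0 := by
    intro h
    rw [hu, sub_eq_zero] at h
    rw [h, hvs] at hw₁y
    apply hx₀
    rw [hw₁y]
    exact y₁.2
  have hunorm : ‖u‖ < R / 4 := by rwa [mem_ball_iff_norm] at hw₁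
  obtain ⟨L, hL1, hL2⟩ := exists_linear e hu0 hR4
  -- the polydisc
  set P : Set (ℂ × ℂ) := ball (0:ℂ) 2 ×ˢ ball (0:ℂ) 2 with hP
  have hPo : IsOpen P := isOpen_ball.prod isOpen_ball
  set s : ℂ × ℂ → N := fun p => φ.symm (v + L p) with hs
  have hLball : ∀ p ∈ P, v + L p ∈ ball v R := by
    rintro ⟨a, b⟩ ⟨ha, hb⟩
    rw [mem_ball_zero_iff] at ha hb
    simp only at ha hb
    rw [mem_ball_iff_norm, add_sub_cancel_left]
    have h1 : L (a, b) = a • L (1, 0) + b • L (0, 1) := by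
      rw [← map_smul, ← map_smul, ← map_add]
      simp
    rw [h1, hL1]
    calc ‖a • u + b • L (0, 1)‖ ≤ ‖a‖ * ‖u‖ + ‖b‖ * ‖L (0, 1)‖ := by
          rw [← norm_smul, ← norm_smul]
          exact norm_add_le _ _
      _ ≤ ‖a‖ * (R / 4) + 2 * (R / 4) := by gcongr
      _ < 2 * (R / 4) + 2 * (R / 4) := by gcongr
      _ = R := by ring
  have hsV : ∀ p ∈ P, s p ∈ V := fun p hp => hRV _ (hLball p hp)
  have hLc : Continuous fun p : ℂ × ℂ => v + L p := by fun_prop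
  have hss : ∀ p ∈ P, ContMDiffAt 𝓘(ℂ, ℂ × ℂ) 𝓘(ℂ, E) ω s p := by
    intro p hp
    have h1 : ContMDiffAt 𝓘(ℂ, E) 𝓘(ℂ, E) ω φ.symm (v + L p) :=
      (contMDiffOn_chart_symm (v + L p) (hRt (hLball p hp))).contMDiffAt
        (φ.open_target.mem_nhds (hRt (hLball p hp)))
    have h2 : ContMDiffAt 𝓘(ℂ, ℂ × ℂ) 𝓘(ℂ, E) ω (fun p : ℂ × ℂ => v + L p) p := by
      apply ContDiffAt.contMDiffAt
      exact contDiffAt_const.add L.contDiff.contDiffAt
    exact h1.comp p h2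
  have hsinj : InjOn s P := by
    intro p hp p' hp' h
    have h1 := φ.symm.injOn (hRt (hLball p hp)) (hRt (hLball p' hp')) h
    exact L.injective (add_left_cancel h1)
  have hsopen : ∀ U ⊆ P, IsOpen U → IsOpen (s '' U) := by
    intro U hU hUo
    have h1 : s '' U = φ.symm '' ((fun p => v + L p) '' U) := by
      rw [image_image]
    rw [h1]
    apply φ.symm.isOpen_image_of_subset_source
    · have h2 : IsOpenMap (fun p : ℂ × ℂ => v + L p) :=
        ((Homeomorph.addLeft v).isOpenMap).comp L.toHomeomorph.isOpenMap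
      exact h2 U hUo
    · rintro _ ⟨p, hp, rfl⟩
      exact hRt (hLball p (hU hp))
  set O : Set (ℂ × ℂ) := P ∩ s ⁻¹' Ω with hO
  have hscP : ContinuousOn s P := fun p hp => (hss p hp).continuousAt.continuousWithinAt
  have hOo : IsOpen O := hscP.isOpen_inter_preimage hPo Ω.isOpen
  classical
  set sΩ : ℂ × ℂ → Ω := fun p => if h : s p ∈ Ω then ⟨s p, h⟩ else y₁ with hsΩ
  have hval : ∀ p, s p ∈ Ω → (sΩ p : N) = s p := by
    intro p hp
    simp only [hsΩ, dif_pos hp]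
  have hsΩs : ∀ p ∈ O, ContMDiffAt 𝓘(ℂ, ℂ × ℂ) 𝓘(ℂ, E) ω sΩ p := by
    intro p hp
    have h1 : Subtype.val ∘ sΩ =ᶠ[𝓝 p] s := by
      filter_upwards [hOo.mem_nhds hp] with p' hp'
      exact hval p' hp'.2
    have h2 : ContMDiffAt 𝓘(ℂ, ℂ × ℂ) 𝓘(ℂ, E) ω (Subtype.val ∘ sΩ) p :=
      (hss p hp.1).congr_of_eventuallyEq h1
    exact (ChartedSpace.liftPropWithinAt_subtypeVal_comp_iff ..).mp h2
  have hsΩc : ContinuousOn sΩ O := fun p hp => (hsΩs p hp).continuousAt.continuousWithinAt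
  have hsΩinj : InjOn sΩ O := by
    intro p hp p' hp' h
    apply hsinj hp.1 hp'.1
    rw [← hval p hp.2, ← hval p' hp'.2, h]
  have hsΩopen : ∀ U ⊆ O, IsOpen U → IsOpen (sΩ '' U) := by
    intro U hU hUo
    have h1 : sΩ '' U = Subtype.val ⁻¹' (s '' U) := by
      ext y
      constructor
      · rintro ⟨p, hp, rfl⟩
        exact ⟨p, hp, (hval p (hU hp).2).symm⟩
      · rintro ⟨p, hp, h⟩
        refine ⟨p, hp, Subtype.ext ?_⟩
        rw [hval p (hU hp).2, h]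
    rw [h1]
    exact (hsopen U (hU.trans inter_subset_left) hUo).preimage continuous_subtype_val
  set S : Set (ℂ × ℂ) := sΩ ⁻¹' bd.B with hS
  set G : ℂ × ℂ → X := fun p => bd.g (sΩ p) with hG
  set R' : Set (ℂ × ℂ) := sΩ ⁻¹' (bd.g ⁻¹' bd.A) with hR'
  have hOSo : IsOpen (O \ S) :=
    hsΩc.isOpen_inter_preimage hOo bd.isClosed_B.isOpen_compl
  have hGs : ∀ p ∈ O \ S, ContMDiffAt 𝓘(ℂ, ℂ × ℂ) 𝓘(ℂ, ℂ × ℂ) ω G p := by
    intro p hp
    exact (bd.g_smoothAt hp.2).comp p (hsΩs p hp.1)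
  have hthinS : IsThin O S := isThin_preimage (bd.hB.analyticIn univ)
    (by rw [bd.hBint, inter_empty]) hOo (fun _ _ => mem_univ _) hsΩs hsΩopen
  have hthinR : IsThin (O \ S) R' := isThin_preimage
    (bd.hA.analyticIn_preimage bd.isClosed_B.isOpen_compl bd.g_smooth)
    bd.interior_preimage_A hOSo (fun p hp => hp.2) (fun p hp => hsΩs p hp.1)
    (fun U hU => hsΩopen U (hU.trans sdiff_subset))
  have hGc : ContinuousOn G (O \ S) := fun p hp => (hGs p hp).continuousAt.continuousWithinAt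
  have hRm : MeasurableSet ((O \ S) ∩ R') := by
    have h1 : IsOpen ((O \ S) ∩ G ⁻¹' bd.Aᶜ) :=
      hGc.isOpen_inter_preimage hOSo bd.isClosed_A.isOpen_compl
    have h2 : (O \ S) ∩ R' = (O \ S) \ ((O \ S) ∩ G ⁻¹' bd.Aᶜ) := by
      ext p
      constructor
      · rintro ⟨h3, h4⟩
        exact ⟨h3, fun h5 => h5.2 h4⟩
      · rintro ⟨h3, h4⟩
        refine ⟨h3, ?_⟩
        by_contra h5
        exact h4 ⟨h3, h5⟩
    rw [h2]
    exact hOSo.measurableSet.diff h1.measurableSet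
  have hR0 : volume ((O \ S) ∩ R') = 0 := hthinR.measure_zero hRm
  have hGinj : InjOn G ((O \ S) \ R') := by
    intro p hp p' hp' h
    apply hsΩinj hp.1.1 hp'.1.1
    rw [← bd.gX_g hp.1.2 hp.2, ← bd.gX_g hp'.1.2 hp'.2]
    exact congrArg bd.gX h
  have hTne : ∀ p ∈ O \ S, D.T (G p) ≠ 0 := by
    intro p hp
    have h1 := hτV (sΩ p) (by rw [hval p hp.1.2]; exact hsV p hp.1.1)
    rwa [hτ, bd.ext_eq D.T_smooth hp.2] at h1
  have hqeq : ∀ p ∈ O \ S, recipExt Ω τ (s p) = (D.T (G p))⁻¹ := by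
    intro p hp
    rw [← hval p hp.1.2, recipExt_val, hτ, bd.ext_eq D.T_smooth hp.2]
  have hs0 : s (0, 0) = x₀ := by
    simp only [hs]
    rw [← hvs]
    congr 1
    have : ((0:ℂ), (0:ℂ)) = 0 := rfl
    rw [this, map_zero, add_zero]
  have hs1 : s (1, 0) = y₁ := by
    simp only [hs]
    rw [hL1, ← hw₁y, hu]
    congr 1
    abel
  have h1P : ((1:ℂ), (0:ℂ)) ∈ P := ⟨by simp, by simp⟩
  have h1O : ((1:ℂ), (0:ℂ)) ∈ O := ⟨h1P, by
    change s (1, 0) ∈ Ω
    rw [hs1]; exact y₁.2⟩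
  have hsΩ1 : sΩ (1, 0) = y₁ := Subtype.ext (by rw [hval _ h1O.2, hs1])
  have h1OS : ((1:ℂ), (0:ℂ)) ∈ O \ S := ⟨h1O, by
    change sΩ (1, 0) ∉ bd.B
    rw [hsΩ1]; exact hy₁B⟩
  refine core (r := 2) (by norm_num) (O := O) (S := S) (q := fun p => recipExt Ω τ (s p))
    (h := D.coef D.f₀ G) (hl := fun n => D.coef (D.f n) G) (lam := D.lam) (z₁ := 1)
    hOo inter_subset_left (hqV.comp hscP hsV) ?_ hthinS hOSo ?_
    (D.coef_differentiableOn D.f₀_diff hOSo hGs)
    (D.lintegral_coef_ne_top D.L2₀ hOSo hGs hGinj hRm hR0)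
    (fun n => D.coef_differentiableOn (D.f_diff n) hOSo hGs)
    (fun n => D.lintegral_coef_ne_top (D.L2 n) hOSo hGs hGinj hRm hR0) ?_ D.lam_tendsto ?_
    h1OS ?_
  · intro p hp
    rw [hqV0 (s p) (hsV p hp)]
    exact ⟨fun h => ⟨hp, h⟩, fun h => h.2⟩
  · intro p hp
    have h1 : DifferentiableAt ℂ (fun p => (D.T (G p))⁻¹) p := by
      have := (D.T_smooth.contMDiffAt (x := G p)).comp p (hGs p hp)
      exact (this.contDiffAt.differentiableAt (by simp)).inv (hTne p hp)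
    apply DifferentiableAt.differentiableWithinAt
    apply h1.congr_of_eventuallyEq
    filter_upwards [hOSo.mem_nhds hp] with p' hp'
    exact hqeq p' hp'
  · intro n p hp
    rw [hqeq p hp, coef, coef, D.rel n]
    have := hTne p hp
    field_simp
  · rw [hs0, recipExt_of_notMem τ hx₀]
  · set p₁ : ℂ × ℂ := (1, 0) with hp₁
    set i := D.idx (G p₁) with hi
    have hsrc : G p₁ ∈ (D.κ i).source := D.idx_spec _
    have hGA : G p₁ ∉ bd.A := by
      change bd.g (sΩ p₁) ∉ bd.A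
      rw [hsΩ1]; exact hy₁A
    have hgX1 : bd.gX (G p₁) = sΩ p₁ := bd.gX_g h1OS.2 hGA
    set J : ℂ × ℂ → ℂ × ℂ := fun c => L.symm (φ (bd.gX ((D.κ i).symm c) : N) - v) with hJ
    have hev : J ∘ (D.κ i ∘ G) =ᶠ[𝓝 p₁] id := by
      have hGp : ContinuousAt G p₁ := (hGs p₁ h1OS).continuousAt
      filter_upwards [hOSo.mem_nhds h1OS,
        hGp.preimage_mem_nhds (bd.isClosed_A.isOpen_compl.mem_nhds hGA),
        hGp.preimage_mem_nhds ((D.κ i).open_source.mem_nhds hsrc)] with p h1 h2 h3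
      simp only [Function.comp, hJ, id]
      rw [(D.κ i).left_inv h3, bd.gX_g h1.2 h2, hval p h1.1.2]
      simp only [hs]
      rw [φ.right_inv (hRt (hLball p h1.1.1)), add_sub_cancel_left, L.symm_apply_apply]
    have hKd : DifferentiableAt ℂ (D.κ i ∘ G) p₁ :=
      (D.κ_comp_contDiffAt (hGs p₁ h1OS) hsrc).differentiableAt (by simp)
    have hJd : DifferentiableAt ℂ J ((D.κ i ∘ G) p₁) := by
      have a1 : ContMDiffAt 𝓘(ℂ, ℂ × ℂ) 𝓘(ℂ, ℂ × ℂ) ω (D.κ i).symm ((D.κ i ∘ G) p₁) :=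
        contMDiffAt_symm_of_mem_maximalAtlas (D.κ_mem i) ((D.κ i).map_source hsrc)
      have e1 : (D.κ i).symm ((D.κ i ∘ G) p₁) = G p₁ := (D.κ i).left_inv hsrc
      have a2 : ContMDiffAt 𝓘(ℂ, ℂ × ℂ) 𝓘(ℂ, E) ω bd.gX ((D.κ i).symm ((D.κ i ∘ G) p₁)) := by
        rw [e1]; exact bd.gX_smoothAt hGA
      have a3 := a2.comp ((D.κ i ∘ G) p₁) a1
      have a4 : ContMDiffAt 𝓘(ℂ, E) 𝓘(ℂ, E) ω (Subtype.val : Ω → N)
          ((bd.gX ∘ (D.κ i).symm) ((D.κ i ∘ G) p₁)) := contMDiff_subtype_val _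
      have a5 := a4.comp ((D.κ i ∘ G) p₁) a3
      have e2 : (Subtype.val ∘ bd.gX ∘ (D.κ i).symm) ((D.κ i ∘ G) p₁) = s p₁ := by
        simp only [Function.comp] at e1 ⊢
        rw [e1, hgX1, hval p₁ h1O.2]
      have a6 : ContMDiffAt 𝓘(ℂ, E) 𝓘(ℂ, E) ω φ
          ((Subtype.val ∘ bd.gX ∘ (D.κ i).symm) ((D.κ i ∘ G) p₁)) := by
        rw [e2]
        have : s p₁ ∈ φ.source := φ.map_target (hRt (hLball p₁ h1P))
        exact (contMDiffOn_chart (s p₁) this).contMDiffAt (φ.open_source.mem_nhds this)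
      have a7 := (a6.comp ((D.κ i ∘ G) p₁) a5).contDiffAt.differentiableAt (by simp)
      exact L.symm.differentiableAt.comp _ (a7.sub_const v)
    have hcomp := fderiv_comp p₁ hJd hKd
    rw [hev.fderiv_eq, fderiv_id] at hcomp
    have hdet : (fderiv ℂ (D.κ i ∘ G) p₁).det ≠ 0 := by
      intro h0
      have h1 : ((fderiv ℂ J ((D.κ i ∘ G) p₁)).comp (fderiv ℂ (D.κ i ∘ G) p₁)).det =
          (fderiv ℂ J ((D.κ i ∘ G) p₁)).det * (fderiv ℂ (D.κ i ∘ G) p₁).det :=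
        LinearMap.det_comp _ _
      rw [← hcomp, h0, mul_zero] at h1
      have h2 : (ContinuousLinearMap.id ℂ (ℂ × ℂ)).det = 1 := LinearMap.det_id
      rw [h2] at h1
      exact one_ne_zero h1
    have hTf : D.f₀ (D.T (G p₁)) ≠ 0 := by
      change D.f₀ (D.T (bd.g (sΩ p₁))) ≠ 0
      rw [hsΩ1]; exact hy₁F
    exact mul_ne_zero (mul_ne_zero hTf (D.β_ne i _ hsrc)) hdet

end FormData

end Pool.Agent.Helper40
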