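import Mathlib
import Pool.Agent.Helper40.ShiftCharts
import Pool.Agent.Helper40.Transfer
open Set Topology Metric Filter MeasureTheory
open scoped Manifold ContDiff ComplexConjugate ENNReal

namespace Pool.Agent.Helper40

variable {d : ThetaData}

/-! ### the theta quotients -/

/-- `θ / (t - t₁)` -/
noncomputable def phi1 (d : ThetaData) : ℂ → ℂ := dslope d.θ d.t₁

theorem differentiable_dslope {f : ℂ → ℂ} (hf : Differentiable ℂ f) (c : ℂ) :
    Differentiable ℂ (dslope f c) := by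
  rw [← differentiableOn_univ]
  exact (Complex.differentiableOn_dslope univ_mem).mpr hf.differentiableOn

theorem phi1_diff : Differentiable ℂ (phi1 d) := differentiable_dslope d.θ_diff _

theorem θ_t₁ : d.θ d.t₁ = 0 := by
  have := d.θ_zero 0 ⟨0, 0, by simp⟩
  simpa using this

theorem phi1_mul (t : ℂ) : (t - d.t₁) * phi1 d t = d.θ t := by
  have := sub_smul_dslope d.θ d.t₁ t
  rw [θ_t₁, sub_zero, smul_eq_mul] at this
  exact this

/-- the zeros used in the argument -/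
noncomputable def lamSeq (d : ThetaData) (n : ℕ) : ℂ := d.t₁ + (n + 1 : ℕ)

theorem lamSeq_ne (n : ℕ) : lamSeq d n ≠ d.t₁ := by
  intro h
  have : ((n + 1 : ℕ) : ℂ) = 0 := by
    unfold lamSeq at h
    linear_combination h
  exact Nat.succ_ne_zero n (by exact_mod_cast this)

theorem phi1_lamSeq (n : ℕ) : phi1 d (lamSeq d n) = 0 := by
  have h1 : d.θ (lamSeq d n) = 0 := d.θ_zero _ ⟨n + 1, 0, by push_cast; ring⟩
  have h2 := phi1_mul (d := d) (lamSeq d n)
  rw [h1] at h2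
  exact (mul_eq_zero.mp h2).resolve_left (sub_ne_zero.mpr (lamSeq_ne n))

/-- the functions multiplying the form -/
noncomputable def ff0 (d : ThetaData) (t : ℂ) : ℂ := phi1 d t ^ 2
/-- the functions multiplying the form -/
noncomputable def ffn (d : ThetaData) (n : ℕ) (t : ℂ) : ℂ :=
  phi1 d t * dslope (phi1 d) (lamSeq d n) t

theorem ff0_diff : Differentiable ℂ (ff0 d) := phi1_diff.pow 2
theorem ffn_diff (n : ℕ) : Differentiable ℂ (ffn d n) :=
  phi1_diff.mul (differentiable_dslope phi1_diff _)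

theorem ff_rel (n : ℕ) (t : ℂ) : ff0 d t = (t - lamSeq d n) * ffn d n t := by
  have := sub_smul_dslope (phi1 d) (lamSeq d n) t
  rw [phi1_lamSeq, sub_zero, smul_eq_mul] at this
  unfold ff0 ffn
  linear_combination -(phi1 d t) * this

theorem lamSeq_tendsto : Tendsto (fun n => ‖lamSeq d n‖) atTop atTop := by
  have h1 : Tendsto (fun n : ℕ => (n : ℝ) + 1 - ‖d.t₁‖) atTop atTop := by
    apply tendsto_atTop_add_const_right
    exact tendsto_atTop_add_const_right _ _ tendsto_natCast_atTop_atTop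
  apply tendsto_atTop_mono _ h1
  intro n
  have h2 : ‖((n + 1 : ℕ) : ℂ)‖ = (n : ℝ) + 1 := by
    rw [Complex.norm_natCast]; push_cast; ring
  have h3 : ((n + 1 : ℕ) : ℂ) = lamSeq d n - d.t₁ := by unfold lamSeq; ring
  have h4 : ‖((n + 1 : ℕ) : ℂ)‖ ≤ ‖lamSeq d n‖ + ‖d.t₁‖ := by
    rw [h3]; exact norm_sub_le _ _
  linarith

/-- growth condition -/
def GrowthOK (d : ThetaData) (f : ℂ → ℂ) : Prop :=
  ∃ C R : ℝ, 0 ≤ C ∧ ∀ t : ℂ, R ≤ ‖t‖ → ‖f t‖ * ‖t‖ ^ 2 ≤ C * ‖d.θ t‖ ^ 2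

theorem growth0 : GrowthOK d (ff0 d) := by
  refine ⟨4, 2 * ‖d.t₁‖ + 1, by norm_num, fun t ht => ?_⟩
  have h1 : ‖t‖ ≤ 2 * ‖t - d.t₁‖ := by
    have : ‖t‖ - ‖d.t₁‖ ≤ ‖t - d.t₁‖ := norm_sub_norm_le _ _
    linarith [norm_nonneg d.t₁]
  rw [← phi1_mul (d := d) t, ff0, norm_pow, norm_mul]
  calc ‖phi1 d t‖ ^ 2 * ‖t‖ ^ 2 ≤ ‖phi1 d t‖ ^ 2 * (2 * ‖t - d.t₁‖) ^ 2 := by gcongr
    _ = 4 * (‖t - d.t₁‖ * ‖phi1 d t‖) ^ 2 := by ring

theorem growthn (n : ℕ) : GrowthOK d (ffn d n) := by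
  obtain ⟨C, R, hC, h⟩ := growth0 (d := d)
  refine ⟨C, max R (‖lamSeq d n‖ + 1), hC, fun t ht => ?_⟩
  have h1 : R ≤ ‖t‖ := (le_max_left _ _).trans ht
  have h2 : ‖lamSeq d n‖ + 1 ≤ ‖t‖ := (le_max_right _ _).trans ht
  have h3 : 1 ≤ ‖t - lamSeq d n‖ := by
    have : ‖t‖ - ‖lamSeq d n‖ ≤ ‖t - lamSeq d n‖ := norm_sub_norm_le _ _
    linarith
  refine le_trans ?_ (h t h1)
  rw [ff_rel n t, norm_mul]
  have : 0 ≤ ‖ffn d n t‖ := norm_nonneg _
  nlinarith [sq_nonneg ‖t‖, mul_nonneg (mul_nonneg (sub_nonneg.mpr h3) this) (sq_nonneg ‖t‖)]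

/-! ### nonempty fibres -/

theorem exists_solution (d : ThetaData) (t : ℂ) :
    ∃ v : Fin 3 → ℂ, v ≠ 0 ∧ ∑ i, d.lam i t * v i ^ 3 = 0 := by
  by_cases h1 : d.lam 1 t = 0
  · refine ⟨![0, 1, 0], ?_, ?_⟩
    · intro h
      have := congrFun h 1
      simp at this
    · simp [Fin.sum_univ_three, h1]
  · obtain ⟨a, ha⟩ := IsAlgClosed.exists_pow_nat_eq (-d.lam 2 t) (n := 3) (by norm_num)
    obtain ⟨b, hb⟩ := IsAlgClosed.exists_pow_nat_eq (d.lam 1 t) (n := 3) (by norm_num)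
    refine ⟨![0, a, b], ?_, ?_⟩
    · intro h
      have : b = 0 := by
        have := congrFun h 2
        simpa using this
      rw [this] at hb
      apply h1
      rw [← hb]; ring
    · simp [Fin.sum_univ_three, ha, hb]
      ring

theorem exists_fibre (d : ThetaData) (t : ℂ) : ∃ x : XX d, x.T = t := by
  obtain ⟨v, hv, h⟩ := exists_solution d t
  exact ⟨XX.mk v hv t h, rfl⟩

theorem ff0_ne (d : ThetaData) : ∃ x : XX d, ff0 d x.T ≠ 0 := by
  obtain ⟨t, ht⟩ := d.θ_ne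
  obtain ⟨x, hx⟩ := exists_fibre d t
  refine ⟨x, ?_⟩
  rw [hx, ff0]
  have := phi1_mul (d := d) t
  intro h
  rw [pow_eq_zero_iff two_ne_zero] at h
  rw [h, mul_zero] at this
  exact ht this.symm

/-! ### summation -/

theorem tsum_ne_top_of_bound {α : Type*} {c : α → ℝ≥0∞} {b : α → ℝ} (hb : Summable b)
    (hb0 : ∀ a, 0 ≤ b a) {S : Set α} (hS : S.Finite) (h1 : ∀ a ∈ S, c a ≠ ⊤)
    (h2 : ∀ a ∉ S, c a ≤ ENNReal.ofReal (b a)) : ∑' a, c a ≠ ⊤ := by
  classical
  set b' : α → ℝ := fun a => b a + S.indicator (fun a => (c a).toReal) a with hb'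
  have hs : Summable b' := by
    apply hb.add
    apply summable_of_hasFiniteSupport
    exact hS.subset (by
      intro a ha
      by_contra hcon
      apply ha
      simp [indicator, hcon])
  have hle : ∀ a, c a ≤ ENNReal.ofReal (b' a) := by
    intro a
    by_cases ha : a ∈ S
    · have h3 : c a = ENNReal.ofReal ((c a).toReal) := (ENNReal.ofReal_toReal (h1 a ha)).symm
      rw [h3]
      apply ENNReal.ofReal_le_ofReal
      simp only [hb', indicator, ha, if_true]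
      linarith [hb0 a]
    · refine (h2 a ha).trans ?_
      apply ENNReal.ofReal_le_ofReal
      simp [hb', indicator, ha]
  exact ne_top_of_le_ne_top hs.tsum_ofReal_ne_top (ENNReal.tsum_le_tsum hle)

theorem norm_gauss_sq (g : ℤ × ℤ) : ‖gauss g‖ ^ 2 = (g.1 : ℝ) ^ 2 + (g.2 : ℝ) ^ 2 := by
  rw [← Complex.normSq_eq_norm_sq, Complex.normSq_apply]
  simp [gauss]
  ring

theorem summable_gauss : Summable (fun g : ℤ × ℤ => ((‖gauss g‖ ^ 4)⁻¹ : ℝ)) := by
  have h1 : Summable (fun n : ℤ => ((1 + (n : ℝ) ^ 2)⁻¹ : ℝ)) := by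
    have h2 : Summable (fun n : ℤ => (((n : ℝ) ^ 2)⁻¹ : ℝ)) := by
      have := (Real.summable_one_div_int_pow (p := 2)).mpr (by norm_num)
      simpa using this
    have h3 : Summable (fun n : ℤ => (((n : ℝ) ^ 2)⁻¹ + (if n = 0 then 1 else 0) : ℝ)) := by
      apply h2.add
      apply summable_of_hasFiniteSupport
      exact (Set.finite_singleton (0:ℤ)).subset (by
        intro a ha
        by_contra hcon
        apply ha
        have : a ≠ 0 := hcon
        simp [this])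
    apply Summable.of_nonneg_of_le (fun n => by positivity) (fun n => ?_) h3
    by_cases hn : n = 0
    · simp [hn]
    · have hn' : (n : ℝ) ≠ 0 := by exact_mod_cast hn
      simp only [hn, if_false, add_zero]
      have : (0:ℝ) < (n : ℝ) ^ 2 := by positivity
      apply inv_anti₀ this
      linarith
  have h4 : Summable (fun g : ℤ × ℤ => ((1 + (g.1 : ℝ) ^ 2)⁻¹ * (1 + (g.2 : ℝ) ^ 2)⁻¹ : ℝ)) :=
    h1.mul_of_nonneg h1 (fun n => by positivity) (fun n => by positivity)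
  apply Summable.of_nonneg_of_le (fun g => by positivity) (fun g => ?_) (h4.mul_left 4)
  have h5 : ‖gauss g‖ ^ 4 = ((g.1 : ℝ) ^ 2 + (g.2 : ℝ) ^ 2) ^ 2 := by
    rw [← norm_gauss_sq]; ring
  rw [h5]
  by_cases hg : g = 0
  · simp [hg]
  · have hs : (1:ℝ) ≤ (g.1 : ℝ) ^ 2 + (g.2 : ℝ) ^ 2 := by
      have : g.1 ≠ 0 ∨ g.2 ≠ 0 := by
        by_contra hcon
        push Not at hcon
        exact hg (Prod.ext hcon.1 hcon.2)
      have h6 : (1:ℤ) ≤ g.1 ^ 2 + g.2 ^ 2 := by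
        rcases this with h | h
        · have : 0 < g.1 ^ 2 := by positivity
          nlinarith [sq_nonneg g.2]
        · have : 0 < g.2 ^ 2 := by positivity
          nlinarith [sq_nonneg g.1]
      exact_mod_cast h6
    rw [← mul_inv, ← div_eq_mul_inv, inv_eq_one_div, div_le_div_iff₀ (by positivity) (by positivity)]
    nlinarith [mul_nonneg (sq_nonneg (g.1 : ℝ)) (sq_nonneg (g.2 : ℝ)), sq_nonneg ((g.1 : ℝ) ^ 2 - (g.2:ℝ) ^ 2)]

end Pool.Agent.Helper40
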