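import Mathlib
import Pool.Agent.Helper40.ThetaAux
open Set Topology Metric Filter MeasureTheory
open scoped Manifold ContDiff ComplexConjugate ENNReal

namespace Pool.Agent.Helper40

variable {d : ThetaData}

namespace XX

theorem Nice.restr {j k : Fin 3} {κ : OpenPartialHomeomorph (XX d) (ℂ × ℂ)} (h : Nice j k κ)
    {s : Set (XX d)} (hs : IsOpen s) : Nice j k (κ.restrOpen s hs) where
  dom := by
    rw [κ.restrOpen_source]
    exact inter_subset_left.trans h.dom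
  dG_ne := by
    rw [κ.restrOpen_source]
    exact fun y hy => h.dG_ne y hy.1
  coe := h.coe
  smooth := by
    intro c hc
    have h1 : c ∈ κ.target := by
      have : (κ.restrOpen s hs).symm c ∈ (κ.restrOpen s hs).source :=
        (κ.restrOpen s hs).map_target hc
      have h2 := (κ.restrOpen s hs).right_inv hc
      rw [κ.restrOpen_source] at this
      rw [← h2]
      exact κ.map_source this.1
    exact h.smooth c h1

/-- a chart with bounds -/
theorem exists_good_chart (x : XX d) : ∃ (j k : Fin 3) (κ : OpenPartialHomeomorph (XX d) (ℂ × ℂ))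
    (C : ℝ), x ∈ κ.source ∧ Nice j k κ ∧ volume κ.target ≠ ⊤ ∧ 0 ≤ C ∧
    ∀ y ∈ κ.source, ‖(dG d j (zc j y) k)⁻¹‖ ≤ C ∧ ‖y.T‖ ≤ C := by
  obtain ⟨j, k, κ, hx, h⟩ := exists_nice' x
  set δ := ‖(dG d j (zc j x) k)⁻¹‖ with hδ
  have hne := h.dG_ne x hx
  have c1 : ContinuousAt (fun y : XX d => ‖(dG d j (zc j y) k)⁻¹‖) x := by
    have h1 : ContinuousAt (zc j : XX d → Fin 3 → ℂ) x :=
      (continuousOn_zc j).continuousAt ((isOpen_dom j).mem_nhds (h.dom hx))
    have h2 : ContinuousAt (fun y : XX d => dG d j (zc j y) k) x :=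
      ContinuousAt.comp (f := (zc j : XX d → Fin 3 → ℂ))
        (dG_contDiff d j k).continuous.continuousAt h1
    exact (h2.inv₀ hne).norm
  have c2 : ContinuousAt (fun y : XX d => ‖y.T‖) x := continuous_T.norm.continuousAt
  have c3 : ContinuousAt (fun y : XX d => ‖κ y‖) x := (κ.continuousAt hx).norm
  have e1 := c1.eventually_lt_const (show ‖(dG d j (zc j x) k)⁻¹‖ < δ + 1 by linarith)
  have e2 := c2.eventually_lt_const (show ‖x.T‖ < ‖x.T‖ + 1 by linarith)
  have e3 := c3.eventually_lt_const (show ‖κ x‖ < ‖κ x‖ + 1 by linarith)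
  obtain ⟨s, hs, hso, hxs⟩ := _root_.mem_nhds_iff.mp ((e1.and e2).and e3)
  refine ⟨j, k, κ.restrOpen s hso, max (δ + 1) (‖x.T‖ + 1), ?_, h.restr hso, ?_, ?_, ?_⟩
  · rw [κ.restrOpen_source]
    exact ⟨hx, hxs⟩
  · have hsub : (κ.restrOpen s hso).target ⊆ ball 0 (‖κ x‖ + 1) := by
      intro c hc
      have h1 : (κ.restrOpen s hso).symm c ∈ (κ.restrOpen s hso).source :=
        (κ.restrOpen s hso).map_target hc
      have h2 := (κ.restrOpen s hso).right_inv hc
      rw [κ.restrOpen_source] at h1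
      have h3 := (hs h1.2).2
      rw [mem_ball_zero_iff, ← h2]
      exact h3
    have : (volume : Measure (ℂ × ℂ)).IsAddHaarMeasure := by
      rw [Measure.volume_eq_prod]; infer_instance
    exact ne_top_of_le_ne_top measure_ball_lt_top.ne (measure_mono hsub)
  · have : (0:ℝ) ≤ ‖x.T‖ + 1 := by positivity
    exact this.trans (le_max_right _ _)
  · intro y hy
    rw [κ.restrOpen_source] at hy
    have h3 := (hs hy.2).1
    exact ⟨h3.1.le.trans (le_max_left _ _), h3.2.le.trans (le_max_right _ _)⟩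

/-- chosen data at a point -/
noncomputable def cj (x : XX d) : Fin 3 := (exists_good_chart x).choose
/-- chosen data at a point -/
noncomputable def ck (x : XX d) : Fin 3 := (exists_good_chart x).choose_spec.choose
/-- chosen data at a point -/
noncomputable def cκ (x : XX d) : OpenPartialHomeomorph (XX d) (ℂ × ℂ) :=
  (exists_good_chart x).choose_spec.choose_spec.choose
/-- chosen data at a point -/
noncomputable def cC (x : XX d) : ℝ := (exists_good_chart x).choose_spec.choose_spec.choose_spec.choose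

theorem c_spec (x : XX d) : x ∈ (cκ x).source ∧ Nice (cj x) (ck x) (cκ x) ∧
    volume (cκ x).target ≠ ⊤ ∧ 0 ≤ cC x ∧
    ∀ y ∈ (cκ x).source, ‖(dG d (cj x) (zc (cj x) y) (ck x))⁻¹‖ ≤ cC x ∧ ‖y.T‖ ≤ cC x :=
  (exists_good_chart x).choose_spec.choose_spec.choose_spec.choose_spec

theorem exists_finite_cover (d : ThetaData) : ∃ t : Finset (XX d), ∀ y : XX d,
    y.T ∈ (Complex.re ⁻¹' Icc 0 1 ∩ Complex.im ⁻¹' Icc 0 1 : Set ℂ) → ∃ x ∈ t, y ∈ (cκ x).source := by
  have h1 : IsCompact (Complex.re ⁻¹' Icc 0 1 ∩ Complex.im ⁻¹' Icc 0 1 : Set ℂ) :=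
    isCompact_Icc.reProdIm isCompact_Icc
  obtain ⟨t, _, ht⟩ := (isCompact_preimage_T (d := d) h1).elim_nhds_subcover
    (fun x => (cκ x).source) (fun x _ => (cκ x).open_source.mem_nhds (c_spec x).1)
  refine ⟨t, fun y hy => ?_⟩
  obtain ⟨x, hx, hxy⟩ := mem_iUnion₂.mp (ht hy)
  exact ⟨x, hx, hxy⟩

/-- coefficient of the form -/
noncomputable def cβ (x : XX d) (y : XX d) : ℂ := (dG d (cj x) (zc (cj x) y) (ck x))⁻¹

theorem source_shift_dom {x y : XX d} {g : ℤ × ℤ} (hy : y ∈ (shiftChart g (cκ x)).source) :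
    y ∈ dom (cj x) := by
  have h1 : -g +ᵥ y ∈ (cκ x).source := hy
  exact vadd_mem_dom.mp ((c_spec x).2.1.dom h1)

theorem dG_shift_eq {x y : XX d} {g : ℤ × ℤ} (hy : y ∈ (shiftChart g (cκ x)).source) :
    dG d (cj x) (zc (cj x) y) (ck x) =
      d.e (gauss g) (-g +ᵥ y).T * dG d (cj x) (zc (cj x) (-g +ᵥ y)) (ck x) := by
  have h1 : -g +ᵥ y ∈ (cκ x).source := hy
  have h2 := dG_vadd (g := g) ((c_spec x).2.1.dom h1) (ck x)
  rwa [vadd_neg_vadd] at h2

theorem dG_shift_ne {x y : XX d} {g : ℤ × ℤ} (hy : y ∈ (shiftChart g (cκ x)).source) :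
    dG d (cj x) (zc (cj x) y) (ck x) ≠ 0 := by
  rw [dG_shift_eq hy]
  exact mul_ne_zero (d.e_ne _ (isGauss_gauss g) _) ((c_spec x).2.1.dG_ne _ hy)

theorem norm_cβ_le {x y : XX d} {g : ℤ × ℤ} (hy : y ∈ (shiftChart g (cκ x)).source) :
    ‖cβ x y‖ ≤ ‖(d.e (gauss g) (-g +ᵥ y).T)⁻¹‖ * cC x ∧ ‖(-g +ᵥ y).T‖ ≤ cC x := by
  have h1 : -g +ᵥ y ∈ (cκ x).source := hy
  have h2 := (c_spec x).2.2.2.2 _ h1
  refine ⟨?_, h2.2⟩
  rw [cβ, dG_shift_eq hy, mul_inv, norm_mul]
  gcongr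
  exact h2.1

theorem T_shift (g : ℤ × ℤ) (y : XX d) : y.T = (-g +ᵥ y).T + gauss g := by
  rw [← vadd_T, vadd_neg_vadd]

theorem bound_L2 {f : ℂ → ℂ} (hf : Continuous f) (hg : GrowthOK d f) (x : XX d) :
    ∑' g : ℤ × ℤ, (⨆ y ∈ (shiftChart g (cκ x)).source, ‖f y.T * cβ x y‖ₑ ^ 2) ≠ ⊤ := by
  obtain ⟨C, R, hC, hCR⟩ := hg
  have hCx := (c_spec x).2.2.2.1
  obtain ⟨M, hM⟩ := (isCompact_closedBall (0:ℂ) (cC x)).exists_bound_of_continuousOn
    (f := d.θ) d.θ_diff.continuous.continuousOn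
  have hM0 : 0 ≤ M := (norm_nonneg _).trans (hM 0 (by simpa using hCx))
  set K : ℝ := (C * M ^ 2 * 4 * cC x) ^ 2 with hK
  apply tsum_ne_top_of_bound (b := fun g => K * (‖gauss g‖ ^ 4)⁻¹) (summable_gauss.mul_left K)
    (fun g => by positivity) (finite_gauss (|R| + 2 * cC x + 1))
  · -- finitely many terms
    intro g _
    obtain ⟨M1, hM1⟩ := (isCompact_closedBall (0:ℂ) (cC x)).exists_bound_of_continuousOn
      (f := fun t => (d.e (gauss g) t)⁻¹)
      (((d.e_diff _ (isGauss_gauss g)).continuous.inv₀ (d.e_ne _ (isGauss_gauss g))).continuousOn)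
    obtain ⟨M2, hM2⟩ := (isCompact_closedBall (0:ℂ) (cC x)).exists_bound_of_continuousOn
      (f := fun t => f (t + gauss g)) (by fun_prop)
    have hb : (⨆ y ∈ (shiftChart g (cκ x)).source, ‖f y.T * cβ x y‖ₑ ^ 2) ≤
        ENNReal.ofReal (M2 * (M1 * cC x)) ^ 2 := by
      apply iSup₂_le
      intro y hy
      obtain ⟨h1, h2⟩ := norm_cβ_le hy
      gcongr
      rw [← ofReal_norm]
      apply ENNReal.ofReal_le_ofReal
      rw [norm_mul]
      have h3 : (-g +ᵥ y).T ∈ closedBall (0:ℂ) (cC x) := by simpa using h2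
      have h4 := hM1 _ h3
      have h5 := hM2 _ h3
      rw [T_shift g y]
      have h6 : 0 ≤ M2 := (norm_nonneg _).trans h5
      exact mul_le_mul h5 (h1.trans (by gcongr)) (norm_nonneg _) h6
    exact ne_top_of_le_ne_top (by simp) hb
  · intro g hgS
    have hgS' : |R| + 2 * cC x + 1 < ‖gauss g‖ := not_le.mp hgS
    apply iSup₂_le
    intro y hy
    obtain ⟨h1, h2⟩ := norm_cβ_le hy
    have h3 : (-g +ᵥ y).T ∈ closedBall (0:ℂ) (cC x) := by simpa using h2
    set t' := (-g +ᵥ y).T with ht'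
    have hR : 0 ≤ |R| := abs_nonneg R
    have hRR : R ≤ |R| := le_abs_self R
    have hlow : ‖gauss g‖ ≤ 2 * ‖t' + gauss g‖ := by
      have : ‖gauss g‖ ≤ ‖t' + gauss g‖ + ‖t'‖ := by
        have h4 : gauss g = (t' + gauss g) - t' := by ring
        calc ‖gauss g‖ = ‖(t' + gauss g) - t'‖ := by rw [← h4]
          _ ≤ _ := norm_sub_le _ _
      linarith
    have hlowR : R ≤ ‖t' + gauss g‖ := by
      have : ‖gauss g‖ ≤ ‖t' + gauss g‖ + ‖t'‖ := by
        have h4 : gauss g = (t' + gauss g) - t' := by ring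
        calc ‖gauss g‖ = ‖(t' + gauss g) - t'‖ := by rw [← h4]
          _ ≤ _ := norm_sub_le _ _
      linarith
    have hgpos : 0 < ‖gauss g‖ := by linarith
    have htpos : 0 < ‖t' + gauss g‖ := by linarith
    have h5 := hCR _ hlowR
    have h6 : ‖d.θ (t' + gauss g)‖ ^ 2 = ‖d.e (gauss g) t'‖ * ‖d.θ t'‖ ^ 2 := by
      rw [← norm_pow, d.θ_quasi _ (isGauss_gauss g), norm_mul, norm_pow]
    rw [h6] at h5
    have he : 0 < ‖d.e (gauss g) t'‖ := norm_pos_iff.mpr (d.e_ne _ (isGauss_gauss g) _)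
    have hfin : ‖f y.T * cβ x y‖ ≤ C * M ^ 2 * 4 * cC x / ‖gauss g‖ ^ 2 := by
      rw [norm_mul, T_shift g y, ← ht']
      have h7 : ‖f (t' + gauss g)‖ ≤ C * (‖d.e (gauss g) t'‖ * M ^ 2) / ‖t' + gauss g‖ ^ 2 := by
        rw [le_div_iff₀ (by positivity)]
        refine h5.trans ?_
        have := hM t' h3
        gcongr
      have h8 : ‖f (t' + gauss g)‖ ≤ 4 * (C * (‖d.e (gauss g) t'‖ * M ^ 2)) / ‖gauss g‖ ^ 2 := by
        refine h7.trans ?_
        rw [div_le_div_iff₀ (by positivity) (by positivity)]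
        have h9 : ‖gauss g‖ ^ 2 ≤ 4 * ‖t' + gauss g‖ ^ 2 := by
          calc ‖gauss g‖ ^ 2 ≤ (2 * ‖t' + gauss g‖) ^ 2 := by gcongr
            _ = _ := by ring
        have h10 : 0 ≤ C * (‖d.e (gauss g) t'‖ * M ^ 2) := by positivity
        nlinarith
      calc ‖f (t' + gauss g)‖ * ‖cβ x y‖ ≤
            (4 * (C * (‖d.e (gauss g) t'‖ * M ^ 2)) / ‖gauss g‖ ^ 2) *
              (‖(d.e (gauss g) t')⁻¹‖ * cC x) := by
            apply mul_le_mul h8 h1 (norm_nonneg _) (by positivity)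
        _ = C * M ^ 2 * 4 * cC x / ‖gauss g‖ ^ 2 := by
            rw [norm_inv]
            field_simp
    calc ‖f y.T * cβ x y‖ₑ ^ 2 = ENNReal.ofReal (‖f y.T * cβ x y‖ ^ 2) := by
          rw [ENNReal.ofReal_pow (norm_nonneg _), ofReal_norm]
      _ ≤ ENNReal.ofReal (K * (‖gauss g‖ ^ 4)⁻¹) := by
          apply ENNReal.ofReal_le_ofReal
          calc ‖f y.T * cβ x y‖ ^ 2 ≤ (C * M ^ 2 * 4 * cC x / ‖gauss g‖ ^ 2) ^ 2 := by gcongr
            _ = K * (‖gauss g‖ ^ 4)⁻¹ := by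
              rw [hK, div_pow, ← pow_mul]
              ring

end XX

/-- square integrability -/
theorem exists_bounds (d : ThetaData) (s : Finset (XX d)) {f : ℂ → ℂ} (hf : Continuous f)
    (hg : GrowthOK d f) :
    ∃ c : {x // x ∈ s} × (ℤ × ℤ) → ℝ≥0∞,
      (∀ i, ∀ y ∈ (XX.shiftChart i.2 (XX.cκ i.1.1)).source, ‖f y.T * XX.cβ i.1.1 y‖ₑ ^ 2 ≤ c i) ∧
      ∑' i, c i * volume (XX.shiftChart i.2 (XX.cκ i.1.1)).target ≠ ⊤ := by
  refine ⟨fun i => ⨆ y ∈ (XX.shiftChart i.2 (XX.cκ i.1.1)).source, ‖f y.T * XX.cβ i.1.1 y‖ₑ ^ 2,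
    fun i y hy => le_iSup₂_of_le y hy le_rfl, ?_⟩
  rw [ENNReal.tsum_prod']
  simp only [XX.shiftChart_target]
  simp_rw [ENNReal.tsum_mul_right]
  rw [tsum_fintype]
  apply (ENNReal.sum_lt_top.mpr _).ne
  intro x _
  exact ENNReal.mul_lt_top (XX.bound_L2 hf hg x.1).lt_top (XX.c_spec x.1).2.2.1.lt_top

/-- the data of the surface -/
theorem nonempty_formData (d : ThetaData) : Nonempty (FormData (XX d)) := by
  obtain ⟨s, hs⟩ := XX.exists_finite_cover d
  exact ⟨{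
    T := XX.T
    T_smooth := XX.contMDiff_T
    T_proper := fun K hK => XX.isCompact_preimage_T hK
    T_unbounded := by
      intro C
      obtain ⟨x, hx⟩ := exists_fibre d ((|C| + 1 : ℝ) : ℂ)
      refine ⟨x, ?_⟩
      rw [hx, Complex.norm_real, Real.norm_of_nonneg (by positivity)]
      linarith [le_abs_self C]
    ι := {x // x ∈ s} × (ℤ × ℤ)
    countable := inferInstance
    κ := fun i => XX.shiftChart i.2 (XX.cκ i.1.1)
    κ_mem := fun i => (XX.c_spec i.1.1).2.1.shift_mem_maximalAtlas i.2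
    cover := by
      intro y
      obtain ⟨g, hg⟩ := exists_gauss_near y.T
      obtain ⟨x, hx, hxy⟩ := hs (g +ᵥ y) hg
      refine ⟨(⟨x, hx⟩, -g), ?_⟩
      rw [XX.mem_shiftChart_source, neg_neg]
      exact hxy
    β := fun i => XX.cβ i.1.1
    β_smooth := by
      intro i y hy
      apply ContMDiffAt.contMDiffWithinAt
      have h1 := XX.contMDiffAt_zc (XX.source_shift_dom hy)
      have h2 : ContMDiffAt 𝓘(ℂ, ℂ × ℂ) 𝓘(ℂ, ℂ) ω
          (fun y => dG d (XX.cj i.1.1) (XX.zc (XX.cj i.1.1) y) (XX.ck i.1.1)) y :=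
        (dG_contDiff d (XX.cj i.1.1) (XX.ck i.1.1)).contMDiff.contMDiffAt.comp y h1
      have h3 : ContDiffAt ℂ ω (fun w : ℂ => w⁻¹)
          (dG d (XX.cj i.1.1) (XX.zc (XX.cj i.1.1) y) (XX.ck i.1.1)) :=
        contDiffAt_inv ℂ (XX.dG_shift_ne hy)
      exact h3.contMDiffAt.comp y h2
    β_ne := fun i y hy => inv_ne_zero (XX.dG_shift_ne hy)
    compat := by
      intro i i' G p hG h h'
      obtain ⟨α, hα⟩ := XX.compat_aux hG
      obtain ⟨c, hc⟩ := XX.exists_const (d := d) (-i.2) (XX.ck i.1.1)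
      obtain ⟨c', hc'⟩ := XX.exists_const (d := d) (-i'.2) (XX.ck i'.1.1)
      have e1 := hα (XX.cj i.1.1) (XX.ck i.1.1) c (XX.shiftChart i.2 (XX.cκ i.1.1)) (by
        intro y
        rw [XX.shiftChart_coe, (XX.c_spec i.1.1).2.1.coe, hc]) (XX.source_shift_dom h)
        (XX.dG_shift_ne h)
      have e2 := hα (XX.cj i'.1.1) (XX.ck i'.1.1) c' (XX.shiftChart i'.2 (XX.cκ i'.1.1)) (by
        intro y
        rw [XX.shiftChart_coe, (XX.c_spec i'.1.1).2.1.coe, hc']) (XX.source_shift_dom h')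
        (XX.dG_shift_ne h')
      exact e1.trans e2.symm
    f₀ := ff0 d
    f := ffn d
    lam := lamSeq d
    f₀_diff := ff0_diff
    f_diff := ffn_diff
    rel := fun n t => ff_rel n t
    lam_tendsto := lamSeq_tendsto
    f₀_ne := ff0_ne d
    L2₀ := exists_bounds d s ff0_diff.continuous growth0
    L2 := fun n => exists_bounds d s (ffn_diff n).continuous (growthn n) }⟩

end Pool.Agent.Helper40
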