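import Mathlib
import Pool.Agent.Helper40.XXData
import Pool.Agent.Helper40.LocalSC
import Pool.Agent.Helper40.LocalPC
import Pool.Agent.Helper40.Cutting
import Pool.Agent.Helper40.Projective
import Pool.Agent.Helper40.ThetaExists
open Set Topology Metric Filter TopologicalSpace
open scoped Manifold ContDiff

namespace Pool.Agent.Helper40

/-- the zeros are locally finite -/
theorem finite_special (d : ThetaData) (R : ℝ) :
    ({t | ∃ i, d.lam i t = 0} ∩ Metric.ball 0 R).Finite := by
  have h1 : ∀ i, ({t | d.lam i t = 0} ∩ Metric.ball 0 R).Finite := by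
    intro i
    have hne : ∃ a, d.lam i a ≠ 0 := by
      by_contra hcon
      push Not at hcon
      have h0 : d.lam i = fun _ => 0 := funext hcon
      have := d.simple i 0 (hcon 0)
      rw [h0, deriv_const] at this
      exact this rfl
    obtain ⟨a, ha⟩ := hne
    by_contra hinf
    have hinf' : ({t | d.lam i t = 0} ∩ Metric.ball 0 R).Infinite := hinf
    have hK : IsCompact (Metric.closedBall (0:ℂ) R) := isCompact_closedBall _ _
    obtain ⟨z, _, hz⟩ := hinf'.exists_accPt_of_subset_isCompact hK
      (inter_subset_right.trans Metric.ball_subset_closedBall)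
    have h2 := isolated_zeros isOpen_univ isPreconnected_univ (d.lam_diff i).differentiableOn
      (mem_univ a) ha z (mem_univ z)
    rw [accPt_iff_frequently_nhdsNE] at hz
    exact hz (h2.mono (fun w hw h => hw h.1))
  have h2 : ({t | ∃ i, d.lam i t = 0} ∩ Metric.ball 0 R) =
      ⋃ i, ({t | d.lam i t = 0} ∩ Metric.ball 0 R) := by
    ext t
    simp
  rw [h2]
  exact finite_iUnion h1

instance (d : ThetaData) : SimplyConnectedSpace (XX d) := by
  obtain ⟨t, ht⟩ := d.exists_zero 0
  exact isSimplyConnected_cutting XX.continuous_T (finite_special d) ⟨t, 0, ht⟩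
    (fun D hD hDc p hp => isSimplyConnected_one d hD hDc hp)
    (fun D hD hDc hne h => isPathConnected_none d hD hDc hne h)

theorem main : ∃ (M : Type) (_ : TopologicalSpace M) (_ : ChartedSpace (ℂ × ℂ) M),
    IsCompactAlgebraicManifold (ℂ × ℂ) M ∧ (∀ x : M, Infinite (FundamentalGroup M x)) ∧
    ∃ (X : Type) (_ : TopologicalSpace X) (_ : ChartedSpace (ℂ × ℂ) X) (π : X → M),
      IsUniversalCovering (E := ℂ × ℂ) π ∧
      ∀ (E : Type*) [NormedAddCommGroup E] [NormedSpace ℂ E] (N : Type*) [TopologicalSpace N]
        [ChartedSpace E N], IsComplexManifold E N → CompactSpace N → ConnectedSpace N →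
        ∀ Ω : Opens N, IsConnected (Ω : Set N) → ¬ IsBimeromorphic (ℂ × ℂ) X E Ω := by
  obtain ⟨d⟩ := nonempty_thetaData
  have hpc : PathConnectedSpace (XX d) := inferInstance
  have hsurj : Function.Surjective (piM d) := Quotient.mk_surjective
  refine ⟨MM d, inferInstance, inferInstance, ⟨isComplexManifold_MM, inferInstance, ?_,
    exists_projectiveEmbedding d⟩, fun x => infinite_fundamentalGroup_quotient x,
    XX d, inferInstance, inferInstance, piM d,
    ⟨isComplexManifold_XX, inferInstance, isCoveringMap_proj, hsurj,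
      isLocalDiffeomorph_proj XX.contMDiff_vadd⟩, ?_⟩
  · exact hsurj.connectedSpace (contMDiff_proj XX.contMDiff_vadd (I := 𝓘(ℂ, ℂ × ℂ)) (n := ω)).continuous
  · intro E _ _ N _ _ hN hc hconn Ω hΩ hb
    obtain ⟨D⟩ := nonempty_formData d
    exact D.not_bimeromorphic hN Ω hΩ hb

end Pool.Agent.Helper40
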